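import Pool.Agent.MP_c34dea_an.H23.BChain

set_option autoImplicit false

open scoped Pointwise ENNReal

namespace Pool.Agent.MP_735563_an.H66

open Pool.Agent.MP_c34dea_an.H66 Pool.Agent.MP_c34dea_an.H23

variable {S : Type}

/-- automorphisms of the defining graph -/
def Aut (G : SimpleGraph S) : Type := G ≃g G

variable {G : SimpleGraph S}

instance : Group (Aut G) := inferInstanceAs (Group (G ≃g G))

instance : MulAction (Aut G) S := inferInstanceAs (MulAction (G ≃g G) S)

/-- an automorphism from a permutation -/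
def Aut.mk' (e : Equiv.Perm S) (h : ∀ a b, G.Adj (e a) (e b) ↔ G.Adj a b) : Aut G :=
  (⟨e, h _ _⟩ : G ≃g G)

@[simp] theorem Aut.mk'_smul (e : Equiv.Perm S) (h : ∀ a b, G.Adj (e a) (e b) ↔ G.Adj a b) (s : S) :
    Aut.mk' e h • s = e s := rfl

theorem Aut.ext' {θ θ' : Aut G} (h : ∀ s : S, θ • s = θ' • s) : θ = θ' := RelIso.ext h

instance [Finite S] : Finite (Aut G) :=
  Finite.of_injective (fun (θ : Aut G) (s : S) => θ • s) fun _ _ e => Aut.ext' (congrFun e)

noncomputable instance [Finite S] : Fintype (Aut G) := Fintype.ofFinite _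

noncomputable instance : DecidableEq (Aut G) := Classical.decEq _

theorem adj_smul (θ : Aut G) {s t : S} : G.Adj (θ • s) (θ • t) ↔ G.Adj s t :=
  SimpleGraph.Iso.map_adj_iff (show G ≃g G from θ)

theorem smul_mem_st (θ : Aut G) {s t : S} : θ • t ∈ st G (θ • s) ↔ t ∈ st G s := by
  simp only [st, Set.mem_ofPred_eq, adj_smul, smul_left_cancel_iff]

/-- the induced endomorphism of the Coxeter group -/
noncomputable def actW (θ : Aut G) : W G →* W G :=
  lift (fun s => gen G (θ • s)) (fun _ => gen_mul_self _)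
    (fun _ _ h => gen_comm_of_adj ((adj_smul θ).2 h))

theorem actW_gen (θ : Aut G) (s : S) : actW θ (gen G s) = gen G (θ • s) := lift_gen _ _ _ s

noncomputable instance : MulDistribMulAction (Aut G) (W G) where
  smul θ w := actW θ w
  one_smul w := by
    have : actW (1 : Aut G) = MonoidHom.id _ := hom_ext fun s => by rw [actW_gen, one_smul]; rfl
    show actW 1 w = w
    rw [this]; rfl
  mul_smul a b w := by
    have : actW (a * b) = (actW a).comp (actW b) := hom_ext fun s => by
      rw [MonoidHom.comp_apply, actW_gen, actW_gen, actW_gen, mul_smul]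
    show actW (a * b) w = actW a (actW b w)
    rw [this]; rfl
  smul_mul θ a b := map_mul (actW θ) a b
  smul_one θ := map_one (actW θ)

@[simp] theorem aut_gen (θ : Aut G) (s : S) : θ • gen G s = gen G (θ • s) := actW_gen θ s

theorem aut_mem_Par (θ : Aut G) {s : S} {w : W G} (h : w ∈ Par G (st G s)) :
    θ • w ∈ Par G (st G (θ • s)) := by
  refine Par_ind (P := fun w => θ • w ∈ Par G (st G (θ • s))) (by simp) ?_ h
  intro g t _ ht ih
  rw [smul_mul', aut_gen]
  exact Subgroup.mul_mem _ ih (gen_mem_Par ((smul_mem_st θ).2 ht))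

/-- affine maps of the Cayley graph -/
@[ext] structure Aff (G : SimpleGraph S) where
  t : W G
  θ : Aut G

noncomputable instance : Group (Aff G) where
  mul A B := ⟨A.t * A.θ • B.t, A.θ * B.θ⟩
  one := ⟨1, 1⟩
  inv A := ⟨A.θ⁻¹ • A.t⁻¹, A.θ⁻¹⟩
  mul_assoc A B C := by
    ext
    · show A.t * A.θ • B.t * (A.θ * B.θ) • C.t = A.t * A.θ • (B.t * B.θ • C.t)
      rw [smul_mul', mul_smul, mul_assoc]
    · exact mul_assoc _ _ _
  one_mul A := by
    ext
    · show 1 * (1 : Aut G) • A.t = A.t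
      simp
    · exact one_mul _
  mul_one A := by
    ext
    · show A.t * A.θ • (1 : W G) = A.t
      simp
    · exact mul_one _
  inv_mul_cancel A := by
    ext
    · show A.θ⁻¹ • A.t⁻¹ * A.θ⁻¹ • A.t = 1
      rw [← smul_mul']; simp
    · exact inv_mul_cancel _

@[simp] theorem Aff.mul_t (A B : Aff G) : (A * B).t = A.t * A.θ • B.t := rfl
@[simp] theorem Aff.mul_θ (A B : Aff G) : (A * B).θ = A.θ * B.θ := rfl
@[simp] theorem Aff.one_t : (1 : Aff G).t = 1 := rfl
@[simp] theorem Aff.one_θ : (1 : Aff G).θ = 1 := rfl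
@[simp] theorem Aff.inv_θ (A : Aff G) : A⁻¹.θ = A.θ⁻¹ := rfl
theorem Aff.inv_t (A : Aff G) : A⁻¹.t = A.θ⁻¹ • A.t⁻¹ := rfl

noncomputable instance : MulAction (Aff G) (W G) where
  smul A p := A.t * A.θ • p
  one_smul p := by
    show 1 * (1 : Aut G) • p = p
    simp
  mul_smul A B p := by
    show A.t * A.θ • B.t * (A.θ * B.θ) • p = A.t * A.θ • (B.t * B.θ • p)
    rw [smul_mul', mul_smul, mul_assoc]

theorem aff_def (A : Aff G) (p : W G) : A • p = A.t * A.θ • p := rfl

@[simp] theorem aff_one (A : Aff G) : A • (1 : W G) = A.t := by simp [aff_def]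

theorem aff_mul (A : Aff G) (p w : W G) : A • (p * w) = A • p * A.θ • w := by
  rw [aff_def, aff_def, smul_mul', mul_assoc]

theorem aff_mul_gen (A : Aff G) (p : W G) (s : S) :
    A • (p * gen G s) = A • p * gen G (A.θ • s) := by rw [aff_mul, aut_gen]

theorem aff_inv_mul (A : Aff G) (p q : W G) : (A • p)⁻¹ * A • q = A.θ • (p⁻¹ * q) := by
  rw [inv_mul_eq_iff_eq_mul, ← aff_mul, mul_inv_cancel_left]

noncomputable instance : MulAction (Aff G) (Hyp G) where
  smul A h := hyp (A • (car_nonempty h).choose) (A.θ • h.1)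
  one_smul h := by
    show hyp ((1 : Aff G) • (car_nonempty h).choose) ((1 : Aut G) • h.1) = h
    rw [one_smul, one_smul]
    exact (car_nonempty h).choose_spec
  mul_smul A B h := by
    show hyp ((A * B) • (car_nonempty h).choose) ((A.θ * B.θ) • h.1) =
      hyp (A • (car_nonempty (hyp (B • (car_nonempty h).choose) (B.θ • h.1))).choose)
        (A.θ • B.θ • h.1)
    rw [mul_smul, mul_smul, hyp_eq_iff, aff_inv_mul]
    exact aut_mem_Par _ ((mem_car_iff (mem_car_hyp _ _)).1
      (car_nonempty (hyp (B • (car_nonempty h).choose) (B.θ • h.1))).choose_spec)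

@[simp] theorem aff_fst (A : Aff G) (h : Hyp G) : (A • h).1 = A.θ • h.1 := rfl

theorem aff_hyp (A : Aff G) (y : W G) (s : S) : A • hyp y s = hyp (A • y) (A.θ • s) := by
  show hyp (A • (car_nonempty (hyp y s)).choose) (A.θ • s) = _
  symm
  rw [hyp_eq_iff, aff_inv_mul]
  exact aut_mem_Par _ ((mem_car_iff (mem_car_hyp _ _)).1 (car_nonempty (hyp y s)).choose_spec)

/-- translations -/
def tr (g : W G) : Aff G := ⟨g, 1⟩

@[simp] theorem tr_t (g : W G) : (tr g).t = g := rfl
@[simp] theorem tr_θ (g : W G) : (tr g).θ = 1 := rfl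

@[simp] theorem tr_smul (g p : W G) : tr g • p = g * p := by simp [aff_def]

@[simp] theorem tr_smul_hyp (g : W G) (h : Hyp G) : tr g • h = g • h := by
  obtain ⟨x, hx⟩ := exists_hyp h
  rw [← hx, aff_hyp]
  simp

theorem tr_mul (g g' : W G) : tr (g * g') = tr g * tr g' := by
  ext <;> simp

theorem eq_tr {A : Aff G} (h : A.θ = 1) : A = tr A.t := by
  ext <;> simp [h]

/-- conjugating a translation -/
theorem aff_smul_smul (A : Aff G) (g : W G) (h : Hyp G) :
    A • g • h = (A.t * A.θ • g * A.t⁻¹) • A • h := by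
  obtain ⟨x, hx⟩ := exists_hyp h
  rw [← hx, smul_hyp, aff_hyp, aff_hyp, smul_hyp]
  congr 1
  simp [aff_def, smul_mul', mul_assoc]

theorem aff_mem_car (A : Aff G) {h : Hyp G} {y : W G} : A • y ∈ car (A • h) ↔ y ∈ car h := by
  show hyp (A • y) (A.θ • h.1) = A • h ↔ hyp y h.1 = h
  rw [← aff_hyp, smul_left_cancel_iff]

theorem aff_mem_sep (A : Aff G) {h : Hyp G} {p q : W G} :
    A • h ∈ sep (A • p) (A • q) ↔ h ∈ sep p q := by
  have key : ∀ w : W G, A • h ∈ sep (A • p) (A • (p * w)) ↔ h ∈ sep p (p * w) := by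
    intro w
    induction w using W_ind with
    | h1 => simp
    | hs w s ih =>
      rw [← mul_assoc, aff_mul_gen, mem_sep_mul_gen, mem_sep_mul_gen, ih, ← aff_hyp]
      simp only [ne_eq, smul_left_cancel_iff]
  have := key (p⁻¹ * q)
  rwa [mul_inv_cancel_left] at this

theorem aff_sep (A : Aff G) (p q : W G) :
    sep (A • p) (A • q) = (sep p q).image (fun h => A • h) := by
  ext k
  rw [Finset.mem_image]
  constructor
  · intro hk
    refine ⟨A⁻¹ • k, ?_, by simp⟩
    rw [← aff_mem_sep A]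
    simpa using hk
  · rintro ⟨j, hj, rfl⟩
    exact (aff_mem_sep A).2 hj

theorem aff_d (A : Aff G) (p q : W G) : d (A • p) (A • q) = d p q := by
  unfold d
  rw [aff_sep, Finset.card_image_of_injective _ (MulAction.injective A)]

theorem aut_d (θ : Aut G) (w : W G) : d 1 (θ • w) = d 1 w := by
  have := aff_d (⟨1, θ⟩ : Aff G) 1 w
  simpa [aff_def] using this

theorem aff_cross (A : Aff G) {h k : Hyp G} : Cross (A • h) (A • k) ↔ Cross h k := by
  have key : ∀ (A : Aff G) (h k : Hyp G), Cross h k → Cross (A • h) (A • k) := by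
    rintro A h k ⟨y, h1, h2, h3⟩
    exact ⟨A • y, (aff_mem_car A).2 h1, (aff_mem_car A).2 h2, (adj_smul _).2 h3⟩
  exact ⟨fun c => by simpa using key A⁻¹ _ _ c, key A h k⟩

theorem aff_lt (A : Aff G) {p : W G} {k k' : Hyp G} :
    Lt (A • p) (A • k) (A • k') ↔ Lt p k k' := by
  have key : ∀ (A : Aff G) (p : W G) (k k' : Hyp G), Lt p k k' → Lt (A • p) (A • k) (A • k') := by
    rintro A p k k' ⟨h1, h2⟩
    refine ⟨fun e => h1 (smul_left_cancel A e), fun y hy => ?_⟩
    rw [← smul_inv_smul A y] at hy ⊢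
    exact (aff_mem_sep A).2 (h2 _ ((aff_mem_sep A).1 hy))
  exact ⟨fun c => by simpa using key A⁻¹ _ _ _ c, key A p k k'⟩

theorem aff_stt (A : Aff G) {t r : Hyp G} : Stt (A • t) (A • r) ↔ Stt t r := by
  unfold Stt
  rw [aff_cross, smul_left_cancel_iff]

theorem aff_tb0 (A : Aff G) {t u : Hyp G} : TB0 (A • t) (A • u) ↔ TB0 t u := by
  rw [tb0_iff, tb0_iff]
  constructor
  · intro h k c
    exact h (A • k) ⟨(aff_stt A).2 c.1, (aff_stt A).2 c.2⟩
  · intro h k c
    rw [← smul_inv_smul A k, aff_stt, aff_stt] at c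
    exact h _ c

theorem aff_mem_Btw (A : Aff G) {t u r : Hyp G} :
    A • r ∈ Btw (A • t) (A • u) ↔ r ∈ Btw t u := by
  have key : ∀ (A : Aff G) (t u r : Hyp G), r ∈ Btw t u → A • r ∈ Btw (A • t) (A • u) := by
    intro A t u r h p q h1 h2
    rw [← smul_inv_smul A p, ← smul_inv_smul A q, aff_mem_sep] at h1 h2 ⊢
    exact h _ _ h1 h2
  exact ⟨fun c => by simpa using key A⁻¹ _ _ _ c, key A t u r⟩

theorem aff_D_tb0 (A : Aff G) (p q : W G) : D TB0 (A • p) (A • q) = D TB0 p q := by
  have key : ∀ (A : Aff G) (p q : W G), D TB0 p q ≤ D TB0 (A • p) (A • q) := by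
    intro A p q
    obtain ⟨B, h1, h2, e⟩ := exists_ht TB0 (sep p q)
    unfold D
    rw [← e, ← Finset.card_image_of_injective B (MulAction.injective A)]
    refine le_ht ?_ ?_
    · rw [aff_sep]; exact Finset.image_subset_image h1
    · rw [Finset.coe_image]
      rintro _ ⟨a, ha, rfl⟩ _ ⟨b, hb, rfl⟩ hne
      exact (aff_tb0 A).2 (h2 ha hb fun e => hne (by rw [e]))
  exact le_antisymm (by simpa using key A⁻¹ (A • p) (A • q)) (key A p q)

theorem aff_WH (A : Aff G) (Ω : Set (W G)) : A • WH Ω = WH (A • Ω) := by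
  ext h
  rw [Set.mem_smul_set_iff_inv_smul_mem]
  constructor
  · rintro ⟨a, ha, b, hb, hh⟩
    refine ⟨A • a, Set.smul_mem_smul_set ha, A • b, Set.smul_mem_smul_set hb, ?_⟩
    rw [← smul_inv_smul A h]
    exact (aff_mem_sep A).2 hh
  · rintro ⟨_, ⟨a, ha, rfl⟩, _, ⟨b, hb, rfl⟩, hh⟩
    refine ⟨a, ha, b, hb, ?_⟩
    rw [← aff_mem_sep A]
    simpa using hh

/-- labels with disjoint stars -/
def LSp (G : SimpleGraph S) (a b : S) : Prop := Disjoint (st G a) (st G b)

theorem LSp.symm {a b : S} (h : LSp G a b) : LSp G b a := Disjoint.symm h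

theorem LSp.or {a b : S} (h : LSp G a b) (c : S) : c ∉ st G a ∨ c ∉ st G b := by
  by_contra hc
  push Not at hc
  exact Set.disjoint_left.1 h hc.1 hc.2

theorem LSp.not_mem {a b : S} (h : LSp G a b) : b ∉ st G a :=
  (h.or b).resolve_right fun c => c (mem_st_self b)

theorem LSp.smul {a b : S} (h : LSp G a b) (θ : Aut G) : LSp G (θ • a) (θ • b) := by
  refine Set.disjoint_left.2 fun c h1 h2 => ?_
  rw [← smul_inv_smul θ c, smul_mem_st] at h1 h2
  exact Set.disjoint_left.1 h h1 h2

/-- two hyperplanes whose labels have disjoint stars have trivial common stabiliser -/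
theorem eq_one_of_fix {a b : Hyp G} (h : LSp G a.1 b.1) {g : W G} (ha : g • a = a)
    (hb : g • b = b) : g = 1 := by
  obtain ⟨x, hx⟩ := car_nonempty a
  obtain ⟨y, hy⟩ := car_nonempty b
  have h1 : x⁻¹ * (g * x) ∈ Par G (st G a.1) :=
    (mem_car_iff hx).1 (by have := (smul_mem_car g).2 hx; rwa [ha] at this)
  have h2 : y⁻¹ * (g * y) ∈ Par G (st G b.1) :=
    (mem_car_iff hy).1 (by have := (smul_mem_car g).2 hy; rwa [hb] at this)
  have h3 := retr_mem_Par_inter (A := st G a.1) h2
  rw [Set.disjoint_iff_inter_eq_empty.1 h, Par_empty, Subgroup.mem_bot] at h3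
  have h4 := retr_of_mem_Par h1
  have h5 : x⁻¹ * (g * x) = (x⁻¹ * y) * (y⁻¹ * (g * y)) * (x⁻¹ * y)⁻¹ := by group
  rw [h5, map_mul, map_mul, h3, map_inv, mul_one, mul_inv_cancel, ← h5] at h4
  have h6 : g * x = x := by
    have := congrArg (x * ·) h4
    simpa using this.symm
  simpa using h6

/-- an affine map is determined by its linear part and the images of such a pair -/
theorem aff_eq_of_pair {a b : Hyp G} (h : LSp G a.1 b.1) {A B : Aff G} (hθ : A.θ = B.θ)
    (ha : A • a = B • a) (hb : A • b = B • b) : A = B := by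
  have e : B⁻¹ * A = tr (B⁻¹ * A).t := eq_tr (by simp [hθ])
  have h1 : (B⁻¹ * A).t = 1 := by
    refine eq_one_of_fix h ?_ ?_
    · rw [← tr_smul_hyp, ← e, mul_smul, ha, inv_smul_smul]
    · rw [← tr_smul_hyp, ← e, mul_smul, hb, inv_smul_smul]
  rw [h1] at e
  exact (inv_mul_eq_one.1 e).symm

end Pool.Agent.MP_735563_an.H66
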