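import Pool.Agent.MP_735563_an.H66.MSpec
import Pool.Agent.MP_c34dea_an.H23.StepA

set_option autoImplicit false

open scoped Pointwise ENNReal BigOperators

namespace Pool.Agent.MP_735563_an.H66

open Pool.Agent.MP_c34dea_an.H66 Pool.Agent.MP_c34dea_an.H23

namespace Bundle

theorem gen_inj {S : Type} {G : SimpleGraph S} {s t : S} (h : gen G s = gen G t) : s = t := by
  by_contra hne
  have h1 : retr G {s} (gen G s) = gen G s := retr_gen_of_mem rfl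
  have h2 : retr G {s} (gen G t) = 1 := retr_gen_of_not_mem fun e => hne (Eq.symm e)
  rw [h, h2] at h1
  have h3 := d_gen (1 : W G) t
  rw [← h1] at h3
  simp at h3

open Classical in
theorem sum_fib {A V : Type} [Fintype A] [Fintype V] (φ : A × V → ℝ) (a : A) :
    ∑ z : A × V, (if z.1 = a then φ z else 0) = ∑ v, φ (a, v) := by
  rw [Fintype.sum_prod_type, Finset.sum_eq_single a]
  · simp
  · intro b _ hb
    simp [hb]
  · simp

/-- fibres of an equivariant map of coset spaces have the same size -/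
theorem sum_proj {Γ : Type} [Group Γ] {H L : Subgroup Γ} (hle : H ≤ L) [Fintype (Γ ⧸ H)]
    [Fintype (Γ ⧸ L)] : ∃ m : ℝ, 0 < m ∧ ∀ F : Γ ⧸ L → ℝ,
      ∑ x : Γ ⧸ H, F (x.out : Γ) = m * ∑ a, F a := by
  classical
  have hp : ∀ (g : Γ) (x : Γ ⧸ H), (((g • x).out : Γ) : Γ ⧸ L) = g • ((x.out : Γ) : Γ ⧸ L) := by
    intro g x
    rw [MulAction.Quotient.smul_mk, QuotientGroup.eq]
    apply hle
    rw [← QuotientGroup.eq, QuotientGroup.out_eq', MulAction.Quotient.mk_smul_out]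
  have hc : ∀ a : Γ ⧸ L, (Finset.univ.filter fun x : Γ ⧸ H => ((x.out : Γ) : Γ ⧸ L) = a).card =
      (Finset.univ.filter fun x : Γ ⧸ H => ((x.out : Γ) : Γ ⧸ L) = ((1 : Γ) : Γ ⧸ L)).card := by
    intro a
    have ha : a = a.out • ((1 : Γ) : Γ ⧸ L) := by
      rw [MulAction.Quotient.smul_mk, smul_eq_mul, mul_one, QuotientGroup.out_eq']
    symm
    refine Finset.card_bijective (fun x => a.out • x) (MulAction.bijective _) fun x => ?_
    simp only [Finset.mem_filter, Finset.mem_univ, true_and]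
    rw [hp]
    constructor
    · intro h
      rw [h, ← ha]
    · intro h
      exact smul_left_cancel a.out (h.trans ha)
  refine ⟨(Finset.univ.filter fun x : Γ ⧸ H =>
    ((x.out : Γ) : Γ ⧸ L) = ((1 : Γ) : Γ ⧸ L)).card, ?_, fun F => ?_⟩
  · refine Nat.cast_pos.2 (Finset.card_pos.2 ⟨((1 : Γ) : Γ ⧸ H), ?_⟩)
    simp only [Finset.mem_filter, Finset.mem_univ, true_and]
    rw [QuotientGroup.eq]
    apply hle
    rw [← QuotientGroup.eq, QuotientGroup.out_eq']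
  · rw [← Finset.sum_fiberwise Finset.univ (fun x : Γ ⧸ H => ((x.out : Γ) : Γ ⧸ L)),
      Finset.mul_sum]
    refine Finset.sum_congr rfl fun a _ => ?_
    rw [Finset.sum_congr rfl (g := fun _ => F a) fun x hx => by rw [(Finset.mem_filter.1 hx).2],
      Finset.sum_const, hc, nsmul_eq_mul]

variable (σ : Stg)

/-- the labels of the moves -/
noncomputable def lb (x : Γ5 ⧸ σ.hidS ⊤) (s : Fin 5) : σ.S := (σ.edge x.out s).choose

theorem lb_out (x : Γ5 ⧸ σ.hidS ⊤) (s : Fin 5) :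
    σ.pos (gen G5 s * x.out) = σ.pos x.out * gen σ.G (lb σ x s) := (σ.edge x.out s).choose_spec

theorem lb_spec (y : Γ5) (s : Fin 5) :
    σ.pos (gen G5 s * y) = σ.pos y * gen σ.G (lb σ y s) := by
  obtain ⟨h, hh⟩ := QuotientGroup.mk_out_eq_mul (σ.hidS ⊤) y
  have h1 := lb_out σ y s
  rw [hh, ← mul_assoc, σ.mul_hid h.2, σ.mul_hid h.2, mul_assoc] at h1
  exact mul_left_cancel h1

theorem lb_inv (x : Γ5 ⧸ σ.hidS ⊤) (s : Fin 5) : lb σ (gen G5 s • x) s = lb σ x s := by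
  have h1 := lb_spec σ (gen G5 s * x.out) s
  rw [← mul_assoc, gen_mul_self, one_mul, lb_out, mul_assoc, left_eq_mul, ← smul_eq_mul,
    ← smul_eq_mul (gen G5 s), MulAction.Quotient.mk_smul_out, smul_eq_mul] at h1
  apply gen_inj (G := σ.G)
  have h2 := gen_mul_self (G := σ.G) (lb σ x s)
  exact mul_left_cancel (h1.trans h2.symm)

/-- the twist of a representative -/
noncomputable def th (y : Γ5) : Aut σ.G := (σ.ρ (((y : Γ5 ⧸ σ.L).out)⁻¹ * y)).θ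

/-- the displacement -/
noncomputable def dw (y g : Γ5) : W σ.G := (σ.pos y)⁻¹ * σ.pos (g * y)

theorem out_mem (y : Γ5) : ((y : Γ5 ⧸ σ.L).out)⁻¹ * y ∈ σ.L :=
  QuotientGroup.eq.1 (QuotientGroup.out_eq' _)

theorem mk_mul {r : Γ5} (hr : r ∈ σ.L) (y : Γ5) : ((y * r : Γ5) : Γ5 ⧸ σ.L) = y :=
  QuotientGroup.mk_mul_of_mem y hr

theorem th_mul {r : Γ5} (hr : r ∈ σ.L) (y : Γ5) : th σ (y * r) = (σ.ρ r).θ * th σ y := by
  unfold th
  rw [mk_mul σ hr, ← mul_assoc, σ.anti _ (out_mem σ y) _ hr, Aff.mul_θ]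

theorem th_out (a : Γ5 ⧸ σ.L) : th σ a.out = 1 := by
  unfold th
  rw [QuotientGroup.out_eq', inv_mul_cancel, σ.ρ_one, Aff.one_θ]

theorem dw_mul {r : Γ5} (hr : r ∈ σ.L) (y g : Γ5) : dw σ (y * r) g = (σ.ρ r).θ • dw σ y g := by
  unfold dw
  rw [← mul_assoc, σ.mul r hr, σ.mul r hr, aff_inv_mul]

theorem d_dw (y g : Γ5) : d 1 (dw σ y g) ≤ d 1 g := by
  have h := Step.d_pos σ.hid y g
  have e := d_smul (σ.pos y) 1 (dw σ y g)
  rw [mul_one, dw, mul_inv_cancel_left] at e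
  rw [dw, ← e]
  exact h

/-- the algebraic output of the model -/
structure Mod (V : Type) where
  va : V → W σ.G → V
  tw : Aut σ.G → V → V
  va_one : ∀ v, va v 1 = v
  va_mul : ∀ v w w', va v (w * w') = va (va v w) w'
  tw_one : ∀ v, tw 1 v = v
  tw_mul : ∀ θ θ' v, tw (θ * θ') v = tw θ (tw θ' v)
  tw_va : ∀ θ v w, tw θ (va v w) = va (tw θ v) (θ • w)

variable {σ} {V : Type} (M : Mod σ V)

theorem tw_inv (θ : Aut σ.G) (v : V) : M.tw θ⁻¹ (M.tw θ v) = v := by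
  rw [← M.tw_mul, inv_mul_cancel, M.tw_one]

theorem tw_inv' (θ : Aut σ.G) (v : V) : M.tw θ (M.tw θ⁻¹ v) = v := by
  rw [← M.tw_mul, mul_inv_cancel, M.tw_one]

theorem tw_bij (θ : Aut σ.G) : Function.Bijective (M.tw θ) :=
  Function.bijective_iff_has_inverse.2 ⟨M.tw θ⁻¹, tw_inv M θ, tw_inv' M θ⟩

/-- normal forms -/
noncomputable def nf (y : Γ5) (v : V) : (Γ5 ⧸ σ.L) × V := (y, M.tw (th σ y)⁻¹ v)

/-- the action -/
noncomputable def sm (g : Γ5) (z : (Γ5 ⧸ σ.L) × V) : (Γ5 ⧸ σ.L) × V :=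
  nf M (g * z.1.out) (M.va z.2 (dw σ z.1.out g))

theorem nf_mul {r : Γ5} (hr : r ∈ σ.L) (y : Γ5) (v : V) :
    nf M (y * r) v = nf M y (M.tw (σ.ρ r).θ⁻¹ v) := by
  unfold nf
  rw [mk_mul σ hr, th_mul σ hr, mul_inv_rev, M.tw_mul]

theorem nf_out (a : Γ5 ⧸ σ.L) (v : V) : nf M a.out v = (a, v) := by
  unfold nf
  rw [QuotientGroup.out_eq', th_out, inv_one, M.tw_one]

theorem sm_nf (g y : Γ5) (v : V) : sm M g (nf M y v) = nf M (g * y) (M.va v (dw σ y g)) := by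
  have hr := out_mem σ y
  have e : (y : Γ5 ⧸ σ.L).out * (((y : Γ5 ⧸ σ.L).out)⁻¹ * y) = y := mul_inv_cancel_left _ _
  have h1 := nf_mul M hr (g * (y : Γ5 ⧸ σ.L).out) (M.va v (dw σ y g))
  have h2 := dw_mul σ hr (y : Γ5 ⧸ σ.L).out g
  rw [mul_assoc, e] at h1
  rw [e] at h2
  rw [h1, M.tw_va, h2, inv_smul_smul]
  rfl

/-- the action of the group on the bundle -/
@[reducible] noncomputable def act : MulAction Γ5 ((Γ5 ⧸ σ.L) × V) where
  smul := sm M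
  one_smul z := by
    show sm M 1 z = z
    unfold sm dw
    rw [one_mul, inv_mul_cancel, M.va_one, nf_out]
  mul_smul g g' z := by
    show sm M (g * g') z = sm M g (nf M (g' * z.1.out) (M.va z.2 (dw σ z.1.out g')))
    rw [sm_nf, ← M.va_mul]
    unfold sm dw
    simp only [mul_assoc, mul_inv_cancel_left]

theorem sm_fst (g : Γ5) (z : (Γ5 ⧸ σ.L) × V) : (sm M g z).1 = g • z.1 :=
  MulAction.Quotient.mk_smul_out σ.L g z.1

theorem sm_ker (z : (Γ5 ⧸ σ.L) × V) (y k : Γ5) (hz : z.1 = y) (hk : σ.Ker k) :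
    sm M (y * k * y⁻¹) z = z := by
  have e : z = nf M y (M.tw (th σ y) z.2) := by
    unfold nf
    rw [tw_inv, ← hz]
  rw [e, sm_nf, inv_mul_cancel_right, nf_mul M hk.1, dw, inv_mul_cancel_right, σ.mul k hk.1, hk.2,
    one_smul, inv_mul_cancel, M.va_one, Aff.one_θ, inv_one, M.tw_one]

theorem sm_fix {g : Γ5} {z : (Γ5 ⧸ σ.L) × V} (h : sm M g z = z)
    (hk : ¬ σ.Ker (z.1.out⁻¹ * g * z.1.out)) :
    (dw σ z.1.out g ≠ 1 ∨ th σ (g * z.1.out) ≠ 1) ∧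
      M.va z.2 (dw σ z.1.out g) = M.tw (th σ (g * z.1.out)) z.2 := by
  have h1 : ((g * z.1.out : Γ5) : Γ5 ⧸ σ.L) = z.1 := congrArg Prod.fst h
  have h2 : M.tw (th σ (g * z.1.out))⁻¹ (M.va z.2 (dw σ z.1.out g)) = z.2 := congrArg Prod.snd h
  refine ⟨?_, by rw [← tw_inv' M (th σ (g * z.1.out)) (M.va z.2 _), h2]⟩
  by_contra hc
  push Not at hc
  obtain ⟨hw, hθ⟩ := hc
  have hr : z.1.out⁻¹ * g * z.1.out ∈ σ.L := by
    have := out_mem σ (g * z.1.out)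
    rwa [h1, ← mul_assoc] at this
  unfold th at hθ
  rw [h1, ← mul_assoc] at hθ
  refine hk ⟨hr, ?_⟩
  have h3 := σ.mul _ hr z.1.out
  have e : z.1.out * (z.1.out⁻¹ * g * z.1.out) = g * z.1.out := by group
  rw [e, aff_def, hθ, one_smul, ← inv_mul_eq_one.1 hw, right_eq_mul] at h3
  exact Aff.ext h3 hθ

theorem sm_gen (x : Γ5 ⧸ σ.hidS ⊤) (s : Fin 5) (v : V) :
    nf M (gen G5 s • x).out (M.va v (gen σ.G (lb σ x s))) = sm M (gen G5 s) (nf M x.out v) := by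
  obtain ⟨h, hh⟩ := QuotientGroup.mk_out_eq_mul (σ.hidS ⊤) (gen G5 s * x.out)
  rw [← smul_eq_mul (gen G5 s), MulAction.Quotient.mk_smul_out, smul_eq_mul] at hh
  rw [sm_nf, hh, nf_mul M h.2.2.1, h.2.2.2, inv_one, M.tw_one, dw, lb_out, inv_mul_cancel_left]

theorem gap [Fintype V] [Fintype (Γ5 ⧸ σ.hidS ⊤)] [Fintype (Γ5 ⧸ σ.L)] {η η' : ℝ} (hη : η' ≤ η)
    (h : GapZ (fun s (z : (Γ5 ⧸ σ.hidS ⊤) × V) =>
      (gen G5 s • z.1, M.va z.2 (gen σ.G (lb σ z.1 s)))) Prod.fst η') :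
    GapZ (fun s (z : (Γ5 ⧸ σ.L) × V) => sm M (gen G5 s) z) Prod.fst η := by
  intro φ h1 h2
  obtain ⟨m, hm, hs⟩ := sum_proj (H := σ.hidS ⊤) (L := σ.L) fun k hk => hk.2.1
  have key : ∀ F : (Γ5 ⧸ σ.L) × V → ℝ,
      ∑ z : (Γ5 ⧸ σ.hidS ⊤) × V, F (nf M z.1.out z.2) = m * ∑ z, F z := by
    intro F
    rw [Fintype.sum_prod_type, Fintype.sum_prod_type, ← hs fun a => ∑ v, F (a, v)]
    exact Finset.sum_congr rfl fun x _ =>
      (tw_bij M (th σ x.out)⁻¹).sum_comp fun v => F ((x.out : Γ5), v)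
  have h3 := h (fun z => φ (nf M z.1.out z.2)) (fun z => h1 _) fun x => by
    rw [sum_fib]
    have h4 := h2 (x.out : Γ5)
    rw [sum_fib] at h4
    rw [← h4]
    exact (tw_bij M (th σ x.out)⁻¹).sum_comp fun v => φ ((x.out : Γ5), v)
  simp only [sm_gen] at h3
  have k1 := key fun z => ∑ s, φ z * φ (sm M (gen G5 s) z)
  have k2 := key fun z => φ z ^ 2
  have k3 := key fun _ => 1
  simp only [Finset.sum_const, Finset.card_univ, nsmul_eq_mul, mul_one] at k3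
  rw [k1, k2, k3] at h3
  have h5 : η' * Fintype.card ((Γ5 ⧸ σ.L) × V) ≤ η * Fintype.card ((Γ5 ⧸ σ.L) × V) :=
    mul_le_mul_of_nonneg_right hη (Nat.cast_nonneg _)
  refine le_of_mul_le_mul_left (h3.trans ?_) hm
  nlinarith [mul_le_mul_of_nonneg_left h5 hm.le]

theorem few [Fintype V] [Fintype (Γ5 ⧸ σ.L)] {η : ℝ} (hη : 0 ≤ η) (n : ℕ)
    (h : ∀ (w : W σ.G) (θ : Aut σ.G), d 1 w ≤ n → (w ≠ 1 ∨ θ ≠ 1) →
      (({v | M.va v w = M.tw θ v}.ncard : ℕ) : ℝ) ≤ η * Fintype.card V) :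
    (({z : (Γ5 ⧸ σ.L) × V | ∃ g : Γ5, d 1 g ≤ n ∧ sm M g z = z ∧
      ¬ σ.Ker (z.1.out⁻¹ * g * z.1.out)}.ncard : ℕ) : ℝ) ≤
      η * (ball_finite (1 : Γ5) n).toFinset.card * Fintype.card ((Γ5 ⧸ σ.L) × V) := by
  classical
  set B := (ball_finite (1 : Γ5) n).toFinset with hB
  let Bd : (Γ5 ⧸ σ.L) × Γ5 → Finset V := fun p => Finset.univ.filter fun v =>
    (dw σ p.1.out p.2 ≠ 1 ∨ th σ (p.2 * p.1.out) ≠ 1) ∧
      M.va v (dw σ p.1.out p.2) = M.tw (th σ (p.2 * p.1.out)) v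
  have h1 : {z : (Γ5 ⧸ σ.L) × V | ∃ g : Γ5, d 1 g ≤ n ∧ sm M g z = z ∧
      ¬ σ.Ker (z.1.out⁻¹ * g * z.1.out)} ⊆
      ((Finset.univ ×ˢ B).biUnion fun p => (Bd p).image (Prod.mk p.1) : Finset _) := by
    rintro z ⟨g, hg, hz, hk⟩
    rw [Finset.mem_coe, Finset.mem_biUnion]
    refine ⟨(z.1, g), Finset.mem_product.2 ⟨Finset.mem_univ _, ?_⟩, Finset.mem_image.2
      ⟨z.2, Finset.mem_filter.2 ⟨Finset.mem_univ _, sm_fix M hz hk⟩, rfl⟩⟩
    rw [hB, Set.Finite.mem_toFinset]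
    exact hg
  have h2 := Set.ncard_le_ncard h1 (Finset.finite_toSet _)
  rw [Set.ncard_coe_finset] at h2
  have h3 : ∀ p ∈ Finset.univ ×ˢ B, (((Bd p).image (Prod.mk p.1)).card : ℝ) ≤
      η * Fintype.card V := by
    intro p hp
    have hg : d 1 p.2 ≤ n := by
      have := (Finset.mem_product.1 hp).2
      rwa [hB, Set.Finite.mem_toFinset] at this
    refine (Nat.cast_le.2 Finset.card_image_le).trans ?_
    by_cases hc : dw σ p.1.out p.2 ≠ 1 ∨ th σ (p.2 * p.1.out) ≠ 1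
    · refine le_trans (Nat.cast_le.2 ?_) (h _ _ ((d_dw σ _ _).trans hg) hc)
      rw [← Set.ncard_coe_finset]
      exact Set.ncard_le_ncard (fun v hv => (Finset.mem_filter.1 hv).2.2) (Set.toFinite _)
    · have : Bd p = ∅ := Finset.filter_eq_empty_iff.2 fun v _ hv => hc hv.1
      rw [this, Finset.card_empty, Nat.cast_zero]
      positivity
  have h4 := Finset.sum_le_sum h3
  rw [Finset.sum_const, Finset.card_product, Finset.card_univ, nsmul_eq_mul, ← Nat.cast_sum] at h4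
  refine (Nat.cast_le.2 (h2.trans Finset.card_biUnion_le)).trans (h4.trans (le_of_eq ?_))
  rw [Fintype.card_prod]
  push_cast
  ring

end Bundle

open Pool.Agent.MP_735563_an.H66.Bundle in
theorem bundle (h : CoreStmt) : BundleStmt := by
  intro σ hG η n hη
  have := σ.fin
  have := σ.fi
  have := σ.hidS_fi ⊤
  let _ : Fintype (Γ5 ⧸ σ.hidS ⊤) := Fintype.ofFinite _
  let _ : Fintype (Γ5 ⧸ σ.L) := Fintype.ofFinite _
  set N : ℝ := ((ball_finite (1 : Γ5) n).toFinset.card : ℝ) with hN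
  have hN0 : 0 ≤ N := Nat.cast_nonneg _
  have hη' : 0 < η / (N + 1) := by positivity
  obtain ⟨V, _, va, tw, hV, a1, a2, a3, a4, a5, hgap, hfew⟩ := h σ.S σ.G Γ5 st5 σ.pos
    (Γ5 ⧸ σ.hidS ⊤) (fun y => y) (fun x s => gen G5 s • x) (lb σ) QuotientGroup.mk_surjective
    ⟨1⟩ (fun y s => rfl) (lb_spec σ)
    (fun x s => by rw [← mul_smul, gen_mul_self, one_smul]) (lb_inv σ) hG (η / (N + 1)) n hη'
  let M : Mod σ V := ⟨va, tw, a1, a2, a3, a4, a5⟩
  refine ⟨(Γ5 ⧸ σ.L) × V, inferInstance, act M, Prod.fst, sm_fst M, ?_,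
    gap M (div_le_self hη.le (by linarith)) hgap, sm_ker M, (few M hη'.le n hfew).trans ?_⟩
  · rw [Fintype.card_prod, Nat.card_eq_fintype_card, mul_comm]
    exact Nat.mul_le_mul_left _ hV
  · refine mul_le_mul_of_nonneg_right ?_ (Nat.cast_nonneg _)
    rw [← hN, div_mul_eq_mul_div, div_le_iff₀ (by linarith)]
    nlinarith

end Pool.Agent.MP_735563_an.H66
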