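import Pool.Agent.MP_735563_an.H66.MSpec

set_option autoImplicit false

open scoped Pointwise ENNReal BigOperators

namespace Pool.Agent.MP_735563_an.H66

open Pool.Agent.MP_c34dea_an.H66 Pool.Agent.MP_c34dea_an.H23

namespace Cnt

section Ws

variable {A : Type} {x c : ℝ≥0∞} {P Q : List A → Prop}

open Classical in
/-- the weighted number of words with a property -/
noncomputable def ws (x : ℝ≥0∞) (P : List A → Prop) : ℝ≥0∞ :=
  ∑' γ : List A, if P γ then x ^ γ.length else 0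

theorem ws_exists {ι : Type} {Q : ι → List A → Prop} (h : ∀ γ, P γ → ∃ i, Q i γ) :
    ws x P ≤ ∑' i, ws x (Q i) := by
  unfold ws
  rw [ENNReal.tsum_comm]
  refine ENNReal.tsum_le_tsum fun γ => ?_
  split_ifs with hp
  · obtain ⟨i, hi⟩ := h γ hp
    exact le_trans (by rw [if_pos hi]) (ENNReal.le_tsum i)
  · exact zero_le

theorem ws_fin {ι : Type} [Finite ι] {Q : ι → List A → Prop} (h : ∀ γ, P γ → ∃ i, Q i γ)
    (hc : ∀ i, ws x (Q i) ≤ c) : ws x P ≤ Nat.card ι * c := by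
  have := Fintype.ofFinite ι
  refine (ws_exists h).trans ((ENNReal.tsum_le_tsum hc).trans ?_)
  rw [tsum_fintype, Finset.sum_const, nsmul_eq_mul, Finset.card_univ, Nat.card_eq_fintype_card]

theorem ws_or {P' : List A → Prop} (h : ∀ γ, P γ → Q γ ∨ P' γ) : ws x P ≤ ws x Q + ws x P' := by
  unfold ws
  rw [← ENNReal.tsum_add]
  refine ENNReal.tsum_le_tsum fun γ => ?_
  by_cases hp : P γ
  · rw [if_pos hp]
    rcases h γ hp with e | e
    · rw [if_pos e]; exact le_self_add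
    · rw [if_pos e]; exact le_add_self
  · rw [if_neg hp]; exact zero_le

theorem ws_mono (h : ∀ γ, P γ → Q γ) : ws x P ≤ ws x Q := by
  refine ENNReal.tsum_le_tsum fun γ => ?_
  by_cases hp : P γ
  · rw [if_pos hp, if_pos (h γ hp)]
  · rw [if_neg hp]; exact zero_le

theorem ws_split {T : List A → List A → Prop}
    (h : ∀ γ, P γ → ∃ γ₁ γ₂, γ = γ₁ ++ γ₂ ∧ Q γ₁ ∧ T γ₁ γ₂) (hc : ∀ γ₁, ws x (T γ₁) ≤ c) :
    ws x P ≤ ws x Q * c := by
  classical
  refine (tsum_split (F' := fun γ₁ γ₂ => (if Q γ₁ then x ^ γ₁.length else 0) *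
    if T γ₁ γ₂ then x ^ γ₂.length else 0) fun γ => ?_).trans ?_
  · by_cases hp : P γ
    · obtain ⟨γ₁, γ₂, e, h1, h2⟩ := h γ hp
      exact Or.inr ⟨γ₁, γ₂, e, by
        rw [if_pos hp, if_pos h1, if_pos h2, e, List.length_append, pow_add]⟩
    · exact Or.inl (if_neg hp)
  · unfold ws
    rw [← ENNReal.tsum_mul_right]
    refine ENNReal.tsum_le_tsum fun γ₁ => ?_
    rw [ENNReal.tsum_mul_left]
    exact mul_le_mul_right (hc γ₁) _

theorem ws_one (γ₀ : List A) : ws x (fun γ => γ = γ₀) = x ^ γ₀.length := by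
  unfold ws
  rw [tsum_eq_single γ₀ fun γ h => if_neg h, if_pos rfl]

theorem ws_len [Finite A] (j : ℕ) :
    ws x (fun γ : List A => γ.length = j) ≤ (Nat.card A * x) ^ j := by
  induction j with
  | zero =>
    exact (ws_mono fun γ h => List.length_eq_zero_iff.1 h).trans (by rw [ws_one]; simp)
  | succ j ih =>
    rw [pow_succ']
    refine (ws_split (Q := fun γ => ∃ a, γ = [a]) (T := fun _ γ => γ.length = j) (fun γ h => ?_)
      fun _ => ih).trans (mul_le_mul_left (ws_fin (Q := fun a γ => γ = [a]) (fun _ h => h)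
        fun a => by rw [ws_one]; simp) _)
    obtain ⟨a, γ', rfl⟩ := List.exists_cons_of_length_eq_add_one h
    exact ⟨[a], γ', rfl, ⟨a, rfl⟩, by simpa using h⟩

theorem card_le_ws [Finite A] (ℓ : ℕ) :
    ({γ : Fin ℓ → A | P (List.ofFn γ)}.ncard : ℝ≥0∞) * x ^ ℓ ≤ ws x P := by
  classical
  have := Fintype.ofFinite A
  refine le_trans ?_ (ENNReal.tsum_comp_le_tsum_of_injective (List.ofFn_injective (n := ℓ)) _)
  simp only [List.length_ofFn]
  rw [tsum_fintype, ← Finset.sum_filter, Finset.sum_const, nsmul_eq_mul, ← Set.ncard_coe_finset]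
  simp

end Ws

variable {S : Type} {G : SimpleGraph S} {A Y : Type} {step : Y → A → Y} {pos : Y → W G}
  {R : Hyp G → Hyp G → Prop} {θ x K : ℝ≥0∞} {u : ℕ} {O : Set (Hyp G × Hyp G × Hyp G)}

open Classical in
/-- the predicted hyperplane -/
noncomputable def tgt (p q : W G) (i : S × S × Aut G) (o : Hyp G × Hyp G × Hyp G) : Hyp G :=
  if h : ∃ B : Aff G, B.θ = i.2.2 ∧ B • hyp p i.1 = o.1 ∧ B • hyp q i.2.1 = o.2.1 then
    h.choose⁻¹ • o.2.2 else o.2.2

theorem tgt_eq {p q : W G} {t₁ t₂ : Hyp G} (t₃ : Hyp G) (B : Aff G) (h1 : p ∈ car t₁)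
    (h2 : q ∈ car t₂) (h : LSp G t₁.1 t₂.1) :
    tgt p q (t₁.1, t₂.1, B.θ) (B • t₁, B • t₂, B • t₃) = t₃ := by
  have e1 : hyp p t₁.1 = t₁ := h1
  have e2 : hyp q t₂.1 = t₂ := h2
  have hB : ∃ B' : Aff G, B'.θ = B.θ ∧ B' • hyp p t₁.1 = B • t₁ ∧ B' • hyp q t₂.1 = B • t₂ :=
    ⟨B, rfl, by rw [e1], by rw [e2]⟩
  rw [tgt, dif_pos hB]
  obtain ⟨k1, k2, k3⟩ := hB.choose_spec
  generalize hB.choose = B' at k1 k2 k3 ⊢
  rw [aff_eq_of_pair h k1 (by rw [← k2, e1]) (by rw [← k3, e2]), inv_smul_smul]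

/-- short words -/
def Sh (step : Y → A → Y) (pos : Y → W G) (R : Hyp G → Hyp G → Prop) (u : ℕ) (y : Y)
    (γ : List A) : Prop := D R (pos y) (pos (run step y γ)) ≤ u

/-- aimed words -/
def Am (step : Y → A → Y) (pos : Y → W G) (O : Set (Hyp G × Hyp G × Hyp G)) (p : W G) (y : Y)
    (γ : List A) : Prop :=
  ∃ i : (S × S × Aut G) × O, pos (run step y γ) ∈ car (tgt p (pos y) i.1 i.2)

/-- cheap pieces -/
def Pc (step : Y → A → Y) (pos : Y → W G) (R : Hyp G → Hyp G → Prop) (u : ℕ)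
    (O : Set (Hyp G × Hyp G × Hyp G)) (y : Y) (γ : List A) : Prop :=
  Sh step pos R u y γ ∨ ∃ γ₁ γ₂, γ = γ₁ ++ γ₂ ∧ Sh step pos R u y γ₁ ∧
    Am step pos O (pos y) (run step y γ₁) γ₂

theorem dec_zero {y : Y} {γ : List A} {m : ℕ} (h : Dec step pos R u O 0 y γ m) :
    Pc step pos R u O y γ := by
  cases h with
  | base _ _ _ h => exact Or.inl h

theorem dec_succ {n : ℕ} {y : Y} {γ : List A} {m : ℕ} (h : Dec step pos R u O (n + 1) y γ m) :
    (∃ γ₁ γ₂, γ = γ₁ ++ γ₂ ∧ Pc step pos R u O y γ₁ ∧ Dec step pos R u O n (run step y γ₁) γ₂ m) ∨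
      ∃ j : Fin (m + 1), ∃ γ₁ γ₂, γ = γ₁ ++ γ₂ ∧ γ₁.length = j ∧
        Dec step pos R u O n (run step y γ₁) γ₂ (m - j) := by
  cases h with
  | base _ _ _ h =>
    exact Or.inl ⟨γ, [], by simp, Or.inl h, Dec.base _ _ _ (by
      rw [run_nil]; exact (D_le_d _ _).trans (by simp))⟩
  | short _ _ γ₁ γ₂ _ h h' => exact Or.inl ⟨γ₁, γ₂, rfl, Or.inl h, h'⟩
  | free _ _ γ₁ γ₂ m h =>
    exact Or.inr ⟨⟨γ₁.length, by omega⟩, γ₁, γ₂, rfl, rfl, by simpa using h⟩
  | aim _ _ γ₁ γ₂ γ' _ t₁ t₂ t₃ B h1 h2 h3 h4 h5 h6 h7 =>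
    refine Or.inl ⟨γ₁ ++ γ₂, γ', rfl, Or.inr ⟨γ₁, γ₂, rfl, h2, ⟨(t₁.1, t₂.1, B.θ), _, h6⟩, ?_⟩, h7⟩
    rw [tgt_eq t₃ B h1 h3 h5, ← run_append]
    exact h4

theorem ws_sh (h : Good step pos R θ x K) (h0 : θ ≠ 0) (h1 : θ < 1) (y : Y) :
    ws x (Sh step pos R u y) ≤ θ⁻¹ ^ u * K :=
  (h.gr_le h0 h1 (pos y) y (P := fun y' => D R (pos y) (pos y') ≤ u) fun _ e => e).trans
    (mul_le_mul_right (mul_le_of_le_one_right' (pow_le_one' h1.le _)) _)

theorem ws_pc [Finite S] (hO : O.Finite) (hR : Adm R) (h : Good step pos R θ x K) (h0 : θ ≠ 0)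
    (h1 : θ < 1) (y : Y) : ws x (Pc step pos R u O y) ≤
      θ⁻¹ ^ u * K + θ⁻¹ ^ u * K * (Nat.card (S × S × Aut G) * O.ncard * (θ⁻¹ ^ 1 * K)) := by
  have := hO.to_subtype
  refine (ws_or fun _ e => e).trans (add_le_add (ws_sh h h0 h1 y)
    ((ws_split (fun _ e => e) fun γ₁ => ?_).trans (mul_le_mul_left (ws_sh h h0 h1 y) _)))
  rw [← Nat.card_coe_set_eq, ← Nat.cast_mul, ← Nat.card_prod]
  refine ws_fin (fun _ e => e) fun i => ?_
  obtain ⟨o, ho⟩ := car_nonempty (tgt (pos y) (pos (run step y γ₁)) i.1 i.2)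
  exact (h.gr_le h0 h1 o _ (P := fun y' => pos y' ∈ car (tgt (pos y) (pos (run step y γ₁)) i.1 i.2))
    fun _ e => D_car hR ho e).trans
    (mul_le_mul_right (mul_le_of_le_one_right' (pow_le_one' h1.le _)) _)

theorem ws_dec [Finite A] {c z : ℝ≥0∞} (hc : ∀ y, ws x (Pc step pos R u O y) ≤ c)
    (hz : Nat.card A * x ≤ z) (h1 : 1 ≤ z) (M n : ℕ) : ∀ (y : Y) (m : ℕ), m ≤ M →
      ws x (fun γ => Dec step pos R u O n y γ m) ≤ (c + (M + 1)) ^ (n + 1) * z ^ m := by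
  induction n with
  | zero =>
    intro y m _
    refine (ws_mono fun _ => dec_zero).trans ((hc y).trans ?_)
    rw [zero_add, pow_one]
    exact le_self_add.trans (le_mul_of_one_le_right' (one_le_pow_of_one_le' h1 _))
  | succ n ih =>
    intro y m hm
    rw [pow_succ' _ (n + 1), mul_assoc, add_mul]
    refine (ws_or fun _ => dec_succ).trans (add_le_add
      ((ws_split (fun _ e => e) fun γ₁ => ih _ m hm).trans (mul_le_mul_left (hc y) _))
      ((ws_fin (c := (c + (M + 1)) ^ (n + 1) * z ^ m) (fun _ e => e) fun j => ?_).trans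
        (mul_le_mul_left ?_ _)))
    · refine (ws_split (fun _ e => e) fun γ₁ => ih _ (m - j) (by omega)).trans ?_
      rw [mul_left_comm]
      refine mul_le_mul_right ((mul_le_mul_left ((ws_len j).trans (pow_le_pow_left' hz _)) _).trans
        (le_of_eq ?_)) _
      rw [← pow_add, Nat.add_sub_cancel' (Nat.lt_succ_iff.1 j.2)]
    · rw [Nat.card_eq_fintype_card, Fintype.card_fin]
      exact_mod_cast Nat.succ_le_succ hm

end Cnt

open Cnt in
theorem cnt : CntStmt := by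
  intro S _ G Y step pos R θ K u hR h0 h1 hK h
  set a : ℝ≥0∞ := θ⁻¹ ^ u * K with ha
  set b : ℝ≥0∞ := θ⁻¹ ^ 1 * K with hb
  have fa : a ≠ ∞ := ENNReal.mul_ne_top (ENNReal.pow_ne_top (ENNReal.inv_ne_top.2 h0)) hK
  have fb : b ≠ ∞ := ENNReal.mul_ne_top (ENNReal.pow_ne_top (ENNReal.inv_ne_top.2 h0)) hK
  set N : ℕ := Nat.card (S × S × Aut G)
  refine ⟨a.toReal + a.toReal * N * b.toReal + 1, by positivity, fun O hO n y ℓ m => ?_⟩
  have e := (card_le_ws ℓ).trans (ws_dec (z := 10 / 9) (ws_pc (u := u) hO hR h h0 h1)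
    (by
      rw [Nat.card_eq_fintype_card, Fintype.card_fin, ← mul_div_assoc]
      norm_num)
    (by rw [ENNReal.le_div_iff_mul_le (by simp) (by simp)]; norm_num) m n y m le_rfl)
  rw [← ha, ← hb] at e
  have e' := ENNReal.toReal_mono (by finiteness) e
  simp only [ENNReal.toReal_mul, ENNReal.toReal_pow, ENNReal.toReal_natCast, ENNReal.toReal_div,
    ENNReal.toReal_ofNat] at e'
  rw [ENNReal.toReal_add (by finiteness) (by finiteness), ENNReal.toReal_add fa (by finiteness),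
    ENNReal.toReal_add (by finiteness) (by finiteness)] at e'
  simp only [ENNReal.toReal_mul, ENNReal.toReal_natCast, ENNReal.toReal_one] at e'
  have p1 := ENNReal.toReal_nonneg (a := a)
  have p2 := ENNReal.toReal_nonneg (a := b)
  have e3 : (2 / 9 : ℝ) ^ ℓ * (5 ^ ℓ * (9 / 10) ^ ℓ) = 1 := by
    rw [← mul_pow, ← mul_pow]; norm_num
  refine le_trans (le_of_eq ?_) ((mul_le_mul_of_nonneg_right e'
    (show (0 : ℝ) ≤ 5 ^ ℓ * (9 / 10) ^ ℓ by positivity)).trans ?_)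
  · rw [mul_assoc, e3, mul_one]
  · rw [mul_right_comm, ← mul_assoc]
    gcongr
    have p3 : 0 ≤ a.toReal * N * b.toReal := by positivity
    have p4 : (0 : ℝ) ≤ O.ncard := by positivity
    have p5 : (0 : ℝ) ≤ m := by positivity
    have p6 := mul_nonneg p4 p5
    nlinarith [mul_nonneg p1 p4, mul_nonneg p1 p5, mul_nonneg p1 p6, mul_nonneg p3 p5,
      mul_nonneg p3 p6]

end Pool.Agent.MP_735563_an.H66
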