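import Pool.Agent.MP_735563_an.H66.MSpec

set_option autoImplicit false

namespace Pool.Agent.MP_735563_an.H66

open Pool.Agent.MP_c34dea_an.H66 Pool.Agent.MP_c34dea_an.H23
open Pool.Agent.MP_c34dea_an.H6 (Br exists_br_of_lt exists_gate_car mem_sep_gate_iff eq_of_match)

namespace Coh

variable {S : Type} {G : SimpleGraph S}

/-- an enumeration of the walls between two points that is compatible with their order -/
structure Geo (o q : W G) (H : ℕ → Hyp G) (k : ℕ) (π : ℕ → ℕ) : Prop where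
  mem : ∀ h, h ∈ sep o q ↔ ∃ i, i < k ∧ H i = h
  inj : ∀ i j, i < k → j < k → H i = H j → i = j
  lt : ∀ i j, i < k → j < k → Lt o (H i) (H j) → π i < π j

section Geo

variable {o q : W G} {H : ℕ → Hyp G} {k : ℕ} {π : ℕ → ℕ}

theorem Geo.mem' (h : Geo o q H k π) {i : ℕ} (hi : i < k) : H i ∈ sep o q :=
  (h.mem _).2 ⟨i, hi, rfl⟩

theorem Geo.lt_of (h : Geo o q H k π) {i j : ℕ} (hi : i < k) (hj : j < k) (hij : π i < π j)
    (hn : ¬ G.Adj (H i).1 (H j).1) : Lt o (H i) (H j) := by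
  rcases trichotomy (h.mem' hi) (h.mem' hj)
    (fun e => by rw [h.inj i j hi hj e] at hij; omega) with x | x | x
  · exact x
  · have := h.lt j i hj hi x
    omega
  · exact absurd x.adj hn

theorem Geo.rev (h : Geo o q H k id) : Geo q o H k (fun j => k - j) where
  mem := fun x => by rw [sep_comm]; exact h.mem x
  inj := h.inj
  lt := fun i j hi hj x => by
    have : j < i := h.lt j i hj hi (x.rev (mem_sep_comm.1 (h.mem' hj)))
    omega

theorem Geo.between (h : Geo o q H k id) {i j : ℕ} (hij : i < j) (hj : j < k)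
    (e : (H i).1 = (H j).1) : ∃ u, i < u ∧ u < j ∧ (H u).1 ∉ st G (H i).1 := by
  have l := h.lt_of (hij.trans hj) hj hij (by rw [e]; exact G.irrefl)
  obtain ⟨w, h1, h2, h3, h4⟩ := exists_cover (h.mem' hj) l
  have h5 := not_mem_st_of_cover h1 h2 h4
  obtain ⟨u, hu, rfl⟩ := (h.mem _).1 h1
  rcases h3 with h3 | h3
  · rw [h3, e] at h5
    exact absurd (mem_st_self _) h5
  · exact ⟨u, h.lt i u (hij.trans hj) hu h2, h.lt u j hu hj h3, h5⟩

end Geo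

theorem geo_word {c : ℕ → S} {k : ℕ} (h : d 1 (ptw G c k) = k) :
    Geo 1 (ptw G c k) (hw G c) k id := by
  have up : ∀ i n, d (ptw G c i) (ptw G c (i + n)) ≤ n := by
    intro i n
    induction n with
    | zero => simp
    | succ n ih =>
      have h1 := d_triangle (ptw G c i) (ptw G c (i + n)) (ptw G c (i + n) * gen G (c (i + n)))
      rw [d_gen] at h1
      show d (ptw G c i) (ptw G c (i + n) * gen G (c (i + n))) ≤ n + 1
      omega
  have e : ∀ i, i ≤ k → d 1 (ptw G c i) = i := by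
    intro i hi
    have h1 := up 0 i
    have h2 := up i (k - i)
    rw [Nat.zero_add] at h1
    rw [Nat.add_sub_cancel' hi] at h2
    have h3 := d_triangle 1 (ptw G c i) (ptw G c k)
    have h4 : d 1 (ptw G c i) ≤ i := h1
    omega
  have nm : ∀ i, i < k → hw G c i ∉ sep 1 (ptw G c i) := by
    intro i hi x
    have h1 := d_step (p := ptw G c i) (s := c i) (mem_sep_comm.1 x)
    have h2 : d 1 (ptw G c i * gen G (c i)) = i + 1 := e (i + 1) hi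
    rw [d_comm, h2, d_comm, e i hi.le] at h1
    omega
  have mem : ∀ i, i ≤ k → ∀ x, x ∈ sep 1 (ptw G c i) ↔ ∃ j, j < i ∧ hw G c j = x := by
    intro i
    induction i with
    | zero => intro _ x; simp [ptw]
    | succ i ih =>
      intro hi x
      have h1 := nm i hi
      show x ∈ sep 1 (ptw G c i * gen G (c i)) ↔ _
      rw [mem_sep_mul_gen]
      constructor
      · rintro (⟨a, -⟩ | ⟨a, -⟩)
        · obtain ⟨j, hj, b⟩ := (ih (by omega) x).1 a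
          exact ⟨j, by omega, b⟩
        · exact ⟨i, by omega, a.symm⟩
      · rintro ⟨j, hj, rfl⟩
        rcases Nat.lt_succ_iff_lt_or_eq.1 hj with a | a
        · have b := (ih (by omega) _).2 ⟨j, a, rfl⟩
          exact Or.inl ⟨b, fun z => h1 (by rw [show hw G c i = hw G c j from z.symm]; exact b)⟩
        · rw [a]
          exact Or.inr ⟨rfl, h1⟩
  have inj : ∀ i j, i < j → j < k → hw G c i ≠ hw G c j := fun i j hij hj x =>
    nm j hj ((mem j hj.le _).2 ⟨i, hij, x⟩)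
  have inj' : ∀ i j, i < k → j < k → hw G c i = hw G c j → i = j := by
    intro i j hi hj x
    rcases lt_trichotomy i j with a | a | a
    · exact absurd x (inj i j a hj)
    · exact a
    · exact absurd x.symm (inj j i a hi)
  refine ⟨mem k le_rfl, inj', fun i j hi hj x => ?_⟩
  obtain ⟨u, hu, b⟩ := (mem j hj.le _).1 (x.mem_of_car (mem_car_hyp _ _))
  rw [← inj' u i (hu.trans hj) hi b]
  exact hu

/-- the order of the walls is generated by pairs with non commuting labels -/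
theorem transfer {p q p' : W G} {ρ : Hyp G → Hyp G → Prop} {l l' : Hyp G} (hl : l ∈ sep p q)
    (hρ : ρ l l')
    (step : ∀ a b a' b', ρ a a' → ρ b b' → Lt p a b → b.1 ∉ st G a.1 → Lt p' a' b') :
    ∀ (k k' : Hyp G), Lt p k l → ρ k k' → (∀ a, Lt p k a → Lt p a l → ∃ a', ρ a a') →
      Lt p' k' l' := by
  intro k
  induction hn : (btw p q k l).card using Nat.strong_induction_on generalizing k with
  | _ n ih =>
    intro k' h r tot
    obtain ⟨j, h1, h2, h3, h4⟩ := exists_cover hl h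
    have h5 := not_mem_st_of_cover h1 h2 h4
    rcases h3 with h3 | h3
    · subst h3
      exact step _ _ _ _ r hρ h2 h5
    · obtain ⟨j', r'⟩ := tot j h2 h3
      have hlt : (btw p q j l).card < (btw p q k l).card := by
        refine Finset.card_lt_card ⟨fun x hx => ?_, fun x => ?_⟩
        · rw [mem_btw] at hx ⊢
          exact ⟨hx.1, h2.trans hx.2.1, hx.2.2⟩
        · exact Lt.irrefl (mem_btw.1 (x (mem_btw.2 ⟨h1, h2, h3⟩))).2.1
      exact (step _ _ _ _ r r' h2 h5).trans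
        (ih _ (by omega) j rfl j' h3 r' fun a x y => tot a (h2.trans x) y)

/-- an isomorphism of labelled orders between two slabs is induced by an affine map -/
theorem exists_aff {o o' : W G} {t u t' u' : Hyp G} (θ : Aut G) {ρ : Hyp G → Hyp G → Prop}
    (h : Lt o t u) (h' : Lt o' t' u') (lab : ∀ a a', ρ a a' → a'.1 = θ • a.1)
    (m : ∀ a a', ρ a a' → (Lt o t a ∧ Lt o a u) ∧ Lt o' t' a' ∧ Lt o' a' u')
    (tot : ∀ a, Lt o t a → Lt o a u → ∃ a', ρ a a')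
    (tot' : ∀ a', Lt o' t' a' → Lt o' a' u' → ∃ a, ρ a a')
    (iso : ∀ a a' b b', ρ a a' → ρ b b' → (a = b ↔ a' = b') ∧ (Lt o a b ↔ Lt o' a' b')) :
    ∃ A : Aff G, ∀ a a', ρ a a' → A • a = a' := by
  obtain ⟨x, y, B⟩ := exists_br_of_lt h
  obtain ⟨x', y', B'⟩ := exists_br_of_lt h'
  have base : ∀ {o x y : W G} {t u a b : Hyp G}, Br t u x y → Lt o t u → a ∈ sep x y →
      b ∈ sep x y → (Lt x a b ↔ Lt o a b) := fun B h ha hb =>
    ⟨fun l => l.base (fun z => B.not_mem_base h ha (mem_sep_comm.1 z))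
      (fun z => B.not_mem_base h hb (mem_sep_comm.1 z)),
      fun l => l.base (B.not_mem_base h ha) (B.not_mem_base h hb)⟩
  have ms : ∀ a a', ρ a a' → a ∈ sep x y ∧ a' ∈ sep x' y' := fun a a' r =>
    ⟨(B.mem_iff h).2 (m a a' r).1, (B'.mem_iff h').2 (m a a' r).2⟩
  have iso' : ∀ a a' b b', ρ a a' → ρ b b' → (Lt x a b ↔ Lt x' a' b') := fun a a' b b' r s => by
    rw [base B h (ms a a' r).1 (ms b b' s).1, base B' h' (ms a a' r).2 (ms b b' s).2]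
    exact (iso a a' b b' r s).2
  let A : Aff G := ⟨x' * (θ • x)⁻¹, θ⟩
  have hx : A • x = x' := by simp [A, aff_def]
  refine ⟨A, fun a a' r => ?_⟩
  obtain ⟨g, hg, gg⟩ := exists_gate_car x a
  obtain ⟨g', hg', gg'⟩ := exists_gate_car x' a'
  have key := eq_of_match (ρ := fun k k' => ∃ j, k = A • j ∧ ρ j k') (b := A • g) (b' := g')
    (by rintro _ k' ⟨j, rfl, s⟩; exact lab j k' s) (A • x) x' ?_ ?_ ?_
  · rw [hx, mul_right_inj] at key
    refine eq_of_mem_car_of_label ((aff_mem_car A).2 hg) (by rw [key]; exact hg') ?_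
    exact (lab a a' r).symm
  · intro k hk
    rw [aff_sep, Finset.mem_image] at hk
    obtain ⟨j, hj, rfl⟩ := hk
    have l := (mem_sep_gate_iff hg gg).1 hj
    have z := (B.mem_iff h).1 (l.mem (ms a a' r).1)
    obtain ⟨j', s⟩ := tot j z.1 z.2
    exact ⟨j', (mem_sep_gate_iff hg' gg').2 ((iso' _ _ _ _ s r).1 l), j, rfl, s⟩
  · intro j' hj'
    have l := (mem_sep_gate_iff hg' gg').1 hj'
    have z := (B'.mem_iff h').1 (l.mem (ms a a' r).2)
    obtain ⟨j, s⟩ := tot' j' z.1 z.2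
    exact ⟨A • j, (aff_mem_sep A).2 ((mem_sep_gate_iff hg gg).2 ((iso' _ _ _ _ s r).2 l)),
      j, rfl, s⟩
  · rintro _ - _ - k' - j' - ⟨k, rfl, s⟩ ⟨j, rfl, s'⟩
    rw [smul_left_cancel_iff, aff_lt]
    exact ⟨(iso _ _ _ _ s s').1, (iso' _ _ _ _ s' s).2⟩

/-- the matching is monotone around `i` for the order given by `π` -/
def Ty (G : SimpleGraph S) (c c' : ℕ → S) (k' lo hi : ℕ) (M : ℕ → ℕ → Prop) (π : ℕ → ℕ)
    (i : ℕ) : Prop :=
  ∀ i' t t', M i i' → lo ≤ t → t ≤ hi → M t t' → c t ∉ st G (c i) →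
    (t < i → π t' < π i' ∧ ∀ s', s' < k' → c' s' ∉ st G (c' i') → π t' < π s' → π s' < π i' →
      ∃ s, M s s' ∧ s < i) ∧
    (i < t → π i' < π t' ∧ ∀ s', s' < k' → c' s' ∉ st G (c' i') → π i' < π s' → π s' < π t' →
      ∃ s, M s s' ∧ i ≤ s)

theorem core {o q o' q' : W G} {H H' : ℕ → Hyp G} {c c' : ℕ → S} {k k' lo hi : ℕ} {π : ℕ → ℕ}
    {θ : Aut G} {M : ℕ → ℕ → Prop} (g : Geo o q H k id) (g' : Geo o' q' H' k' π)
    (lb : ∀ i, (H i).1 = c i) (lb' : ∀ i, (H' i).1 = c' i) (hk : hi < k)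
    (hM : ∀ i i', M i i' → i < k ∧ i' < k' ∧ θ • c i = c' i')
    (M1 : ∀ i j i', M i i' → M j i' → i = j) (M2 : ∀ i i' j', M i i' → M i j' → i' = j')
    (all : ∀ i, lo ≤ i → i ≤ hi → ∃ i', M i i')
    (ty : ∀ i, lo ≤ i → i ≤ hi → Ty G c c' k' lo hi M π i)
    {a₁ a₂ b₁ b₂ t₀ t₃ : ℕ} (ha₁ : lo ≤ a₁) (ha₂ : lo ≤ a₂) (hb₁ : b₁ ≤ hi) (hb₂ : b₂ ≤ hi)
    (ht₀ : t₀ < k) (ht₃ : t₃ < k) (La : LSp G (c a₁) (c a₂)) (Lb : LSp G (c b₁) (c b₂))
    (ka₁ : a₁ < k) (ka₂ : a₂ < k) (l₁ : Lt o (H a₁) (H t₀)) (l₂ : Lt o (H a₂) (H t₀))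
    (l₃ : Lt o (H t₀) (H t₃)) (l₄ : Lt o (H t₃) (H b₁)) (l₅ : Lt o (H t₃) (H b₂)) :
    ∃ A : Aff G, ∀ h : Hyp G, Lt o (H t₀) h → Lt o h (H t₃) → ∃ i', i' < k' ∧ A • h = H' i' := by
  have e₁ : a₁ < t₀ := g.lt _ _ ka₁ ht₀ l₁
  have e₂ : a₂ < t₀ := g.lt _ _ ka₂ ht₀ l₂
  have e₃ : t₀ < t₃ := g.lt _ _ ht₀ ht₃ l₃
  have e₄ : t₃ < b₁ := g.lt _ _ ht₃ (by omega) l₄
  have e₅ : t₃ < b₂ := g.lt _ _ ht₃ (by omega) l₅
  have nc : ∀ i i' j j', M i i' → M j j' → (c' j' ∉ st G (c' i') ↔ c j ∉ st G (c i)) := by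
    intro i i' j j' x y
    rw [← (hM _ _ x).2.2, ← (hM _ _ y).2.2, smul_mem_st]
  let ρ : Hyp G → Hyp G → Prop := fun a a' =>
    ∃ i i', lo ≤ i ∧ i ≤ hi ∧ M i i' ∧ H i = a ∧ H' i' = a'
  have fw : ∀ i i' j j', lo ≤ i → j ≤ hi → M i i' → M j j' → Lt o (H i) (H j) →
      Lt o' (H' i') (H' j') := by
    intro i i' j j' h1 h2 x y l
    have hij : i < j := g.lt _ _ (hM _ _ x).1 (hM _ _ y).1 l
    refine transfer (ρ := ρ) (g.mem' (hM _ _ y).1) ⟨j, j', by omega, h2, y, rfl, rfl⟩ ?_ _ _ l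
      ⟨i, i', h1, by omega, x, rfl, rfl⟩ ?_
    · rintro _ _ _ _ ⟨u, u', u1, u2, xu, rfl, rfl⟩ ⟨v, v', v1, v2, xv, rfl, rfl⟩ z n
      rw [lb, lb] at n
      refine g'.lt_of (hM _ _ xu).2.1 (hM _ _ xv).2.1
        ((ty u u1 u2 u' v v' xu v1 v2 xv n).2 (g.lt _ _ (hM _ _ xu).1 (hM _ _ xv).1 z)).1 ?_
      rw [lb', lb']
      exact fun w => (nc _ _ _ _ xu xv).2 n (mem_st_of_adj w)
    · intro a z1 z2
      obtain ⟨u, hu, rfl⟩ := (g.mem _).1 (z2.mem (g.mem' (hM _ _ y).1))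
      have u1 : i < u := g.lt _ _ (hM _ _ x).1 hu z1
      have u2 : u < j := g.lt _ _ hu (hM _ _ y).1 z2
      obtain ⟨u', xu⟩ := all u (by omega) (by omega)
      exact ⟨_, u, u', by omega, by omega, xu, rfl, rfl⟩
  have fπ : ∀ i i' j j', lo ≤ i → j ≤ hi → M i i' → M j j' → Lt o (H i) (H j) → π i' < π j' :=
    fun i i' j j' h1 h2 x y l => g'.lt _ _ (hM _ _ x).2.1 (hM _ _ y).2.1 (fw _ _ _ _ h1 h2 x y l)
  obtain ⟨t₀', x₀⟩ := all t₀ (by omega) (by omega)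
  obtain ⟨t₃', x₃⟩ := all t₃ (by omega) (by omega)
  have pa : ∀ e : S, ∃ a a', lo ≤ a ∧ a < t₀ ∧ M a a' ∧ π a' < π t₀' ∧ e ∉ st G (c a) := by
    intro e
    rcases La.or e with z | z
    · obtain ⟨a', xa⟩ := all a₁ ha₁ (by omega)
      exact ⟨a₁, a', ha₁, e₁, xa, fπ _ _ _ _ ha₁ (by omega) xa x₀ l₁, z⟩
    · obtain ⟨a', xa⟩ := all a₂ ha₂ (by omega)
      exact ⟨a₂, a', ha₂, e₂, xa, fπ _ _ _ _ ha₂ (by omega) xa x₀ l₂, z⟩
  have pb : ∀ e : S, ∃ b b', b ≤ hi ∧ t₃ < b ∧ M b b' ∧ π t₃' < π b' ∧ e ∉ st G (c b) := by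
    intro e
    rcases Lb.or e with z | z
    · obtain ⟨b', xb⟩ := all b₁ (by omega) hb₁
      exact ⟨b₁, b', hb₁, e₄, xb, fπ _ _ _ _ (by omega) hb₁ x₃ xb l₄, z⟩
    · obtain ⟨b', xb⟩ := all b₂ (by omega) hb₂
      exact ⟨b₂, b', hb₂, e₅, xb, fπ _ _ _ _ (by omega) hb₂ x₃ xb l₅, z⟩
  have onto : ∀ s', s' < k' → π t₀' < π s' → π s' < π t₃' → ∃ s, lo ≤ s ∧ s ≤ hi ∧ M s s' := by
    intro s' hs h1 h2
    have tr : ∀ a a', M a a' → θ⁻¹ • c' s' ∉ st G (c a) → c' s' ∉ st G (c' a') := by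
      intro a a' xa z w
      rw [← (hM _ _ xa).2.2, ← smul_inv_smul θ (c' s'), smul_mem_st] at w
      exact z w
    obtain ⟨a, a', a1, a2, xa, a3, a4⟩ := pa (θ⁻¹ • c' s')
    obtain ⟨b, b', b1, b2, xb, b3, b4⟩ := pb (θ⁻¹ • c' s')
    obtain ⟨u, u', u1, u2, xu, u3, u4⟩ := pa (c b)
    obtain ⟨v, v', v1, v2, xv, v3, v4⟩ := pb (c a)
    obtain ⟨s, xs, s1⟩ := ((ty a a1 (by omega) a' v v' xa (by omega) v1 xv
      (fun w => v4 (mem_st_symm w))).2 (by omega)).2 s' hs (tr a a' xa a4) (by omega) (by omega)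
    obtain ⟨r, xr, r1⟩ := ((ty b (by omega) b1 b' u u' xb u1 (by omega) xu
      (fun w => u4 (mem_st_symm w))).1 (by omega)).2 s' hs (tr b b' xb b4) (by omega) (by omega)
    have := M1 _ _ _ xs xr
    exact ⟨s, by omega, by omega, xs⟩
  have bw : ∀ i i' j j', lo ≤ i → i ≤ hi → lo ≤ j → j ≤ hi → M i i' → M j j' → π t₀' ≤ π i' →
      π j' ≤ π t₃' → Lt o' (H' i') (H' j') → Lt o (H i) (H j) := by
    intro i i' j j' h1 h2 h3 h4 x y p1 p2 l
    refine transfer (ρ := fun a' a => ρ a a') (g'.mem' (hM _ _ y).2.1)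
      ⟨j, j', h3, h4, y, rfl, rfl⟩ ?_ _ _ l ⟨i, i', h1, h2, x, rfl, rfl⟩ ?_
    · rintro _ _ _ _ ⟨u, u', u1, u2, xu, rfl, rfl⟩ ⟨v, v', v1, v2, xv, rfl, rfl⟩ z n
      rw [lb', lb', nc _ _ _ _ xu xv] at n
      have z' := g'.lt _ _ (hM _ _ xu).2.1 (hM _ _ xv).2.1 z
      refine g.lt_of (hM _ _ xu).1 (hM _ _ xv).1 ?_ ?_
      · show u < v
        rcases lt_trichotomy u v with w | w | w
        · exact w
        · rw [w] at n
          exact absurd (mem_st_self _) n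
        · have := ((ty u u1 u2 u' v v' xu v1 v2 xv n).1 w).1
          omega
      · rw [lb, lb]
        exact fun w => n (mem_st_of_adj w)
    · intro a' z1 z2
      obtain ⟨u', hu, rfl⟩ := (g'.mem _).1 (z2.mem (g'.mem' (hM _ _ y).2.1))
      have u1 := g'.lt _ _ (hM _ _ x).2.1 hu z1
      have u2 := g'.lt _ _ hu (hM _ _ y).2.1 z2
      obtain ⟨u, w1, w2, xu⟩ := onto u' hu (by omega) (by omega)
      exact ⟨_, u, u', w1, w2, xu, rfl, rfl⟩
  have tot : ∀ a, Lt o (H t₀) a → Lt o a (H t₃) → ∃ a', ρ a a' := by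
    intro a z1 z2
    obtain ⟨u, hu, rfl⟩ := (g.mem _).1 (z2.mem (g.mem' ht₃))
    have u1 : t₀ < u := g.lt _ _ ht₀ hu z1
    have u2 : u < t₃ := g.lt _ _ hu ht₃ z2
    obtain ⟨u', xu⟩ := all u (by omega) (by omega)
    exact ⟨_, u, u', by omega, by omega, xu, rfl, rfl⟩
  refine (exists_aff (o := o) (o' := o') (t := H t₀) (u := H t₃) (t' := H' t₀')
    (u' := H' t₃') θ (ρ := fun a a' => ρ a a' ∧ Lt o (H t₀) a ∧ Lt o a (H t₃)) l₃
    (fw _ _ _ _ (by omega) (by omega) x₀ x₃ l₃) ?_ ?_ ?_ ?_ ?_).imp fun A hA h z1 z2 => ?_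
  · rintro _ _ ⟨⟨u, u', -, -, xu, rfl, rfl⟩, -⟩
    rw [lb, lb', (hM _ _ xu).2.2]
  · rintro _ _ ⟨⟨u, u', u1, u2, xu, rfl, rfl⟩, z⟩
    exact ⟨z, fw _ _ _ _ (by omega) u2 x₀ xu z.1, fw _ _ _ _ u1 (by omega) xu x₃ z.2⟩
  · intro a z1 z2
    obtain ⟨a', r⟩ := tot a z1 z2
    exact ⟨a', r, z1, z2⟩
  · intro a' z1 z2
    obtain ⟨u', hu, rfl⟩ := (g'.mem _).1 (z2.mem (g'.mem' (hM _ _ x₃).2.1))
    have u1 := g'.lt _ _ (hM _ _ x₀).2.1 hu z1
    have u2 := g'.lt _ _ hu (hM _ _ x₃).2.1 z2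
    obtain ⟨u, w1, w2, xu⟩ := onto u' hu u1 u2
    exact ⟨_, ⟨u, u', w1, w2, xu, rfl, rfl⟩,
      bw _ _ _ _ (by omega) (by omega) w1 w2 x₀ xu le_rfl u2.le z1,
      bw _ _ _ _ w1 w2 (by omega) (by omega) xu x₃ u1.le le_rfl z2⟩
  · rintro _ _ _ _ ⟨⟨u, u', u1, u2, xu, rfl, rfl⟩, zu⟩ ⟨⟨v, v', v1, v2, xv, rfl, rfl⟩, zv⟩
    refine ⟨⟨fun e => ?_, fun e => ?_⟩, fw _ _ _ _ u1 v2 xu xv, bw _ _ _ _ u1 u2 v1 v2 xu xv
      (fπ _ _ _ _ (by omega) u2 x₀ xu zu.1).le (fπ _ _ _ _ v1 (by omega) xv x₃ zv.2).le⟩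
    · have := g.inj _ _ (hM _ _ xu).1 (hM _ _ xv).1 e
      subst this
      rw [M2 _ _ _ xu xv]
    · have := g'.inj _ _ (hM _ _ xu).2.1 (hM _ _ xv).2.1 e
      subst this
      rw [M1 _ _ _ xu xv]
  · obtain ⟨a', r⟩ := tot h z1 z2
    have := hA h a' ⟨r, z1, z2⟩
    obtain ⟨u, u', -, -, xu, -, e⟩ := r
    exact ⟨u', (hM _ _ xu).2.1, this.trans e.symm⟩

theorem const {c : ℕ → S} {lo hi a₁ a₂ : ℕ} {P : ℕ → Prop} (h1 : lo ≤ a₁) (h2 : a₁ ≤ hi)
    (h3 : lo ≤ a₂) (h4 : a₂ ≤ hi) (L : LSp G (c a₁) (c a₂))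
    (h : ∀ i j, lo ≤ i → i ≤ hi → lo ≤ j → j ≤ hi → c j ∉ st G (c i) → P i → P j) (ha : P a₁) :
    ∀ i, lo ≤ i → i ≤ hi → P i := by
  intro i x y
  rcases L.or (c i) with z | z
  · exact h a₁ i h1 h2 x y z ha
  · exact h a₂ i h3 h4 x y z (h a₁ a₂ h1 h2 h3 h4 L.not_mem ha)

end Coh

open Coh in
theorem coh : CohStmt := by
  intro S G c c' k k' lo hi θ M gd gd' hk hM M1 M2 hyp0 ⟨i₀, i₀', z1, z2, z3⟩ a₁ a₂ b₁ b₂ t₀ t₃
    ha₁ ha₂ hb₁ hb₂ ht₀ ht₃ La Lb ka₁ ka₂ l₁ l₂ l₃ l₄ l₅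
  have g := geo_word gd
  have g' := geo_word gd'
  have e₁ : a₁ < t₀ := g.lt _ _ ka₁ ht₀ l₁
  have e₂ : a₂ < t₀ := g.lt _ _ ka₂ ht₀ l₂
  have e₃ : t₀ < t₃ := g.lt _ _ ht₀ ht₃ l₃
  have e₄ : t₃ < b₁ := g.lt _ _ ht₃ (by omega) l₄
  have prop : ∀ i j, lo ≤ i → i ≤ hi → lo ≤ j → j ≤ hi → c j ∉ st G (c i) → (∃ i', M i i') →
      ∃ j', M j j' := by
    rintro i j h1 h2 h3 h4 n ⟨i', x⟩
    obtain ⟨i₁, i₁', i₂, i₂', w1, w2, -, -, -, -, c1, -, c3, -⟩ := hyp0 i i' h1 h2 x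
    by_cases w : j < i
    · exact (c1 j (by omega) w n).imp fun _ y => y.1
    · exact (c3 j (by omega) (by omega) n).imp fun _ y => y.1
  have all : ∀ i, lo ≤ i → i ≤ hi → ∃ i', M i i' := by
    rcases La.or (c i₀) with z | z
    · exact const ha₁ (by omega) ha₂ (by omega) La prop
        (prop i₀ a₁ z1 z2 ha₁ (by omega) (fun w => z (mem_st_symm w)) ⟨_, z3⟩)
    · exact const ha₂ (by omega) ha₁ (by omega) La.symm prop
        (prop i₀ a₂ z1 z2 ha₂ (by omega) (fun w => z (mem_st_symm w)) ⟨_, z3⟩)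
  have ty : ∀ i, lo ≤ i → i ≤ hi →
      Ty G c c' k' lo hi M id i ∨ Ty G c c' k' lo hi M (fun j => k' - j) i := by
    intro i h1 h2
    obtain ⟨i', x⟩ := all i h1 h2
    obtain ⟨i₁, i₁', i₂, i₂', w1, w2, x1, x2, y1, y2, c1, c2, c3, c4⟩ := hyp0 i i' h1 h2 x
    have k0 := (hM _ _ x).2.1
    have k1 := (hM _ _ x1).2.1
    have k2 := (hM _ _ x2).2.1
    have f1 : c' i₁' = c' i' := by rw [← (hM _ _ x1).2.2, y1, (hM _ _ x).2.2]
    have f2 : c' i₂' = c' i' := by rw [← (hM _ _ x2).2.2, y2, (hM _ _ x).2.2]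
    have n1 : i₁' ≠ i' := fun e => by have := M1 _ _ _ (e ▸ x1) x; omega
    have n2 : i₂' ≠ i' := fun e => by have := M1 _ _ _ (e ▸ x2) x; omega
    have two : ∀ u, c' u ∉ st G (c' i') → min i₁' i' ≤ u → u < max i₁' i' → min i' i₂' ≤ u →
        u < max i' i₂' → False := by
      intro u n p1 p2 p3 p4
      obtain ⟨s, xs, -, s1⟩ := c2 u p1 p2 n
      obtain ⟨r, xr, r1, -⟩ := c4 u p3 p4 n
      have := M1 _ _ _ xs xr
      omega
    have btw' : ∀ u v, u < v → v < k' → c' u = c' i' → c' v = c' i' →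
        ∃ w, u < w ∧ w < v ∧ c' w ∉ st G (c' i') := by
      intro u v p1 p2 p3 p4
      obtain ⟨w, q1, q2, q3⟩ := g'.between p1 p2 (p3.trans p4.symm)
      exact ⟨w, q1, q2, by rw [← p3]; exact q3⟩
    have side : (i₁' < i' ∧ i' < i₂') ∨ (i₂' < i' ∧ i' < i₁') := by
      by_contra hc
      rcases (by omega : (i₁' ≤ i₂' ∧ i₂' < i') ∨ (i₂' ≤ i₁' ∧ i₁' < i') ∨
        (i' < i₁' ∧ i₁' ≤ i₂') ∨ (i' < i₂' ∧ i₂' ≤ i₁')) with p | p | p | p
      · obtain ⟨w, q1, q2, q3⟩ := btw' _ _ p.2 k0 f2 rfl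
        exact two w q3 (by omega) (by omega) (by omega) (by omega)
      · obtain ⟨w, q1, q2, q3⟩ := btw' _ _ p.2 k0 f1 rfl
        exact two w q3 (by omega) (by omega) (by omega) (by omega)
      · obtain ⟨w, q1, q2, q3⟩ := btw' _ _ p.1 k1 rfl f1
        exact two w q3 (by omega) (by omega) (by omega) (by omega)
      · obtain ⟨w, q1, q2, q3⟩ := btw' _ _ p.1 k2 rfl f2
        exact two w q3 (by omega) (by omega) (by omega) (by omega)
    have d1 : ∀ t t', lo ≤ t → M t t' → c t ∉ st G (c i) → t < i →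
        min i₁' i' ≤ t' ∧ t' < max i₁' i' ∧ t' ≠ i' := by
      intro t t' p xt n w
      obtain ⟨u, xu, q1, q2⟩ := c1 t (by omega) w n
      rw [M2 _ _ _ xu xt] at q1 q2
      exact ⟨q1, q2, fun e => by have := M1 _ _ _ (e ▸ xt) x; omega⟩
    have d2 : ∀ t t', t ≤ hi → M t t' → c t ∉ st G (c i) → i < t →
        min i' i₂' ≤ t' ∧ t' < max i' i₂' ∧ t' ≠ i' := by
      intro t t' p xt n w
      obtain ⟨u, xu, q1, q2⟩ := c3 t w.le (by omega) n
      rw [M2 _ _ _ xu xt] at q1 q2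
      exact ⟨q1, q2, fun e => by have := M1 _ _ _ (e ▸ xt) x; omega⟩
    refine side.imp (fun p => ?_) (fun p => ?_)
    all_goals
      intro j' t t' xj p1 p2 xt n
      rw [M2 _ _ _ xj x]
      have kt := (hM _ _ xt).2.1
      refine ⟨fun w => ?_, fun w => ?_⟩
      · have := d1 t t' p1 xt n w
        refine ⟨by simp only [id]; omega, fun s' hs m q1 q2 => ?_⟩
        simp only [id] at q1 q2
        exact (c2 s' (by omega) (by omega) m).imp fun _ y => ⟨y.1, y.2.2⟩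
      · have := d2 t t' p2 xt n w
        refine ⟨by simp only [id]; omega, fun s' hs m q1 q2 => ?_⟩
        simp only [id] at q1 q2
        exact (c4 s' (by omega) (by omega) m).imp fun _ y => ⟨y.1, y.2.1⟩
  have inc : ∀ i j, lo ≤ i → i ≤ hi → lo ≤ j → j ≤ hi → c j ∉ st G (c i) →
      Ty G c c' k' lo hi M id i → Ty G c c' k' lo hi M (fun j => k' - j) j → False := by
    intro i j h1 h2 h3 h4 n p r
    obtain ⟨i', x⟩ := all i h1 h2
    obtain ⟨j', y⟩ := all j h3 h4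
    have p' := p i' j j' x h3 h4 y n
    have r' := r j' i i' y h1 h2 x fun w => n (mem_st_symm w)
    simp only [id] at p' r'
    rcases lt_trichotomy i j with w | w | w
    · have := (p'.2 w).1
      have := (r'.1 w).1
      omega
    · rw [w] at n
      exact n (mem_st_self _)
    · have := (p'.1 w).1
      have := (r'.2 w).1
      omega
  rcases ty a₁ ha₁ (by omega) with p | p
  · exact core g g' (fun _ => rfl) (fun _ => rfl) hk hM M1 M2 all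
      (const ha₁ (by omega) ha₂ (by omega) La
        (fun i j h1 h2 h3 h4 n r => (ty j h3 h4).resolve_right (inc i j h1 h2 h3 h4 n r)) p)
      ha₁ ha₂ hb₁ hb₂ ht₀ ht₃ La Lb ka₁ ka₂ l₁ l₂ l₃ l₄ l₅
  · exact core g g'.rev (fun _ => rfl) (fun _ => rfl) hk hM M1 M2 all
      (const ha₁ (by omega) ha₂ (by omega) La
        (fun i j h1 h2 h3 h4 n r => (ty j h3 h4).resolve_left
          fun s => inc j i h3 h4 h1 h2 (fun w => n (mem_st_symm w)) s r) p)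
      ha₁ ha₂ hb₁ hb₂ ht₀ ht₃ La Lb ka₁ ka₂ l₁ l₂ l₃ l₄ l₅

end Pool.Agent.MP_735563_an.H66
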