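import Pool.Agent.MP_735563_an.H66.CoreB

set_option autoImplicit false

open scoped Pointwise ENNReal BigOperators

namespace Pool.Agent.MP_735563_an.H66

open Pool.Agent.MP_c34dea_an.H66 Pool.Agent.MP_c34dea_an.H23

namespace Core

theorem num1 {p ℓ e : ℕ} {A nX C V ε B : ℝ} (hp : 0 < p) (hX : 0 ≤ nX) (hC : 0 ≤ C)
    (hV0 : 0 ≤ V) (hV : V ≤ (101 / 100) ^ (p * ℓ)) (hε0 : 0 ≤ ε)
    (hε : ε * 2 ^ ℓ ≤ ((p : ℝ) ^ 2 * A + 1) * ((ℓ : ℝ) + 1) ^ 2)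
    (hB : B ≤ C * ((ℓ : ℝ) + 1) ^ e * (19 / 4) ^ (p * ℓ))
    (c2 : 48 * nX * ((p : ℝ) ^ 2 * A + 1) * ((ℓ : ℝ) + 1) ^ 2 ≤ (3 / 2) ^ ℓ)
    (c3 : 6 * 2 ^ p * C * ((ℓ : ℝ) + 1) ^ e ≤ (1001 / 1000) ^ ℓ) :
    2 ^ p * (51 / 50) ^ (p * ℓ) * V * (2 * ε ^ p * (2 * nX * 5 ^ ℓ) ^ p + B) ≤
      (((49 / 10) ^ ℓ) ^ p) / 3 := by
  have t1 : 12 * (2 * (51 / 50) ^ ℓ * (101 / 100) ^ ℓ * ε * (2 * nX * 5 ^ ℓ)) ≤
      (49 / 10 : ℝ) ^ ℓ := by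
    have e1 : (5 : ℝ) ^ ℓ = 2 ^ ℓ * (5 / 2) ^ ℓ := by rw [← mul_pow]; norm_num
    have e2 : (51 / 50 : ℝ) ^ ℓ * (101 / 100) ^ ℓ * (5 / 2) ^ ℓ * (3 / 2) ^ ℓ ≤ (49 / 10) ^ ℓ := by
      rw [← mul_pow, ← mul_pow, ← mul_pow]
      exact pow_le_pow_left₀ (by norm_num) (by norm_num) _
    calc _ = (51 / 50 : ℝ) ^ ℓ * (101 / 100) ^ ℓ * (5 / 2) ^ ℓ * (48 * nX * (ε * 2 ^ ℓ)) := by
          rw [e1]; ring
      _ ≤ (51 / 50 : ℝ) ^ ℓ * (101 / 100) ^ ℓ * (5 / 2) ^ ℓ *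
          (48 * nX * (((p : ℝ) ^ 2 * A + 1) * ((ℓ : ℝ) + 1) ^ 2)) := by gcongr
      _ ≤ (51 / 50 : ℝ) ^ ℓ * (101 / 100) ^ ℓ * (5 / 2) ^ ℓ * (3 / 2) ^ ℓ := by
          rw [← mul_assoc (48 * nX)]; gcongr
      _ ≤ _ := e2
  have t2 := pow_le_pow_left₀ (by positivity) t1 p
  have t3 : (12 : ℝ) ≤ 12 ^ p := le_self_pow₀ (by norm_num) hp.ne'
  have t4 : 2 ^ p * (51 / 50) ^ (p * ℓ) * V * (2 * ε ^ p * (2 * nX * 5 ^ ℓ) ^ p) ≤
      (((49 / 10 : ℝ) ^ ℓ) ^ p) / 6 := by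
    have e1 : 2 ^ p * (51 / 50) ^ (p * ℓ) * (101 / 100) ^ (p * ℓ) * (ε ^ p * (2 * nX * 5 ^ ℓ) ^ p) =
        (2 * (51 / 50) ^ ℓ * (101 / 100) ^ ℓ * ε * (2 * nX * 5 ^ ℓ)) ^ p := by
      rw [mul_comm p ℓ, pow_mul, pow_mul, ← mul_pow, ← mul_pow, ← mul_pow, ← mul_pow]
      congr 1
      ring
    rw [mul_pow] at t2
    set Q := (2 * (51 / 50) ^ ℓ * (101 / 100) ^ ℓ * ε * (2 * nX * 5 ^ ℓ)) ^ p with hQ
    have hQ0 : 0 ≤ Q := by positivity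
    calc _ ≤ 2 ^ p * (51 / 50) ^ (p * ℓ) * (101 / 100) ^ (p * ℓ) *
          (2 * ε ^ p * (2 * nX * 5 ^ ℓ) ^ p) := by gcongr
      _ = 2 * Q := by rw [← e1]; ring
      _ ≤ _ := by nlinarith
  have t5 : 2 ^ p * (51 / 50) ^ (p * ℓ) * V * B ≤ (((49 / 10 : ℝ) ^ ℓ) ^ p) / 6 := by
    have e1 : (1001 / 1000 : ℝ) ^ ℓ ≤ (1001 / 1000) ^ (p * ℓ) :=
      pow_le_pow_right₀ (by norm_num) (Nat.le_mul_of_pos_left _ hp)
    have e2 : (51 / 50 : ℝ) ^ (p * ℓ) * (101 / 100) ^ (p * ℓ) * (19 / 4) ^ (p * ℓ) *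
        (1001 / 1000) ^ (p * ℓ) ≤ ((49 / 10) ^ ℓ) ^ p := by
      rw [← mul_pow, ← mul_pow, ← mul_pow, ← pow_mul, mul_comm ℓ p]
      exact pow_le_pow_left₀ (by norm_num) (by norm_num) _
    calc _ ≤ 2 ^ p * (51 / 50) ^ (p * ℓ) * V * (C * ((ℓ : ℝ) + 1) ^ e * (19 / 4) ^ (p * ℓ)) := by
          gcongr
      _ ≤ 2 ^ p * (51 / 50) ^ (p * ℓ) * (101 / 100) ^ (p * ℓ) *
          (C * ((ℓ : ℝ) + 1) ^ e * (19 / 4) ^ (p * ℓ)) := by gcongr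
      _ = (51 / 50 : ℝ) ^ (p * ℓ) * (101 / 100) ^ (p * ℓ) * (19 / 4) ^ (p * ℓ) *
          (6 * 2 ^ p * C * ((ℓ : ℝ) + 1) ^ e) / 6 := by ring
      _ ≤ (51 / 50 : ℝ) ^ (p * ℓ) * (101 / 100) ^ (p * ℓ) * (19 / 4) ^ (p * ℓ) *
          (1001 / 1000) ^ (p * ℓ) / 6 := by
          have := c3.trans e1
          gcongr
      _ ≤ _ := by linarith
  rw [mul_add]
  linarith

theorem num2 {ℓ : ℕ} {A nX V η : ℝ} (hA : 0 ≤ A) (hX : 0 ≤ nX) (hV : 0 ≤ V) (hη : 0 < η)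
    (c4 : 12 * A / η * ((ℓ : ℝ) + 1) ^ 2 ≤ (3 / 2) ^ ℓ) :
    2 * nX * 5 ^ ℓ * (2 * (51 / 50) ^ ℓ * (V * ((ℓ : ℝ) ^ 2 * A) / 2 ^ ℓ)) ≤
      η * (99 / 20) ^ ℓ * (nX * V) / 3 := by
  have e1 : (5 : ℝ) ^ ℓ = 2 ^ ℓ * (5 / 2) ^ ℓ := by rw [← mul_pow]; norm_num
  have e2 : (51 / 50 : ℝ) ^ ℓ * (5 / 2) ^ ℓ * (3 / 2) ^ ℓ ≤ (99 / 20) ^ ℓ := by
    rw [← mul_pow, ← mul_pow]
    exact pow_le_pow_left₀ (by norm_num) (by norm_num) _
  have e3 : (ℓ : ℝ) ^ 2 ≤ ((ℓ : ℝ) + 1) ^ 2 := by gcongr; linarith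
  calc _ = η * (nX * V) / 3 * ((51 / 50) ^ ℓ * (5 / 2) ^ ℓ * (12 * A / η * (ℓ : ℝ) ^ 2)) := by
        rw [e1]; field_simp; ring
    _ ≤ η * (nX * V) / 3 * ((51 / 50) ^ ℓ * (5 / 2) ^ ℓ * (12 * A / η * ((ℓ : ℝ) + 1) ^ 2)) := by
        gcongr
    _ ≤ η * (nX * V) / 3 * ((51 / 50) ^ ℓ * (5 / 2) ^ ℓ * (3 / 2) ^ ℓ) := by gcongr
    _ ≤ η * (nX * V) / 3 * (99 / 20) ^ ℓ := by gcongr
    _ = _ := by ring

end Core

open Pool.Agent.MP_735563_an.H66.Core in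
theorem core (hD : DatStmt) (hK : KerStmt) (hL : LinStmt) (hT : TermStmt) (hE : EntStmt)
    (hW : WtStmt) : CoreStmt := by
  classical
  intro S _ G Y step pos X _ π sx l hπ hY h1 h2 h3 h4 hG η n hη
  have := Fintype.ofFinite S
  have hX : Nonempty X := hY.map π
  have hS : Nonempty S := hX.map fun x => l x 0
  have hs := exists_not_st hG
  obtain ⟨R, θ, K, r1, r2, r3, r4, r5, r6⟩ := hG
  have hEd : Edge step pos := fun y s => ⟨_, h2 y s⟩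
  obtain ⟨m, hm⟩ : ∃ m, m = Fintype.card (S × Aut G) := ⟨_, rfl⟩
  obtain ⟨p, hp⟩ : ∃ p, p = 2 * (35 * m + 1) := ⟨_, rfl⟩
  have hp0 : 0 < p := by omega
  obtain ⟨C, e, hC, hEnt⟩ := hE S G Y step pos R θ K (X × Bool)
    (fun i => Function.surjInv hπ i.1) p (2 ^ p) hEd r1 r2 r3 r4 r5 r6
  obtain ⟨A, hA⟩ : ∃ A : ℝ, A = Fintype.card (Aut G) := ⟨_, rfl⟩
  have hA0 : 0 ≤ A := by rw [hA]; positivity
  let Bl : Finset (W G × Aut G) :=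
    ((ball_finite (1 : W G) n).toFinset ×ˢ Finset.univ).filter fun q => q.1 ≠ 1 ∨ q.2 ≠ 1
  have ev := (ev_poly (2 * ((p : ℝ) ^ 2 * A + 1)) 2 (q := 2) (by norm_num)).and
    ((ev_poly (48 * Fintype.card X * ((p : ℝ) ^ 2 * A + 1)) 2 (q := 3 / 2) (by norm_num)).and
    ((ev_poly (6 * 2 ^ p * C) e (q := 1001 / 1000) (by norm_num)).and
    ((ev_poly (12 * A / η) 2 (q := 3 / 2) (by norm_num)).and
    (ev_poly (3 * Bl.card * ((n : ℝ) ^ 2 * A + 1) / η) 0 (q := 2) (by norm_num)))))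
  obtain ⟨j, c1, c2, c3, c4, c5⟩ :=
    ((tendsto_pow_atTop_atTop_of_one_lt (one_lt_two (α := ℕ))).eventually ev).exists
  obtain ⟨ℓ, hℓ⟩ : ∃ ℓ, ℓ = 2 ^ j := ⟨_, rfl⟩
  rw [← hℓ] at c1 c2 c3 c4 c5
  have hℓ0 : 0 < ℓ := by rw [hℓ]; positivity
  obtain ⟨d1, d2, d3⟩ := hD S G R ℓ r1 r2
  obtain ⟨d4, -, -⟩ := hD S G R n r1 r2
  have : Nonempty (Dat S) := ⟨⟨0, fun _ => hS.some, fun _ => none, ∅⟩⟩
  choose! dt hdt using d1
  have hv : ∀ i, Valid R ℓ (dd sx l dt ℓ i) (wl sx l G i.1.1 (List.ofFn i.2)) := by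
    rintro ⟨⟨x, c⟩, γ⟩
    have a1 : d 1 (wl sx l G x (List.ofFn γ)) ≤ ℓ := by simpa using d_wl (G := G) sx l x (List.ofFn γ)
    cases c
    · have a2 : d 1 (wl sx l G x (List.ofFn γ))⁻¹ ≤ ℓ := by
        rw [← d_smul (wl sx l G x (List.ofFn γ)), mul_one, mul_inv_cancel, d_comm]
        exact a1
      simpa [dd] using d2 _ _ (hdt _ a2)
    · simpa [dd] using hdt _ a1
  have hBad := hEnt ℓ (dd sx l dt ℓ) fun i => by
    rw [← wl_eq h1 h2, Function.surjInv_eq hπ]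
    exact hv i
  have hcard : (Fintype.card (Sg G ℓ) : ℝ) = (2 ^ m) ^ ℓ := by
    rw [Fintype.card_fun, Fintype.card_fun, ← hm, ZMod.card, Fintype.card_fin]
    push_cast
    rw [← pow_mul, ← pow_mul, mul_comm]
  have hm0 : 0 < m := by rw [hm]; exact Fintype.card_pos
  have hV : (Fintype.card (Sg G ℓ) : ℝ) ≤ (101 / 100) ^ (p * ℓ) := by
    rw [hcard, pow_mul]
    refine pow_le_pow_left₀ (by positivity) ?_ _
    calc (2 : ℝ) ^ m ≤ ((101 / 100) ^ 70) ^ m := pow_le_pow_left₀ (by norm_num) (by norm_num) _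
      _ ≤ _ := by rw [← pow_mul]; exact pow_le_pow_right₀ (by norm_num) (by omega)
  have hV0 : (0 : ℝ) < Fintype.card (Sg G ℓ) := by exact_mod_cast Fintype.card_pos
  have hX0 : (0 : ℝ) < Fintype.card X := by exact_mod_cast Fintype.card_pos
  have h2ℓ : (0 : ℝ) < 2 ^ ℓ := by positivity
  have hε : ((p * ℓ : ℕ) : ℝ) ^ 2 * A + 1 ≤ ((p : ℝ) ^ 2 * A + 1) * ((ℓ : ℝ) + 1) ^ 2 := by
    push_cast
    have : (0 : ℝ) ≤ ℓ := by positivity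
    have : 0 ≤ (p : ℝ) ^ 2 * A := by positivity
    nlinarith [mul_nonneg ‹0 ≤ (p : ℝ) ^ 2 * A› ‹(0 : ℝ) ≤ ℓ›]
  have E1 := (cycE (b := ℓ) dt hL hT hp0 hv le_rfl (by
    rw [← hA, div_le_iff₀ h2ℓ]; linarith)).trans
    (num1 hp0 hX0.le hC hV0.le hV (by positivity)
      (by rw [← hA, div_mul_cancel₀ _ h2ℓ.ne']; exact hε) hBad c2 c3)
  have E2 : 𝔼 g : Qy G ℓ → Sg G ℓ, ∑ i, err (Fq g) (dd sx l dt ℓ i) ≤
      η * (99 / 20) ^ ℓ * (Fintype.card X * Fintype.card (Sg G ℓ)) / 3 := by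
    rw [Finset.expect_sum_comm]
    refine (Finset.sum_le_card_nsmul _ _ _ fun i _ => errE hW d3 (hv i)).trans ?_
    refine le_trans (le_of_eq ?_) (num2 hA0 hX0.le hV0.le hη c4)
    simp only [Finset.card_univ, Fintype.card_prod, Fintype.card_bool, Fintype.card_fun,
      Fintype.card_fin, nsmul_eq_mul, hA]
    push_cast
    ring
  have E3 : 𝔼 g : Qy G ℓ → Sg G ℓ, ∑ q ∈ Bl,
      (({v | va (Fq g) v q.1 = tw q.2 v}.ncard : ℕ) : ℝ) ≤ η * Fintype.card (Sg G ℓ) / 3 := by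
    rw [Finset.expect_sum_comm]
    refine (Finset.sum_le_card_nsmul _ _
      (Fintype.card (Sg G ℓ) * ((n : ℝ) ^ 2 * Fintype.card (Aut G) + 1) / 2 ^ ℓ)
      fun q hq => ?_).trans ?_
    · simp only [Bl, Finset.mem_filter, Finset.mem_product, Set.Finite.mem_toFinset] at hq
      obtain ⟨a, ha⟩ := d4 q.1 hq.1.1
      exact injE hW hK d3 hs ha hq.2
    · rw [pow_zero, mul_one, div_le_iff₀ hη] at c5
      rw [nsmul_eq_mul, ← hA, ← mul_div_assoc, div_le_iff₀ h2ℓ]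
      nlinarith
  have p1 : (0 : ℝ) < ((49 / 10) ^ ℓ) ^ p := by positivity
  have p2 : (0 : ℝ) < η * (99 / 20) ^ ℓ * (Fintype.card X * Fintype.card (Sg G ℓ)) := by positivity
  have p3 : (0 : ℝ) < η * Fintype.card (Sg G ℓ) := by positivity
  obtain ⟨g, -, hg⟩ := Finset.exists_le_of_expect_le (s := Finset.univ) (a := (1 : ℝ))
    (f := fun g : Qy G ℓ → Sg G ℓ =>
      cyc (fun _ : Fin p => Cm sx l dt ℓ (Fq g)) / ((49 / 10) ^ ℓ) ^ p +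
      (∑ i, err (Fq g) (dd sx l dt ℓ i)) /
        (η * (99 / 20) ^ ℓ * (Fintype.card X * Fintype.card (Sg G ℓ))) +
      (∑ q ∈ Bl, (({v | va (Fq g) v q.1 = tw q.2 v}.ncard : ℕ) : ℝ)) /
        (η * Fintype.card (Sg G ℓ))) Finset.univ_nonempty (by
      rw [Finset.expect_add_distrib, Finset.expect_add_distrib, ← Finset.expect_div,
        ← Finset.expect_div, ← Finset.expect_div]
      have a1 := (div_le_iff₀ p1).2 (E1.trans (le_of_eq (show _ = 1 / 3 * _ by ring)))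
      have a2 := (div_le_iff₀ p2).2 (E2.trans (le_of_eq (show _ = 1 / 3 * _ by ring)))
      have a3 := (div_le_iff₀ p3).2 (E3.trans (le_of_eq (show _ = 1 / 3 * _ by ring)))
      linarith)
  obtain ⟨q1, q2⟩ := hL.1 _ (Cm sx l dt ℓ (Fq g)) p (Cm_symm dt hK h3 h4 _) hp0 ⟨35 * m + 1, by omega⟩
  have n1 := div_nonneg q1 p1.le
  have n2 := div_nonneg (Finset.sum_nonneg fun i (_ : i ∈ Finset.univ) =>
    err_nonneg (Fq g) (dd sx l dt ℓ i)) p2.le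
  have n3 := div_nonneg (Finset.sum_nonneg fun q (_ : q ∈ Bl) =>
    Nat.cast_nonneg (α := ℝ) {v | va (Fq g) v q.1 = tw q.2 v}.ncard) p3.le
  have g1 := (div_le_one p1).1 (((le_add_of_nonneg_right n2).trans
    (le_add_of_nonneg_right n3)).trans hg)
  have g2 := (div_le_one p2).1 (((le_add_of_nonneg_left n1).trans
    (le_add_of_nonneg_right n3)).trans hg)
  have g3 := (div_le_one p3).1 ((le_add_of_nonneg_left (add_nonneg n1 n2)).trans hg)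
  refine ⟨Sg G ℓ, inferInstance, va (Fq g), tw, ?_, va_one _, va_mul _, tw_one, tw_mul,
    tw_va (Fq_smul g), ?_, ?_⟩
  · have : (2 : ℝ) ≤ Fintype.card (Sg G ℓ) := by
      rw [hcard, ← pow_mul]
      exact le_self_pow₀ (by norm_num) (by positivity)
    exact_mod_cast this
  · intro φ f1 f2
    by_contra hc
    rw [not_le] at hc
    have f3 : ∀ x, ∑ v, φ (x, v) = 0 := fun x => by
      have := f2 x
      rw [Fintype.sum_prod_type, Finset.sum_eq_single x] at this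
      · simpa using this
      · intro x' _ hx
        simp [hx]
      · simp
    have hinv : ∀ (s : Fin 5) (z : X × Sg G ℓ),
        (fun s (z : X × Sg G ℓ) => (sx z.1 s, va (Fq g) z.2 (gen G (l z.1 s)))) s
        ((fun s (z : X × Sg G ℓ) => (sx z.1 s, va (Fq g) z.2 (gen G (l z.1 s)))) s z) = z := by
      intro s z
      simp only [h3, h4, ← va_mul, gen_mul_self, va_one]
    have k0 : (0 : ℝ) ≤ η * Fintype.card (X × Sg G ℓ) := by positivity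
    have k1 := sum_mv_le
      (fun s (z : X × Sg G ℓ) => (sx z.1 s, va (Fq g) z.2 (gen G (l z.1 s)))) hinv φ
    have k2 := hL.2.1 _ (fun s (z : X × Sg G ℓ) => (sx z.1 s, va (Fq g) z.2 (gen G (l z.1 s))))
      φ (99 / 100) j hinv (by norm_num) (by linarith)
    rw [← hℓ] at k2
    have k3 := walk_le dt hK (Fq g) hv φ f1 f3
    have k4 := q2 _ (by positivity) g1 φ
    have k5 : (0 : ℝ) ≤ ∑ z, φ z ^ 2 := Finset.sum_nonneg fun _ _ => sq_nonneg _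
    have k6 : (49 / 10 : ℝ) ^ ℓ ≤ (99 / 20) ^ ℓ := pow_le_pow_left₀ (by norm_num) (by norm_num) _
    have k7 : η * (Fintype.card X * Fintype.card (Sg G ℓ)) < ∑ z, φ z ^ 2 := by
      rw [Fintype.card_prod] at hc k0
      push_cast at hc k0
      linarith
    have k8 : (0 : ℝ) < (99 / 20) ^ ℓ := by positivity
    have k9 := mul_lt_mul_of_pos_left k7 k8
    have k10 := mul_le_mul_of_nonneg_right k6 k5
    rw [show (5 * (99 / 100) : ℝ) = 99 / 20 by norm_num] at k2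
    linarith
  · intro w θ' hw hne
    refine le_trans ?_ g3
    refine Finset.single_le_sum (f := fun q : W G × Aut G =>
      (({v | va (Fq g) v q.1 = tw q.2 v}.ncard : ℕ) : ℝ)) (fun _ _ => Nat.cast_nonneg _)
      (a := (w, θ')) ?_
    simp only [Bl, Finset.mem_filter, Finset.mem_product, Set.Finite.mem_toFinset]
    exact ⟨⟨hw, Finset.mem_univ _⟩, hne⟩

end Pool.Agent.MP_735563_an.H66
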