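import Pool.Agent.MP_735563_an.H66.Spec
import Pool.Agent.MP_c34dea_an.H23.Cost

set_option autoImplicit false

open scoped ENNReal

namespace Pool.Agent.MP_735563_an.H66

open Pool.Agent.MP_c34dea_an.H66 Pool.Agent.MP_c34dea_an.H23
open Pool.Agent.MP_c34dea_an.H23.Cost (tsum_ind_le tail_le tsum_len ball_unif fh_le)

namespace CostR

theorem small {q : ℝ≥0∞} (hq : q < 1) {C : ℝ≥0∞} (hC : C ≠ ∞) (m : ℕ) :
    ∃ n, m ≤ n ∧ q ^ n * C ≤ 1 / 3000000 := by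
  have h1 : Filter.Tendsto (fun n : ℕ => q ^ n * C) Filter.atTop (nhds (0 * C)) :=
    ENNReal.Tendsto.mul_const (ENNReal.tendsto_pow_atTop_nhds_zero_of_lt_one hq) (Or.inr hC)
  rw [zero_mul] at h1
  have h2 := h1.eventually_le_const (u := 1 / 3000000) (by simp)
  obtain ⟨n, hn⟩ := ((Filter.eventually_ge_atTop m).and h2).exists
  exact ⟨n, hn⟩

variable {Λ : Type}

theorem all_card [Finite Λ] (hΛ : Nat.card Λ ≤ 16384) (n : ℕ) :
    ∃ F : Finset (List Λ), F.card ≤ 16384 ^ n ∧ ∀ w : List Λ, w.length = n → w ∈ F := by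
  classical
  have := Fintype.ofFinite Λ
  refine ⟨(Finset.univ : Finset (Fin n → Λ)).image List.ofFn, Finset.card_image_le.trans ?_, ?_⟩
  · rw [Finset.card_univ, Fintype.card_fun, Fintype.card_fin, ← Nat.card_eq_fintype_card]
    exact Nat.pow_le_pow_left hΛ n
  · rintro w rfl
    exact Finset.mem_image.2 ⟨w.get, Finset.mem_univ _, List.ofFn_get w⟩

variable {S : Type} {G : SimpleGraph S}

/-- few words of a given length end in a given finite set -/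
theorem cnt [Finite Λ] {V' : Type} [Finite V'] {e : List Λ → W G} {v : List Λ → V'}
    {B : Set (List Λ)} {n m : ℕ}
    (hm : ∀ q u, {w | w ∈ B ∧ w.length = n ∧ e w = q ∧ v w = u}.ncard ≤ m)
    (F : Finset (W G)) {N : ℕ} (hN : F.card ≤ N) (P : List Λ → Prop) [DecidablePred P]
    (hP : ∀ w, P w → (w ∈ B ∧ w.length = n) ∧ e w ∈ F) :
    ∑' w, (if P w then (1 : ℝ≥0∞) else 0) ≤ (m : ℝ≥0∞) * (N * Nat.card V' : ℕ) := by
  classical
  have := Fintype.ofFinite V'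
  have hf : ∀ p : W G × V', {w | w ∈ B ∧ w.length = n ∧ e w = p.1 ∧ v w = p.2}.Finite :=
    fun p => (List.finite_length_eq Λ n).subset fun w hw => hw.2.1
  refine (tsum_ind_le P id ((F ×ˢ Finset.univ).biUnion fun p => (hf p).toFinset) (fun w hw => ?_)
    fun _ _ _ _ h => h).trans ?_
  · obtain ⟨⟨a, b⟩, c⟩ := hP w hw
    exact Finset.mem_biUnion.2 ⟨(e w, v w), by simp [c], by simp [a, b]⟩
  · have h1 := Finset.card_biUnion_le_card_mul (F ×ˢ Finset.univ) (fun p => (hf p).toFinset) m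
      fun p _ => by rw [← Set.ncard_eq_toFinset_card _ (hf p)]; exact hm p.1 p.2
    rw [Finset.card_product, Finset.card_univ, ← Nat.card_eq_fintype_card] at h1
    have h2 := h1.trans (Nat.mul_le_mul_right m (Nat.mul_le_mul_right _ hN))
    rw [mul_comm] at h2
    exact_mod_cast h2

variable {A Y : Type} {step : Y → A → Y} {pos : Y → W G} {R : Hyp G → Hyp G → Prop}
  {θ x K : ℝ≥0∞}

/-- the words whose end point is close to the starting point in the potential -/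
theorem near_le (h : Good step pos R θ x K) (h1 : θ < 1) (ζ : Y) {e : List Λ → W G}
    {Q : List Λ → Prop} [DecidablePred Q] {ρ : ℕ} {M r : ℝ≥0∞}
    (hM : ∀ p, ∑' w, (if Q w ∧ d (e w) p ≤ ρ then (1 : ℝ≥0∞) else 0) ≤ M)
    (hr : ∀ w, Q w → r ≤ θ ^ D R (pos ζ) (e w)) :
    r * θ ^ ρ * ∑' w, (if Q w then Gr step x ζ (fun ζ' => d (e w) (pos ζ') ≤ ρ) else 0) ≤
      M * K := by
  classical
  have e1 : ∀ w, (if Q w then Gr step x ζ (fun ζ' => d (e w) (pos ζ') ≤ ρ) else 0) =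
      ∑' γ : List A, if Q w ∧ d (e w) (pos (run step ζ γ)) ≤ ρ then x ^ γ.length else 0 := by
    intro w
    by_cases c : Q w
    · simp only [c, if_true, true_and, Gr]
      exact tsum_congr fun γ => by
        by_cases c' : d (e w) (pos (run step ζ γ)) ≤ ρ
        · rw [if_pos c', if_pos c']
        · rw [if_neg c', if_neg c']
    · simp [c]
  simp only [e1]
  rw [ENNReal.tsum_comm, ← ENNReal.tsum_mul_left]
  have e2 := h (pos ζ) ζ
  rw [D_self, pow_zero, mul_one] at e2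
  refine le_trans ?_ (mul_le_mul_right e2 M)
  rw [← ENNReal.tsum_mul_left]
  refine ENNReal.tsum_le_tsum fun γ => ?_
  refine le_trans ?_ (mul_le_mul_left (hM (pos (run step ζ γ))) _)
  rw [← ENNReal.tsum_mul_left, ← ENNReal.tsum_mul_right]
  refine ENNReal.tsum_le_tsum fun w => ?_
  split_ifs with c
  · rw [one_mul, mul_comm]
    refine mul_le_mul_right ?_ _
    have t1 := D_triangle (R := R) (pos ζ) (e w) (pos (run step ζ γ))
    have t2 := D_le_d (R := R) (e w) (pos (run step ζ γ))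
    calc r * θ ^ ρ ≤ θ ^ D R (pos ζ) (e w) * θ ^ ρ := mul_le_mul_left (hr w c.1) _
      _ = θ ^ (D R (pos ζ) (e w) + ρ) := (pow_add _ _ _).symm
      _ ≤ _ := pow_le_pow_right_of_le_one' h1.le (by have := c.2; omega)
  · simp

/-- the words whose end point is far from the starting point in the potential -/
theorem far_le (h : Good step pos R θ x K) (h0 : θ ≠ 0) (h1 : θ < 1) (ζ : Y) {e : List Λ → W G}
    {Q : List Λ → Prop} [DecidablePred Q] (ρ : ℕ) {M r : ℝ≥0∞}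
    (hM : ∑' w, (if Q w then (1 : ℝ≥0∞) else 0) ≤ M)
    (hr : ∀ w, Q w → θ ^ D R (pos ζ) (e w) ≤ r) :
    ∑' w, (if Q w then Gr step x ζ (fun ζ' => d (e w) (pos ζ') ≤ ρ) else 0) ≤
      M * (θ⁻¹ ^ ρ * (K * r)) := by
  refine le_trans ?_ (mul_le_mul_left hM _)
  rw [← ENNReal.tsum_mul_right]
  refine ENNReal.tsum_le_tsum fun w => ?_
  split_ifs with c
  · rw [one_mul]
    refine (h.gr_le h0 h1 (e w) ζ (n := ρ) fun y' hy' => (D_le_d _ _).trans hy').trans ?_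
    rw [D_comm]
    exact mul_le_mul_right (mul_le_mul_right (hr w c) _) _
  · simp

theorem num0 : (3 / 20480 : ℝ≥0∞) * 512 ≤ 3 / 40 := by
  rw [← ENNReal.toReal_le_toReal (by finiteness) (by finiteness)]
  simp only [ENNReal.toReal_mul, ENNReal.toReal_div, ENNReal.toReal_ofNat]
  norm_num

theorem num1 : (3 / 20480 : ℝ≥0∞) * 512 ≤ 24 / 25 * (2 / 5) := by
  rw [← ENNReal.toReal_le_toReal (by finiteness) (by finiteness)]
  simp only [ENNReal.toReal_mul, ENNReal.toReal_div, ENNReal.toReal_ofNat]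
  norm_num

theorem num2 : (3 / 20480 : ℝ≥0∞) * 16384 * (2 / 5) ≤ 24 / 25 := by
  rw [← ENNReal.toReal_le_toReal (by finiteness) (by finiteness)]
  simp only [ENNReal.toReal_mul, ENNReal.toReal_div, ENNReal.toReal_ofNat]
  norm_num

theorem num3 : (1 / 3000000 : ℝ≥0∞) + 1 / 3000000 + 1 / 3000000 ≤ 1 / 1000000 := by
  rw [← ENNReal.toReal_le_toReal (by finiteness) (by finiteness),
    ENNReal.toReal_add (by finiteness) (by finiteness),
    ENNReal.toReal_add (by finiteness) (by finiteness)]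
  simp only [ENNReal.toReal_div, ENNReal.toReal_ofNat, ENNReal.toReal_one]
  norm_num

theorem num4 : (3 / 40 : ℝ≥0∞) < 1 := by
  rw [← ENNReal.toReal_lt_toReal (by finiteness) (by finiteness)]
  simp only [ENNReal.toReal_div, ENNReal.toReal_ofNat, ENNReal.toReal_one]
  norm_num

theorem num5 : (24 / 25 : ℝ≥0∞) < 1 := by
  rw [← ENNReal.toReal_lt_toReal (by finiteness) (by finiteness)]
  simp only [ENNReal.toReal_div, ENNReal.toReal_ofNat, ENNReal.toReal_one]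
  norm_num

theorem num6 : (2 / 5 : ℝ≥0∞) ≠ 0 := by simp

/-- the long walks seen from one starting point -/
theorem one_le [Finite Λ] (hΛ : Nat.card Λ ≤ 16384) (h : Good step pos R θ x K) (h0 : θ ≠ 0)
    (h1 : θ < 1) (ζ : Y) {e : List Λ → W G} {Q : List Λ → Prop} [DecidablePred Q] {ρ k : ℕ}
    {M : ℝ≥0∞}
    (hM : ∀ p, ∑' w, (if Q w ∧ d (e w) p ≤ ρ then (1 : ℝ≥0∞) else 0) ≤ 512 ^ k * M)
    (hQ : ∀ w, Q w → w.length = k) :
    (3 / 20480) ^ k * ∑' w, (if Q w then Gr step x ζ (fun ζ' => d (e w) (pos ζ') ≤ ρ) else 0) ≤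
      (24 / 25) ^ k * ((M + 1) * (θ⁻¹ ^ ρ * K)) := by
  classical
  set r : ℝ≥0∞ := (2 / 5) ^ k with hr
  have a1 := near_le h h1 ζ (e := e) (Q := fun w => Q w ∧ r ≤ θ ^ D R (pos ζ) (e w)) (ρ := ρ)
    (M := 512 ^ k * M) (r := r) (fun p => le_trans (ENNReal.tsum_le_tsum fun w => ?_) (hM p))
    fun w hw => hw.2
  swap
  · by_cases c : (Q w ∧ r ≤ θ ^ D R (pos ζ) (e w)) ∧ d (e w) p ≤ ρ
    · rw [if_pos c, if_pos ⟨c.1.1, c.2⟩]
    · rw [if_neg c]; exact zero_le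
  obtain ⟨F, hF1, hF2⟩ := all_card hΛ k
  have a2 := far_le h h0 h1 ζ (e := e) (Q := fun w => Q w ∧ ¬ r ≤ θ ^ D R (pos ζ) (e w)) ρ
    (M := 16384 ^ k) (r := r) ((tsum_ind_le _ id F
      (fun w hw => hF2 w (hQ w hw.1)) fun _ _ _ _ e => e).trans
      (by exact_mod_cast hF1)) fun w hw => (not_le.1 hw.2).le
  set S1 := ∑' w, (if Q w ∧ r ≤ θ ^ D R (pos ζ) (e w) then
    Gr step x ζ (fun ζ' => d (e w) (pos ζ') ≤ ρ) else 0) with hS1
  set S2 := ∑' w, (if Q w ∧ ¬ r ≤ θ ^ D R (pos ζ) (e w) then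
    Gr step x ζ (fun ζ' => d (e w) (pos ζ') ≤ ρ) else 0) with hS2
  have a3 : ∑' w, (if Q w then Gr step x ζ (fun ζ' => d (e w) (pos ζ') ≤ ρ) else 0) ≤ S1 + S2 := by
    rw [hS1, hS2, ← ENNReal.tsum_add]
    refine ENNReal.tsum_le_tsum fun w => ?_
    by_cases c : Q w <;> by_cases c' : r ≤ θ ^ D R (pos ζ) (e w) <;> simp [c, c']
  have e1 : θ⁻¹ ^ ρ * θ ^ ρ = 1 := by
    rw [← mul_pow, ENNReal.inv_mul_cancel h0 (h1.trans ENNReal.one_lt_top).ne, one_pow]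
  have e2 : r⁻¹ * r = 1 :=
    ENNReal.inv_mul_cancel (pow_ne_zero _ num6) (by rw [hr]; finiteness)
  have b1 : (3 / 20480) ^ k * S1 ≤ (24 / 25) ^ k * (M * (θ⁻¹ ^ ρ * K)) := by
    calc (3 / 20480) ^ k * S1 = (3 / 20480) ^ k * S1 * (θ⁻¹ ^ ρ * θ ^ ρ) * (r⁻¹ * r) := by
          rw [e1, e2, mul_one, mul_one]
      _ = (3 / 20480) ^ k * θ⁻¹ ^ ρ * r⁻¹ * (r * θ ^ ρ * S1) := by ring
      _ ≤ (3 / 20480) ^ k * θ⁻¹ ^ ρ * r⁻¹ * (512 ^ k * M * K) := mul_le_mul_right a1 _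
      _ = (3 / 20480 * 512) ^ k * r⁻¹ * (M * (θ⁻¹ ^ ρ * K)) := by rw [mul_pow]; ring
      _ ≤ (24 / 25 * (2 / 5)) ^ k * r⁻¹ * (M * (θ⁻¹ ^ ρ * K)) :=
          mul_le_mul_left (mul_le_mul_left (pow_le_pow_left' num1 k) _) _
      _ = (24 / 25) ^ k * (r⁻¹ * r) * (M * (θ⁻¹ ^ ρ * K)) := by rw [mul_pow, ← hr]; ring
      _ = _ := by rw [e2, mul_one]
  have b2 : (3 / 20480) ^ k * S2 ≤ (24 / 25) ^ k * (θ⁻¹ ^ ρ * K) := by
    calc (3 / 20480) ^ k * S2 ≤ (3 / 20480) ^ k * (16384 ^ k * (θ⁻¹ ^ ρ * (K * r))) :=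
          mul_le_mul_right a2 _
      _ = (3 / 20480 * 16384 * (2 / 5)) ^ k * (θ⁻¹ ^ ρ * K) := by
          rw [mul_pow, mul_pow, ← hr]; ring
      _ ≤ _ := by
          gcongr
          exact num2
  calc _ ≤ (3 / 20480) ^ k * (S1 + S2) := mul_le_mul_right a3 _
    _ = (3 / 20480) ^ k * S1 + (3 / 20480) ^ k * S2 := mul_add _ _ _
    _ ≤ _ := add_le_add b1 b2
    _ = _ := by ring

theorem pw (n : ℕ) (C : ℝ≥0∞) :
    (3 / 20480 : ℝ≥0∞) ^ n * (((512 ^ n : ℕ) : ℝ≥0∞) * C) ≤ (3 / 40) ^ n * C := by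
  rw [← mul_assoc, Nat.cast_pow, Nat.cast_ofNat, ← mul_pow]
  gcongr
  exact num0

end CostR

open CostR in
theorem costR : CostRStmt := by
  classical
  intro Λ _ S G S' _ G' ψ A Y step pos x V _ κ V' _ c L ν hΛ hd hgood hκ
  obtain ⟨R, θ, K, -, h0, h1, hK, hG⟩ := hgood
  choose N hN using ball_unif G'
  have hθ : θ⁻¹ ≠ ∞ := ENNReal.inv_ne_top.2 h0
  have hq : (1 - 3 / 40 : ℝ≥0∞)⁻¹ ≠ ∞ := ENNReal.inv_ne_top.2 (tsub_pos_of_lt num4).ne'
  obtain ⟨s, hs1, hs⟩ := small num4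
    (C := (1 - 3 / 40 : ℝ≥0∞)⁻¹ * (N ((2 * L + 2) * c) * Nat.card V' : ℕ)) (by finiteness) 1
  obtain ⟨g, hg1, hg⟩ := small num4
    (C := (N ((2 * s * L + ν) * c) * Nat.card V' : ℕ)) (by finiteness) s
  obtain ⟨k, hk1, hk⟩ := small num5
    (C := 2 * (N ((g * L + 1) * c) * Nat.card V : ℕ) *
      (((N ((g * L + 1) * c) * Nat.card V' : ℕ) + 1) * (θ⁻¹ ^ ((g * L + 1) * c) * K)))
    (by finiteness) (2 * g)
  refine ⟨s, g, k, hs1, hg1, hk1, fun α B e v hmul => ?_⟩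
  have hcnt : ∀ n u, (3 / 20480 : ℝ≥0∞) ^ n *
      ∑' w, (if w ∈ B ∧ w.length = n ∧ D TB0 α (e w) < u then (1 : ℝ≥0∞) else 0) ≤
      (3 / 40) ^ n * (N (u * c) * Nat.card V' : ℕ) := by
    intro n u
    obtain ⟨F, hF1, hF2⟩ := hN (u * c) (ψ α)
    exact (mul_le_mul_right (cnt (e := fun w => ψ (e w)) (hmul n) F hF1 _ fun w hw =>
      ⟨⟨hw.1, hw.2.1⟩, hF2 _ ((hd _ _).trans (Nat.mul_le_mul_right _ hw.2.2.le))⟩) _).trans
      (pw n _)
  have t1 : ∑' w, (if w ∈ B ∧ s ≤ w.length ∧ w.length ≤ g ∧ D TB0 α (e w) < 2 * L + 2 then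
      (3 / 20480 : ℝ≥0∞) ^ w.length else 0) ≤ 1 / 3000000 := by
    refine le_trans ?_ hs
    rw [tsum_len, ← mul_assoc]
    refine le_trans ?_ (mul_le_mul_left (tail_le _ s) _)
    rw [← ENNReal.tsum_mul_right]
    refine ENNReal.tsum_le_tsum fun n => ?_
    by_cases c1 : s ≤ n ∧ n ≤ g
    · rw [if_pos c1.1]
      refine le_trans ?_ (hcnt n (2 * L + 2))
      rw [← ENNReal.tsum_mul_left]
      refine ENNReal.tsum_le_tsum fun w => ?_
      by_cases c2 : w.length = n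
      · rw [if_pos c2]
        by_cases c3 : w ∈ B ∧ s ≤ w.length ∧ w.length ≤ g ∧ D TB0 α (e w) < 2 * L + 2
        · rw [if_pos c3, if_pos ⟨c3.1, c2, c3.2.2.2⟩, c2, mul_one]
        · rw [if_neg c3]; exact zero_le
      · rw [if_neg c2]; exact zero_le
    · refine le_trans (le_of_eq (ENNReal.tsum_eq_zero.2 fun w => ?_)) zero_le
      by_cases c2 : w.length = n
      · rw [if_pos c2, if_neg]
        exact fun c3 => c1 (c2 ▸ ⟨c3.2.1, c3.2.2.1⟩)
      · rw [if_neg c2]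
  have t2 : ∑' w, (if w ∈ B ∧ w.length = g ∧ D TB0 α (e w) < 2 * s * L + ν then
      (3 / 20480 : ℝ≥0∞) ^ w.length else 0) ≤ 1 / 3000000 := by
    refine le_trans ?_ hg
    refine le_trans ?_ (hcnt g (2 * s * L + ν))
    rw [← ENNReal.tsum_mul_left]
    refine ENNReal.tsum_le_tsum fun w => ?_
    split_ifs with c1
    · rw [c1.2.1, mul_one]
    · exact zero_le
  have t3 : ∑' w, (if w ∈ B ∧ w.length = k then
      (3 / 20480 : ℝ≥0∞) ^ w.length * (2 * Fh step pos x (g * L + 1) α (e w)) else 0) ≤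
      1 / 3000000 := by
    refine le_trans ?_ hk
    obtain ⟨Z, hZ1, hZ2⟩ := fh_le (x := x) hd hκ (hN ((g * L + 1) * c)) α
    have b : ∀ ζ, (3 / 20480 : ℝ≥0∞) ^ k * ∑' w, (if w ∈ B ∧ w.length = k then Gr step x ζ
        (fun ζ' => d (ψ (e w)) (ψ (pos ζ')) ≤ (g * L + 1) * c) else 0) ≤ (24 / 25) ^ k *
        ((((N ((g * L + 1) * c) * Nat.card V' : ℕ) : ℝ≥0∞) + 1) *
          (θ⁻¹ ^ ((g * L + 1) * c) * K)) := by
      intro ζ
      refine one_le hΛ hG h0 h1 ζ (e := fun w => ψ (e w)) (fun p => ?_) fun w hw => hw.2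
      obtain ⟨F, hF1, hF2⟩ := hN ((g * L + 1) * c) p
      refine (cnt (e := fun w => ψ (e w)) (hmul k) F hF1 _ fun w hw =>
        ⟨hw.1, hF2 _ (by rw [d_comm]; exact hw.2)⟩).trans ?_
      rw [Nat.cast_pow, Nat.cast_ofNat]
    calc _ ≤ ∑' w, ∑ ζ ∈ Z, 2 * ((3 / 20480 : ℝ≥0∞) ^ k * (if w ∈ B ∧ w.length = k then
          Gr step x ζ (fun ζ' => d (ψ (e w)) (ψ (pos ζ')) ≤ (g * L + 1) * c) else 0)) := by
          refine ENNReal.tsum_le_tsum fun w => ?_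
          split_ifs with c1
          · rw [← Finset.mul_sum, ← Finset.mul_sum, c1.2, mul_left_comm]
            exact mul_le_mul_right (mul_le_mul_right (hZ2 _) _) _
          · exact zero_le
      _ = ∑ ζ ∈ Z, 2 * ((3 / 20480 : ℝ≥0∞) ^ k * ∑' w, (if w ∈ B ∧ w.length = k then Gr step x ζ
          (fun ζ' => d (ψ (e w)) (ψ (pos ζ')) ≤ (g * L + 1) * c) else 0)) := by
          rw [Summable.tsum_finsetSum fun _ _ => ENNReal.summable]
          simp only [ENNReal.tsum_mul_left]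
      _ ≤ ∑ _ζ ∈ Z, 2 * ((24 / 25) ^ k *
          ((((N ((g * L + 1) * c) * Nat.card V' : ℕ) : ℝ≥0∞) + 1) *
            (θ⁻¹ ^ ((g * L + 1) * c) * K))) :=
          Finset.sum_le_sum fun ζ _ => mul_le_mul_right (b ζ) _
      _ ≤ ((N ((g * L + 1) * c) * Nat.card V : ℕ) : ℝ≥0∞) * (2 * ((24 / 25) ^ k *
          ((((N ((g * L + 1) * c) * Nat.card V' : ℕ) : ℝ≥0∞) + 1) *
            (θ⁻¹ ^ ((g * L + 1) * c) * K)))) := by
          rw [Finset.sum_const, nsmul_eq_mul]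
          exact mul_le_mul_left (by exact_mod_cast hZ1) _
      _ = _ := by ring
  refine le_trans ?_ ((add_le_add (add_le_add t1 t2) t3).trans num3)
  rw [← ENNReal.tsum_add, ← ENNReal.tsum_add]
  refine ENNReal.tsum_le_tsum fun w => ?_
  by_cases c0 : w ∈ B
  · simp only [c0, if_true, true_and, mul_add, mul_ite, mul_one, mul_zero, le_refl]
  · simp only [c0, if_false, zero_le]

end Pool.Agent.MP_735563_an.H66
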