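import Pool.Agent.MP_735563_an.H66.Coh
import Pool.Agent.MP_c34dea_an.H6.Block1

set_option autoImplicit false

namespace Pool.Agent.MP_735563_an.H66

open Pool.Agent.MP_c34dea_an.H66 Pool.Agent.MP_c34dea_an.H23
open Pool.Agent.MP_c34dea_an.H6 (Lq lq_of_Btw exists_enum)

namespace DatAux

variable {S : Type} {G : SimpleGraph S} {R : Hyp G → Hyp G → Prop} {ℓ : ℕ}

theorem exists_valid [Nonempty S] (hR : Adm R) (hL : LS R) (w : W G) (hw' : d 1 w ≤ ℓ) :
    ∃ a : Dat S, Valid R ℓ a w := by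
  classical
  obtain ⟨l, hl, hk⟩ := exists_geodesic 1 w
  let c : ℕ → S := fun i => l.getD i (Classical.arbitrary S)
  have hp : ∀ i, i ≤ l.length → ptw G c i = word G (l.take i) := by
    intro i
    induction i with
    | zero => simp [ptw]
    | succ i ih =>
      intro hi
      rw [ptw, ih (by omega), List.take_add_one, word_append, List.getElem?_eq_getElem hi]
      simp [c, List.getElem?_eq_getElem hi]
  have e : ptw G c l.length = w := by rw [hp _ le_rfl, List.take_length, ← hl, one_mul]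
  have geo := Coh.geo_word (c := c) (k := l.length) (by rw [e, hk])
  rw [e] at geo
  obtain ⟨B, b1, b2, b3⟩ := exists_ht R (sep 1 w)
  obtain ⟨f, f1, f2⟩ := exists_enum 1 (hyp 1 (Classical.arbitrary S)) (D R 1 w) B b3
    fun a ha b hb hn => lt_or_lt (b1 ha) (b1 hb) fun x =>
      x.elim (fun y => hn y.symm) (hR.tb _ _ (b2 ha hb hn)).2.1
  have : ∀ n, ∃ i, n < D R 1 w → i < l.length ∧ hw G c i = f n := fun n => by
    by_cases h : n < D R 1 w
    · obtain ⟨i, hi⟩ := (geo.mem _).1 (b1 (f1 n h))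
      exact ⟨i, fun _ => hi⟩
    · exact ⟨0, fun x => absurd x h⟩
  choose ι hι using this
  have mono : ∀ n n', n < n' → n' < D R 1 w → ι n < ι n' := fun n n' h h' =>
    geo.lt _ _ (hι n (h.trans h')).1 (hι n' h').1 (by
      rw [(hι n (h.trans h')).2, (hι n' h').2]; exact f2 n n' h h')
  have mono' : ∀ n n', n ≤ n' → n' < D R 1 w → ι n ≤ ι n' := fun n n' h h' =>
    h.eq_or_lt.elim (fun x => x ▸ le_rfl) fun x => (mono n n' x h').le
  have rel : ∀ n n', n < n' → n' < D R 1 w → R (f n) (f n') := fun n n' h h' =>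
    b2 (f1 n (h.trans h')) (f1 n' h') (f2 n n' h h').1
  have lq : ∀ i j, i < l.length → j < l.length → Lq 1 (hw G c i) (hw G c j) → i ≤ j :=
    fun i j hi hj x => x.elim (fun y => (geo.inj i j hi hj y).le) fun y => (geo.lt i j hi hj y).le
  let P : ℕ → ℕ → Prop := fun i j => 36 * j + 1 < D R 1 w ∧ ι (36 * j) ≤ i ∧ i ≤ ι (36 * j + 1)
  let win : ℕ → Option ℕ := fun i => if h : ∃ j, P i j then some h.choose else none
  have hwin : ∀ i j, win i = some j ↔ P i j := fun i j => by
    constructor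
    · intro h
      simp only [win] at h
      split_ifs at h with x
      exact Option.some.inj h ▸ x.choose_spec
    · intro h
      have x : ∃ j, P i j := ⟨j, h⟩
      have y := x.choose_spec
      simp only [win, dif_pos x, Option.some.injEq]
      rcases lt_trichotomy x.choose j with z | z | z
      · have := mono (36 * x.choose + 1) (36 * j) (by omega) (by have := h.1; omega)
        have := h.2.1
        have := y.2.2
        omega
      · exact z
      · have := mono (36 * j + 1) (36 * x.choose) (by omega) (by have := y.1; omega)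
        have := h.2.2
        have := y.2.1
        omega
  have hD := D_le_d (R := R) 1 w
  have hJ : ∀ j, j ∈ (Finset.range (ℓ / 36 + 1)).filter (fun j => 36 * j + 1 < D R 1 w) ↔
      36 * j + 1 < D R 1 w := fun j => by
    rw [Finset.mem_filter, Finset.mem_range]
    omega
  refine ⟨⟨l.length, c, win, (Finset.range (ℓ / 36 + 1)).filter fun j => 36 * j + 1 < D R 1 w⟩,
    e, hk.symm, hk ▸ hw', fun i j _ h => (hJ j).2 ((hwin i j).1 h).1, fun j hj => ?_, ?_,
    ι, fun n h => (hι n h).1, fun n n' h h' => ⟨mono n n' h h', ?_⟩, fun n h => ?_⟩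
  · have h := (hJ j).1 hj
    have lt := f2 _ _ (36 * j).lt_succ_self h
    have loc : ∀ t ∈ Btw (f (36 * j)) (f (36 * j + 1)),
        ∃ i, i < l.length ∧ P i j ∧ hw G c i = t := fun t ht => by
      obtain ⟨x, y⟩ := lq_of_Btw lt ht
      obtain ⟨i, hi, rfl⟩ := (geo.mem _).1 (y.mem (b1 (f1 _ h)))
      rw [← (hι _ (by omega)).2] at x
      rw [← (hι _ h).2] at y
      exact ⟨i, hi, ⟨h, lq _ _ (hι _ (by omega)).1 hi x, lq _ _ hi (hι _ h).1 y⟩, rfl⟩
    obtain ⟨t, ht, u, hu, s⟩ := hL _ _ (rel _ _ (36 * j).lt_succ_self h)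
    obtain ⟨i, i1, i2, rfl⟩ := loc t ht
    obtain ⟨i', j1, j2, rfl⟩ := loc u hu
    rcases le_total i i' with x | x
    · exact ⟨i, i', x, j1, s, fun r r1 r2 => (hwin r j).2 ⟨h, i2.2.1.trans r1, r2.trans j2.2.2⟩⟩
    · exact ⟨i', i, x, i1, s.symm, fun r r1 r2 =>
        (hwin r j).2 ⟨h, j2.2.1.trans r1, r2.trans i2.2.2⟩⟩
  · have := Finset.card_filter_le (Finset.range (ℓ / 36 + 1)) fun j => 36 * j + 1 < D R 1 w
    rw [Finset.card_range] at this
    dsimp only
    omega
  · dsimp only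
    rw [(hι n (h.trans h')).2, (hι n' h').2]
    exact rel n n' h h'
  · refine ⟨n / 36 + 1, (hJ _).2 (by omega), fun i _ x => ?_⟩
    have y := (hwin _ _).1 x
    exact ⟨(mono' _ _ (by omega) (by omega)).trans y.2.1, y.2.2.trans (mono' _ _ (by omega) h)⟩

theorem rev (hR : Adm R) {a : Dat S} {w : W G} (h : Valid R ℓ a w) : Valid R ℓ a.rev w⁻¹ := by
  have hp : ∀ i, i ≤ a.k → ptw G a.rev.c i = w⁻¹ * ptw G a.c (a.k - i) := by
    intro i
    induction i with
    | zero => intro _; simp [ptw, h.word]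
    | succ i ih =>
      intro hi
      rw [ptw, ih (by omega), show a.k - i = a.k - 1 - i + 1 by omega, ptw,
        show a.k - (i + 1) = a.k - 1 - i by omega]
      simp only [Dat.rev, mul_assoc, gen_mul_self, mul_one]
  have hh : ∀ i, i < a.k → hw G a.rev.c i = w⁻¹ • hw G a.c (a.k - 1 - i) := fun i hi => by
    rw [hw, hp i hi.le, show a.k - i = a.k - 1 - i + 1 by omega, ptw, hw, smul_hyp, ← mul_assoc]
    exact hyp_mul_self _ _
  have hD : D R 1 w⁻¹ = D R 1 w := by
    rw [← D_smul hR w, mul_one, mul_inv_cancel, D_comm]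
  obtain ⟨ι, h1, h2, h3⟩ := h.chain
  refine ⟨(hp _ le_rfl).trans (by simp [ptw]), ?_, h.le,
    fun i j (hi : i < a.k) x => h.mem _ j (by omega) x, fun j hj => ?_, h.card,
    fun n => a.k - 1 - ι (D R 1 w - 1 - n), ?_, ?_, ?_⟩
  · rw [← d_smul w, mul_one, mul_inv_cancel, d_comm]
    exact h.geo
  · obtain ⟨i₁, i₂, a1, a2, a3, a4⟩ := h.ls j hj
    refine ⟨a.k - 1 - i₂, a.k - 1 - i₁, by omega, show _ < a.k by omega, ?_,
      fun i b1 b2 => a4 _ (by omega) (by omega)⟩
    simp only [Dat.rev]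
    rw [show a.k - 1 - (a.k - 1 - i₂) = i₂ by omega, show a.k - 1 - (a.k - 1 - i₁) = i₁ by omega]
    exact a3.symm
  · intro n hn
    have := h1 (D R 1 w - 1 - n) (by omega)
    show a.k - 1 - _ < a.k
    omega
  · intro n n' a1 a2
    obtain ⟨b1, b2⟩ := h2 (D R 1 w - 1 - n') (D R 1 w - 1 - n) (by omega) (by omega)
    have b3 := h1 (D R 1 w - 1 - n) (by omega)
    dsimp only
    refine ⟨by omega, ?_⟩
    rw [hh _ (by omega), hh _ (by omega), show ∀ x, x < a.k → a.k - 1 - (a.k - 1 - x) = x from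
      fun _ _ => by omega, show ∀ x, x < a.k → a.k - 1 - (a.k - 1 - x) = x from fun _ _ => by omega]
    exacts [hR.inv _ _ _ (hR.symm _ _ b2), by omega, b3]
  · intro n hn
    obtain ⟨j, hj, x⟩ := h3 (D R 1 w - 1 - (n + 37)) (by omega)
    refine ⟨j, hj, fun i (hi : i < a.k) y => ?_⟩
    have := x _ (by omega) y
    rw [show D R 1 w - 1 - (n + 37) + 37 = D R 1 w - 1 - n by omega] at this
    have := h1 (D R 1 w - 1 - n) (by omega)
    dsimp only
    omega

end DatAux

theorem dat : DatStmt := fun _ _ _ _ _ hR hL =>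
  ⟨DatAux.exists_valid hR hL, fun _ _ => DatAux.rev hR,
    fun _ _ h _ _ a b e => (Coh.geo_word h).between a b e⟩

end Pool.Agent.MP_735563_an.H66
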