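import Pool.Agent.MP_735563_an.H66.MSpec
import Pool.Agent.MP_c34dea_an.H6.Block1

set_option autoImplicit false

namespace Pool.Agent.MP_735563_an.H66

open Pool.Agent.MP_c34dea_an.H66 Pool.Agent.MP_c34dea_an.H23
open Pool.Agent.MP_c34dea_an.H6 (Lq lt_lq lq_of_Btw)

namespace DecAux

variable {S : Type} {G : SimpleGraph S}

section Geo

variable {c : ℕ → S} {k : ℕ}

theorem d_ptw (c : ℕ → S) (i j : ℕ) : d (ptw G c i) (ptw G c (i + j)) ≤ j := by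
  induction j with
  | zero => simp [d]
  | succ j ih =>
    have := d_triangle (ptw G c i) (ptw G c (i + j)) (ptw G c (i + j) * gen G (c (i + j)))
    rw [d_gen] at this
    exact this.trans (Nat.succ_le_succ ih)

theorem not_mem (h : d 1 (ptw G c k) = k) {i : ℕ} (hi : i < k) : hw G c i ∉ sep 1 (ptw G c i) :=
  fun e => by
    have h1 : d (ptw G c (i + 1)) 1 + 1 = _ := d_step (mem_sep_comm.1 e)
    have h2 : d 1 (ptw G c (0 + i)) ≤ i := d_ptw c 0 i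
    have h3 := d_ptw (G := G) c (i + 1) (k - (i + 1))
    have h4 := d_triangle 1 (ptw G c (i + 1)) (ptw G c k)
    rw [Nat.add_sub_cancel' hi] at h3
    rw [zero_add] at h2
    rw [d_comm _ 1, d_comm _ 1] at h1
    omega

theorem mem_sep (h : d 1 (ptw G c k) = k) {i : ℕ} (hi : i ≤ k) {r : Hyp G} :
    r ∈ sep 1 (ptw G c i) ↔ ∃ j < i, r = hw G c j := by
  induction i with
  | zero => simp [ptw]
  | succ i ih =>
    have e := not_mem h hi
    rw [ptw, mem_sep_mul_gen, Nat.exists_lt_succ_right, ← ih (by omega)]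
    change (_ ∧ r ≠ hw G c i) ∨ (r = hw G c i ∧ _) ↔ _
    by_cases x : r = hw G c i <;> simp [x, e]

theorem idx_le (h : d 1 (ptw G c k) = k) {i j : ℕ} (hi : i < k) (hj : j < k)
    (l : Lq 1 (hw G c i) (hw G c j)) : i ≤ j := by
  by_contra x
  obtain ⟨e, e1, e2⟩ := (mem_sep h hj).1 (l.mem ((mem_sep h hj).2 ⟨j, j.lt_succ_self, rfl⟩))
  exact not_mem h hi ((mem_sep h hi.le).2 ⟨e, by omega, e2⟩)

end Geo

/-- a longest chain -/
structure Chn (R : Hyp G → Hyp G → Prop) (o q : W G) (K : ℕ → Hyp G) : Prop where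
  mem : ∀ l < D R o q, K l ∈ sep o q
  lt : ∀ l l', l < l' → l' < D R o q → Lt o (K l) (K l')
  rel : ∀ l l', l < l' → l' < D R o q → R (K l) (K l')

/-- the place of a point relative to the chain -/
structure Pl (R : Hyp G → Hyp G → Prop) (o q : W G) (K : ℕ → Hyp G) (i j : ℕ) (z : W G) :
    Prop where
  near : ht R (sep o z \ sep o q) ≤ 1
  lo : ∀ l < i, l < D R o q → K l ∈ sep o z
  hi : ∀ l, j ≤ l → l < D R o q → K l ∉ sep o z

variable {R : Hyp G → Hyp G → Prop} {o q z z' : W G} {K : ℕ → Hyp G} {i j : ℕ}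

theorem Pl.mono (h : Pl R o q K i j z) {i' j' : ℕ} (h1 : i' ≤ i) (h2 : j ≤ j') :
    Pl R o q K i' j' z :=
  ⟨h.near, fun l a => h.lo l (a.trans_le h1), fun l a => h.hi l (h2.trans a)⟩

theorem pl_car (hR : Adm R) (hK : Chn R o q K) {t : Hyp G} (hz : z ∈ car t) (hj : j < D R o q)
    (hi : i ≤ j) (h1 : Lq o (K i) t) (h2 : Lq o t (K j)) : Pl R o q K i (j + 1) z :=
  ⟨ht_le_one_of_stt hR.tb (k := t) fun r hr => by
      by_contra x
      rw [Finset.mem_sdiff] at hr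
      exact hr.2 (mem_sep_of_car (h2.mem (hK.mem j hj)) hz hr.1 x),
    fun l a _ => (lt_lq (hK.lt l i a (by omega)) h1).mem_of_car hz,
    fun l a b => (h2.lt (hK.lt j l a b)).not_mem_of_car hz⟩

theorem Pl.short (hR : Adm R) (hK : Chn R o q K) (hi : i ≤ D R o q) (h : Pl R o q K i j z)
    (h' : Pl R o q K i j z') : D R z z' ≤ j + 2 - (i - 2) + 2 := by
  have sub : sep z z' ⊆ sep z z' ∩ sep o q ∪ (sep o z \ sep o q ∪ sep o z' \ sep o q) :=
    fun r hr => by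
      have := (mem_sep_trans z o z').1 hr
      simp only [Finset.mem_union, Finset.mem_inter, Finset.mem_sdiff, sep_comm z o] at this ⊢
      tauto
  have a1 := ht_union_le (R := R) (sep o z \ sep o q) (sep o z' \ sep o q)
  have a2 := (ht_mono (R := R) sub).trans (ht_union_le _ _)
  have a3 := h.near
  have a4 := h'.near
  suffices ht R (sep z z' ∩ sep o q) ≤ j + 2 - (i - 2) by unfold D; omega
  refine ht_le fun B h1 h2 => ?_
  let Λ := (Finset.range (D R o q)).filter fun l => l + 3 ≤ i ∨ j + 2 ≤ l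
  have hΛ : ∀ l ∈ Λ, l < D R o q := fun l hl => Finset.mem_range.1 (Finset.mem_filter.1 hl).1
  have two : ∀ r ∈ B, ∀ l, l + 1 < D R o q → ∃ e, l ≤ e ∧ e ≤ l + 1 ∧
      (Lt o (K e) r ∨ Lt o r (K e)) := fun r hr l hl => by
    have m := (Finset.mem_inter.1 (h1 hr)).2
    by_cases x : Stt r (K l)
    · exact ⟨l + 1, by omega, le_rfl, lt_or_lt (hK.mem _ hl) m fun y =>
        (hR.tb _ _ (hK.rel l _ l.lt_succ_self hl)).not_both x y.symm⟩
    · exact ⟨l, le_rfl, by omega, lt_or_lt (hK.mem _ (by omega)) m fun y => x y.symm⟩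
  have rel : ∀ l ∈ Λ, ∀ r ∈ B, R (K l) r := fun l hl r hr => by
    have m := (mem_sep_trans z o z').1 (Finset.mem_inter.1 (h1 hr)).1
    have hl' := hΛ l hl
    rw [sep_comm z o] at m
    rcases (Finset.mem_filter.1 hl).2 with x | x
    · obtain ⟨e, e1, e2, y | y⟩ := two r hr (l + 1) (by omega)
      · exact hR.up _ _ _ _ (hK.rel l e e1 (by omega)) (left_mem_Btw _ _)
          (mem_Btw_of_lt (hK.lt l e e1 (by omega)) y)
      · have b1 := y.mem (h.lo e (by omega) (by omega))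
        have b2 := y.mem (h'.lo e (by omega) (by omega))
        tauto
    · obtain ⟨e, e1, e2, y | y⟩ := two r hr (l - 2) (by omega)
      · have b1 := fun x => h.hi e (by omega) (by omega) (y.mem x)
        have b2 := fun x => h'.hi e (by omega) (by omega) (y.mem x)
        tauto
      · exact hR.symm _ _ (hR.up _ _ _ _ (hK.rel e l (by omega) hl')
          (mem_Btw_of_lt y (hK.lt e l (by omega) hl')) (right_mem_Btw _ _))
  have rl : ∀ l ∈ Λ, ∀ l' ∈ Λ, l ≠ l' → R (K l) (K l') := fun l hl l' hl' hn =>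
    hn.lt_or_gt.elim (fun x => hK.rel l l' x (hΛ l' hl')) fun x =>
      hR.symm _ _ (hK.rel l' l x (hΛ l hl))
  have c1 : (B ∪ Λ.image K).card ≤ D R o q := by
    refine le_ht (Finset.union_subset (h1.trans Finset.inter_subset_right)
      (Finset.image_subset_iff.2 fun l hl => hK.mem l (hΛ l hl))) fun a ha b hb hn => ?_
    simp only [Finset.coe_union, Set.mem_union, Finset.mem_coe, Finset.mem_image] at ha hb
    rcases ha with ha | ⟨l, hl, rfl⟩ <;> rcases hb with hb | ⟨l', hl', rfl⟩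
    exacts [h2 ha hb hn, hR.symm _ _ (rel _ hl' _ ha), rel _ hl _ hb,
      rl l hl l' hl' fun e => hn (congrArg K e)]
  rw [Finset.card_union_of_disjoint (Finset.disjoint_right.2 fun r hr hr' => by
      obtain ⟨l, hl, rfl⟩ := Finset.mem_image.1 hr
      exact (hR.tb _ _ (rel l hl _ hr')).1 rfl),
    Finset.card_image_of_injOn fun l hl l' hl' e => by
      by_contra x
      exact (hR.tb _ _ (rl l hl l' hl' x)).1 e] at c1
  have c2 : Finset.range (D R o q) ⊆ Λ ∪ Finset.Ico (i - 2) (j + 2) := fun l hl => by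
    simp only [Λ, Finset.mem_union, Finset.mem_filter, Finset.mem_Ico, hl, true_and]
    omega
  have c3 := (Finset.card_le_card c2).trans (Finset.card_union_le _ _)
  rw [Finset.card_range, Nat.card_Ico] at c3
  omega

variable {A Y : Type} {step : Y → A → Y} {pos : Y → W G} {u N : ℕ}
  {O O' : Set (Hyp G × Hyp G × Hyp G)} {y : Y} {γ γ' : List A}

/-- two decompositions with a common budget of free letters -/
def Two (step : Y → A → Y) (pos : Y → W G) (R : Hyp G → Hyp G → Prop) (u : ℕ)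
    (O O' : Set (Hyp G × Hyp G × Hyp G)) (N : ℕ) (y : Y) (γ : List A) : Prop :=
  ∃ m m', m + m' ≤ γ.length ∧ Dec step pos R u O N y γ m ∧ Dec step pos R u O' N y γ m'

theorem Two.symm (h : Two step pos R u O O' N y γ) : Two step pos R u O' O N y γ := by
  obtain ⟨m, m', h1, h2, h3⟩ := h
  exact ⟨m', m, by omega, h3, h2⟩

theorem Two.short (hd : D R (pos y) (pos (run step y γ)) ≤ u)
    (h : Two step pos R u O O' N (run step y γ) γ') : Two step pos R u O O' (N + 1) y (γ ++ γ') := by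
  obtain ⟨m, m', h1, h2, h3⟩ := h
  exact ⟨m, m', by rw [List.length_append]; omega, .short _ _ _ _ _ hd h2, .short _ _ _ _ _ hd h3⟩

theorem Two.succ (h : Two step pos R u O O' N y γ) : Two step pos R u O O' (N + 1) y γ :=
  Two.short (γ := []) (by simp) h

theorem Two.aim {γ₁ γ₂ : List A} {t₁ t₂ t₃ : Hyp G} {B : Aff G} (h1 : pos y ∈ car t₁)
    (hd : D R (pos y) (pos (run step y γ₁)) ≤ u) (h2 : pos (run step y γ₁) ∈ car t₂)
    (h3 : pos (run step (run step y γ₁) γ₂) ∈ car t₃) (h4 : LSp G t₁.1 t₂.1)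
    (h5 : (B • t₁, B • t₂, B • t₃) ∈ O ∪ O')
    (h : Two step pos R u O O' N (run step (run step y γ₁) γ₂) γ') :
    Two step pos R u O O' (N + 2) y (γ₁ ++ (γ₂ ++ γ')) := by
  wlog x : (B • t₁, B • t₂, B • t₃) ∈ O generalizing O O'
  · exact (this (Or.symm h5) h.symm (h5.resolve_left x)).symm
  obtain ⟨m, m', a1, a2, a3⟩ := h
  refine ⟨m, m' + γ₂.length, by simp only [List.length_append]; omega, ?_,
    .short _ _ _ _ _ hd (.free _ _ _ _ _ a3)⟩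
  rw [← run_append] at h3 a2
  rw [← List.append_assoc]
  exact .short _ _ [] _ _ (by simp) (.aim _ _ _ _ _ _ t₁ t₂ t₃ B h1 hd h2 h3 h4 x a2)

theorem cut (hE : Edge step pos) (e : pos (run step y γ) = q) {t : Hyp G} (h1 : t ∈ sep o q)
    (h2 : t ∉ sep o (pos y)) : ∃ γ₁ γ₂, γ = γ₁ ++ γ₂ ∧ pos (run step y γ₁) ∈ car t ∧
      pos (run step (run step y γ₁) γ₂) = q := by
  obtain ⟨γ₁, γ₂, rfl, a, -⟩ := hE.exists_cut (k := t) (y := y) (γ := γ) (by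
    rw [e, mem_sep_trans _ o, sep_comm _ o]; exact Or.inr ⟨h1, h2⟩)
  exact ⟨γ₁, γ₂, rfl, a, by rw [← run_append, e]⟩

/-- long runs without bad index contain a predicted triple -/
def Key (R : Hyp G → Hyp G → Prop) (o q : W G) (K : ℕ → Hyp G) (Bd : Finset ℕ)
    (O : Set (Hyp G × Hyp G × Hyp G)) : Prop :=
  ∀ n n₂, n + 50 ≤ n₂ → n₂ < D R o q → (∀ x ∈ Bd, n < x → n₂ + 1 < x) →
    ∃ (t₁ t₂ : Hyp G) (B : Aff G), Lq o (K (n + 3)) t₁ ∧ Lt o t₁ t₂ ∧ Lq o t₂ (K (n + 4)) ∧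
      LSp G t₁.1 t₂.1 ∧ (B • t₁, B • t₂, B • K (n₂ - 3)) ∈ O

variable {Bd : Finset ℕ}

theorem stepD (hE : Edge step pos) (hR : Adm R) (hK : Chn R o q K) (key : Key R o q K Bd (O ∪ O'))
    (hi : i ≤ D R o q) (e : pos (run step y γ) = q) (h : Pl R o q K i (i + 1) (pos y))
    (ih : ∀ x ∈ Bd, i < x → x < D R o q → ∀ y γ, pos (run step y γ) = q →
      Pl R o q K x (x + 1) (pos y) → Two step pos R 70 O O' N y γ) :
    Two step pos R 70 O O' (N + 4) y γ := by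
  have hq : Pl R o q K (D R o q) (D R o q) q :=
    ⟨(ht_le_card _).trans (by simp), fun l _ => hK.mem l,
      fun l a b => by omega⟩
  obtain ⟨x, x1, x2⟩ := Finset.exists_min_image (insert (D R o q) (Bd.filter (i < ·))) id (by simp)
  simp only [Finset.mem_insert, Finset.mem_filter, id, forall_eq_or_imp, and_imp] at x1 x2
  have fin : ∀ i' y γ, pos (run step y γ) = q → i' ≤ x → x ≤ i' + 60 →
      Pl R o q K i' (max x (i' + 1)) (pos y) → (i' < x ∨ x = D R o q) →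
      Two step pos R 70 O O' (N + 1) y γ := fun i' y γ e a1 a2 h a3 => by
    rcases x2.1.eq_or_lt with c | c
    · have := (h.mono le_rfl (j' := i' + 61) (by omega)).short hR hK (by omega)
        (hq.mono (by omega) (by omega))
      rw [← e] at this
      exact ⟨0, 0, by simp, .base _ _ _ (by omega), .base _ _ _ (by omega)⟩
    · obtain ⟨γ₁, γ₂, rfl, b1, b2⟩ := cut hE e (hK.mem x c) (h.hi x (by omega) c)
      have p := pl_car hR hK b1 c le_rfl (Or.inl rfl) (Or.inl rfl)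
      have := (h.mono le_rfl (j' := x + 1) (by omega)).short hR hK (by omega) (p.mono a1 le_rfl)
      exact Two.short (by omega) (ih x (x1.resolve_left c.ne).1 (x1.resolve_left c.ne).2 c _ _ b2 p)
  have hx : i < x ∨ x = D R o q := x1.elim Or.inr fun a => Or.inl a.2
  by_cases c : x ≤ i + 60
  · exact (fin i y γ e (by omega) c (h.mono le_rfl (by omega)) hx).succ.succ.succ
  obtain ⟨t₁, t₂, B, k1, k2, k3, k4, k5⟩ := key i (x - 2) (by omega) (by omega) fun b hb a => by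
    have := x2.2 b hb a
    omega
  have m2 := k3.mem (hK.mem _ (by omega))
  obtain ⟨γ₀, _, rfl, b0, e0⟩ := cut hE e (k2.mem m2) fun a =>
    h.hi _ (by omega) (by omega) (k1.mem a)
  obtain ⟨γ₁, _, rfl, b1, e1⟩ := cut hE e0 m2 (k2.not_mem_of_car b0)
  have p0 := pl_car hR hK b0 (by omega) (by omega) k1 (Or.inr (lt_lq k2 k3))
  have p1 := pl_car hR hK b1 (by omega) (by omega) (Or.inr (k1.lt k2)) k3
  obtain ⟨γ₂, γ₃, rfl, b2, e2⟩ := cut hE e1 (hK.mem (x - 2 - 3) (by omega))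
    (p1.hi _ (by omega) (by omega))
  have p2 := pl_car hR hK b2 (by omega) le_rfl (Or.inl rfl) (Or.inl rfl)
  have s0 := (h.mono le_rfl (by omega)).short hR hK hi (p0.mono (by omega) le_rfl)
  have s1 := p0.short hR hK (by omega) p1
  exact Two.short (by omega) (Two.aim b0 (by omega) b1 b2 k4 k5
    (fin _ _ _ e2 (by omega) (by omega) (p2.mono le_rfl (by omega)) (by omega)))

theorem main (hE : Edge step pos) (hR : Adm R) (hK : Chn R o q K) (key : Key R o q K Bd (O ∪ O'))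
    (N : ℕ) : ∀ i y γ, i ≤ D R o q → pos (run step y γ) = q → Pl R o q K i (i + 1) (pos y) →
      (Bd.filter (i < ·)).card ≤ N → Two step pos R 70 O O' (4 * N + 4) y γ := by
  induction N with
  | zero =>
    intro i y γ hi e h hN
    refine stepD hE hR hK key hi e h fun x a b => ?_
    exact absurd hN (Finset.card_pos.2 ⟨x, Finset.mem_filter.2 ⟨a, b⟩⟩).not_ge
  | succ N ih =>
    intro i y γ hi e h hN
    refine stepD hE hR hK key hi e h fun x a b c y γ e h => ih x y γ c.le e h ?_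
    have : Bd.filter (x < ·) ⊂ Bd.filter (i < ·) :=
      ⟨fun l hl => by simp only [Finset.mem_filter] at hl ⊢; exact ⟨hl.1, by omega⟩,
        fun hs => lt_irrefl x (Finset.mem_filter.1 (hs (Finset.mem_filter.2 ⟨a, b⟩))).2⟩
    have := Finset.card_lt_card this
    omega

theorem blk_eq {ℓ ρ τ x a b : ℕ} (hx : x < ℓ) (hb : b ≤ ℓ) (h1 : τ * ℓ + a ≤ ρ * ℓ + x)
    (h2 : ρ * ℓ + x < τ * ℓ + b) : ρ = τ := by
  by_contra hn
  rcases Nat.lt_or_gt_of_ne hn with c | c <;>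
  · have := Nat.mul_le_mul_right ℓ (Nat.succ_le_of_lt c)
    rw [Nat.succ_mul] at this
    omega

variable {p ℓ : ℕ} {a : Fin p → Dat S} {C : Tm a → Tm a → Aut G → Prop} {σ τ : Fin p} {θ : Aut G}

/-- the matching of two blocks -/
def Mt (C : Tm a → Tm a → Aut G → Prop) (σ τ : Fin p) (θ : Aut G) (i i' : ℕ) : Prop :=
  ∃ (h : i < (a σ).k) (h' : i' < (a τ).k), C ⟨σ, ⟨i, h⟩⟩ ⟨τ, ⟨i', h'⟩⟩ θ

theorem mp (hl : ∀ σ, (a σ).k ≤ ℓ) {i₁ i₂ : Fin (a σ).k} {j₁ j₂ : Fin (a τ).k}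
    (h : MP (tmT a ℓ) (cT a) C ⟨σ, i₁⟩ ⟨σ, i₂⟩ ⟨τ, j₁⟩ ⟨τ, j₂⟩ θ) :
    (∀ t, i₁.1 ≤ t → t < i₂.1 → (a σ).c t ∉ st G ((a σ).c i₁) →
      ∃ t', Mt C σ τ θ t t' ∧ min j₁.1 j₂.1 ≤ t' ∧ t' < max j₁.1 j₂.1) ∧
    ∀ t', min j₁.1 j₂.1 ≤ t' → t' < max j₁.1 j₂.1 → (a τ).c t' ∉ st G ((a τ).c j₁) →
      ∃ t, Mt C σ τ θ t t' ∧ i₁.1 ≤ t ∧ t < i₂.1 := by
  have a1 := i₂.2
  have a2 := j₁.2
  have a3 := j₂.2
  refine ⟨fun t h1 h2 h3 => ?_, fun t h1 h2 h3 => ?_⟩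
  · obtain ⟨⟨ρ, x⟩, b1, b2, b3⟩ := h.1 ⟨σ, ⟨t, by omega⟩⟩ (by simpa [tmT] using h1)
      (by simpa [tmT] using h2) h3
    simp only [tmT, min_add_add_left, max_add_add_left] at b2 b3
    obtain rfl := Fin.ext (blk_eq (x.2.trans_le (hl ρ)) (by have := hl τ; omega) b2 b3)
    exact ⟨x, ⟨_, x.2, b1⟩, by omega, by omega⟩
  · obtain ⟨⟨ρ, x⟩, b1, b2, b3⟩ := h.2 ⟨τ, ⟨t, by omega⟩⟩
      (by simp only [tmT, min_add_add_left]; omega) (by simp only [tmT, max_add_add_left]; omega) h3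
    simp only [tmT] at b2 b3
    obtain rfl := Fin.ext (blk_eq (x.2.trans_le (hl ρ)) (a1.le.trans (hl σ)) b2 b3)
    exact ⟨x, ⟨x.2, _, b1⟩, by omega, by omega⟩

/-- a region without markers is copied from another block -/
theorem region (hC : CohStmt) [Finite S] {n : ℕ} (hl : ∀ σ, (a σ).k ≤ ℓ)
    (hg : ∀ σ, d 1 (ptw G (a σ).c (a σ).k) = (a σ).k) (hB : Bad a G ℓ n) (σ : Fin p) :
    ∃ Mk : Finset ℕ, Mk.card ≤ 2 * Nat.card (Fin p × Aut G × S × Fin n) ∧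
      ∀ lo hi, hi < (a σ).k → (∀ x ∈ Mk, lo ≤ x → hi < x) →
      (∃ j ∈ (a σ).Js, ∀ i, i < (a σ).k → (a σ).win i = some j → lo ≤ i ∧ i ≤ hi) →
      ∃ τ, τ ≠ σ ∧ ∀ a₁ a₂ b₁ b₂ t₀ t₃ : ℕ, lo ≤ a₁ → lo ≤ a₂ → b₁ ≤ hi → b₂ ≤ hi → t₀ < (a σ).k →
        t₃ < (a σ).k → LSp G ((a σ).c a₁) ((a σ).c a₂) → LSp G ((a σ).c b₁) ((a σ).c b₂) →
        a₁ < (a σ).k → a₂ < (a σ).k → Lt 1 (hw G (a σ).c a₁) (hw G (a σ).c t₀) →
        Lt 1 (hw G (a σ).c a₂) (hw G (a σ).c t₀) → Lt 1 (hw G (a σ).c t₀) (hw G (a σ).c t₃) →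
        Lt 1 (hw G (a σ).c t₃) (hw G (a σ).c b₁) → Lt 1 (hw G (a σ).c t₃) (hw G (a σ).c b₂) →
        ∃ A : Aff G, ∀ h : Hyp G, Lt 1 (hw G (a σ).c t₀) h → Lt 1 h (hw G (a σ).c t₃) →
          ∃ i', i' < (a τ).k ∧ A • h = hw G (a τ).c i' := by
  classical
  obtain ⟨C, c1, c2, c3, c4, c5, κ, c6⟩ := hB
  have := Fintype.ofFinite (Fin p × Aut G × S × Fin n)
  let P : Fin p × Aut G × S × Fin n → Set ℕ := fun g => {i | ∃ (h : i < (a σ).k)
    (i' : Fin (a g.1).k), C ⟨σ, ⟨i, h⟩⟩ ⟨g.1, i'⟩ g.2.1 ∧ (a σ).c i = g.2.2.1 ∧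
      κ ⟨σ, ⟨i, h⟩⟩ ⟨g.1, i'⟩ g.2.1 = g.2.2.2}
  refine ⟨Finset.univ.image (fun g => sInf (P g)) ∪ Finset.univ.image fun g => sSup (P g),
    (Finset.card_union_le _ _).trans ?_, fun lo hi h1 h2 ⟨j, j1, j2⟩ => ?_⟩
  · rw [two_mul, Nat.card_eq_fintype_card]
    exact add_le_add Finset.card_image_le Finset.card_image_le
  obtain ⟨⟨ρ, t⟩, ⟨τ, t'⟩, θ, e1, e2, e3⟩ := c5 (σ, j) (by simpa [JsT] using j1)
  obtain ⟨j', e4, e5⟩ := Option.map_eq_some_iff.1 e1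
  obtain ⟨rfl, rfl⟩ := Prod.ext_iff.1 e5
  have hne : τ ≠ ρ := fun e => e2 (c4 _ _ _ (congrArg Fin.val e.symm) e3).1
  refine ⟨τ, hne, hC S G _ _ _ _ lo hi θ (Mt C ρ τ θ) (hg ρ) (hg τ) h1
    (fun i i' ⟨x, x', y⟩ => ⟨x, x', c1 _ _ _ y⟩) (fun i j i' ⟨x, x', y⟩ ⟨z, _, y'⟩ => ?_)
    (fun i i' j' ⟨x, x', y⟩ ⟨_, z, y'⟩ => ?_) (fun i i' k1 k2 ⟨x, x', y⟩ => ?_)
    ⟨t, t', (j2 t t.2 e4).1, (j2 t t.2 e4).2, t.2, t'.2, e3⟩⟩
  · simpa using (c4 _ _ _ (by rfl) (c3 _ _ _ _ _ y (c2 _ _ _ y'))).1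
  · simpa using (c4 _ _ _ (by rfl) (c3 _ _ _ _ _ (c2 _ _ _ y) y')).1
  let g : Fin p × Aut G × S × Fin n := (τ, θ, (a ρ).c i, κ ⟨ρ, ⟨i, x⟩⟩ ⟨τ, ⟨i', x'⟩⟩ θ)
  have m : i ∈ P g := ⟨x, ⟨i', x'⟩, y, rfl, rfl⟩
  have bd : BddAbove (P g) := ⟨(a ρ).k, fun _ h => h.1.le⟩
  have l1 := Nat.sInf_le m
  have l2 := le_csSup bd m
  obtain ⟨u1, i₁', u2, u3, u4⟩ := Nat.sInf_mem ⟨i, m⟩
  obtain ⟨v1, i₂', v2, v3, v4⟩ := Nat.sSup_mem ⟨i, m⟩ bd
  have r1 := h2 (sInf (P g)) (Finset.mem_union_left _ (Finset.mem_image_of_mem _ (Finset.mem_univ g)))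
  have r2 := h2 (sSup (P g)) (Finset.mem_union_right _ (Finset.mem_image_of_mem _ (Finset.mem_univ g)))
  have p1 := mp hl (c6 _ _ _ _ θ (by rfl) (by rfl) (Nat.add_le_add_left l1 _) u2 y u3 u4)
  have p2 := mp hl (c6 _ _ _ _ θ (by rfl) (by rfl) (Nat.add_le_add_left l2 _) y v2 v3.symm v4.symm)
  have e : (a τ).c i₁' = (a τ).c i' :=
    (c1 _ _ _ u2).symm.trans ((congrArg (θ • ·) u3).trans (c1 _ _ _ y))
  exact ⟨_, i₁', _, i₂', by omega, r2 (k1.trans l2), ⟨u1, i₁'.2, u2⟩, ⟨v1, i₂'.2, v2⟩, u3, v3,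
    fun t b1 b2 b3 => p1.1 t b1 b2 (u3 ▸ b3), fun t b1 b2 b3 => p1.2 t b1 b2 (e ▸ b3), p2.1, p2.2⟩

theorem lt_smul (o : W G) {t u : Hyp G} (h : Lt 1 t u) : Lt o (o • t) (o • u) := by
  simpa using (aff_lt (tr o)).2 h

theorem lq_smul (o : W G) {t u : Hyp G} (h : Lq 1 t u) : Lq o (o • t) (o • u) :=
  h.imp (congrArg _) (lt_smul o)

end DecAux

open DecAux in
theorem dec (hC : CohStmt) : DecStmt := by
  intro S _ G p n
  refine ⟨4 * (2 * Nat.card (Fin p × Aut G × S × Fin n)) + 4, 70, ?_⟩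
  intro A Y step pos R ℓ a w hE hR hL hV hB σ y γ hw'
  have hg : ∀ σ, d 1 (ptw G (a σ).c (a σ).k) = (a σ).k := fun σ => by rw [(hV σ).word, (hV σ).geo]
  obtain ⟨Mk, m1, m2⟩ := region hC (fun σ => (hV σ).le) hg hB σ
  obtain ⟨ι, i1, i2, i3⟩ := (hV σ).chain
  have hs : ∀ r, r ∈ sep 1 (w σ) ↔ ∃ j < (a σ).k, r = hw G (a σ).c j := fun r => by
    rw [← (hV σ).word, mem_sep (hg σ) le_rfl]
  have hm : ∀ l < D R 1 (w σ), hw G (a σ).c (ι l) ∈ sep 1 (w σ) := fun l hl =>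
    (hs _).2 ⟨_, i1 l hl, rfl⟩
  have hlt : ∀ l l', l < l' → l' < D R 1 (w σ) →
      Lt 1 (hw G (a σ).c (ι l)) (hw G (a σ).c (ι l')) := fun l l' h1 h2 =>
    (lt_or_lt (hm l (by omega)) (hm l' h2) (hR.tb _ _ (i2 l l' h1 h2).2).not_stt).resolve_right
      fun x => (i2 l l' h1 h2).1.not_ge (idx_le (hg σ) (i1 _ h2) (i1 _ (by omega)) (Or.inr x))
  have mono : ∀ l l', l ≤ l' → l' < D R 1 (w σ) → ι l ≤ ι l' := fun l l' h1 h2 =>
    h1.eq_or_lt.elim (fun e => e ▸ le_rfl) fun e => (i2 l l' e h2).1.le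
  have pair : ∀ l, l + 1 < D R 1 (w σ) → ∃ x x', x < (a σ).k ∧ x' < (a σ).k ∧
      LSp G ((a σ).c x) ((a σ).c x') ∧ Lq 1 (hw G (a σ).c (ι l)) (hw G (a σ).c x) ∧
      Lt 1 (hw G (a σ).c x) (hw G (a σ).c x') ∧
      Lq 1 (hw G (a σ).c x') (hw G (a σ).c (ι (l + 1))) := fun l hl => by
    obtain ⟨t, t1, u, u1, h⟩ := hL _ _ (i2 l _ l.lt_succ_self hl).2
    have t2 := lq_of_Btw (hlt l _ l.lt_succ_self hl) t1
    have u2 := lq_of_Btw (hlt l _ l.lt_succ_self hl) u1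
    have t3 := t2.2.mem (hm _ hl)
    have u3 := u2.2.mem (hm _ hl)
    have := lt_or_lt t3 u3 fun x => h.not_mem
      (x.elim (fun e => e ▸ mem_st_self _) fun e => mem_st_of_adj e.adj)
    obtain ⟨x, x1, rfl⟩ := (hs _).1 t3
    obtain ⟨x', x2, rfl⟩ := (hs _).1 u3
    exact this.elim (fun e => ⟨x, x', x1, x2, h, t2.1, e, u2.2⟩)
      fun e => ⟨x', x, x2, x1, h.symm, u2.1, e, t2.2⟩
  have e : pos (run step y γ) = pos y * w σ := by rw [hw', mul_inv_cancel_left]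
  have hD : D R (pos y) (pos y * w σ) = D R 1 (w σ) := by simpa using D_smul hR (pos y) 1 (w σ)
  refine main (K := fun l => pos y • hw G (a σ).c (ι l))
    (Bd := Mk.image fun x => sInf {l | D R 1 (w σ) ≤ l ∨ x < ι l}) hE hR
    ⟨fun l hl => by simpa using (smul_mem_sep (pos y) 1 (w σ)).2 (hm l (hD ▸ hl)),
      fun l l' h1 h2 => lt_smul _ (hlt l l' h1 (hD ▸ h2)),
      fun l l' h1 h2 => hR.inv _ _ _ (i2 l l' h1 (hD ▸ h2)).2⟩ (fun l l₂ h1 h2 h3 => ?_) _ 0 y γ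
    (Nat.zero_le _) e ⟨(ht_le_card _).trans (by simp), by simp, by simp⟩
    ((Finset.card_filter_le _ _).trans (Finset.card_image_le.trans m1))
  rw [hD] at h2
  obtain ⟨j, j1, j2⟩ := i3 l (by omega)
  obtain ⟨τ, hτ, h⟩ := m2 (ι l) (ι l₂) (i1 _ h2) (fun x hx h4 => by
    by_contra h5
    have b1 : sInf {l | D R 1 (w σ) ≤ l ∨ x < ι l} ≤ l₂ + 1 := Nat.sInf_le (by
      by_cases c : l₂ + 1 < D R 1 (w σ)
      · exact Or.inr ((not_lt.1 h5).trans_lt (i2 _ _ l₂.lt_succ_self c).1)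
      · exact Or.inl (not_lt.1 c))
    have b2 := Nat.sInf_mem (s := {l | D R 1 (w σ) ≤ l ∨ x < ι l}) ⟨_, Or.inl le_rfl⟩
    have b3 := h3 _ (Finset.mem_image_of_mem _ hx)
    have b4 := mono (sInf {l | D R 1 (w σ) ≤ l ∨ x < ι l}) l
    rcases b2 with b2 | b2 <;> omega) ⟨j, j1, fun i k1 k2 =>
      ⟨(j2 i k1 k2).1, (j2 i k1 k2).2.trans (mono _ _ (by omega) h2)⟩⟩
  obtain ⟨a₁, a₂, a3, a4, a5, a6, a7, a8⟩ := pair l (by omega)
  obtain ⟨b₁, b₂, b3, b4, b5, b6, b7, b8⟩ := pair (l₂ - 1) (by omega)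
  obtain ⟨t₁, t₂, t3, t4, t5, t6, t7, t8⟩ := pair (l + 3) (by omega)
  rw [Nat.sub_add_cancel (by omega)] at b8
  have a9 := a8.lt (hlt _ (l + 2) (by omega) (by omega))
  have b9 := lt_lq (hlt (l₂ - 2) _ (by omega) (by omega)) b6
  have t9 := lt_lq (hlt (l + 2) _ (by omega) (by omega)) t6
  have t10 := t8.lt (hlt _ (l₂ - 2) (by omega) (by omega))
  obtain ⟨B, hB⟩ := h a₁ a₂ b₁ b₂ (ι (l + 2)) (ι (l₂ - 2))
    (idx_le (hg σ) (i1 _ (by omega)) a3 a6) (idx_le (hg σ) (i1 _ (by omega)) a4 (Or.inr (a6.lt a7)))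
    (idx_le (hg σ) b3 (i1 _ h2) (Or.inr (lt_lq b7 b8))) (idx_le (hg σ) b4 (i1 _ h2) b8)
    (i1 _ (by omega)) (i1 _ (by omega)) a5 b5 a3 a4 (a7.trans a9) a9
    (hlt _ _ (by omega) (by omega)) b9 (b9.trans b7)
  obtain ⟨x₁, x1, y1⟩ := hB _ t9 (t7.trans t10)
  obtain ⟨x₂, x2, y2⟩ := hB _ (t9.trans t7) t10
  obtain ⟨x₃, x3, y3⟩ := hB _ (hlt _ (l₂ - 3) (by omega) (by omega))
    (hlt _ _ (by omega) (by omega))
  refine ⟨_, _, B * (tr (pos y))⁻¹, lq_smul _ t6, lt_smul _ t7, lq_smul _ t8, t5, ?_⟩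
  simp only [← tr_smul_hyp, mul_smul, inv_smul_smul, y1, y2, y3]
  exact hτ.lt_or_gt.imp (fun c => ⟨τ, c, _, _, _, x1, x2, x3, rfl⟩)
    fun c => ⟨τ, c, _, _, _, x1, x2, x3, rfl⟩

end Pool.Agent.MP_735563_an.H66
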