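import Pool.Agent.MP_735563_an.H66.MSpec

set_option autoImplicit false

open scoped Pointwise ENNReal BigOperators

namespace Pool.Agent.MP_735563_an.H66

open Pool.Agent.MP_c34dea_an.H66 Pool.Agent.MP_c34dea_an.H23

namespace EntAux

/-- the union bound -/
theorem ub {α ι : Type} [Finite α] (t : ι → Set α) (b : ℝ) (F : Finset ι) :
    ∀ s : Set α, (∀ x ∈ s, ∃ i ∈ F, x ∈ t i) → (∀ i ∈ F, (((t i).ncard : ℕ) : ℝ) ≤ b) →
      ((s.ncard : ℕ) : ℝ) ≤ F.card * b := by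
  classical
  induction F using Finset.induction_on with
  | empty =>
    intro s h _
    have : s = ∅ := Set.eq_empty_of_forall_notMem fun x hx => by simpa using h x hx
    simp [this]
  | insert a F ha ih =>
    intro s h hb
    have h1 := ih (s \ t a) (fun x hx => by
      obtain ⟨i, hi, hx'⟩ := h x hx.1
      rcases Finset.mem_insert.1 hi with rfl | hi
      · exact absurd hx' hx.2
      · exact ⟨i, hi, hx'⟩) fun i hi => hb i (Finset.mem_insert_of_mem hi)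
    have h2 : s.ncard ≤ (t a).ncard + (s \ t a).ncard :=
      (Set.ncard_le_ncard (fun x hx => by
        by_cases hx' : x ∈ t a
        · exact Or.inl hx'
        · exact Or.inr ⟨hx, hx'⟩) (Set.toFinite _)).trans (Set.ncard_union_le _ _)
    have h3 : ((s.ncard : ℕ) : ℝ) ≤ (t a).ncard + (s \ t a).ncard := by exact_mod_cast h2
    have h4 := hb a (Finset.mem_insert_self _ _)
    rw [Finset.card_insert_of_notMem ha]
    push_cast
    linarith

/-- counting tuples coordinate by coordinate -/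
theorem count {Ω ι : Type} [Finite Ω] [Fintype ι] (rk : ι → ℕ) (Q : ι → (ι → Ω) → Ω → Prop)
    (b : ι → ℝ) (hb0 : ∀ σ, 0 ≤ b σ)
    (hQ : ∀ σ u u' ω, (∀ τ, rk τ < rk σ → u τ = u' τ) → Q σ u ω → Q σ u' ω)
    (hb : ∀ σ u, (({ω | Q σ u ω}.ncard : ℕ) : ℝ) ≤ b σ) :
    (({u : ι → Ω | ∀ σ, Q σ u (u σ)}.ncard : ℕ) : ℝ) ≤ ∏ σ, b σ := by
  classical
  have key : ∀ (u₀ : ι → Ω) (s : Finset ι),
      (({u : ι → Ω | (∀ σ ∉ s, u σ = u₀ σ) ∧ ∀ σ ∈ s, Q σ u (u σ)}.ncard : ℕ) : ℝ) ≤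
        ∏ σ ∈ s, b σ := by
    intro u₀ s
    induction s using Finset.induction_on_max_value rk with
    | empty =>
      have : {u : ι → Ω | (∀ σ ∉ (∅ : Finset ι), u σ = u₀ σ) ∧ ∀ σ ∈ (∅ : Finset ι), Q σ u (u σ)}
          = {u₀} := by
        ext u
        simp [funext_iff]
      rw [this]
      simp
    | insert a s ha hmax ih =>
      set T := {u : ι → Ω | (∀ σ ∉ s, u σ = u₀ σ) ∧ ∀ σ ∈ s, Q σ u (u σ)} with hT
      have h1 := ub (fun v : ι → Ω => Function.update v a '' {ω | Q a v ω}) (b a)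
        (Set.toFinite T).toFinset
        {u : ι → Ω | (∀ σ ∉ insert a s, u σ = u₀ σ) ∧ ∀ σ ∈ insert a s, Q σ u (u σ)}
        (fun u hu => by
          refine ⟨Function.update u a (u₀ a), (Set.Finite.mem_toFinset _).2 ⟨fun σ hσ => ?_,
            fun σ hσ => ?_⟩, u a, ?_, by simp⟩
          · by_cases e : σ = a
            · subst e; simp
            · rw [Function.update_of_ne e]
              exact hu.1 σ (by simp [e, hσ])
          · have e : σ ≠ a := fun e => ha (e ▸ hσ)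
            rw [Function.update_of_ne e]
            refine hQ σ u _ _ (fun τ hτ => ?_) (hu.2 σ (Finset.mem_insert_of_mem hσ))
            rw [Function.update_of_ne]
            rintro rfl
            exact absurd (hmax σ hσ) (not_le.2 hτ)
          · refine hQ a u _ _ (fun τ hτ => ?_) (hu.2 a (Finset.mem_insert_self _ _))
            rw [Function.update_of_ne]
            rintro rfl
            exact lt_irrefl _ hτ)
        (fun v _ => le_trans (by exact_mod_cast Set.ncard_image_le (Set.toFinite _)) (hb a v))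
      rw [← Set.ncard_eq_toFinset_card T (Set.toFinite T)] at h1
      rw [Finset.prod_insert ha, mul_comm]
      exact h1.trans (mul_le_mul_of_nonneg_right ih (hb0 a))
  rcases Set.eq_empty_or_nonempty {u : ι → Ω | ∀ σ, Q σ u (u σ)} with h | ⟨u₀, -⟩
  · rw [h]
    simpa using Finset.prod_nonneg fun σ _ => hb0 σ
  · simpa using key u₀ Finset.univ

variable {S : Type} {G : SimpleGraph S}

theorem refs_congr {p : ℕ} {a a' : Fin p → Dat S} {I : Set (Fin p)} (h : ∀ τ ∈ I, a τ = a' τ) :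
    Refs G a I = Refs G a' I := by
  ext q
  constructor
  · rintro ⟨σ, hσ, hq⟩
    exact ⟨σ, hσ, h σ hσ ▸ hq⟩
  · rintro ⟨σ, hσ, hq⟩
    exact ⟨σ, hσ, (h σ hσ).symm ▸ hq⟩

theorem refs_card {p ℓ : ℕ} (a : Fin p → Dat S) (I : Set (Fin p)) (h : ∀ σ, (a σ).k ≤ ℓ) :
    (Refs G a I).Finite ∧ (Refs G a I).ncard ≤ p * ℓ ^ 3 := by
  let f : Fin p × Fin ℓ × Fin ℓ × Fin ℓ → Hyp G × Hyp G × Hyp G := fun z =>
    (hw G (a z.1).c z.2.1, hw G (a z.1).c z.2.2.1, hw G (a z.1).c z.2.2.2)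
  have hs : Refs G a I ⊆ f '' Set.univ := by
    rintro q ⟨σ, -, i₁, i₂, i₃, h1, h2, h3, rfl⟩
    exact ⟨(σ, ⟨i₁, h1.trans_le (h σ)⟩, ⟨i₂, h2.trans_le (h σ)⟩, ⟨i₃, h3.trans_le (h σ)⟩),
      trivial, rfl⟩
  have hf : (f '' Set.univ).Finite := Set.finite_univ.image f
  refine ⟨hf.subset hs, (Set.ncard_le_ncard hs hf).trans
    ((Set.ncard_image_le Set.finite_univ).trans (le_of_eq ?_))⟩
  rw [Set.ncard_univ]
  simp [pow_succ, mul_assoc]

theorem num {L M : ℕ} (h : 2 * M ≤ L) : ((9 : ℝ) / 2) ^ L * (10 / 9) ^ M ≤ (19 / 4) ^ L := by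
  have h1 : ((10 : ℝ) / 9) ^ M ≤ (19 / 18) ^ L :=
    calc ((10 : ℝ) / 9) ^ M ≤ ((19 / 18) ^ 2) ^ M := pow_le_pow_left₀ (by norm_num) (by norm_num) _
      _ = (19 / 18) ^ (2 * M) := (pow_mul _ _ _).symm
      _ ≤ (19 / 18) ^ L := pow_le_pow_right₀ (by norm_num) h
  calc ((9 : ℝ) / 2) ^ L * (10 / 9) ^ M ≤ (9 / 2) ^ L * (19 / 18) ^ L :=
        mul_le_mul_of_nonneg_left h1 (by positivity)
    _ = (19 / 4) ^ L := by rw [← mul_pow]; norm_num

/-- the count for one order and one vector of free lengths -/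
theorem one {Y X : Type} [Finite X] (step : Y → Fin 5 → Y) (pos : Y → W G)
    (R : Hyp G → Hyp G → Prop) (u₀ n₀ : ℕ) (sec : X → Y) (C : ℝ) (hC0 : 0 ≤ C)
    (hC : ∀ (O : Set (Hyp G × Hyp G × Hyp G)), O.Finite → ∀ (n : ℕ) (y : Y) (ℓ m : ℕ),
      (({γ : Fin ℓ → Fin 5 | Dec step pos R u₀ O n y (List.ofFn γ) m}.ncard : ℕ) : ℝ) ≤
        (C * (O.ncard + 1) * (m + 1)) ^ (n + 1) * 5 ^ ℓ * (9 / 10) ^ ℓ * (10 / 9) ^ m)
    (p ℓ : ℕ) (dd : X × (Fin ℓ → Fin 5) → Dat S) (hk : ∀ i, (dd i).k ≤ ℓ) (rk : Fin p → ℕ)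
    (I : Fin p → Set (Fin p)) (hI : ∀ σ, ∀ τ ∈ I σ, rk τ < rk σ) (m : Fin p → Fin (ℓ + 1))
    (hm : 2 * ∑ σ, (m σ : ℕ) ≤ p * ℓ) :
    (({u : Fin p → X × (Fin ℓ → Fin 5) | ∀ σ, Dec step pos R u₀
      (Refs G (fun τ => dd (u τ)) (I σ)) n₀ (sec (u σ).1) (List.ofFn (u σ).2) (m σ)}.ncard : ℕ) : ℝ)
      ≤ (Nat.card X * (C * (p + 1) * (ℓ + 1) ^ 4) ^ (n₀ + 1)) ^ p * (19 / 4) ^ (p * ℓ) := by
  classical
  have := Fintype.ofFinite X
  set B : ℝ := Nat.card X * (C * (p + 1) * (ℓ + 1) ^ 4) ^ (n₀ + 1) with hB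
  have hB0 : 0 ≤ B := by positivity
  have h1 := count rk (fun σ (u : Fin p → X × (Fin ℓ → Fin 5)) ω => Dec step pos R u₀
      (Refs G (fun τ => dd (u τ)) (I σ)) n₀ (sec ω.1) (List.ofFn ω.2) (m σ))
    (fun σ => B * (9 / 2) ^ ℓ * (10 / 9) ^ (m σ : ℕ)) (fun σ => by positivity)
    (fun σ u u' ω h hd => by
      rwa [refs_congr (a' := fun τ => dd (u' τ)) fun τ hτ => by rw [h τ (hI σ τ hτ)]] at hd)
    (fun σ u => by
      obtain ⟨hf, hc⟩ := refs_card (G := G) (fun τ => dd (u τ)) (I σ) fun τ => hk _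
      set O := Refs G (fun τ => dd (u τ)) (I σ) with hO
      have h2 := ub (fun x : X => (fun γ : Fin ℓ → Fin 5 => (x, γ)) ''
          {γ | Dec step pos R u₀ O n₀ (sec x) (List.ofFn γ) (m σ)})
        ((C * (O.ncard + 1) * ((m σ : ℕ) + 1)) ^ (n₀ + 1) * 5 ^ ℓ * (9 / 10) ^ ℓ *
          (10 / 9) ^ (m σ : ℕ)) Finset.univ
        {ω : X × (Fin ℓ → Fin 5) | Dec step pos R u₀ O n₀ (sec ω.1) (List.ofFn ω.2) (m σ)}
        (fun ω hω => ⟨ω.1, Finset.mem_univ _, ω.2, hω, rfl⟩)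
        (fun x _ => le_trans (by exact_mod_cast Set.ncard_image_le (Set.toFinite _))
          (hC O hf n₀ (sec x) ℓ (m σ)))
      refine h2.trans ?_
      have hl : (0 : ℝ) ≤ ℓ := Nat.cast_nonneg _
      have hp : (0 : ℝ) ≤ p := Nat.cast_nonneg _
      have h3 : ((O.ncard : ℕ) : ℝ) + 1 ≤ (p + 1) * (ℓ + 1) ^ 3 := by
        have h4 : ((O.ncard : ℕ) : ℝ) ≤ p * ℓ ^ 3 := by exact_mod_cast hc
        have h5 : (ℓ : ℝ) ^ 3 ≤ (ℓ + 1) ^ 3 := pow_le_pow_left₀ hl (by linarith) _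
        have h6 : (1 : ℝ) ≤ (ℓ + 1) ^ 3 := one_le_pow₀ (by linarith)
        have h7 := mul_le_mul_of_nonneg_left h5 hp
        linarith
      have h4 : (((m σ : ℕ) : ℕ) : ℝ) + 1 ≤ ℓ + 1 := by exact_mod_cast (m σ).2
      have h5 : C * (O.ncard + 1) * ((m σ : ℕ) + 1) ≤ C * (p + 1) * (ℓ + 1) ^ 4 :=
        calc C * (O.ncard + 1) * ((m σ : ℕ) + 1) ≤ C * ((p + 1) * (ℓ + 1) ^ 3) * (ℓ + 1) := by
              gcongr
          _ = C * (p + 1) * (ℓ + 1) ^ 4 := by ring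
      have h6 := pow_le_pow_left₀ (by positivity) h5 (n₀ + 1)
      have h7 : ((9 : ℝ) / 2) ^ ℓ = 5 ^ ℓ * (9 / 10) ^ ℓ := by rw [← mul_pow]; norm_num
      rw [Finset.card_univ, ← Nat.card_eq_fintype_card, hB, h7]
      calc (Nat.card X : ℝ) * ((C * (O.ncard + 1) * ((m σ : ℕ) + 1)) ^ (n₀ + 1) * 5 ^ ℓ *
            (9 / 10) ^ ℓ * (10 / 9) ^ (m σ : ℕ))
          ≤ Nat.card X * ((C * (p + 1) * (ℓ + 1) ^ 4) ^ (n₀ + 1) * 5 ^ ℓ *
            (9 / 10) ^ ℓ * (10 / 9) ^ (m σ : ℕ)) := by gcongr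
        _ = _ := by ring)
  refine h1.trans ?_
  rw [Finset.prod_mul_distrib, Finset.prod_const, Finset.prod_pow_eq_pow_sum, Finset.card_univ,
    Fintype.card_fin, mul_pow, ← pow_mul, mul_assoc, mul_comm ℓ p]
  exact mul_le_mul_of_nonneg_left (num hm) (pow_nonneg hB0 _)

end EntAux

open EntAux in
theorem ent (hD : DecStmt) (hC : CntStmt) : EntStmt := by
  intro S _ G Y step pos R θ K X _ sec p n hE hA hL h0 h1 hK hG
  classical
  obtain ⟨n₀, u₀, hD⟩ := hD S G p n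
  obtain ⟨C, hC0, hC⟩ := hC S G Y step pos R θ K u₀ hA h0 h1 hK hG
  refine ⟨2 * (Nat.card X * (C * (p + 1)) ^ (n₀ + 1)) ^ p, p + 4 * (n₀ + 1) * p, by positivity,
    fun ℓ dd hV => ?_⟩
  let I : Bool → Fin p → Set (Fin p) := fun s σ => if s then {τ | τ < σ} else {τ | σ < τ}
  let rk : Bool → Fin p → ℕ := fun s σ => if s then σ else p - σ
  have hI : ∀ s σ, ∀ τ ∈ I s σ, rk s τ < rk s σ := by
    intro s σ τ h
    cases s
    · have h' : (σ : ℕ) < τ := h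
      have := τ.2
      show p - τ < p - σ
      omega
    · exact h
  have h2 := ub (fun z : Bool × (Fin p → Fin (ℓ + 1)) =>
      {u : Fin p → X × (Fin ℓ → Fin 5) | ∀ σ, Dec step pos R u₀
        (Refs G (fun τ => dd (u τ)) (I z.1 σ)) n₀ (sec (u σ).1) (List.ofFn (u σ).2) (z.2 σ)})
    ((Nat.card X * (C * (p + 1) * (ℓ + 1) ^ 4) ^ (n₀ + 1)) ^ p * (19 / 4) ^ (p * ℓ))
    (Finset.univ.filter fun z => 2 * ∑ σ, (z.2 σ : ℕ) ≤ p * ℓ)
    {u : Fin p → X × (Fin ℓ → Fin 5) | Bad (fun σ => dd (u σ)) G ℓ n}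
    (fun u hu => by
      have h3 := fun σ => hD (Fin 5) Y step pos R ℓ (fun σ => dd (u σ)) _ hE hA hL
        (fun σ => hV (u σ)) hu σ (sec (u σ).1) (List.ofFn (u σ).2) rfl
      choose m m' hm hd hd' using h3
      simp only [List.length_ofFn] at hm
      have h4 : ∑ σ, m σ + ∑ σ, m' σ ≤ p * ℓ := by
        rw [← Finset.sum_add_distrib]
        simpa using Finset.sum_le_card_nsmul Finset.univ _ ℓ fun σ _ => hm σ
      rcases le_total (∑ σ, m σ) (∑ σ, m' σ) with h | h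
      · exact ⟨(true, fun σ => ⟨m σ, by have := hm σ; omega⟩),
          Finset.mem_filter.2 ⟨Finset.mem_univ _, by show 2 * ∑ σ, m σ ≤ _; omega⟩, hd⟩
      · exact ⟨(false, fun σ => ⟨m' σ, by have := hm σ; omega⟩),
          Finset.mem_filter.2 ⟨Finset.mem_univ _, by show 2 * ∑ σ, m' σ ≤ _; omega⟩, hd'⟩)
    (fun z hz => one step pos R u₀ n₀ sec C hC0 hC p ℓ dd (fun i => (hV i).le) (rk z.1) (I z.1)
      (hI z.1) z.2 (Finset.mem_filter.1 hz).2)
  refine h2.trans ?_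
  have h3 : (((Finset.univ.filter fun z : Bool × (Fin p → Fin (ℓ + 1)) =>
      2 * ∑ σ, (z.2 σ : ℕ) ≤ p * ℓ).card : ℕ) : ℝ) ≤ 2 * (ℓ + 1) ^ p := by
    have := Finset.card_filter_le (Finset.univ : Finset (Bool × (Fin p → Fin (ℓ + 1))))
      fun z => 2 * ∑ σ, (z.2 σ : ℕ) ≤ p * ℓ
    simp only [Finset.card_univ, Fintype.card_prod, Fintype.card_bool, Fintype.card_fun,
      Fintype.card_fin] at this
    exact_mod_cast this
  refine (mul_le_mul_of_nonneg_right h3 (by positivity)).trans (le_of_eq ?_)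
  rw [pow_add ((ℓ : ℝ) + 1) p, pow_mul ((ℓ : ℝ) + 1) (4 * (n₀ + 1)) p, pow_mul ((ℓ : ℝ) + 1) 4 (n₀ + 1),
    mul_pow (C * (p + 1)), ← mul_assoc (Nat.card X : ℝ), mul_pow _ _ p]
  ring

end Pool.Agent.MP_735563_an.H66
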