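import Pool.Agent.MP_735563_an.H66.Spec

set_option autoImplicit false

open scoped Pointwise

namespace Pool.Agent.MP_735563_an.H66

open Pool.Agent.MP_c34dea_an.H66 Pool.Agent.MP_c34dea_an.H23
open Pool.Agent.MP_c34dea_an.H6 (clS GP labP clS_eq Con)

namespace Eqv

variable {S : Type} {G : SimpleGraph S} {𝒮 : Set (Set (Hyp G))} {N : Subgroup (W G)}

/-- the action on classes -/
noncomputable def qm (hN : ∀ A : Aff G, ∀ n ∈ N, A.t * A.θ • n * A.t⁻¹ ∈ N) (A : Aff G) :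
    Quotient (clS N) → Quotient (clS N) :=
  Quotient.map (A • ·) fun _ _ h => by
    obtain ⟨v, hv, rfl⟩ := clS_eq.1 (Quotient.sound h)
    exact Quotient.exact (clS_eq.2 ⟨_, hN A v hv, aff_smul_smul A v _⟩)

variable (hN : ∀ A : Aff G, ∀ n ∈ N, A.t * A.θ • n * A.t⁻¹ ∈ N)

theorem qm_mk (A : Aff G) (h : Hyp G) :
    qm hN A (Quotient.mk (clS N) h) = Quotient.mk (clS N) (A • h) := rfl

theorem qm_mul (A B : Aff G) (c : Quotient (clS N)) : qm hN (A * B) c = qm hN A (qm hN B c) := by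
  induction c using Quotient.inductionOn
  rw [qm_mk, qm_mk, qm_mk, mul_smul]

theorem qm_one (c : Quotient (clS N)) : qm hN 1 c = c := by
  induction c using Quotient.inductionOn
  rw [qm_mk, one_smul]

/-- the permutation of the classes -/
noncomputable def pm (A : Aff G) : Equiv.Perm (Quotient (clS N)) where
  toFun := qm hN A
  invFun := qm hN A⁻¹
  left_inv c := by rw [← qm_mul, inv_mul_cancel, qm_one]
  right_inv c := by rw [← qm_mul, mul_inv_cancel, qm_one]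

theorem adj {A : Aff G} (hA : ∀ T ∈ 𝒮, A • T ∈ 𝒮) {a b : Quotient (clS N)}
    (h : (GP 𝒮 N).Adj a b) : (GP 𝒮 N).Adj (pm hN A a) (pm hN A b) := by
  obtain ⟨h0, t, u, rfl, rfl, h⟩ := h
  refine ⟨fun e => h0 ((pm hN A).injective e), A • t, A • u, rfl, rfl, ?_⟩
  rcases h with (rfl | h) | ⟨T, h1, h2, h3⟩
  · exact Or.inl (Or.inl rfl)
  · exact Or.inl (Or.inr ((aff_cross A).2 h))
  · exact Or.inr ⟨A • T, hA T h1, Set.smul_mem_smul_set h2, Set.smul_mem_smul_set h3⟩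

end Eqv

open Eqv in
theorem eqv : EqStmt := by
  intro S _ G 𝒮 𝒜 h𝒜 N₁ ⟨n1, n2⟩
  classical
  let N : Subgroup (W G) := ⨅ θ : Aut G, N₁.comap (MulDistribMulAction.toMonoidHom (W G) θ)
  have mem : ∀ n, n ∈ N ↔ ∀ θ : Aut G, θ • n ∈ N₁ := fun n => Subgroup.mem_iInf
  have nm : N.Normal := Subgroup.normal_iInf_normal fun _ => inferInstance
  have hN : ∀ A : Aff G, ∀ n ∈ N, A.t * A.θ • n * A.t⁻¹ ∈ N := fun A n hn =>
    nm.conj_mem _ ((mem _).2 fun θ => by rw [← mul_smul]; exact (mem _).1 hn _) _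
  have ad : ∀ A ∈ 𝒜, ∀ a b, (GP 𝒮 N).Adj (pm hN A a) (pm hN A b) ↔ (GP 𝒮 N).Adj a b :=
    fun A hA a b => ⟨fun h => by
      have := adj hN (h𝒜 _ (𝒜.inv_mem hA)) h
      rwa [show pm hN A⁻¹ (pm hN A a) = a from (pm hN A).left_inv a,
        show pm hN A⁻¹ (pm hN A b) = b from (pm hN A).left_inv b] at this, adj hN (h𝒜 A hA)⟩
  let Φ : Aff G → Aff (GP 𝒮 N) := fun A =>
    if h : A ∈ 𝒜 then ⟨(labP 𝒮 N).phi A.t, Aut.mk' (pm hN A) (ad A h)⟩ else 1
  have ht : ∀ A ∈ 𝒜, (Φ A).t = (labP 𝒮 N).phi A.t := fun A h => by simp [Φ, h]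
  have hθ : ∀ A ∈ 𝒜, ∀ c, (Φ A).θ • c = qm hN A c := fun A h c => by
    simp only [Φ, dif_pos h]; rfl
  have key : ∀ A ∈ 𝒜, ∀ p : W G, (labP 𝒮 N).phi (A • p) = Φ A • (labP 𝒮 N).phi p := by
    intro A hA p
    induction p using W_ind with
    | h1 => rw [Lab.phi_one, aff_one, aff_one, ht A hA]
    | hs p s ih =>
      rw [aff_mul_gen, Lab.phi_mul_gen, Lab.phi_mul_gen, aff_mul_gen, ih, ← aff_hyp, hθ A hA]
      rfl
  refine ⟨N, ⟨nm, Subgroup.finiteIndex_iInf fun θ => ⟨by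
      rw [Subgroup.index_comap_of_surjective _ (MulAction.surjective θ)]; exact n2.1⟩⟩,
    fun n hn => by simpa using (mem n).1 hn 1, Φ, ?_, fun A hA B hB => ?_, key⟩
  · refine Aff.ext ?_ (Aut.ext' fun c => ?_)
    · rw [ht 1 𝒜.one_mem]; exact Lab.phi_one _
    · rw [hθ 1 𝒜.one_mem, qm_one, Aff.one_θ, one_smul]
  · refine Aff.ext ?_ (Aut.ext' fun c => ?_)
    · rw [ht _ (𝒜.mul_mem hA hB), Aff.mul_t, Aff.mul_t, ← aff_def, ← aff_def, key A hA, ht B hB]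
    · rw [hθ _ (𝒜.mul_mem hA hB), qm_mul, Aff.mul_θ, mul_smul, hθ A hA, hθ B hB]

end Pool.Agent.MP_735563_an.H66
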