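import Pool.Agent.MP_735563_an.H66.Spec
import Pool.Agent.MP_c34dea_an.H23.Faith
import Pool.Agent.MP_c34dea_an.H23.Thin

set_option autoImplicit false

open scoped Pointwise ENNReal

namespace Pool.Agent.MP_735563_an.H66

open Pool.Agent.MP_c34dea_an Pool.Agent.MP_c34dea_an.H66 Pool.Agent.MP_c34dea_an.H23

namespace FA

variable {S : Type} {G : SimpleGraph S} {Γ X : Type} [Group Γ] [MulAction Γ X] {r : ℕ}

theorem walk_reduce (Z : PF r Γ X) {w : List (Fin r × Bool)} {b : X} {g : Γ} (h : Z.walk w b = some g) :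
    ∃ w', FreeGroup.IsReduced w' ∧ Z.walk w' b = some g := by
  induction w generalizing b g with
  | nil => exact ⟨[], by simp, h⟩
  | cons l w ih =>
    obtain ⟨g1, k, h1, h2, rfl⟩ := Z.walk_cons_eq_some.1 h
    obtain ⟨w', hr, hw⟩ := ih h2
    cases w' with
    | nil => exact ⟨[l], by simp, Z.walk_cons_eq_some.2 ⟨g1, k, h1, hw, rfl⟩⟩
    | cons l' w1 =>
      by_cases c : l.1 = l'.1 → l.2 = l'.2
      · exact ⟨l :: l' :: w1, FreeGroup.isReduced_cons_cons.2 ⟨c, hr⟩,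
          Z.walk_cons_eq_some.2 ⟨g1, k, h1, hw, rfl⟩⟩
      · have e : l' = (l.1, !l.2) := by
          obtain ⟨a, b⟩ := l
          obtain ⟨a', b'⟩ := l'
          simp only [Classical.not_imp] at c
          obtain ⟨rfl, c⟩ := c
          cases b <;> cases b' <;> simp_all
        obtain ⟨g2, k', h3, h4, rfl⟩ := Z.walk_cons_eq_some.1 hw
        rw [e, Z.symm' h1] at h3
        obtain rfl := Option.some.inj h3
        refine ⟨w1, List.IsChain.tail hr, ?_⟩
        rw [inv_smul_smul] at h4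
        rw [h4]
        simp

theorem walk_inv (Z : PF r Γ X) {w : List (Fin r × Bool)} {b : X} {g : Γ} (h : Z.walk w b = some g) :
    ∃ w', Z.walk w' (g • b) = some g⁻¹ := by
  induction w generalizing b g with
  | nil =>
    obtain rfl := Option.some.inj h
    exact ⟨[], by simp⟩
  | cons l w ih =>
    obtain ⟨g1, k, h1, h2, rfl⟩ := Z.walk_cons_eq_some.1 h
    obtain ⟨w', hw⟩ := ih h2
    refine ⟨w' ++ [(l.1, !l.2)], Z.walk_append_eq_some.2 ⟨k⁻¹, g1⁻¹, by rwa [mul_smul], ?_, by group⟩⟩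
    refine Z.walk_cons_eq_some.2 ⟨g1⁻¹, 1, ?_, rfl, by simp⟩
    rw [mul_smul, inv_smul_smul]
    exact Z.symm' h1

theorem walk_take (Z : PF r Γ X) {w : List (Fin r × Bool)} {b : X} {g : Γ} (h : Z.walk w b = some g)
    (i : ℕ) : ∃ g', Z.walk (w.take i) b = some g' := by
  rw [← List.take_append_drop i w] at h
  obtain ⟨g', -, h1, -⟩ := Z.walk_append_eq_some.1 h
  exact ⟨g', h1⟩

variable {δ : Γ → X → W G} {Z : PF r Γ X}

theorem pt_eq {υ : W G × X} {w : List (Fin r × Bool)} {g : Γ} (h : Z.walk w υ.2 = some g) :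
    ptR δ Z υ w = υ.1 * δ g υ.2 := by
  unfold ptR
  rw [h]
  rfl

theorem pt_mem {υ : W G × X} {w : List (Fin r × Bool)} {g : Γ} (h : Z.walk w υ.2 = some g) :
    ptR δ Z υ w ∈ TreeR δ Z υ := ⟨w, g, h, pt_eq h⟩

theorem self_mem (hδ : Coc δ) (υ : W G × X) : υ.1 ∈ TreeR δ Z υ :=
  ⟨[], 1, rfl, by rw [hδ.one, mul_one]⟩

theorem tree_sub (hδ : Coc δ) {υ : W G × X} {w : List (Fin r × Bool)} {g : Γ} (h : Z.walk w υ.2 = some g) :
    TreeR δ Z (υ.1 * δ g υ.2, g • υ.2) ⊆ TreeR δ Z υ := by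
  rintro _ ⟨w', g', h', rfl⟩
  exact ⟨w ++ w', g' * g, Z.walk_append_eq_some.2 ⟨g, g', h, h', rfl⟩, by rw [hδ.mul, mul_assoc]⟩

theorem tree_eq (hδ : Coc δ) {υ : W G × X} {w : List (Fin r × Bool)} {g : Γ} (h : Z.walk w υ.2 = some g) :
    TreeR δ Z (υ.1 * δ g υ.2, g • υ.2) = TreeR δ Z υ := by
  refine Set.Subset.antisymm (tree_sub hδ h) ?_
  obtain ⟨w', hw⟩ := walk_inv Z h
  have := tree_sub hδ (υ := (υ.1 * δ g υ.2, g • υ.2)) hw
  simp only [inv_smul_smul] at this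
  rwa [mul_assoc, ← hδ.mul, inv_mul_cancel, hδ.one, mul_one] at this

theorem tree_smul (c a : W G) (b : X) : TreeR δ Z (c * a, b) = c • TreeR δ Z (a, b) := by
  ext α
  constructor
  · rintro ⟨w, g, h, rfl⟩
    exact ⟨a * δ g b, ⟨w, g, h, rfl⟩, by simp [mul_assoc]⟩
  · rintro ⟨_, ⟨w, g, h, rfl⟩, rfl⟩
    exact ⟨w, g, h, by simp [mul_assoc]⟩

/-- the hull of a tree stays within bounded distance of the tree -/
theorem hull [Finite S] (hC : LocStmt) {L s g ν : ℕ} (hδ : Coc δ) (hs : 1 ≤ s) (hsg : s ≤ g)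
    (hν : 3 ≤ ν) (hZ : ZProgR δ Z L s g ν) : ∃ M : ℕ, ∀ (υ : W G × X) (p : W G),
      (∀ k ∈ sep υ.1 p, k ∈ WH (TreeR δ Z υ)) → ∃ a ∈ TreeR δ Z υ, d a p ≤ M := by
  classical
  let U : Finset (Hyp G) := (ball_finite (1 : W G) (2 * g * L)).toFinset.biUnion fun y => sep 1 y
  refine ⟨U.card, fun υ p hp => ?_⟩
  have hex : ∃ n, ∃ a ∈ TreeR δ Z υ, d p a = n := ⟨_, υ.1, self_mem hδ υ, rfl⟩
  obtain ⟨a, ha, e⟩ := Nat.find_spec hex
  have hmin : ∀ y ∈ TreeR δ Z υ, d p a ≤ d p y := fun y hy => by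
    rw [e]; exact Nat.find_min' hex ⟨y, hy, rfl⟩
  refine ⟨a, ha, ?_⟩
  have hU : ∀ y, d a y ≤ 2 * g * L → ∀ h ∈ sep a y, a⁻¹ • h ∈ U := by
    intro y hy h hh
    refine Finset.mem_biUnion.2 ⟨a⁻¹ * y, ?_, ?_⟩
    · rw [Set.Finite.mem_toFinset]
      show d 1 (a⁻¹ * y) ≤ 2 * g * L
      rwa [← d_smul a, mul_one, mul_inv_cancel_left]
    · rw [← smul_mem_sep a⁻¹] at hh
      simpa using hh
  have key : ∀ h ∈ sep a p, a⁻¹ • h ∈ U := by
    intro h hh
    have hW : h ∈ WH (TreeR δ Z υ) := by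
      rw [mem_sep_trans a υ.1 p] at hh
      rcases hh with hh | hh
      · exact ⟨a, ha, υ.1, self_mem hδ υ, hh.1⟩
      · exact hp h hh.1
    have hy : ∃ y ∈ TreeR δ Z υ, h ∈ sep a y := by
      obtain ⟨y, hy, y', hy', hyy⟩ := hW
      rw [mem_sep_trans y a y', sep_comm y a] at hyy
      rcases hyy with c | c
      · exact ⟨y, hy, c.1⟩
      · exact ⟨y', hy', c.1⟩
    obtain ⟨y, hy, hay⟩ := hy
    obtain ⟨w0, g0, hw0, ea⟩ := ha
    have eT := tree_eq hδ hw0
    rw [← ea] at eT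
    rw [← eT] at hy hmin
    obtain ⟨w1, g1, hw1, ey⟩ := hy
    obtain ⟨w, hr, hw⟩ := walk_reduce Z hw1
    have hP := hZ (a, g0 • υ.2) w hr (by rw [hw]; rfl)
    set x : ℕ → W G := fun i => ptR δ Z (a, g0 • υ.2) (w.take i) with hx
    have x0 : x 0 = a := by
      simp only [hx, List.take_zero]
      rw [pt_eq (g := 1) rfl, hδ.one, mul_one]
    have xn : x w.length = y := by
      simp only [hx, List.take_length]
      rw [pt_eq hw, ey]
    have xT : ∀ i, x i ∈ TreeR δ Z (a, g0 • υ.2) := fun i => by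
      obtain ⟨g', hg'⟩ := walk_take Z hw i
      exact pt_mem hg'
    rw [← x0, ← xn] at hay
    obtain ⟨m, -, m2, m3⟩ := LocAux.exists_step_of_sep x (Nat.zero_le _) hay
    have hm : m < 2 * g := by
      by_contra hc
      have := FaithAux.closer hC hs hsg hν hP m2 (by omega) (p := p) (by rw [x0]; exact hh) m3
      rw [x0] at this
      exact absurd (hmin _ (xT g)) (by omega)
    have d1 := FaithAux.d_le_of_step hP.step m2.le
    have d2 := FaithAux.d_le_of_step hP.step (m := m + 1) m2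
    have d3 : m * L ≤ 2 * g * L := Nat.mul_le_mul_right L hm.le
    have d4 : (m + 1) * L ≤ 2 * g * L := Nat.mul_le_mul_right L hm
    rw [x0] at d1 d2
    rw [mem_sep_trans (x m) a, sep_comm (x m) a] at m3
    rcases m3 with c | c
    · exact hU _ (d1.trans d3) h c.1
    · exact hU _ (d2.trans d4) h c.1
  exact Finset.card_le_card_of_injOn (fun h => a⁻¹ • h) key
    (fun h _ h' _ e => smul_left_cancel a⁻¹ e)

/-- faithfulness for the tree through `(1, b)` -/
theorem faith_one [Finite S] [Finite X] (hC : LocStmt) {L s g ν : ℕ} (hδ : Coc δ) (hs : 1 ≤ s)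
    (hsg : s ≤ g) (hν : 3 ≤ ν) (hZ : ZProgR δ Z L s g ν) (R : ℕ) (b : X) :
    ∃ N : Subgroup (W G), N.Normal ∧ N.FiniteIndex ∧
      ∀ (t u : Hyp G) (y y' n : W G), H6.Br t u y y' → d y y' ≤ R → n ∈ N →
        t ∈ WH (TreeR δ Z (1, b)) → n • u ∈ WH (TreeR δ Z (1, b)) →
        ∃ c : W G, c • t ∈ WH (TreeR δ Z (1, b)) ∧ c • u ∈ WH (TreeR δ Z (1, b)) := by
  classical
  obtain ⟨M, hM⟩ := hull hC hδ hs hsg hν hZ
  have hrep : ∀ b' : X, ∃ α : W G, (∃ α', TreeR δ Z (α', b') = TreeR δ Z (1, b)) →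
      TreeR δ Z (α, b') = TreeR δ Z (1, b) := by
    intro b'
    by_cases c : ∃ α', TreeR δ Z (α', b') = TreeR δ Z (1, b)
    · exact ⟨c.choose, fun _ => c.choose_spec⟩
    · exact ⟨1, fun h => absurd h c⟩
  choose rep hrep using hrep
  refine H6.faith_of_hull (A := WH (TreeR δ Z (1, b)))
    (Ω := {p | ∀ k ∈ sep 1 p, k ∈ WH (TreeR δ Z (1, b))})
    (F := ⋃ b' : X, {q | d (rep b') q ≤ M}) ?_ ?_ ?_
    (Set.finite_iUnion fun b' => ball_finite _ _) ?_ R
  · intro p hp q hq k hk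
    rw [mem_sep_trans 1 p q] at hk
    rcases hk with hk | hk
    · exact hp k hk.1
    · exact hq k hk.1
  · intro p hp q hq k hk
    rw [mem_sep_trans p 1 q, sep_comm p 1] at hk
    rcases hk with hk | hk
    · exact hp k hk.1
    · exact hq k hk.1
  · rintro t ⟨a, ha, a', ha', ht⟩
    obtain ⟨z, hz, hcz, -, -⟩ := exists_cross_pt ht
    refine ⟨z, fun k hk => ?_, hcz⟩
    rw [mem_sep_trans 1 a z] at hk
    rcases hk with hk | hk
    · exact ⟨1, self_mem hδ (1, b), a, ha, hk.1⟩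
    · exact ⟨a, ha, a', ha', hz hk.1⟩
  · intro p hp
    obtain ⟨a, ⟨w, g0, hw, ea⟩, hd⟩ := hM (1, b) p hp
    have eT := tree_eq hδ hw
    rw [← ea] at eT
    have eR := hrep _ ⟨a, eT⟩
    set α := rep (g0 • b) with hα
    have eS : (a * α⁻¹) • TreeR δ Z (1, b) = TreeR δ Z (1, b) := by
      conv_lhs => rw [← eR]
      rw [← tree_smul, inv_mul_cancel_right]
      exact eT
    refine ⟨a * α⁻¹, fun k => ?_, Set.mem_iUnion.2 ⟨g0 • b, ?_⟩⟩
    · conv_lhs => rw [← eS]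
      exact smul_mem_WH _
    · show d α ((a * α⁻¹)⁻¹ * p) ≤ M
      rwa [← d_smul (a * α⁻¹), mul_inv_cancel_left, inv_mul_cancel_right]
end FA

theorem faithR : FaithRStmt := by
  have hC : LocStmt := loc
  intro r S _ G Γ X _ _ _ δ Z L s g ν hδ hs hsg hν hZ R
  choose N hN1 hN2 hN3 using FA.faith_one hC hδ hs hsg (by omega) hZ R
  refine ⟨⨅ b, N b, ⟨Subgroup.normal_iInf_normal hN1, Subgroup.finiteIndex_iInf hN2⟩, ?_⟩
  rintro t u ⟨z, hz, z', hz', hd⟩ hne hnc ⟨c, b⟩ n hn ht hu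
  obtain ⟨y, y', hb⟩ := H6.exists_br (t := t) (u := u) (by
    rintro (e | e)
    · exact hne e.symm
    · exact hnc e)
  have eT : TreeR δ Z (c, b) = c • TreeR δ Z (1, b) := by rw [← FA.tree_smul, mul_one]
  rw [eT] at ht hu
  have hn' : c⁻¹ * n * c⁻¹⁻¹ ∈ N b := (hN1 b).conj_mem _ (Subgroup.mem_iInf.1 hn b) _
  obtain ⟨e, h1, h2⟩ := hN3 b (c⁻¹ • t) (c⁻¹ • u) _ _ _ (hb.smul c⁻¹)
    (by rw [d_smul]; exact (hb.d_le hz hz').trans hd) hn'
    (by rw [← smul_mem_WH c]; simpa using ht)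
    (by rw [← smul_mem_WH c]; simpa [mul_smul] using hu)
  refine ⟨((e * c⁻¹)⁻¹ * 1, b), ?_, ?_⟩
  · rw [FA.tree_smul, ← smul_mem_WH (e * c⁻¹), smul_inv_smul, mul_smul]
    exact h1
  · rw [FA.tree_smul, ← smul_mem_WH (e * c⁻¹), smul_inv_smul, mul_smul]
    exact h2

namespace TA

open Pool.Agent.MP_c34dea_an.H23.Thin

variable {S : Type} {G : SimpleGraph S} {Γ X : Type} [Group Γ] [MulAction Γ X] {r : ℕ}

section Trees

variable {δ : Γ → X → W G} {Z : PF r Γ X}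

theorem exists_reducedR : ∀ (w : List (Fin r × Bool)) (b : X) (g : Γ), Z.walk w b = some g →
    ∃ w', FreeGroup.IsReduced w' ∧ Z.walk w' b = some g
  | [], _, _, h => ⟨[], FreeGroup.IsReduced.nil, h⟩
  | l :: w, b, g, h => by
    obtain ⟨g1, k, h1, h2, rfl⟩ := Z.walk_cons_eq_some.1 h
    obtain ⟨w', hr, h3⟩ := exists_reducedR w _ k h2
    cases w' with
    | nil => exact ⟨[l], FreeGroup.IsReduced.singleton, Z.walk_cons_eq_some.2 ⟨g1, k, h1, h3, rfl⟩⟩
    | cons l' w1 =>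
      by_cases c : l.1 = l'.1 → l.2 = l'.2
      · exact ⟨l :: l' :: w1, List.isChain_cons_cons.2 ⟨c, hr⟩,
          Z.walk_cons_eq_some.2 ⟨g1, k, h1, h3, rfl⟩⟩
      · obtain ⟨g2, k2, h4, h5, rfl⟩ := Z.walk_cons_eq_some.1 h3
        have e : l' = (l.1, !l.2) := by
          rw [Classical.not_imp] at c
          refine Prod.ext c.1.symm ?_
          have := c.2
          revert this
          cases l.2 <;> cases l'.2 <;> simp
        have h6 := Z.symm' h1
        rw [← e, h4] at h6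
        have e2 : g2 = g1⁻¹ := Option.some.inj h6
        subst e2
        refine ⟨w1, List.IsChain.tail hr, ?_⟩
        simpa using h5

theorem exists_invR : ∀ (w : List (Fin r × Bool)) (b : X) (g : Γ), Z.walk w b = some g →
    ∃ w', Z.walk w' (g • b) = some g⁻¹
  | [], _, _, h => by
    obtain rfl : (1 : Γ) = _ := Option.some.inj h
    exact ⟨[], by simp⟩
  | l :: w, b, g, h => by
    obtain ⟨g1, k, h1, h2, rfl⟩ := Z.walk_cons_eq_some.1 h
    obtain ⟨w', h3⟩ := exists_invR w _ k h2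
    refine ⟨w' ++ [(l.1, !l.2)], Z.walk_append_eq_some.2 ⟨k⁻¹, g1⁻¹, by rwa [mul_smul], ?_, by simp⟩⟩
    refine Z.walk_cons_eq_some.2 ⟨g1⁻¹, 1, ?_, rfl, by simp⟩
    simpa [mul_smul] using Z.symm' h1

/-- the state after reading a word -/
noncomputable def nxR (δ : Γ → X → W G) (Z : PF r Γ X) (υ : W G × X) (w : List (Fin r × Bool)) : W G × X :=
  (ptR δ Z υ w, (Z.walk w υ.2).getD 1 • υ.2)

theorem nx_appendR (hδ : Coc δ) {υ : W G × X} {w1 w2 : List (Fin r × Bool)}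
    (h : (Z.walk (w1 ++ w2) υ.2).isSome) :
    (Z.walk w2 (nxR δ Z υ w1).2).isSome ∧ nxR δ Z (nxR δ Z υ w1) w2 = nxR δ Z υ (w1 ++ w2) := by
  obtain ⟨k, hk⟩ := Option.isSome_iff_exists.1 h
  obtain ⟨g, k', h1, h2, rfl⟩ := Z.walk_append_eq_some.1 hk
  simp only [nxR, ptR, h1, h2, hk, Option.getD_some, Option.isSome_some, true_and, hδ.mul, mul_smul,
    mul_assoc]

theorem isSome_takeR {b : X} {w : List (Fin r × Bool)} (h : (Z.walk w b).isSome) (i : ℕ) :
    (Z.walk (w.take i) b).isSome := by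
  obtain ⟨k, hk⟩ := Option.isSome_iff_exists.1 h
  rw [← List.take_append_drop i w] at hk
  obtain ⟨g, k', h1, -, -⟩ := Z.walk_append_eq_some.1 hk
  rw [h1]
  rfl

theorem tree_nearR (hδ : Coc δ) {L s g ν : ℕ} (hZ : ZProgR δ Z L s g ν) {υ : W G × X} {t : Hyp G}
    (ht : t ∈ WH (TreeR δ Z υ)) {z : W G} (hz : z ∈ car t) :
    ∃ w g, Z.walk w υ.2 = some g ∧ D TB0 z (υ.1 * δ g υ.2) ≤ L + 1 := by
  have key : ∀ a ∈ TreeR δ Z υ, t ∈ sep υ.1 a →
      ∃ w g, Z.walk w υ.2 = some g ∧ D TB0 z (υ.1 * δ g υ.2) ≤ L + 1 := by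
    rintro _ ⟨w, g0, h1, rfl⟩ h2
    obtain ⟨w', hr, h3⟩ := exists_reducedR w _ _ h1
    have hs : (Z.walk w' υ.2).isSome := by rw [h3]; rfl
    have P := hZ υ w' hr hs
    obtain ⟨i, -, a2, a3⟩ := exists_block (x := fun i => ptR δ Z υ (w'.take i)) (H := t) (i := 0)
      w'.length (Nat.zero_le _) (by simpa [ptR, hδ.one, h3] using h2)
    obtain ⟨k, hk⟩ := Option.isSome_iff_exists.1 (isSome_takeR hs i)
    refine ⟨w'.take i, k, hk, ?_⟩
    have c1 := D_close adm_tb0 a3 hz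
    have c2 := P.step i a2
    simp only [ptR, hk, Option.getD_some] at c1 c2
    omega
  obtain ⟨a, ha, b, hb, h⟩ := ht
  rw [mem_sep_trans a υ.1 b, sep_comm a] at h
  rcases h with h | h
  · exact key a ha h.1
  · exact key b hb h.1

theorem exists_pathR (hδ : Coc δ) {L s g ν : ℕ} (hZ : ZProgR δ Z L s g ν) {t u : Hyp G}
    (h : ETR δ Z t u) {z z' : W G} (hz : z ∈ car t) (hz' : z' ∈ car u) :
    ∃ (υ : W G × X) (w : List (Fin r × Bool)), FreeGroup.IsReduced w ∧ (Z.walk w υ.2).isSome ∧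
      D TB0 z (ptR δ Z υ (w.take 0)) ≤ L + 1 ∧ D TB0 z' (ptR δ Z υ (w.take w.length)) ≤ L + 1 := by
  obtain ⟨υ, ht, hu⟩ := h
  obtain ⟨w1, g1, a1, a2⟩ := tree_nearR hδ hZ ht hz
  obtain ⟨w2, g2, b1, b2⟩ := tree_nearR hδ hZ hu hz'
  obtain ⟨w3, c1⟩ := exists_invR w1 _ _ a1
  have c2 : Z.walk (w3 ++ w2) (g1 • υ.2) = some (g2 * g1⁻¹) :=
    Z.walk_append_eq_some.2 ⟨g1⁻¹, g2, c1, by simpa using b1, rfl⟩
  obtain ⟨w, hr, c3⟩ := exists_reducedR _ _ _ c2
  refine ⟨(υ.1 * δ g1 υ.2, g1 • υ.2), w, hr, by rw [c3]; rfl, by simpa [ptR, hδ.one] using a2, ?_⟩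
  have c4 := hδ.mul (g2 * g1⁻¹) g1 υ.2
  rw [inv_mul_cancel_right] at c4
  simp only [List.take_length, ptR, c3, Option.getD_some]
  rw [mul_assoc, ← c4]
  exact b2
end Trees

variable {A Y : Type}

/-- words that follow the tree for `q` long steps -/
def EvR (δ : Γ → X → W G) (Z : PF r Γ X) (step : Y → A → Y) (pos : Y → W G) (k u3 u4 : ℕ) :
    ℕ → W G × X → Y → List A → Prop
  | 0, _, ζ, γ => D TB0 (pos ζ) (pos (run step ζ γ)) ≤ u4
  | q + 1, υ, ζ, γ => ∃ w, (w.length = k ∧ FreeGroup.IsReduced w ∧ (Z.walk w υ.2).isSome) ∧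
      ∃ γ1 γ2, γ = γ1 ++ γ2 ∧ D TB0 (pos (run step ζ γ1)) (ptR δ Z υ w) ≤ u3 ∧
        EvR δ Z step pos k u3 u4 q (nxR δ Z υ w) (run step ζ γ1) γ2

variable {δ : Γ → X → W G} {Z : PF r Γ X} {step : Y → A → Y} {pos : Y → W G} {x : ℝ≥0∞}

open Classical in
theorem ev_leR {k u3 u4 : ℕ} {C : ℝ≥0∞}
    (hC : ∀ y, Gr step x y (fun y' => D TB0 (pos y) (pos y') ≤ u4) ≤ C)
    (hF : ∀ υ : W G × X, ∑' w : List (Fin r × Bool),
      (if w.length = k ∧ FreeGroup.IsReduced w ∧ (Z.walk w υ.2).isSome then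
        Fh step pos x u3 υ.1 (ptR δ Z υ w) else 0) ≤ 1 / 2) (q : ℕ) :
    ∀ (υ : W G × X) (ζ : Y), D TB0 (pos ζ) υ.1 ≤ u3 →
      sm x (EvR δ Z step pos k u3 u4 q υ ζ) ≤ (2⁻¹) ^ q * C := by
  induction q with
  | zero =>
    intro υ ζ _
    rw [pow_zero, one_mul]
    exact hC ζ
  | succ q ih =>
    intro υ ζ hζ
    refine le_trans (sm_cover (ι := List (Fin r × Bool)) (Q := fun w γ =>
      (w.length = k ∧ FreeGroup.IsReduced w ∧ (Z.walk w υ.2).isSome) ∧
      ∃ γ1 γ2, γ = γ1 ++ γ2 ∧ D TB0 (pos (run step ζ γ1)) (ptR δ Z υ w) ≤ u3 ∧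
        EvR δ Z step pos k u3 u4 q (nxR δ Z υ w) (run step ζ γ1) γ2) fun γ c => c) ?_
    have h1 := mul_le_mul_left (hF υ) ((2⁻¹) ^ q * C)
    rw [← ENNReal.tsum_mul_right] at h1
    refine le_trans (ENNReal.tsum_le_tsum fun w => ?_) (h1.trans (le_of_eq ?_))
    · by_cases c : w.length = k ∧ FreeGroup.IsReduced w ∧ (Z.walk w υ.2).isSome
      · rw [if_pos c]
        refine le_trans (sm_split
          (Q := fun γ1 => D TB0 (pos (run step ζ γ1)) (ptR δ Z υ w) ≤ u3)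
          (R := fun γ1 γ2 => EvR δ Z step pos k u3 u4 q (nxR δ Z υ w) (run step ζ γ1) γ2)
          (fun γ h => h.2) fun γ1 h => ih _ _ h) (mul_le_mul_left ?_ _)
        exact le_iSup₂ (f := fun (ζ : Y) (_ : D TB0 (pos ζ) υ.1 ≤ u3) =>
          Gr step x ζ (fun ζ' => D TB0 (pos ζ') (ptR δ Z υ w) ≤ u3)) ζ hζ
      · rw [sm_false fun γ h => c h.1]
        exact zero_le
    · rw [pow_succ', one_div, mul_assoc]

theorem ev_exR (hδ : Coc δ) (hE : Edge step pos) {L g ν k : ℕ} (hg : 1 ≤ g) (hk : 2 * g ≤ k)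
    {υ : W G × X} {w : List (Fin r × Bool)} (hr : FreeGroup.IsReduced w) (hs : (Z.walk w υ.2).isSome)
    (h : Lw (fun i => ptR δ Z υ (w.take i)) w.length L g ν) {z' : W G}
    (hz : D TB0 z' (ptR δ Z υ (w.take w.length)) ≤ L + 1) (m : ℕ) :
    ∀ j ζ γ, j ≤ w.length → w.length - j = m → pos (run step ζ γ) = z' →
      D TB0 (pos ζ) (ptR δ Z υ (w.take j)) ≤ g * L + 1 →
      (∀ j' K, j + 2 * g ≤ j' → j' + g ≤ w.length →
        Loc (fun i => ptR δ Z υ (w.take i)) w.length g j' K →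
        K ∉ sep (ptR δ Z υ (w.take 0)) (pos ζ)) →
      ∃ q, EvR δ Z step pos k (g * L + 1) (g * L + 1 + (k + 2 * g) * L + (L + 1)) q
        (nxR δ Z υ (w.take j)) ζ γ := by
  induction m using Nat.strong_induction_on with
  | _ m ih =>
    intro j ζ γ hj hm he hD hn
    by_cases c : j + k + 2 * g ≤ w.length
    · obtain ⟨K, hK⟩ := h.ex (j := j + k) (by omega)
      have a1 := hn (j + k) K (by omega) (by omega) hK
      have a2 := h.stop hK c hz
      have a3 : K ∈ sep (pos ζ) (pos (run step ζ γ)) := by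
        rw [he]
        simp only [mem_sep_sd] at *
        grind
      obtain ⟨γ1, γ2, e, b1, -⟩ := hE.exists_cut a3
      have b2 := h.close hK (by omega) b1
      obtain ⟨q, hq⟩ := ih (w.length - (j + k)) (by omega) (j + k) (run step ζ γ1) γ2 (by omega)
        rfl (by rw [← run_append, ← e, he]) b2 fun j' K' c1 c2 c3 => h.near hK c3 c1 c2 b1
      obtain ⟨d1, d2⟩ := nx_appendR hδ (υ := υ) (w1 := w.take j) (w2 := (w.drop j).take k)
        (by rw [← List.take_add]; exact isSome_takeR hs _)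
      rw [← List.take_add] at d2
      refine ⟨q + 1, (w.drop j).take k, ⟨?_, List.IsChain.take (List.IsChain.drop hr j) k, d1⟩,
        γ1, γ2, e, ?_, ?_⟩
      · rw [List.length_take, List.length_drop]
        omega
      · have : ptR δ Z (nxR δ Z υ (w.take j)) ((w.drop j).take k) = ptR δ Z υ (w.take (j + k)) :=
          congrArg Prod.fst d2
        rw [this]
        exact b2
      · rw [d2]
        exact hq
    · refine ⟨0, ?_⟩
      show D TB0 (pos ζ) (pos (run step ζ γ)) ≤ _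
      rw [he]
      have a1 := h.d_le w.length hj le_rfl
      have a2 : (w.length - j) * L ≤ (k + 2 * g) * L := Nat.mul_le_mul_right _ (by omega)
      have a3 := D_triangle (R := TB0) (pos ζ) (ptR δ Z υ (w.take j)) z'
      have a4 := D_triangle (R := TB0) (ptR δ Z υ (w.take j)) (ptR δ Z υ (w.take w.length)) z'
      have a5 := D_le_d (R := TB0) (ptR δ Z υ (w.take j)) (ptR δ Z υ (w.take w.length))
      rw [D_comm] at hz
      omega

theorem startR (hδ : Coc δ) (hE : Edge step pos) {L g ν k : ℕ} (hg : 1 ≤ g) (hk : 2 * g ≤ k)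
    {υ : W G × X} {w : List (Fin r × Bool)} (hr : FreeGroup.IsReduced w) (hs : (Z.walk w υ.2).isSome)
    (h : Lw (fun i => ptR δ Z υ (w.take i)) w.length L g ν) {y : Y} {γ : List A}
    (hy : D TB0 (pos y) (ptR δ Z υ (w.take 0)) ≤ L + 1)
    (hz : D TB0 (pos (run step y γ)) (ptR δ Z υ (w.take w.length)) ≤ L + 1) :
    D TB0 (pos y) (pos (run step y γ)) ≤ 5 * (g * L) + 2 * L + 2 ∨
    ∃ γ1 γ', γ = γ1 ++ γ' ∧ D TB0 (pos y) (pos (run step y γ1)) ≤ 5 * (g * L) + 2 * L + 2 ∧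
      ∃ γ2 γ3, γ' = γ2 ++ γ3 ∧ D TB0 (pos (run step y γ1)) (pos (run step (run step y γ1) γ2)) ≤
        5 * (g * L) + 2 * L + 2 ∧ ∃ υ' : W G × X,
          Cand (2 * g * L) (pos (run step y γ1)) (pos (run step (run step y γ1) γ2)) υ'.1 ∧
          D TB0 (pos (run step (run step y γ1) γ2)) υ'.1 ≤ g * L + 1 ∧
          ∃ q, EvR δ Z step pos k (g * L + 1) (g * L + 1 + (k + 2 * g) * L + (L + 1)) q υ'
            (run step (run step y γ1) γ2) γ3 := by
  by_cases c : 5 * g ≤ w.length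
  · right
    obtain ⟨K1, h1⟩ := h.ex (j := g) (by omega)
    obtain ⟨K3, h3⟩ := h.ex (j := 3 * g) (by omega)
    have a1 := h.start h1 le_rfl (by omega) hy
    have a2 := h.stop h1 (by omega) hz
    have a3 : K1 ∈ sep (pos y) (pos (run step y γ)) := by
      simp only [mem_sep_sd] at *
      grind
    obtain ⟨γ1, γ', e1, b1, -⟩ := hE.exists_cut a3
    have e1' : run step y γ = run step (run step y γ1) γ' := by rw [e1, run_append]
    have a4 := h.near h1 h3 (by omega) (by omega) b1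
    have a5 := h.stop h3 (by omega) hz
    have a6 : K3 ∈ sep (pos (run step y γ1)) (pos (run step (run step y γ1) γ')) := by
      rw [← e1']
      clear a1 a2 a3
      simp only [mem_sep_sd] at *
      grind
    obtain ⟨γ2, γ3, e2, b2, -⟩ := hE.exists_cut a6
    have c1 := h.close h1 (by omega) b1
    have c3 := h.close h3 (by omega) b2
    refine ⟨γ1, γ', e1, ?_, γ2, γ3, e2, ?_, nxR δ Z υ (w.take (3 * g)), ?_, c3, ?_⟩
    · have d1 := h.d_le (i := 0) g (by omega) (by omega)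
      have d2 := D_le_d (R := TB0) (ptR δ Z υ (w.take 0)) (ptR δ Z υ (w.take g))
      have d3 := D_triangle (R := TB0) (pos y) (ptR δ Z υ (w.take 0)) (pos (run step y γ1))
      have d4 := D_triangle (R := TB0) (ptR δ Z υ (w.take 0)) (ptR δ Z υ (w.take g))
        (pos (run step y γ1))
      rw [D_comm] at c1
      rw [Nat.sub_zero] at d1
      omega
    · have d1 := h.d_le (i := g) (3 * g) (by omega) (by omega)
      have d2 := D_le_d (R := TB0) (ptR δ Z υ (w.take g)) (ptR δ Z υ (w.take (3 * g)))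
      have d3 := D_triangle (R := TB0) (pos (run step y γ1)) (ptR δ Z υ (w.take g))
        (pos (run step (run step y γ1) γ2))
      have d4 := D_triangle (R := TB0) (ptR δ Z υ (w.take g)) (ptR δ Z υ (w.take (3 * g)))
        (pos (run step (run step y γ1) γ2))
      rw [D_comm] at c3
      rw [show 3 * g - g = 2 * g by omega, mul_assoc] at d1
      omega
    · exact ⟨K1, K3, b1, b2, h.tb h1 h3 (by omega) (by omega),
        h.dist_car h1 (by omega) (by omega) (by omega) (by omega),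
        h.dist_car h3 (by omega) (by omega) (by omega) (by omega)⟩
    · exact ev_exR hδ hE hg hk hr hs h hz _ (3 * g) _ γ3 (by omega) rfl
        (by rw [← run_append, ← e2, ← e1']) c3 fun j' K' x1 x2 x3 => h.near h3 x3 x1 x2 b2
  · left
    have d1 := h.d_le (i := 0) w.length (by omega) le_rfl
    have d0 : (w.length - 0) * L ≤ 5 * g * L := Nat.mul_le_mul_right _ (by omega)
    have d2 := D_le_d (R := TB0) (ptR δ Z υ (w.take 0)) (ptR δ Z υ (w.take w.length))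
    have d3 := D_triangle (R := TB0) (pos y) (ptR δ Z υ (w.take 0)) (pos (run step y γ))
    have d4 := D_triangle (R := TB0) (ptR δ Z υ (w.take 0)) (ptR δ Z υ (w.take w.length))
      (pos (run step y γ))
    rw [D_comm] at hz
    rw [mul_assoc] at d0
    omega
end TA

open Pool.Agent.MP_c34dea_an.H23.Thin TA in
theorem thinR : ThinRStmt := by
  classical
  have hC : LocStmt := loc
  intro r S _ G Γ X _ _ _ δ Z L s g ν k A _ Y step pos x hδ hs hsg hν hk hZ hE hG hF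
  have := Fintype.ofFinite X
  obtain ⟨C4, hC4, h4⟩ := hG.gr_tb (g * L + 1 + (k + 2 * g) * L + (L + 1))
  obtain ⟨C5, hC5, h5⟩ := hG.gr_tb (5 * (g * L) + 2 * L + 2)
  obtain ⟨M, hM⟩ := cand_card (G := G) (2 * g * L)
  refine ⟨C5 + C5 * (C5 * (((M * Fintype.card X : ℕ) : ℝ≥0∞) * (2 * C4))), ?_, fun y => ?_⟩
  · exact ENNReal.add_ne_top.2 ⟨hC5, ENNReal.mul_ne_top hC5 (ENNReal.mul_ne_top hC5
      (ENNReal.mul_ne_top (ENNReal.natCast_ne_top _)
        (ENNReal.mul_ne_top ENNReal.ofNat_ne_top hC4)))⟩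
  rw [Gr_eq]
  refine le_trans (sm_or fun γ h => ?_) (add_le_add (h5 y) (le_trans (sm_split
    (Q := fun γ1 => D TB0 (pos y) (pos (run step y γ1)) ≤ 5 * (g * L) + 2 * L + 2)
    (R := fun γ1 γ' => ∃ γ2 γ3, γ' = γ2 ++ γ3 ∧
      D TB0 (pos (run step y γ1)) (pos (run step (run step y γ1) γ2)) ≤ 5 * (g * L) + 2 * L + 2 ∧
      ∃ υ' : W G × X,
        Cand (2 * g * L) (pos (run step y γ1)) (pos (run step (run step y γ1) γ2)) υ'.1 ∧
        D TB0 (pos (run step (run step y γ1) γ2)) υ'.1 ≤ g * L + 1 ∧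
        ∃ q, EvR δ Z step pos k (g * L + 1) (g * L + 1 + (k + 2 * g) * L + (L + 1)) q υ'
          (run step (run step y γ1) γ2) γ3)
    (fun γ h => h) fun γ1 _ => ?_) (mul_le_mul_left (h5 y) _)))
  · obtain ⟨t, u, h1, h2, h3⟩ := h
    obtain ⟨υ, w, a1, a2, a3, a4⟩ := exists_pathR hδ hZ h1 h2 h3
    have P := hZ υ w a1 a2
    exact startR hδ hE (hs.trans hsg) hk a1 a2
      ⟨P.step, (hC S G _ _ L s g ν hs hsg (by omega) P).2, hν⟩ a3 a4
  · refine le_trans (sm_split (fun γ h => h) fun γ2 _ => ?_)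
      (mul_le_mul_left (h5 (run step y γ1)) _)
    obtain ⟨F, f1, f2⟩ := hM (pos (run step y γ1)) (pos (run step (run step y γ1) γ2))
    refine le_trans (sm_fin (C := 2 * C4) (F ×ˢ (Finset.univ : Finset X))
      (Q := fun υ' γ3 => D TB0 (pos (run step (run step y γ1) γ2)) υ'.1 ≤ g * L + 1 ∧
        ∃ q, EvR δ Z step pos k (g * L + 1) (g * L + 1 + (k + 2 * g) * L + (L + 1)) q υ'
          (run step (run step y γ1) γ2) γ3) (fun γ3 h => ?_) fun υ' _ => ?_) ?_
    · obtain ⟨υ', a1, a2⟩ := h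
      exact ⟨υ', Finset.mem_product.2 ⟨f2 _ a1, Finset.mem_univ _⟩, a2⟩
    · by_cases c : D TB0 (pos (run step (run step y γ1) γ2)) υ'.1 ≤ g * L + 1
      · refine le_trans (sm_cover fun γ h => h.2)
          (le_trans (ENNReal.tsum_le_tsum fun q => ev_leR h4 hF q υ' _ c) (le_of_eq ?_))
        rw [ENNReal.tsum_mul_right, ENNReal.tsum_geometric, ENNReal.one_sub_inv_two, inv_inv]
      · rw [sm_false fun γ h => c h.1]
        exact zero_le
    · refine mul_le_mul_left ?_ _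
      rw [Finset.card_product, Finset.card_univ]
      exact_mod_cast Nat.mul_le_mul_right _ f1

end Pool.Agent.MP_735563_an.H66
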