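import Pool.Agent.MP_735563_an.H66.MSpec

set_option autoImplicit false

open scoped BigOperators

namespace Pool.Agent.MP_735563_an.H66

open Pool.Agent.MP_c34dea_an.H66 Pool.Agent.MP_c34dea_an.H23

namespace GiantAux

variable {Z : Type} [Fintype Z] [MulAction Γ5 Z] {L : Subgroup Γ5} {pr : Z → Γ5 ⧸ L} {η : ℝ}

/-- invariant sets are small or large -/
theorem inv_small [L.FiniteIndex] (he : ∀ (g : Γ5) z, pr (g • z) = g • pr z)
    (hg : GapZ (fun s (z : Z) => gen G5 s • z) pr η) (hη : η ≤ 1 / 2000) (A : Finset Z)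
    (hA : ∀ (g : Γ5) z, z ∈ A → g • z ∈ A) (h2 : 2 * A.card ≤ Fintype.card Z) :
    10 * A.card ≤ Fintype.card Z := by
  classical
  rcases A.eq_empty_or_nonempty with rfl | hne
  · simp
  have hN : (0 : ℝ) < Fintype.card Z := by
    obtain ⟨z, -⟩ := hne
    exact_mod_cast Fintype.card_pos_iff.2 ⟨z⟩
  have hA' : ∀ (g : Γ5) z, g • z ∈ A ↔ z ∈ A := fun g z =>
    ⟨fun h => by simpa using hA g⁻¹ _ h, hA g z⟩
  set a : ℝ := A.card / Fintype.card Z with ha
  have ha0 : 0 ≤ a := by positivity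
  have haN : a * Fintype.card Z = A.card := by rw [ha]; field_simp
  have h2' : (2 : ℝ) * A.card ≤ Fintype.card Z := by exact_mod_cast h2
  have ha2 : a ≤ 1 / 2 := by rw [ha, div_le_iff₀ hN]; linarith
  let φ : Z → ℝ := fun z => (if z ∈ A then 1 else 0) - a
  have hφ : ∀ (g : Γ5) z, φ (g • z) = φ z := fun g z => by simp only [φ, hA']
  have hind : ∑ z, (if z ∈ A then (1 : ℝ) else 0) = A.card := by
    rw [Finset.sum_ite_mem]; simp
  have hsum : ∑ z, φ z = 0 := by
    simp only [φ, Finset.sum_sub_distrib, hind, Finset.sum_const, Finset.card_univ, nsmul_eq_mul]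
    linarith
  have hsq : ∑ z, φ z ^ 2 = a * (1 - a) * Fintype.card Z := by
    have : ∀ z, φ z ^ 2 = (1 - 2 * a) * (if z ∈ A then (1 : ℝ) else 0) + a ^ 2 := fun z => by
      simp only [φ]; split_ifs <;> ring
    simp only [this, Finset.sum_add_distrib, ← Finset.mul_sum, hind, Finset.sum_const,
      Finset.card_univ, nsmul_eq_mul]
    rw [← haN]; ring
  let F : Γ5 ⧸ L → ℝ := fun b => ∑ z, (if pr z = b then φ z else 0)
  have hF : ∀ (g : Γ5) b, F (g • b) = F b := fun g b => by
    refine (Fintype.sum_bijective (fun z : Z => g • z) (MulAction.bijective g) _ _ fun z => ?_).symm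
    simp only [he, hφ, smul_left_cancel_iff]
  have hF1 : ∀ b, F b = F ((1 : Γ5) : Γ5 ⧸ L) := fun b => by
    induction b using QuotientGroup.induction_on with
    | H y => rw [← hF y ((1 : Γ5) : Γ5 ⧸ L), MulAction.Quotient.smul_mk, smul_eq_mul, mul_one]
  have : Fintype (Γ5 ⧸ L) := Fintype.ofFinite _
  have hF0 : F ((1 : Γ5) : Γ5 ⧸ L) = 0 := by
    have h1 : ∑ b, F b = 0 := by
      simp only [F]
      rw [Finset.sum_comm]
      simpa using hsum
    rw [Finset.sum_congr rfl fun b _ => hF1 b, Finset.sum_const, nsmul_eq_mul] at h1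
    have : (0 : ℝ) < (Finset.univ : Finset (Γ5 ⧸ L)).card := by
      exact_mod_cast Finset.card_pos.2 ⟨((1 : Γ5) : Γ5 ⧸ L), Finset.mem_univ _⟩
    exact (mul_eq_zero.1 h1).resolve_left this.ne'
  have h := hg φ (fun z => by
    simp only [φ]; rw [abs_le]; split_ifs <;> constructor <;> linarith) (fun b => by
      refine Eq.trans (Finset.sum_congr rfl fun z _ => ?_) ((hF1 b).trans hF0)
      split_ifs <;> rfl)
  have h5 : ∑ z, ∑ s : Fin 5, φ z * φ (gen G5 s • z) = 5 * ∑ z, φ z ^ 2 := by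
    rw [Finset.mul_sum]
    refine Finset.sum_congr rfl fun z _ => ?_
    simp only [hφ, Finset.sum_const, Finset.card_univ, Fintype.card_fin, nsmul_eq_mul]
    push_cast; ring
  rw [h5, hsq] at h
  have h6 : a * (1 - a) ≤ 1 / 20 := by
    have : a * (1 - a) * Fintype.card Z ≤ 1 / 20 * Fintype.card Z := by nlinarith
    exact le_of_mul_le_mul_right this hN
  have h7 : a ≤ 1 / 10 := by nlinarith
  have : (10 : ℝ) * A.card ≤ Fintype.card Z := by rw [← haN]; nlinarith
  exact_mod_cast this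

/-- there is a giant orbit -/
theorem exists_orbit [L.FiniteIndex] [Nonempty Z] (he : ∀ (g : Γ5) z, pr (g • z) = g • pr z)
    (hg : GapZ (fun s (z : Z) => gen G5 s • z) pr η) (hη : η ≤ 1 / 2000) :
    ∃ z : Z, Fintype.card Z < 2 * (MulAction.orbit Γ5 z).ncard := by
  classical
  by_contra hc
  push Not at hc
  have key : ∀ (m : ℕ) (A : Finset Z), A.card = m → (∀ (g : Γ5) z, z ∈ A → g • z ∈ A) →
      2 * A.card ≤ Fintype.card Z := by
    intro m
    induction m using Nat.strong_induction_on with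
    | _ m ih =>
      intro A hm hA
      rcases A.eq_empty_or_nonempty with rfl | ⟨z, hz⟩
      · simp
      let O : Finset Z := Finset.univ.filter fun w => w ∈ MulAction.orbit Γ5 z
      have hO : O.card = (MulAction.orbit Γ5 z).ncard := by
        rw [← Set.ncard_coe_finset]; congr 1; ext w; simp [O]
      have hOi : ∀ (g : Γ5) w, w ∈ O → g • w ∈ O := fun g w hw => by
        simp only [O, Finset.mem_filter, Finset.mem_univ, true_and] at hw ⊢
        exact MulAction.mapsTo_smul_orbit g z hw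
      have hzO : z ∈ O := by simp [O]
      have hD : ∀ (g : Γ5) w, w ∈ A \ O → g • w ∈ A \ O := fun g w hw => by
        rw [Finset.mem_sdiff] at hw ⊢
        exact ⟨hA g w hw.1, fun h => hw.2 (by simpa using hOi g⁻¹ _ h)⟩
      have hlt : (A \ O).card < m := by
        rw [← hm]
        exact Finset.card_lt_card ⟨Finset.sdiff_subset, fun h => by
          have := h hz
          rw [Finset.mem_sdiff] at this
          exact this.2 hzO⟩
      have h1 := inv_small he hg hη _ hD (ih _ hlt _ rfl hD)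
      have h2 := inv_small he hg hη _ hOi (by rw [hO]; exact hc z)
      have h3 : A.card ≤ (A \ O).card + O.card := Finset.card_le_card_sdiff_add_card
      omega
  have := key _ Finset.univ rfl fun _ _ _ => Finset.mem_univ _
  rw [Finset.card_univ] at this
  have := Fintype.card_pos (α := Z)
  omega

end GiantAux

open GiantAux in
theorem giant (h : BundleStmt) : ModelStmt := by
  classical
  intro σ hσ η n hη
  have := σ.fi
  have hη' : 0 < min η (1 / 1000) / 2 := by positivity
  have hη1 : min η (1 / 1000) / 2 ≤ 1 / 2000 := by linarith [min_le_right η (1 / 1000)]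
  have hη2 : min η (1 / 1000) / 2 * 2 ≤ η := by linarith [min_le_left η (1 / 1000)]
  obtain ⟨Z, _, _, pr, he, hc, hg, hk, hs⟩ := h σ hσ _ n hη'
  generalize min η (1 / 1000) / 2 = η' at *
  have hB : 0 < Nat.card (Γ5 ⧸ σ.L) := Nat.card_pos
  have : Nonempty Z := Fintype.card_pos_iff.1 (by omega)
  obtain ⟨z₁, hz₁⟩ := exists_orbit he hg hη1
  obtain ⟨z, hz, hz1⟩ : ∃ z : Z, Fintype.card Z < 2 * (MulAction.orbit Γ5 z).ncard ∧
      pr z = ((1 : Γ5) : Γ5 ⧸ σ.L) := by
    refine ⟨(pr z₁).out⁻¹ • z₁, by rwa [MulAction.orbit_smul], ?_⟩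
    rw [he]
    conv_lhs => rw [← QuotientGroup.out_eq' (pr z₁)]
    rw [MulAction.Quotient.smul_mk, QuotientGroup.out_eq', smul_eq_mul, inv_mul_cancel]
  set L' := MulAction.stabilizer Γ5 z with hL'
  let e : Γ5 ⧸ L' → Z := MulAction.ofQuotientStabilizer Γ5 z
  have ei : Function.Injective e := MulAction.injective_ofQuotientStabilizer Γ5 z
  have es : ∀ (g : Γ5) q, e (g • q) = g • e q := MulAction.ofQuotientStabilizer_smul Γ5 z
  have eo : ∀ q, e q = q.out • z := fun q => by
    conv_lhs => rw [← QuotientGroup.out_eq' q]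
    exact MulAction.ofQuotientStabilizer_mk Γ5 z _
  have ep : ∀ q, pr (e q) = ((q.out : Γ5) : Γ5 ⧸ σ.L) := fun q => by
    rw [eo, he, hz1, MulAction.Quotient.smul_mk, smul_eq_mul, mul_one]
  have : Finite (Γ5 ⧸ L') := Finite.of_injective e ei
  have hcard : Nat.card (Γ5 ⧸ L') = (MulAction.orbit Γ5 z).ncard := by
    rw [← Nat.card_congr (MulAction.orbitEquivQuotientStabilizer Γ5 z), Nat.card_coe_set_eq]
  rw [← hcard] at hz
  have hz' : η' * (Fintype.card Z : ℝ) ≤ η * Nat.card (Γ5 ⧸ L') := by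
    have h1 : (Fintype.card Z : ℝ) ≤ 2 * Nat.card (Γ5 ⧸ L') := by exact_mod_cast hz.le
    have h2 : (0 : ℝ) ≤ Nat.card (Γ5 ⧸ L') := Nat.cast_nonneg _
    nlinarith
  have hle : L' ≤ σ.L := fun g hg => by
    have h1 := he g z
    rw [MulAction.mem_stabilizer_iff.1 hg, hz1, MulAction.Quotient.smul_mk, smul_eq_mul, mul_one,
      QuotientGroup.eq] at h1
    simpa using h1
  refine ⟨L', lt_of_le_of_ne hle fun e1 => ?_, Subgroup.finiteIndex_of_finite_quotient,
    fun k hk' => ?_, ?_, ?_⟩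
  · rw [e1] at hz
    omega
  · have := hk z 1 k hz1 hk'
    rw [MulAction.mem_stabilizer_iff]
    simpa using this
  · intro _ φ h1 h0
    let Φ : Z → ℝ := Function.extend e φ 0
    have hΦ : ∀ q, Φ (e q) = φ q := fun q => ei.extend_apply _ _ _
    have hΦ0 : ∀ w, w ∉ Set.range e → Φ w = 0 := fun w hw => Function.extend_apply' _ _ _ hw
    have h2 := hg Φ (fun w => by
      by_cases hw : w ∈ Set.range e
      · obtain ⟨q, rfl⟩ := hw
        rw [hΦ]; exact h1 q
      · rw [hΦ0 w hw]; simp) (fun a => by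
        refine Eq.trans (Fintype.sum_of_injective e ei _ _ (fun w hw => by simp [hΦ0 w hw])
          fun q => ?_).symm (h0 a)
        rw [ep, hΦ])
    have h3 : ∑ q, ∑ s, φ q * φ (gen G5 s • q) = ∑ w, ∑ s, Φ w * Φ (gen G5 s • w) :=
      Fintype.sum_of_injective e ei _ _ (fun w hw => by simp [hΦ0 w hw]) fun q => by
        simp only [← es, hΦ]
    have h4 : ∑ q, φ q ^ 2 = ∑ w, Φ w ^ 2 :=
      Fintype.sum_of_injective e ei _ _ (fun w hw => by simp [hΦ0 w hw]) fun q => by rw [hΦ]
    rw [h3, h4, ← Nat.card_eq_fintype_card (α := Γ5 ⧸ L')]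
    linarith
  · refine le_trans ?_ (hs.trans hz')
    refine Nat.cast_le.2 (Set.ncard_le_ncard_of_injOn e ?_ ei.injOn)
    rintro q ⟨g, h1, h2, h3⟩
    refine ⟨g, h1, by rw [← es, h2], fun h4 => h3 ?_⟩
    have h5 : (pr (e q)).out⁻¹ * q.out ∈ σ.L := by
      rw [← QuotientGroup.eq, QuotientGroup.out_eq', ep]
    have := h4.conj h5
    simpa [mul_assoc] using this

end Pool.Agent.MP_735563_an.H66
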