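import Pool.Agent.MP_735563_an.H66.MSpec

/-!
Linear algebra: cyclic sums, traces and moments.
-/

set_option autoImplicit false

open scoped BigOperators

namespace Pool.Agent.MP_735563_an.H66

open Pool.Agent.MP_c34dea_an.H66 Pool.Agent.MP_c34dea_an.H23

namespace LinP

open Matrix

section One

variable {Z : Type} [Fintype Z] [DecidableEq Z]

theorem path (M : Matrix Z Z ℝ) (n : ℕ) (g : Z → Z → ℝ) :
    ∑ u : Fin (n + 1) → Z, (∏ σ : Fin n, M (u σ.castSucc) (u σ.succ)) * g (u 0) (u (Fin.last n)) =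
      ∑ x, ∑ y, (M ^ n) x y * g x y := by
  induction n generalizing g with
  | zero =>
    rw [← (Equiv.funUnique (Fin 1) Z).symm.sum_comp]
    simp [Matrix.one_apply]
  | succ n ih =>
    rw [← (Fin.consEquiv fun _ : Fin (n + 2) => Z).sum_comp, Fintype.sum_prod_type]
    refine Finset.sum_congr rfl fun x _ => ?_
    have h := ih fun a b => M x a * g x b
    simp only [pow_succ', Matrix.mul_apply, Finset.sum_mul]
    rw [Finset.sum_comm]
    refine Eq.trans ?_ (h.trans ?_)
    · refine Finset.sum_congr rfl fun u _ => ?_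
      rw [Fin.prod_univ_succ]
      simp only [Fin.consEquiv_apply, Fin.castSucc_zero, Fin.cons_zero, Fin.cons_succ,
        ← Fin.succ_castSucc, ← Fin.succ_last]
      ring
    · refine Finset.sum_congr rfl fun a _ => Finset.sum_congr rfl fun b _ => ?_
      ring

theorem cyc_trace (M : Matrix Z Z ℝ) (n : ℕ) :
    cyc (fun _ : Fin (n + 1) => fun z z' => M z z') = (M ^ (n + 1)).trace := by
  have h := path M n fun x y => M y x
  unfold cyc
  rw [pow_succ, Matrix.trace]
  simp only [Matrix.diag_apply, Matrix.mul_apply]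
  rw [← h]
  refine Finset.sum_congr rfl fun u _ => ?_
  rw [Fin.prod_univ_castSucc, finRotate_last]
  simp only [finRotate_apply, Fin.coeSucc_eq_succ]

theorem trace_pow {M : Matrix Z Z ℝ} (hM : M.IsHermitian) (p : ℕ) :
    (M ^ p).trace = ∑ k, hM.eigenvalues k ^ p := by
  conv_lhs => rw [hM.spectral_theorem, ← map_pow, Unitary.conjStarAlgAut_apply, trace_mul_cycle,
    Unitary.coe_star_mul_self, one_mul, diagonal_pow, trace_diagonal]
  simp

theorem form_le {M : Matrix Z Z ℝ} (hM : M.IsHermitian) {τ : ℝ} (h : ∀ k, hM.eigenvalues k ≤ τ)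
    (φ : Z → ℝ) : ∑ z, ∑ z', φ z * M z z' * φ z' ≤ τ * ∑ z, φ z ^ 2 := by
  have e : τ • (1 : Matrix Z Z ℝ) - M = Unitary.conjStarAlgAut ℝ _ hM.eigenvectorUnitary
      (diagonal fun k => τ - hM.eigenvalues k) := by
    have : (diagonal fun k => τ - hM.eigenvalues k) =
        τ • (1 : Matrix Z Z ℝ) - diagonal (RCLike.ofReal ∘ hM.eigenvalues) := by
      ext i j
      by_cases hij : i = j
      · subst hij
        simp
      · simp [hij]
    rw [this, map_sub, map_smul, map_one, ← hM.spectral_theorem]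
  have hp : (τ • (1 : Matrix Z Z ℝ) - M).PosSemidef := by
    rw [e, Unitary.conjStarAlgAut_apply, Unitary.isUnit_coe.posSemidef_star_right_conjugate_iff,
      posSemidef_diagonal_iff]
    exact fun k => sub_nonneg.2 (h k)
  have h2 := hp.dotProduct_mulVec_nonneg φ
  rw [star_trivial, sub_mulVec, dotProduct_sub, smul_mulVec, one_mulVec, dotProduct_smul,
    sub_nonneg] at h2
  simp only [dotProduct, mulVec, smul_eq_mul, Finset.mul_sum] at h2
  simp only [Finset.mul_sum, sq, mul_assoc]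
  exact h2

theorem one (C : Z → Z → ℝ) (p : ℕ) (hC : ∀ z z', C z z' = C z' z) (hp : 0 < p) (he : Even p) :
    0 ≤ cyc (fun _ : Fin p => C) ∧ ∀ τ : ℝ, 0 ≤ τ → cyc (fun _ : Fin p => C) ≤ τ ^ p →
      ∀ φ : Z → ℝ, ∑ z, ∑ z', φ z * C z z' * φ z' ≤ τ * ∑ z, φ z ^ 2 := by
  obtain ⟨n, rfl⟩ : ∃ n, p = n + 1 := ⟨p - 1, by omega⟩
  have hM : (Matrix.of C).IsHermitian := by
    ext i j
    simp [hC i j]
  have e : cyc (fun _ : Fin (n + 1) => C) = ∑ k, hM.eigenvalues k ^ (n + 1) :=
    (cyc_trace (Matrix.of C) n).trans (trace_pow hM _)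
  rw [e]
  refine ⟨Finset.sum_nonneg fun k _ => he.pow_nonneg _, fun τ hτ h φ => ?_⟩
  refine form_le hM (fun k => ?_) φ
  refine le_of_pow_le_pow_left₀ hp.ne' hτ (le_trans ?_ h)
  exact Finset.single_le_sum (f := fun k => hM.eigenvalues k ^ (n + 1))
    (fun k _ => he.pow_nonneg _) (Finset.mem_univ k)

end One

section Two

variable {Z : Type} [Fintype Z] (T : Fin 5 → Z → Z)

/-- the sum over the five moves -/
def op (φ : Z → ℝ) (z : Z) : ℝ := ∑ s, φ (T s z)

omit [Fintype Z] in
theorem sum_run (φ : Z → ℝ) (n : ℕ) (z : Z) :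
    ∑ γ : Fin n → Fin 5, φ (run (fun z s => T s z) z (List.ofFn γ)) = (op T)^[n] φ z := by
  induction n generalizing z with
  | zero => simp [run]
  | succ n ih =>
    rw [← (Fin.consEquiv fun _ : Fin (n + 1) => Fin 5).sum_comp, Fintype.sum_prod_type,
      Function.iterate_succ_apply', op]
    refine Finset.sum_congr rfl fun s _ => ?_
    rw [← ih]
    refine Finset.sum_congr rfl fun γ _ => ?_
    simp [run, List.ofFn_succ]

variable {T}

theorem op_symm (hT : ∀ s z, T s (T s z) = z) (φ ψ : Z → ℝ) :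
    ∑ z, φ z * op T ψ z = ∑ z, op T φ z * ψ z := by
  simp only [op, Finset.mul_sum, Finset.sum_mul]
  rw [Finset.sum_comm, Finset.sum_comm (f := fun z s => φ (T s z) * ψ z)]
  refine Finset.sum_congr rfl fun s _ => ?_
  rw [← Equiv.sum_comp (Function.Involutive.toPerm (T s) (hT s))]
  simp [hT]

theorem it_symm (hT : ∀ s z, T s (T s z) = z) (n : ℕ) (φ ψ : Z → ℝ) :
    ∑ z, φ z * (op T)^[n] ψ z = ∑ z, (op T)^[n] φ z * ψ z := by
  induction n generalizing φ with
  | zero => rfl
  | succ n ih => rw [Function.iterate_succ_apply', op_symm hT, ih, Function.iterate_succ_apply]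

theorem two (hT : ∀ s z, T s (T s z) = z) (φ : Z → ℝ) (c : ℝ) (hc : 0 ≤ c)
    (h : c * ∑ z, φ z ^ 2 ≤ ∑ z, φ z * op T φ z) (j : ℕ) :
    c ^ 2 ^ j * ∑ z, φ z ^ 2 ≤ ∑ z, φ z * (op T)^[2 ^ j] φ z := by
  induction j with
  | zero => simpa using h
  | succ j ih =>
    have e : ∑ z, φ z * (op T)^[2 ^ (j + 1)] φ z = ∑ z, (op T)^[2 ^ j] φ z ^ 2 := by
      rw [pow_succ, mul_two, Function.iterate_add_apply, it_symm hT]
      simp only [sq]
    rw [e]
    have h0 : 0 ≤ ∑ z, φ z ^ 2 := Finset.sum_nonneg fun z _ => sq_nonneg _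
    rcases h0.eq_or_lt with h1 | h1
    · rw [← h1, mul_zero]
      exact Finset.sum_nonneg fun z _ => sq_nonneg _
    · have cs := Finset.sum_mul_sq_le_sq_mul_sq Finset.univ φ ((op T)^[2 ^ j] φ)
      have h2 := (pow_le_pow_left₀ (mul_nonneg (pow_nonneg hc _) h0) ih 2).trans cs
      refine le_of_mul_le_mul_left (le_trans (le_of_eq ?_) h2) h1
      rw [pow_succ 2 j, pow_mul]
      ring

end Two

open Classical in
theorem three (X V I : Type) [Fintype X] [Fintype V] [Fintype I] (src dst : I → X)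
    (A : I → V → V → ℝ) (p : ℕ) : cyc (fun (_ : Fin p) (z z' : X × V) =>
      ∑ i with (src i = z.1 ∧ dst i = z'.1), A i z.2 z'.2) =
      ∑ u : Fin p → I with (∀ σ, dst (u σ) = src (u (finRotate p σ))), cyc fun σ => A (u σ) := by
  unfold cyc
  rw [← (Equiv.arrowProdEquivProdArrow (Fin p) (fun _ => X) fun _ => V).symm.sum_comp,
    Fintype.sum_prod_type]
  simp only [Finset.sum_filter, Finset.prod_univ_sum, Fintype.piFinset_univ,
    Equiv.arrowProdEquivProdArrow_symm_apply]
  rw [Finset.sum_comm]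
  refine (Finset.sum_congr rfl fun v _ => Finset.sum_comm).trans ?_
  rw [Finset.sum_comm]
  refine Finset.sum_congr rfl fun u _ => ?_
  rw [Finset.sum_comm, Finset.sum_eq_single (fun σ => src (u σ))]
  · split_ifs with h
    · simp [h]
    · obtain ⟨σ, hσ⟩ := not_forall.1 h
      exact Finset.sum_eq_zero fun v _ =>
        Finset.prod_eq_zero (Finset.mem_univ σ) (if_neg fun k => hσ k.2)
  · intro x _ hx
    obtain ⟨σ, hσ⟩ := Function.ne_iff.1 hx
    exact Finset.sum_eq_zero fun v _ =>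
      Finset.prod_eq_zero (Finset.mem_univ σ) (if_neg fun h => hσ h.1.symm)
  · simp

end LinP

theorem lin : LinStmt := by
  classical
  refine ⟨fun Z _ C p => LinP.one C p, fun Z _ T φ lam j hT hl h => ?_, LinP.three⟩
  have k := LinP.two hT φ (5 * lam) (by positivity)
    (by simpa only [LinP.op, Finset.mul_sum, mul_assoc] using h) j
  simpa only [← Finset.mul_sum, LinP.sum_run] using k

end Pool.Agent.MP_735563_an.H66
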