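import Pool.Agent.MP_735563_an.H66.Spec
import Pool.Agent.MP_735563_an.H6.Gap
import Pool.Agent.MP_c34dea_an.H23.MeasMain

set_option autoImplicit false

open scoped ENNReal symmDiff
open MeasureTheory

namespace Pool.Agent.MP_735563_an.H66

open Pool.Agent.MP_c34dea_an.H66 Pool.Agent.MP_c34dea_an.H23
open Pool.Agent.MP_735563_an.H6 (bd real_mono real_pre gap_of_strong)

namespace MeasAux

variable {Γ : Type} [Group Γ] {H : ℕ → Subgroup Γ} {X : Type} [MeasurableSpace X] [MulAction Γ X]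
  {μ : Measure X}

theorem no_atom (S : Sys H X μ) [IsProbabilityMeasure μ] (hH : StrictAnti H)
    (hfi : ∀ n, (H n).FiniteIndex) (x : X) : μ {x} = 0 := by
  have h1 : ∀ n, n ≤ Nat.card (Γ ⧸ H n) := by
    have : StrictMono fun n => (H n).index := fun m n h => by
      have := hfi n
      exact Subgroup.index_strictAnti (hH h)
    exact fun n => this.id_le n
  have h2 : ∀ n : ℕ, n * μ.real {x} ≤ 1 := by
    intro n
    have := hfi n
    rw [← S.real_atom n (S.p n x)]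
    exact mul_le_mul (Nat.cast_le.2 (h1 n)) (real_mono fun y hy => by rw [hy]; rfl)
      measureReal_nonneg (Nat.cast_nonneg _)
  rw [← measureReal_eq_zero_iff]
  by_contra h
  have h3 : 0 < μ.real {x} := lt_of_le_of_ne measureReal_nonneg (Ne.symm h)
  obtain ⟨n, hn⟩ := exists_nat_gt (1 / μ.real {x})
  rw [div_lt_iff₀ h3] at hn
  linarith [h2 n]

theorem pmp_ae (S : Sys H X μ) [StandardBorelSpace X] [Countable Γ] [IsProbabilityMeasure μ]
    (φ : X ≃ᵐ X) (hE : ∀ᵐ x ∂μ, ∃ g : Γ, φ x = g • x) : MeasurePreserving φ μ μ := by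
  obtain ⟨w, hw, hwf⟩ := S.exists_sel φ.measurable
  let T : Γ → Set X := fun g => w ⁻¹' {g} ∩ {x | φ x = g • x}
  have hT : ∀ g, MeasurableSet (T g) := fun g => (hw g).inter (S.meas_eq φ.measurable g)
  have key : ∀ B, MeasurableSet B → μ (φ ⁻¹' B) ≤ μ B := by
    intro B hB
    let D : Γ → Set X := fun g => (fun y => g⁻¹ • y) ⁻¹' (φ ⁻¹' B ∩ T g)
    have hD0 : ∀ g, MeasurableSet (φ ⁻¹' B ∩ T g) := fun g => (φ.measurable hB).inter (hT g)
    have hD : ∀ g, MeasurableSet (D g) := fun g => (S.mp g⁻¹).measurable (hD0 g)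
    calc μ (φ ⁻¹' B) ≤ μ (⋃ g, φ ⁻¹' B ∩ T g) := by
          refine measure_mono_ae (hE.mono fun x hx hxB => ?_)
          exact Set.mem_iUnion.2 ⟨w x, hxB, rfl, hwf x hx⟩
      _ ≤ ∑' g, μ (φ ⁻¹' B ∩ T g) := measure_iUnion_le _
      _ = ∑' g, μ (D g) := tsum_congr fun g =>
          ((S.mp g⁻¹).measure_preimage (hD0 g).nullMeasurableSet).symm
      _ = μ (⋃ g, D g) := by
          refine (measure_iUnion (fun g g' hgg => ?_) hD).symm
          refine Set.disjoint_left.2 fun y h1 h2 => hgg ?_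
          have a1 : w (g⁻¹ • y) = g := h1.2.1
          have a2 : w (g'⁻¹ • y) = g' := h2.2.1
          have b1 : φ (g⁻¹ • y) = g • g⁻¹ • y := h1.2.2
          have b2 : φ (g'⁻¹ • y) = g' • g'⁻¹ • y := h2.2.2
          rw [smul_inv_smul] at b1 b2
          rw [← a1, ← a2, φ.injective (b1.trans b2.symm)]
      _ ≤ μ B := by
          refine measure_mono (Set.iUnion_subset fun g y hy => ?_)
          have b0 : φ (g⁻¹ • y) ∈ B := hy.1
          have b1 : φ (g⁻¹ • y) = g • g⁻¹ • y := hy.2.2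
          rwa [b1, smul_inv_smul] at b0
  refine ⟨φ.measurable, ?_⟩
  ext B hB
  rw [Measure.map_apply φ.measurable hB]
  refine le_antisymm (key B hB) ?_
  have h1 := key Bᶜ hB.compl
  rw [Set.preimage_compl, prob_compl_eq_one_sub (φ.measurable hB), prob_compl_eq_one_sub hB] at h1
  exact (ENNReal.sub_le_sub_iff_left prob_le_one ENNReal.one_ne_top).1 h1

theorem no_free (S : Sys H X μ) [StandardBorelSpace X] [Countable Γ] [IsProbabilityMeasure μ]
    (hH : Antitone H) (hfi : ∀ n, (H n).FiniteIndex) (hG : TowerG H) :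
    ¬ ∃ a : FreeGroup (Fin 2) → X → X, (∀ g, MeasurePreserving (a g) μ μ) ∧
      (∀ᵐ x ∂μ, a 1 x = x) ∧ (∀ g h, ∀ᵐ x ∂μ, a (g * h) x = a g (a h x)) ∧
      (∀ g, g ≠ 1 → ∀ᵐ x ∂μ, a g x ≠ x) ∧ ∀ g, ∀ᵐ x ∂μ, ∃ γ : Γ, a g x = γ • x := by
  rintro ⟨a, h0, h1, h2, h3, h4⟩
  let Q : X → Prop := fun x => a 1 x = x ∧ (∀ g h, a (g * h) x = a g (a h x)) ∧
    (∀ g, g ≠ 1 → a g x ≠ x) ∧ ∀ g, ∃ γ : Γ, a g x = γ • x
  have hQ : ∀ᵐ x ∂μ, Q x := by
    refine h1.and ((ae_all_iff.2 fun g => ae_all_iff.2 fun h => h2 g h).and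
      ((ae_all_iff.2 fun g => ?_).and (ae_all_iff.2 h4)))
    by_cases hg : g = 1
    · exact Filter.Eventually.of_forall fun x h => (h hg).elim
    · exact (h3 g hg).mono fun x hx _ => hx
  obtain ⟨N, hN1, hN2, hN3⟩ := exists_measurable_superset_of_null (ae_iff.1 hQ)
  have hNQ : ∀ x, x ∉ N → Q x := fun x hx => by
    by_contra h
    exact hx (hN1 h)
  let A : Set X := Nᶜ ∩ ⋂ g, a g ⁻¹' Nᶜ
  have hA : MeasurableSet A :=
    hN2.compl.inter (MeasurableSet.iInter fun g => (h0 g).measurable hN2.compl)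
  have hA0 : μ Aᶜ = 0 := by
    rw [Set.compl_inter, compl_compl, Set.compl_iInter]
    refine measure_union_null hN3 (measure_iUnion_null fun g => ?_)
    rw [← Set.preimage_compl, compl_compl, (h0 g).measure_preimage hN2.nullMeasurableSet, hN3]
  have hAA : ∀ g, ∀ x ∈ A, a g x ∈ A := by
    intro g x hx
    refine ⟨Set.mem_iInter.1 hx.2 g, Set.mem_iInter.2 fun h => ?_⟩
    have := Set.mem_iInter.1 hx.2 (h * g)
    rwa [Set.mem_preimage, (hNQ x hx.1).2.1] at this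
  obtain ⟨r, hr⟩ := S.no_label hH hfi hG
  obtain ⟨f, hf⟩ := exists_injective_fin r
  obtain ⟨W, hW, hW0, hac⟩ := S.exists_label (r := r) hA (b := fun g => a (f g))
    (fun g => (h0 _).measurable) (fun g => hAA _)
    (fun x hx => by rw [map_one]; exact (hNQ x hx.1).1)
    (fun g h x hx => by rw [map_mul]; exact (hNQ x hx.1).2.1 _ _)
    (fun g hg x hx => (hNQ x hx.1).2.2.1 _ fun e => hg (hf (by rw [e, map_one])))
    (fun g x hx => (hNQ x hx.1).2.2.2 _)
  exact hr W hW (fun l => measure_mono_null (t := Aᶜ) (fun x hx hxA => hW0 l x hxA hx) hA0) hac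

theorem strong {H : ℕ → Subgroup Γ5} {X : Type} [MeasurableSpace X] [MulAction Γ5 X]
    {μ : Measure X} (S : Sys H X μ) [IsProbabilityMeasure μ]
    (hfi : ∀ n, (H n).FiniteIndex) (hSE : TowerSE H) :
    ∃ ε : ℝ, 0 < ε ∧ ∀ A, MeasurableSet A → 1 / 3 ≤ μ.real A → μ.real A ≤ 2 / 3 →
      ε ≤ ∑ i, bd μ (fun x => gen G5 i • x) A := by
  obtain ⟨ε, m₀, hε, h⟩ := hSE
  refine ⟨ε, hε, fun A hA h1 h2 => le_of_forall_pos_le_add fun η hη => ?_⟩
  set δ : ℝ := min (η / 10) (1 / 10) with hδ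
  have hδ0 : 0 < δ := lt_min (by linarith) (by norm_num)
  have hδ1 : δ ≤ η / 10 := min_le_left _ _
  have hδ2 : δ ≤ 1 / 10 := min_le_right _ _
  obtain ⟨n₀, hn⟩ := S.approx A hA (ENNReal.ofReal δ) (ENNReal.ofReal_pos.2 hδ0)
  obtain ⟨m, hm1, hm2⟩ : ∃ m, n₀ ≤ m ∧ m₀ ≤ m := ⟨max n₀ m₀, le_max_left _ _, le_max_right _ _⟩
  obtain ⟨C, hC⟩ := hn m hm1
  have := hfi m
  set A' := S.p m ⁻¹' C with hA'
  have hA'm : MeasurableSet A' := S.meas_p m C
  have hd : μ.real (A' ∆ A) ≤ δ := ENNReal.toReal_le_of_le_ofReal hδ0.le hC.le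
  have hN := Sys.card_pos' (H := H) m
  have e1 := S.real_cyl m C
  rw [← hA'] at e1
  have a1 : μ.real A' ≤ μ.real A + δ := by
    refine le_trans (real_mono (t := A ∪ A' ∆ A) fun x hx => ?_)
      ((measureReal_union_le _ _).trans (by linarith))
    by_cases hx' : x ∈ A
    · exact Or.inl hx'
    · exact Or.inr (Or.inl ⟨hx, hx'⟩)
  have a2 : μ.real A ≤ μ.real A' + δ := by
    refine le_trans (real_mono (t := A' ∪ A' ∆ A) fun x hx => ?_)
      ((measureReal_union_le _ _).trans (by linarith))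
    by_cases hx' : x ∈ A'
    · exact Or.inl hx'
    · exact Or.inr (Or.inr ⟨hx, hx'⟩)
  have k := h m hm2 C
    (by have : (Nat.card (Γ5 ⧸ H m) : ℝ) ≤ 5 * C.ncard := by rw [← e1]; nlinarith
        exact_mod_cast this)
    (by have : (5 * C.ncard : ℝ) ≤ 4 * Nat.card (Γ5 ⧸ H m) := by rw [← e1]; nlinarith
        exact_mod_cast this)
  have e2 : ({q : (Γ5 ⧸ H m) × Fin 5 | q.1 ∈ C ∧ gen G5 q.2 • q.1 ∉ C}.ncard : ℝ) =
      Nat.card (Γ5 ⧸ H m) * ∑ i, bd μ (fun x => gen G5 i • x) A' := by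
    rw [← Nat.card_coe_set_eq]
    have := card_prod_pred (fun (a : Γ5 ⧸ H m) (i : Fin 5) => a ∈ C ∧ gen G5 i • a ∉ C)
    rw [show Nat.card {q : (Γ5 ⧸ H m) × Fin 5 | q.1 ∈ C ∧ gen G5 q.2 • q.1 ∉ C} = _ from this,
      Nat.cast_sum, Finset.mul_sum]
    refine Finset.sum_congr rfl fun i _ => ?_
    rw [← S.real_cyl m]
    congr 2
    ext x
    simp only [hA', Set.mem_preimage, Set.mem_ofPred_eq, Set.mem_sdiff, S.equiv]
  rw [e2, mul_comm] at k
  have k2 := le_of_mul_le_mul_left k hN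
  have a3 : ∀ i : Fin 5, bd μ (fun x => gen G5 i • x) A' ≤ bd μ (fun x => gen G5 i • x) A + 2 * δ := by
    intro i
    have b := real_pre (S.mp (gen G5 i)) (hA'm.symmDiff hA)
    unfold bd
    refine le_trans (real_mono (t := ((A \ (fun x => gen G5 i • x) ⁻¹' A) ∪ A' ∆ A) ∪
      (fun x => gen G5 i • x) ⁻¹' (A' ∆ A)) fun x hx => ?_)
      ((measureReal_union_le _ _).trans
        ((add_le_add_left (measureReal_union_le _ _) _).trans (by linarith)))
    by_cases c1 : x ∈ A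
    · by_cases c2 : gen G5 i • x ∈ A
      · exact Or.inr (Or.inr ⟨c2, hx.2⟩)
      · exact Or.inl (Or.inl ⟨c1, c2⟩)
    · exact Or.inl (Or.inr (Or.inl ⟨hx.1, c1⟩))
  have a4 := Finset.sum_le_sum fun i (_ : i ∈ Finset.univ) => a3 i
  rw [Finset.sum_add_distrib, Finset.sum_const, Finset.card_univ, Fintype.card_fin] at a4
  simp only [nsmul_eq_mul, Nat.cast_ofNat] at a4
  linarith

end MeasAux

theorem meas : MeasStmt := by
  intro H hH hfi hG hSE
  have : Countable Γ5 := Function.Surjective.countable (f := word G5) fun g => exists_word g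
  obtain ⟨μ, hμ, ⟨S⟩⟩ := exists_sys H hH.antitone hfi
  obtain ⟨ε, hε, hs⟩ := MeasAux.strong S hfi hSE
  refine ⟨LimX H, inferInstance, inferInstance, μ, hμ, {q | ∃ g : Γ5, q.2 = g • q.1},
    MeasAux.no_atom S hH hfi, ?_, ⟨?_, ?_, ?_⟩, ?_, fun φ h => MeasAux.pmp_ae S φ h, ?_,
    gap_of_strong S.mp (fun B hB h => S.ergodic hfi hB h) (fun f hf hb hE => S.map_eq hf hb hE)
      (fun i => gen G5 i) hε hs, MeasAux.no_free S hH.antitone hfi hG⟩
  · rw [Set.ofPred_exists]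
    exact MeasurableSet.iUnion fun g =>
      measurableSet_eq_fun measurable_snd ((S.mp g).measurable.comp measurable_fst)
  · exact fun x => ⟨1, (one_smul _ _).symm⟩
  · rintro x y ⟨g, hg⟩
    exact ⟨g⁻¹, by simp only at hg ⊢; rw [hg, inv_smul_smul]⟩
  · rintro x y z ⟨g, hg⟩ ⟨k, hk⟩
    exact ⟨k * g, by simp only at hg hk ⊢; rw [hk, hg, mul_smul]⟩
  · intro x
    refine (Set.countable_range fun g : Γ5 => g • x).mono ?_
    rintro y ⟨g, hg⟩
    exact ⟨g, hg.symm⟩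
  · intro B hB hinv
    refine S.ergodic hfi hB fun g => ?_
    ext x
    exact ⟨fun h => hinv _ x ⟨g⁻¹, (inv_smul_smul _ _).symm⟩ h, fun h => hinv x _ ⟨g, rfl⟩ h⟩

end Pool.Agent.MP_735563_an.H66
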