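import Pool.Agent.MP_735563_an.H66.MSpec

/-!
Cancellation of the windows without collision.
-/

set_option autoImplicit false

open scoped BigOperators

namespace Pool.Agent.MP_735563_an.H66

open Pool.Agent.MP_c34dea_an.H66 Pool.Agent.MP_c34dea_an.H23

namespace Mob

variable {S : Type} [Fintype S] [DecidableEq S] {G : SimpleGraph S} {b : ℕ} {T : Type} [Fintype T]
  [DecidableEq T] {tm : T → ℕ} {c : T → S} {z : Sg G b × (T → Sg G b)}

omit [DecidableEq T] in
theorem ew_nonneg (fl : T → Prop) : 0 ≤ Ew tm c fl z :=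
  Finset.expect_nonneg fun _ _ => Finset.prod_nonneg fun _ _ => by split_ifs <;> positivity

/-- a free step without collision can be switched off -/
theorem one (fl : T → Prop) {t : T} (hf : Free (qt tm c z t))
    (hc : ∀ t' θ, t ≠ t' → ¬ Col tm c z t t' θ) :
    Ew tm c fl z = Ew tm c (fun u => fl u ∧ u ≠ t) z := by
  classical
  by_cases h : fl t
  · let Φ : (Qy G b → Sg G b) → ℝ := fun g => ∏ u ∈ Finset.univ.erase t,
      if fl u then (if z.2 u = Fq g (qt tm c z u) then 1 else 0)
      else (Fintype.card (Sg G b) : ℝ)⁻¹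
    have e := expect_fresh hf (z.2 t) Φ fun g a => Finset.prod_congr rfl fun u hu => by
      rw [Fq_update fun θ e => hc u θ⁻¹ (Finset.ne_of_mem_erase hu).symm (inv_smul_eq_iff.2 e.symm)]
    rw [Finset.mul_expect] at e
    refine Eq.trans (Finset.expect_congr rfl fun g _ => ?_)
      (e.trans (Finset.expect_congr rfl fun g _ => ?_))
    · rw [wt, ← Finset.mul_prod_erase _ _ (Finset.mem_univ t), if_pos h]
    · rw [wt, ← Finset.mul_prod_erase _ _ (Finset.mem_univ t), if_neg (by simp)]
      congr 1
      exact Finset.prod_congr rfl fun u hu => by simp [Finset.ne_of_mem_erase hu]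
  · congr 1
    ext u
    exact ⟨fun a => ⟨a, fun e => h (e ▸ a)⟩, And.left⟩

theorem many (fl : T → Prop) (U : Finset T) (h : ∀ t ∈ U, Free (qt tm c z t) ∧
    ∀ t' θ, t ≠ t' → ¬ Col tm c z t t' θ) : Ew tm c fl z = Ew tm c (fun u => fl u ∧ u ∉ U) z := by
  induction U using Finset.induction_on with
  | empty => simp
  | insert t U _ ih =>
    have ht := h t (Finset.mem_insert_self _ _)
    rw [ih fun u hu => h u (Finset.mem_insert_of_mem hu), one _ ht.1 ht.2]
    congr 1
    ext u
    simp only [Finset.mem_insert]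
    tauto

theorem alt {J : Type} [DecidableEq J] {Js : Finset J} {j : J} (hj : j ∈ Js) (E : Finset J → ℝ)
    (h : ∀ B, E (insert j B) = E B) : ∑ B ∈ Js.powerset, (-1 : ℝ) ^ (Js \ B).card * E B = 0 := by
  rw [← Finset.insert_erase hj, Finset.sum_powerset_insert (Finset.notMem_erase _ _),
    ← Finset.sum_add_distrib]
  refine Finset.sum_eq_zero fun B hB => ?_
  have hB' : j ∉ B := fun e => Finset.notMem_erase j Js (Finset.mem_powerset.1 hB e)
  rw [h, Finset.insert_sdiff_of_notMem _ hB', Finset.card_insert_of_notMem (by simp),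
    Finset.insert_sdiff_insert, Finset.sdiff_insert_of_notMem (Finset.notMem_erase _ _), pow_succ]
  ring

end Mob

theorem mob : MobStmt := by
  classical
  intro S _ _ G b T _ _ tm c blk J _ win Js Ψ hΨ
  simp only [Finset.mul_sum]
  rw [Finset.sum_comm, Finset.sum_comm (s := Js.powerset), Finset.sum_filter, Finset.sum_filter]
  refine (Finset.abs_sum_le_sum_abs _ _).trans (Finset.sum_le_sum fun z _ => ?_)
  have h0 : 0 ≤ ∑ B ∈ Js.powerset, Ew tm c (flg win B) z :=
    Finset.sum_nonneg fun _ _ => Mob.ew_nonneg _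
  split_ifs with h1 h2
  · refine (Finset.abs_sum_le_sum_abs _ _).trans (Finset.sum_le_sum fun B _ => ?_)
    rw [abs_mul, abs_neg_one_pow, one_mul, abs_of_nonneg (Mob.ew_nonneg _)]
  · have h3 : ¬ AllCol win Js (Col tm c z) := fun h => h2 ⟨hΨ z h1, h⟩
    simp only [AllCol, not_forall, not_exists, not_and] at h3
    obtain ⟨j, hj, h3⟩ := h3
    have hU : ∀ t ∈ Finset.univ.filter (fun t => win t = some j), Free (qt tm c z t) ∧
        ∀ t' θ, t ≠ t' → ¬ Col tm c z t t' θ := fun t ht =>
      ⟨fun θ e => (hΨ z h1 t t θ rfl e).2, fun t' θ => h3 t t' θ (Finset.mem_filter.1 ht).2⟩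
    rw [Mob.alt hj _ fun B => ?_, abs_zero]
    rw [Mob.many _ _ hU, Mob.many (flg win B) _ hU]
    congr 1
    ext u
    refine and_congr_left fun hu => forall_congr' fun i => imp_congr_right fun e => ?_
    rw [Finset.mem_insert, or_iff_right fun e' => hu (by simp [e, e'])]
  · rwa [abs_zero]
  · rw [abs_zero]

end Pool.Agent.MP_735563_an.H66
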