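import Mathlib

/-! Abstract counting lemmas for the row Pat. -/

set_option autoImplicit false

open scoped BigOperators

namespace Pool.Agent.MP_735563_an.H66.Pat

open Classical in
theorem card_kill (I : Type) [Fintype I] (b : ℕ) (W : Submodule (ZMod 2) (I → ZMod 2)) :
    (Finset.univ.filter fun x : I → Fin b → ZMod 2 =>
        ∀ φ ∈ W, Fintype.linearCombination (ZMod 2) x φ = 0).card *
      (2 ^ b) ^ Module.finrank (ZMod 2) W ≤ (2 ^ b) ^ Fintype.card I := by
  let L := ((I → ZMod 2) ⧸ W) →ₗ[ZMod 2] (Fin b → ZMod 2)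
  have hfin : Finite L := Module.finite_of_finite (ZMod 2)
  have hc : Nat.card L = (2 ^ b) ^ Module.finrank (ZMod 2) ((I → ZMod 2) ⧸ W) := by
    rw [Module.natCard_eq_pow_finrank (K := ZMod 2), Nat.card_zmod, Module.finrank_linearMap,
      Module.finrank_fin_fun, ← pow_mul, mul_comm]
  let f : {x : I → Fin b → ZMod 2 // ∀ φ ∈ W, Fintype.linearCombination (ZMod 2) x φ = 0} → L :=
    fun x => W.liftQ (Fintype.linearCombination (ZMod 2) x.1) fun φ hφ => x.2 φ hφ
  have hf : Function.Injective f := by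
    intro x y h
    apply Subtype.ext
    funext i
    have h1 := LinearMap.congr_fun h (W.mkQ (Pi.single i 1))
    simp only [f, Submodule.mkQ_apply, Submodule.liftQ_apply,
      Fintype.linearCombination_apply_single, one_smul] at h1
    exact h1
  have h1 := Nat.card_le_card_of_injective f hf
  rw [hc, Nat.card_eq_fintype_card, Fintype.card_subtype] at h1
  have h2 := Submodule.finrank_quotient_add_finrank W
  rw [Module.finrank_fintype_fun_eq_card] at h2
  rw [← h2, pow_add]
  exact Nat.mul_le_mul_right _ h1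

section Code

variable {K V E : Type} [Field K] [AddCommGroup V] [Module K V]

/-- the span of the members with a small number -/
def spLt (ord : E → ℕ) (π : Finset E) (q : E → Submodule K V) (n : ℕ) : Submodule K V :=
  ⨆ e ∈ π, ⨆ _ : ord e < n, q e

theorem le_spLt {ord : E → ℕ} {π : Finset E} (q : E → Submodule K V) {n : ℕ} {e : E}
    (he : e ∈ π) (hn : ord e < n) : q e ≤ spLt ord π q n :=
  le_iSup₂_of_le (f := fun e (_ : e ∈ π) => ⨆ _ : ord e < n, q e) e he
    (le_iSup (fun _ : ord e < n => q e) hn)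

theorem spLt_le {ord : E → ℕ} {π : Finset E} {q : E → Submodule K V} {n : ℕ} {W : Submodule K V}
    (h : ∀ e ∈ π, ord e < n → q e ≤ W) : spLt ord π q n ≤ W :=
  iSup₂_le fun e he => iSup_le fun hn => h e he hn

open Classical in
/-- the members that enlarge the span -/
noncomputable def code (ord : E → ℕ) (π : Finset E) (q : E → Submodule K V) : Finset E :=
  π.filter fun e => ¬ q e ≤ spLt ord π q (ord e)

theorem mem_code {ord : E → ℕ} {π : Finset E} {q : E → Submodule K V} {e : E} :
    e ∈ code ord π q ↔ e ∈ π ∧ ¬ q e ≤ spLt ord π q (ord e) := by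
  classical
  exact Finset.mem_filter

theorem card_code_le [FiniteDimensional K V] {ord : E → ℕ} (hord : Function.Injective ord)
    (π : Finset E) (q : E → Submodule K V) (W : Submodule K V) (hW : ∀ e ∈ π, q e ≤ W) :
    (code ord π q).card ≤ Module.finrank K W := by
  classical
  have key : ∀ n, ((code ord π q).filter fun e => ord e < n).card ≤
      Module.finrank K (spLt ord π q n) := by
    intro n
    induction n with
    | zero => simp
    | succ n ih =>
      have hle : spLt ord π q n ≤ spLt ord π q (n + 1) :=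
        spLt_le fun e he hn => le_spLt q he (by omega)
      by_cases h : ∃ e ∈ code ord π q, ord e = n
      · obtain ⟨e, he, hn⟩ := h
        have hlt : spLt ord π q n < spLt ord π q (n + 1) := by
          refine lt_of_le_of_ne hle fun heq => (mem_code.1 he).2 ?_
          rw [hn, heq]
          exact le_spLt q (mem_code.1 he).1 (by omega)
        have h1 := Submodule.finrank_lt_finrank_of_lt hlt
        have h2 : ((code ord π q).filter fun e => ord e < n + 1) ⊆
            insert e ((code ord π q).filter fun e => ord e < n) := by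
          intro e' he'
          rw [Finset.mem_filter] at he'
          rw [Finset.mem_insert, Finset.mem_filter]
          by_cases h3 : ord e' = n
          · exact Or.inl (hord (h3.trans hn.symm))
          · exact Or.inr ⟨he'.1, by omega⟩
        have h3 := (Finset.card_le_card h2).trans (Finset.card_insert_le _ _)
        omega
      · have h2 : ((code ord π q).filter fun e => ord e < n + 1) ⊆
            ((code ord π q).filter fun e => ord e < n) := by
          intro e' he'
          rw [Finset.mem_filter] at he' ⊢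
          have : ord e' ≠ n := fun h3 => h ⟨e', he'.1, h3⟩
          exact ⟨he'.1, by omega⟩
        exact (Finset.card_le_card h2).trans (ih.trans (Submodule.finrank_mono hle))
  have h1 := key (π.sup ord + 1)
  rw [Finset.filter_true_of_mem fun e he =>
    Nat.lt_succ_of_le (Finset.le_sup (f := ord) (mem_code.1 he).1)] at h1
  exact h1.trans (Submodule.finrank_mono (spLt_le fun e he _ => hW e he))

end Code

theorem sum_code {α E : Type} [Fintype E] (P : Finset α) (cd : α → Finset E) (ρ : α → ℕ) (r : ℕ)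
    (B ε : ℝ) (hB : 0 < B) (hinj : Set.InjOn cd P) (h1 : ∀ π ∈ P, (cd π).card ≤ ρ π)
    (h2 : ∀ π ∈ P, r < ρ π) (hε : ((Fintype.card E : ℝ) + 1) / B ≤ ε) (hε' : ε ≤ 1 / 2) :
    ∑ π ∈ P, B⁻¹ ^ ρ π ≤ 2 * ε ^ r := by
  classical
  set N : ℝ := (Fintype.card E : ℝ) with hN
  have hN0 : 0 ≤ N := Nat.cast_nonneg _
  have hN1 : 0 < N + 1 := by linarith
  have hε0 : 0 ≤ ε := le_trans (div_nonneg hN1.le hB.le) hε
  have hy0 : 0 ≤ (N + 1)⁻¹ := inv_nonneg.2 hN1.le
  have hy1 : (N + 1)⁻¹ ≤ 1 := inv_le_one_of_one_le₀ (by linarith)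
  have a1 : ∀ π ∈ P, B⁻¹ ^ ρ π ≤ ε ^ (r + 1) * (N + 1)⁻¹ ^ (cd π).card := by
    intro π hπ
    have e : B⁻¹ = (N + 1) / B * (N + 1)⁻¹ := by field_simp
    rw [e, mul_pow]
    refine mul_le_mul ?_ (pow_le_pow_of_le_one hy0 hy1 (h1 π hπ)) (pow_nonneg hy0 _)
      (pow_nonneg hε0 _)
    exact (pow_le_pow_left₀ (div_nonneg hN1.le hB.le) hε _).trans
      (pow_le_pow_of_le_one hε0 (by linarith) (h2 π hπ))
  have a2 : ∑ π ∈ P, (N + 1)⁻¹ ^ (cd π).card ≤ 3 := by
    rw [← Finset.sum_image (f := fun s : Finset E => (N + 1)⁻¹ ^ s.card) hinj]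
    have a3 : ∑ s ∈ P.image cd, (N + 1)⁻¹ ^ s.card ≤
        ∑ s ∈ (Finset.univ : Finset E).powerset, (N + 1)⁻¹ ^ s.card :=
      Finset.sum_le_sum_of_subset_of_nonneg (fun s _ => Finset.mem_powerset.2 (Finset.subset_univ s))
        fun s _ _ => pow_nonneg hy0 _
    have a4 := Finset.sum_pow_mul_eq_add_pow ((N + 1)⁻¹) (1 : ℝ) (Finset.univ : Finset E)
    simp only [one_pow, mul_one, Finset.card_univ] at a4
    have a5 : ((N + 1)⁻¹ + 1) ^ Fintype.card E ≤ Real.exp ((N + 1)⁻¹) ^ Fintype.card E :=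
      pow_le_pow_left₀ (by linarith) (Real.add_one_le_exp _) _
    rw [← Real.exp_nat_mul, ← hN] at a5
    have a6 : Real.exp (N * (N + 1)⁻¹) ≤ Real.exp 1 := by
      refine Real.exp_le_exp.2 ?_
      rw [← div_eq_mul_inv, div_le_one hN1]
      linarith
    have a7 := Real.exp_one_lt_three
    linarith
  calc ∑ π ∈ P, B⁻¹ ^ ρ π ≤ ∑ π ∈ P, ε ^ (r + 1) * (N + 1)⁻¹ ^ (cd π).card :=
        Finset.sum_le_sum a1
    _ = ε ^ (r + 1) * ∑ π ∈ P, (N + 1)⁻¹ ^ (cd π).card := by rw [Finset.mul_sum]
    _ ≤ ε ^ (r + 1) * 3 := mul_le_mul_of_nonneg_left a2 (pow_nonneg hε0 _)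
    _ ≤ 2 * ε ^ r := by
      rw [pow_succ]
      have := pow_nonneg hε0 r
      nlinarith

theorem exists_class {V : Type} [AddCommGroup V] [Module (ZMod 2) V] [Finite V]
    (W : Submodule (ZMod 2) V) (r : ℕ) (h : Module.finrank (ZMod 2) W ≤ r) :
    ∃ ι : V → Fin (2 ^ r), ∀ x ∈ W, ∀ y ∈ W, ι x = ι y → x = y := by
  classical
  have h1 : Nat.card W ≤ Nat.card (Fin (2 ^ r)) := by
    rw [Module.natCard_eq_pow_finrank (K := ZMod 2), Nat.card_zmod, Nat.card_fin]
    exact Nat.pow_le_pow_right (by norm_num) h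
  have := Fintype.ofFinite W
  rw [Nat.card_eq_fintype_card, Nat.card_eq_fintype_card] at h1
  obtain ⟨j⟩ := Function.Embedding.nonempty_of_card_le h1
  refine ⟨fun x => if hx : x ∈ W then j ⟨x, hx⟩ else j 0, fun x hx y hy e => ?_⟩
  simp only [dif_pos hx, dif_pos hy] at e
  exact congrArg Subtype.val (j.injective e)

end Pool.Agent.MP_735563_an.H66.Pat
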