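import Pool.Agent.MP_735563_an.H66.MSpec
import Pool.Agent.MP_735563_an.H66.PatA

/-! Row Pat: runs whose collisions have large rank are rare. -/

set_option autoImplicit false

open scoped Pointwise ENNReal BigOperators

namespace Pool.Agent.MP_735563_an.H66

open Pool.Agent.MP_c34dea_an.H66 Pool.Agent.MP_c34dea_an.H23

namespace Pat

section Pick

variable {S : Type} {G : SimpleGraph S} {T : Type} (tm : T → ℕ) (fl : T → Prop)

/-- the first flagged step that collides with a flagged step -/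
def Pick (t : T) (σ : T → Aut G → Prop) (p : T × Aut G) : Prop :=
  fl t ∧ fl p.1 ∧ tm p.1 < tm t ∧ σ p.1 p.2 ∧ ∀ u θ, fl u → σ u θ → tm p.1 ≤ tm u

open Classical in
/-- the representative of a step -/
noncomputable def pr (t : T) (σ : T → Aut G → Prop) : T × Aut G :=
  if h : ∃ p, Pick tm fl t σ p then h.choose else (t, 1)

theorem pr_spec (t : T) (σ : T → Aut G → Prop) :
    Pick tm fl t σ (pr tm fl t σ) ∨ (pr tm fl t σ = (t, 1) ∧ ¬ ∃ p, Pick tm fl t σ p) := by
  unfold pr
  by_cases h : ∃ p, Pick tm fl t σ p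
  · rw [dif_pos h]
    exact Or.inl h.choose_spec
  · rw [dif_neg h]
    exact Or.inr ⟨rfl, h⟩

theorem exists_pick {t u : T} {σ : T → Aut G → Prop} {θ : Aut G} (ht : fl t) (hu : fl u)
    (hlt : tm u < tm t) (h : σ u θ) : ∃ p, Pick tm fl t σ p := by
  let A : Set (T × Aut G) := {p | fl p.1 ∧ σ p.1 p.2}
  have hA : (u, θ) ∈ A := ⟨hu, h⟩
  let p := Function.argminOn (fun p : T × Aut G => tm p.1) A ⟨_, hA⟩
  have hp : p ∈ A := Function.argminOn_mem _ A ⟨_, hA⟩
  have hle : ∀ a ∈ A, tm p.1 ≤ tm a.1 := fun a ha =>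
    Function.argminOn_le (fun p : T × Aut G => tm p.1) A ha
  exact ⟨p, ht, hp.1, lt_of_le_of_lt (hle _ hA) hlt, hp.2, fun w θ' hw h' => hle (w, θ') ⟨hw, h'⟩⟩

/-- the representative step -/
noncomputable def rp (π : Finset (T × T × Aut G)) (t : T) : T :=
  (pr tm fl t fun u θ => (u, t, θ) ∈ π).1

/-- the twist from the representative step -/
noncomputable def th (π : Finset (T × T × Aut G)) (t : T) : Aut G :=
  (pr tm fl t fun u θ => (u, t, θ) ∈ π).2

theorem rp_spec (π : Finset (T × T × Aut G)) (t : T) :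
    (fl t ∧ fl (rp tm fl π t) ∧ tm (rp tm fl π t) < tm t ∧ (rp tm fl π t, t, th tm fl π t) ∈ π ∧
      ∀ u θ, fl u → (u, t, θ) ∈ π → tm (rp tm fl π t) ≤ tm u) ∨
    (rp tm fl π t = t ∧ th tm fl π t = 1 ∧
      ∀ u θ, fl t → fl u → tm u < tm t → (u, t, θ) ∉ π) := by
  rcases pr_spec tm fl t (fun u θ => (u, t, θ) ∈ π) with h | ⟨h1, h2⟩
  · exact Or.inl h
  · exact Or.inr ⟨congrArg Prod.fst h1, congrArg Prod.snd h1,
      fun u θ ht hu hlt h => h2 (exists_pick tm fl ht hu hlt h)⟩

theorem th_of_rp {π : Finset (T × T × Aut G)} {t : T} (h : rp tm fl π t = t) :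
    th tm fl π t = 1 := by
  rcases rp_spec tm fl π t with h1 | h1
  · rw [h] at h1
    exact absurd h1.2.2.1 (lt_irrefl _)
  · exact h1.2.1

theorem rp_congr {π π' : Finset (T × T × Aut G)} {t : T}
    (h : ∀ u θ, (u, t, θ) ∈ π ↔ (u, t, θ) ∈ π') :
    rp tm fl π t = rp tm fl π' t ∧ th tm fl π t = th tm fl π' t := by
  have : (fun u θ => (u, t, θ) ∈ π) = fun u θ => (u, t, θ) ∈ π' :=
    funext fun u => funext fun θ => propext (h u θ)
  unfold rp th
  rw [this]
  exact ⟨rfl, rfl⟩

end Pick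

variable {S : Type} [Fintype S] [DecidableEq S] {G : SimpleGraph S} {b : ℕ} {T : Type} [Fintype T]
  [DecidableEq T] (tm : T → ℕ) (c : T → S) (fl : T → Prop)

section Col

variable {tm c} {z : Sg G b × (T → Sg G b)} {t t' t'' : T} {θ θ' : Aut G}

omit [Fintype S] [DecidableEq S] [DecidableEq T]

theorem col_refl (t : T) : Col tm c z t t 1 := one_smul _ _

theorem col_symm (h : Col tm c z t t' θ) : Col tm c z t' t θ⁻¹ := by
  unfold Col at h ⊢
  rw [← h, inv_smul_smul]

theorem col_trans (h : Col tm c z t t' θ) (h' : Col tm c z t' t'' θ') :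
    Col tm c z t t'' (θ' * θ) := by
  unfold Col at h h' ⊢
  rw [mul_smul, h, h']

theorem col_letter (h : Col tm c z t t' θ) : θ • c t = c t' := (smul_qy_iff.1 h).1

end Col

open Classical in
/-- the pattern of collisions -/
noncomputable def ptn (z : Sg G b × (T → Sg G b)) : Finset (T × T × Aut G) :=
  Finset.univ.filter fun e => tm e.1 ≤ tm e.2.1 ∧ Col tm c z e.1 e.2.1 e.2.2

omit [DecidableEq S] [DecidableEq T] in
theorem mem_ptn {z : Sg G b × (T → Sg G b)} {e : T × T × Aut G} :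
    e ∈ ptn tm c z ↔ tm e.1 ≤ tm e.2.1 ∧ Col tm c z e.1 e.2.1 e.2.2 := by
  classical
  unfold ptn
  simp only [Finset.mem_filter, Finset.mem_univ, true_and]

omit [DecidableEq S] [DecidableEq T] in
theorem col_rp (z : Sg G b × (T → Sg G b)) (t : T) :
    Col tm c z (rp tm fl (ptn tm c z) t) t (th tm fl (ptn tm c z) t) := by
  rcases rp_spec tm fl (ptn tm c z) t with h | h
  · exact ((mem_ptn tm c).1 h.2.2.2.1).2
  · rw [h.1, h.2.1]
    exact col_refl t

omit [DecidableEq S] [DecidableEq T] in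
theorem rp_rp (z : Sg G b × (T → Sg G b)) (t : T) :
    rp tm fl (ptn tm c z) (rp tm fl (ptn tm c z) t) = rp tm fl (ptn tm c z) t := by
  rcases rp_spec tm fl (ptn tm c z) t with h | h
  · rcases rp_spec tm fl (ptn tm c z) (rp tm fl (ptn tm c z) t) with h' | h'
    · have h1 := col_trans (col_rp tm c fl z (rp tm fl (ptn tm c z) t)) (col_rp tm c fl z t)
      have h2 := h.2.2.2.2 _ _ h'.2.1
        ((mem_ptn tm c).2 ⟨(h'.2.2.1.trans h.2.2.1).le, h1⟩)
      exact absurd h'.2.2.1 (not_lt.2 h2)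
    · exact h'.1
  · rw [h.1, h.1]

omit [DecidableEq S] [DecidableEq T] in
theorem fresh_not_col (hinj : Function.Injective tm) (z : Sg G b × (T → Sg G b)) {u t : T}
    (hu : fl u) (ht : fl t) (hu' : rp tm fl (ptn tm c z) u = u) (ht' : rp tm fl (ptn tm c z) t = t)
    (hne : u ≠ t) (θ : Aut G) : ¬ Col tm c z u t θ := by
  have key : ∀ (u t : T) (θ : Aut G), fl u → fl t → rp tm fl (ptn tm c z) t = t → tm u < tm t →
      ¬ Col tm c z u t θ := by
    intro u t θ hu ht ht' hlt h
    rcases rp_spec tm fl (ptn tm c z) t with h1 | h1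
    · rw [ht'] at h1
      exact absurd h1.2.2.1 (lt_irrefl _)
    · exact h1.2.2 u θ ht hu hlt ((mem_ptn tm c).2 ⟨hlt.le, h⟩)
  intro h
  rcases lt_or_gt_of_ne (hinj.ne hne) with hlt | hlt
  · exact key u t θ hu ht ht' hlt h
  · exact key t u θ⁻¹ ht hu hu' hlt (col_symm h)

/-- the run defined by free variables -/
noncomputable def zx (π : Finset (T × T × Aut G)) (x : Sg G b × (T → Sg G b)) :
    Sg G b × (T → Sg G b) :=
  (x.1, fun t => tw (th tm fl π t) (x.2 (rp tm fl π t)))

theorem Ew_zero (z : Sg G b × (T → Sg G b)) (h : zx tm fl (ptn tm c z) z ≠ z) :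
    Ew tm c fl z = 0 := by
  classical
  have h1 : ∃ t, tw (th tm fl (ptn tm c z) t) (z.2 (rp tm fl (ptn tm c z) t)) ≠ z.2 t := by
    by_contra h2
    push Not at h2
    exact h (Prod.ext rfl (funext h2))
  obtain ⟨t, ht⟩ := h1
  rcases rp_spec tm fl (ptn tm c z) t with h1 | h1
  · unfold Ew
    refine Finset.expect_eq_zero fun g _ => ?_
    unfold wt
    by_cases h2 : z.2 t = Fq g (qt tm c z t)
    · refine Finset.prod_eq_zero (Finset.mem_univ (rp tm fl (ptn tm c z) t)) ?_
      rw [if_pos h1.2.1, if_neg]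
      intro h3
      apply ht
      have h4 : th tm fl (ptn tm c z) t • qt tm c z (rp tm fl (ptn tm c z) t) = qt tm c z t :=
        col_rp tm c fl z t
      rw [h3, ← Fq_smul, h4, h2]
    · refine Finset.prod_eq_zero (Finset.mem_univ t) ?_
      rw [if_pos h1.1, if_neg h2]
  · rw [h1.1, h1.2.1, tw_one] at ht
    exact absurd rfl ht

theorem Ew_le (hinj : Function.Injective tm) (z : Sg G b × (T → Sg G b))
    (hfree : ∀ t θ, Col tm c z t t θ → θ = 1) :
    Ew tm c fl z ≤ (Fintype.card (Sg G b) : ℝ)⁻¹ ^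
      (Finset.univ.filter fun t => rp tm fl (ptn tm c z) t = t).card := by
  classical
  have hM : (1 : ℝ) ≤ Fintype.card (Sg G b) := by exact_mod_cast Fintype.card_pos
  have hM0 : (0 : ℝ) ≤ (Fintype.card (Sg G b) : ℝ)⁻¹ := inv_nonneg.2 (by linarith)
  let w : (Qy G b → Sg G b) → T → ℝ := fun g t =>
    if fl t then (if z.2 t = Fq g (qt tm c z t) then 1 else 0)
    else (Fintype.card (Sg G b) : ℝ)⁻¹
  have key : ∀ U : Finset T, (∀ t ∈ U, rp tm fl (ptn tm c z) t = t) →
      𝔼 g, ∏ t ∈ U, w g t = (Fintype.card (Sg G b) : ℝ)⁻¹ ^ U.card := by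
    intro U
    induction U using Finset.induction_on with
    | empty => intro _; simp
    | insert t U htU ih =>
      intro hU
      have ih' := ih fun u hu => hU u (Finset.mem_insert_of_mem hu)
      simp only [Finset.prod_insert htU]
      rw [Finset.card_insert_of_notMem htU, pow_succ', ← ih']
      by_cases ht : fl t
      · have e : ∀ g, w g t = if z.2 t = Fq g (qt tm c z t) then 1 else 0 := fun g => if_pos ht
        simp only [e]
        refine expect_fresh (hfree t) (z.2 t) (fun g => ∏ u ∈ U, w g u) fun g a => ?_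
        refine Finset.prod_congr rfl fun u hu => ?_
        by_cases hu' : fl u
        · have hne : u ≠ t := fun h => htU (h ▸ hu)
          have := fresh_not_col tm c fl hinj z hu' ht (hU u (Finset.mem_insert_of_mem hu))
            (hU t (Finset.mem_insert_self _ _)) hne
          simp only [w]
          rw [Fq_update this]
        · simp only [w, if_neg hu']
      · have e : ∀ g, w g t = (Fintype.card (Sg G b) : ℝ)⁻¹ := fun g => if_neg ht
        simp only [e]
        rw [Finset.mul_expect]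
  rw [← key _ fun t ht => (Finset.mem_filter.1 ht).2]
  unfold Ew
  refine Finset.expect_le_expect fun g _ => ?_
  refine Finset.prod_le_prod_of_subset_of_le_one (f := w g) (Finset.subset_univ _)
    (fun t _ => ?_) fun t _ _ => ?_
  · simp only [w]
    split_ifs
    · exact zero_le_one
    · exact le_rfl
    · exact hM0
  · simp only [w]
    split_ifs
    · exact le_rfl
    · exact zero_le_one
    · exact inv_le_one_of_one_le₀ hM

/-- the values of the variables -/
def xv (x : Sg G b × (T → Sg G b)) (j : Option T × (S × Aut G)) : Vb b :=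
  j.1.elim (x.1 j.2) fun u => x.2 u j.2

/-- the variable that a step adds to a register -/
noncomputable def vr (π : Finset (T × T × Aut G)) (u : T) (i : S × Aut G) :
    Option T × (S × Aut G) :=
  (some (rp tm fl π u), ((th tm fl π u)⁻¹ • i.1, (th tm fl π u)⁻¹ * i.2))

open Classical in
/-- the form that a step adds to a register -/
noncomputable def gm (π : Finset (T × T × Aut G)) (u : T) (i : S × Aut G) :
    Option T × (S × Aut G) → ZMod 2 :=
  if i.1 ∈ st G (c u) then 0 else Pi.single (vr tm fl π u i) 1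

/-- the form of a register before a step -/
noncomputable def F (π : Finset (T × T × Aut G)) (t : T) (i : S × Aut G) :
    Option T × (S × Aut G) → ZMod 2 :=
  Pi.single (none, i) 1 + ∑ u with tm u < tm t, gm tm c fl π u i

/-- evaluation of forms -/
noncomputable def ev (x : Sg G b × (T → Sg G b)) :
    (Option T × (S × Aut G) → ZMod 2) →ₗ[ZMod 2] Vb b :=
  Fintype.linearCombination (ZMod 2) (xv x)

theorem ev_F (π : Finset (T × T × Aut G)) (x : Sg G b × (T → Sg G b)) (t : T) (i : S × Aut G) :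
    ev x (F tm c fl π t i) = stt tm c (zx tm fl π x) t i := by
  unfold F stt
  rw [map_add, map_sum, Pi.add_apply, Finset.sum_apply]
  refine congrArg₂ (· + ·) ?_ (Finset.sum_congr rfl fun u _ => ?_)
  · unfold ev
    rw [Fintype.linearCombination_apply_single, one_smul]
    rfl
  · unfold gm mask
    by_cases h : i.1 ∈ st G (c u)
    · rw [if_pos h, if_pos h, map_zero]
    · rw [if_neg h, if_neg h]
      unfold ev
      rw [Fintype.linearCombination_apply_single, one_smul]
      rfl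

/-- the equations of a collision -/
noncomputable def eqf (π : Finset (T × T × Aut G)) (e : T × T × Aut G) (β : Aut G) :
    Option T × (S × Aut G) → ZMod 2 :=
  F tm c fl π e.2.1 (c e.2.1, e.2.2 * β) + F tm c fl π e.1 (c e.1, β)

/-- their span -/
noncomputable def qs (π : Finset (T × T × Aut G)) (e : T × T × Aut G) :
    Submodule (ZMod 2) (Option T × (S × Aut G) → ZMod 2) :=
  Submodule.span (ZMod 2) (Set.range (eqf tm c fl π e))

/-- the span of all equations of a pattern -/
noncomputable def Sp (π : Finset (T × T × Aut G)) :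
    Submodule (ZMod 2) (Option T × (S × Aut G) → ZMod 2) :=
  ⨆ e ∈ π, qs tm c fl π e

theorem le_Sp {π : Finset (T × T × Aut G)} {e : T × T × Aut G} (he : e ∈ π) :
    qs tm c fl π e ≤ Sp tm c fl π :=
  le_iSup₂ (f := fun e (_ : e ∈ π) => qs tm c fl π e) e he

theorem add_eq_zero_two {ι : Type} (u v : ι → ZMod 2) : u + v = 0 ↔ u = v := by
  constructor
  · intro h
    funext i
    exact CharTwo.add_eq_zero.1 (congrFun h i)
  · rintro rfl
    funext i
    exact CharTwo.add_self_eq_zero _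

theorem col_iff (π : Finset (T × T × Aut G)) (x : Sg G b × (T → Sg G b)) (e : T × T × Aut G) :
    Col tm c (zx tm fl π x) e.1 e.2.1 e.2.2 ↔
      e.2.2 • c e.1 = c e.2.1 ∧ qs tm c fl π e ≤ LinearMap.ker (ev x) := by
  unfold Col qt qs
  rw [smul_qy_iff, Submodule.span_le, Set.range_subset_iff]
  refine and_congr_right fun _ => forall_congr' fun β => ?_
  rw [SetLike.mem_coe, LinearMap.mem_ker, eqf, map_add, ev_F, ev_F, add_eq_zero_two]

theorem F_congr {π π' : Finset (T × T × Aut G)} {t : T}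
    (h : ∀ u, tm u < tm t → ∀ w θ, (w, u, θ) ∈ π ↔ (w, u, θ) ∈ π') (i : S × Aut G) :
    F tm c fl π t i = F tm c fl π' t i := by
  unfold F
  refine congrArg _ (Finset.sum_congr rfl fun u hu => ?_)
  obtain ⟨h1, h2⟩ := rp_congr tm fl (h u (Finset.mem_filter.1 hu).2)
  unfold gm vr
  rw [h1, h2]

/-- a numbering of the triples -/
noncomputable def ord (e : T × T × Aut G) : ℕ :=
  tm e.2.1 * Fintype.card (T × T × Aut G) + Fintype.equivFin (T × T × Aut G) e

omit [DecidableEq S] [DecidableEq T] in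
theorem ord_lt {e e' : T × T × Aut G} (h : tm e.2.1 < tm e'.2.1) : ord tm e < ord tm e' := by
  unfold ord
  have h1 := (Fintype.equivFin (T × T × Aut G) e).2
  have h2 : (tm e.2.1 + 1) * Fintype.card (T × T × Aut G) ≤
      tm e'.2.1 * Fintype.card (T × T × Aut G) := Nat.mul_le_mul_right _ h
  rw [add_mul, one_mul] at h2
  omega

omit [DecidableEq S] [DecidableEq T] in
theorem ord_inj : Function.Injective (ord tm : T × T × Aut G → ℕ) := by
  intro e e' h
  have h1 : tm e.2.1 = tm e'.2.1 := by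
    rcases lt_trichotomy (tm e.2.1) (tm e'.2.1) with h1 | h1 | h1
    · exact absurd h (ord_lt tm h1).ne
    · exact h1
    · exact absurd h (ord_lt tm h1).ne'
  unfold ord at h
  rw [h1] at h
  exact (Fintype.equivFin (T × T × Aut G)).injective (Fin.ext (Nat.add_left_cancel h))

theorem qs_congr {π π' : Finset (T × T × Aut G)} {n : ℕ}
    (h : ∀ e, ord tm e < n → (e ∈ π ↔ e ∈ π')) {e : T × T × Aut G} (he : ord tm e ≤ n)
    (hv : tm e.1 ≤ tm e.2.1) : qs tm c fl π e = qs tm c fl π' e := by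
  have h1 : ∀ u, tm u < tm e.2.1 → ∀ w θ, (w, u, θ) ∈ π ↔ (w, u, θ) ∈ π' := fun u hu w θ =>
    h _ (lt_of_lt_of_le (ord_lt tm (e := (w, u, θ)) hu) he)
  have h2 : eqf tm c fl π e = eqf tm c fl π' e := by
    funext β
    unfold eqf
    rw [F_congr tm c fl h1, F_congr tm c fl fun u hu => h1 u (lt_of_lt_of_le hu hv)]
  unfold qs
  rw [h2]

/-- the code of a pattern -/
noncomputable def cd (π : Finset (T × T × Aut G)) : Finset (T × T × Aut G) :=
  code (ord tm) π (qs tm c fl π)

theorem cd_step {π π' : Finset (T × T × Aut G)} {x x' : Sg G b × (T → Sg G b)}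
    (hx : ptn tm c (zx tm fl π x) = π) (hx' : ptn tm c (zx tm fl π' x') = π')
    (hc : cd tm c fl π = cd tm c fl π') {e : T × T × Aut G}
    (h : ∀ e', ord tm e' < ord tm e → (e' ∈ π ↔ e' ∈ π')) (he : e ∈ π) : e ∈ π' := by
  by_cases h1 : e ∈ cd tm c fl π
  · rw [hc] at h1
    exact (mem_code.1 h1).1
  · have h2 : qs tm c fl π e ≤ spLt (ord tm) π (qs tm c fl π) (ord tm e) := by
      by_contra h2
      exact h1 (mem_code.2 ⟨he, h2⟩)
    have hv := (mem_ptn tm c).1 (hx.symm ▸ he : e ∈ ptn tm c (zx tm fl π x))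
    rw [← hx']
    refine (mem_ptn tm c).2 ⟨hv.1, (col_iff tm c fl π' x' e).2 ⟨col_letter hv.2, ?_⟩⟩
    rw [← qs_congr tm c fl h le_rfl hv.1]
    refine h2.trans (spLt_le fun e' he' hn => ?_)
    have h3 : e' ∈ ptn tm c (zx tm fl π' x') := hx'.symm ▸ (h e' hn).1 he'
    have h4 := (mem_ptn tm c).1 h3
    rw [qs_congr tm c fl h hn.le h4.1]
    exact ((col_iff tm c fl π' x' e').1 h4.2).2

theorem cd_inj {π π' : Finset (T × T × Aut G)} {x x' : Sg G b × (T → Sg G b)}
    (hx : ptn tm c (zx tm fl π x) = π) (hx' : ptn tm c (zx tm fl π' x') = π')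
    (hc : cd tm c fl π = cd tm c fl π') : π = π' := by
  have key : ∀ n, ∀ e, ord tm e < n → (e ∈ π ↔ e ∈ π') := by
    intro n
    induction n with
    | zero => intro e he; exact absurd he (Nat.not_lt_zero _)
    | succ n ih =>
      intro e he
      have h : ∀ e', ord tm e' < ord tm e → (e' ∈ π ↔ e' ∈ π') := fun e' he' => ih e' (by omega)
      exact ⟨cd_step tm c fl hx hx' hc h,
        cd_step tm c fl hx' hx hc.symm fun e' he' => (h e' he').symm⟩
  ext e
  exact key _ e (Nat.lt_succ_self _)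

/-- the forms added in an interval of time -/
noncomputable def Gs (π : Finset (T × T × Aut G)) (lo hi : ℕ) (i : S × Aut G) :
    Option T × (S × Aut G) → ZMod 2 :=
  ∑ u with (lo ≤ tm u ∧ tm u < hi), gm tm c fl π u i

theorem F_add_of_le (π : Finset (T × T × Aut G)) {t t' : T} (h : tm t ≤ tm t') (i : S × Aut G) :
    F tm c fl π t i + F tm c fl π t' i = Gs tm c fl π (tm t) (tm t') i := by
  have e : (Finset.univ.filter fun u => tm u < tm t') =
      (Finset.univ.filter fun u => tm u < tm t) ∪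
        Finset.univ.filter fun u => tm t ≤ tm u ∧ tm u < tm t' := by
    ext u
    simp only [Finset.mem_filter, Finset.mem_univ, true_and, Finset.mem_union]
    omega
  have hd : Disjoint (Finset.univ.filter fun u => tm u < tm t)
      (Finset.univ.filter fun u => tm t ≤ tm u ∧ tm u < tm t') := by
    rw [Finset.disjoint_filter]
    intro u _ h1 h2
    omega
  unfold F Gs
  rw [e, Finset.sum_union hd, ← add_assoc (Pi.single _ _), ← add_assoc,
    (add_eq_zero_two _ _).2 rfl, zero_add]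

theorem F_add (π : Finset (T × T × Aut G)) (t t' : T) (i : S × Aut G) :
    F tm c fl π t i + F tm c fl π t' i =
      Gs tm c fl π (min (tm t) (tm t')) (max (tm t) (tm t')) i := by
  rcases le_total (tm t) (tm t') with h | h
  · rw [min_eq_left h, max_eq_right h, F_add_of_le tm c fl π h]
  · rw [min_eq_right h, max_eq_left h, add_comm, F_add_of_le tm c fl π h]

theorem partner {π : Finset (T × T × Aut G)} {lo hi lo' hi' : ℕ} {i i' : S × Aut G}
    (h : Gs tm c fl π lo hi i = Gs tm c fl π lo' hi' i') {t : T} (h1 : lo ≤ tm t) (h2 : tm t < hi)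
    (h3 : i.1 ∉ st G (c t))
    (hu : ∀ u, lo ≤ tm u → tm u < hi → rp tm fl π u = rp tm fl π t → u = t) :
    ∃ u, lo' ≤ tm u ∧ tm u < hi' ∧ rp tm fl π u = rp tm fl π t ∧
      (th tm fl π u)⁻¹ * i'.2 = (th tm fl π t)⁻¹ * i.2 := by
  have e1 : Gs tm c fl π lo hi i (vr tm fl π t i) = 1 := by
    unfold Gs
    rw [Finset.sum_apply, Finset.sum_eq_single t]
    · unfold gm
      rw [if_neg h3, Pi.single_eq_same]
    · intro u hu1 hne
      have hu2 := (Finset.mem_filter.1 hu1).2
      unfold gm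
      split_ifs
      · rfl
      · refine Pi.single_eq_of_ne (fun e => hne (hu u hu2.1 hu2.2 ?_)) _
        exact (Option.some.inj (congrArg Prod.fst e)).symm
    · intro ht
      exact absurd (Finset.mem_filter.2 ⟨Finset.mem_univ t, h1, h2⟩) ht
  rw [h] at e1
  unfold Gs at e1
  rw [Finset.sum_apply] at e1
  obtain ⟨u, hu1, hu2⟩ := Finset.exists_ne_zero_of_sum_ne_zero (e1 ▸ one_ne_zero)
  have hu3 := (Finset.mem_filter.1 hu1).2
  have e2 : vr tm fl π t i = vr tm fl π u i' := by
    by_contra hne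
    apply hu2
    unfold gm
    split_ifs
    · rfl
    · exact Pi.single_eq_of_ne hne _
  exact ⟨u, hu3.1, hu3.2, (Option.some.inj (congrArg Prod.fst e2)).symm,
    (congrArg (fun j => j.2.2) e2).symm⟩

theorem str_of_rank {blk : T → ℕ} (hI : Itvs tm blk) (z : Sg G b × (T → Sg G b))
    (hN : NoIn blk (Col tm c z)) (r : ℕ)
    (h : Module.finrank (ZMod 2) (Sp tm c fl (ptn tm c z)) ≤ r) :
    Str tm c blk (2 ^ r) (Col tm c z) := by
  set π := ptn tm c z with hπ
  obtain ⟨ι, hι⟩ := exists_class _ r h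
  have hmem : ∀ t t' θ, Col tm c z t t' θ →
      F tm c fl π t' (c t', θ) + F tm c fl π t (c t, 1) ∈ Sp tm c fl π := by
    intro t t' θ hc
    rcases le_total (tm t) (tm t') with h1 | h1
    · have he : (t, t', θ) ∈ π := (mem_ptn tm c).2 ⟨h1, hc⟩
      have h2 : eqf tm c fl π (t, t', θ) 1 ∈ Sp tm c fl π :=
        le_Sp tm c fl he (Submodule.subset_span ⟨1, rfl⟩)
      unfold eqf at h2
      rwa [mul_one] at h2
    · have he : (t', t, θ⁻¹) ∈ π := (mem_ptn tm c).2 ⟨h1, col_symm hc⟩
      have h2 : eqf tm c fl π (t', t, θ⁻¹) θ ∈ Sp tm c fl π :=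
        le_Sp tm c fl he (Submodule.subset_span ⟨θ, rfl⟩)
      unfold eqf at h2
      rwa [inv_mul_cancel, add_comm] at h2
  have hcol : ∀ u t, rp tm fl π u = rp tm fl π t →
      Col tm c z u t (th tm fl π t * (th tm fl π u)⁻¹) := by
    intro u t e
    have h1 := col_symm (col_rp tm c fl z u)
    have h2 := col_rp tm c fl z t
    rw [← hπ] at h1 h2
    rw [e] at h1
    exact col_trans h1 h2
  have huniq : ∀ t₁ t₂, blk t₁ = blk t₂ → ∀ t, min (tm t₁) (tm t₂) ≤ tm t →
      tm t < max (tm t₁) (tm t₂) → ∀ u, min (tm t₁) (tm t₂) ≤ tm u → tm u < max (tm t₁) (tm t₂) →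
      rp tm fl π u = rp tm fl π t → u = t := by
    intro t₁ t₂ hb t h1 h2 u h3 h4 e
    refine (hN u t _ ?_ (hcol u t e)).1
    rcases le_total (tm t₁) (tm t₂) with h5 | h5
    · rw [min_eq_left h5] at h1 h3
      rw [max_eq_right h5] at h2 h4
      rw [hI.2 t₁ t₂ u hb h3 h4.le, hI.2 t₁ t₂ t hb h1 h2.le]
    · rw [min_eq_right h5] at h1 h3
      rw [max_eq_left h5] at h2 h4
      rw [hI.2 t₂ t₁ u hb.symm h3 h4.le, hI.2 t₂ t₁ t hb.symm h1 h2.le]
  refine ⟨fun t t' θ => ι (F tm c fl π t' (c t', θ) + F tm c fl π t (c t, 1)), ?_⟩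
  intro t₁ t₂ t₁' t₂' θ hb hb' hle h1 h2 hc hκ
  have e1 := hι _ (hmem _ _ _ h1) _ (hmem _ _ _ h2) hκ
  have hc' : c t₁' = c t₂' := by rw [← col_letter h1, ← col_letter h2, hc]
  rw [← hc, ← hc'] at e1
  have e2 : F tm c fl π t₁ (c t₁, 1) + F tm c fl π t₂ (c t₁, 1) =
      F tm c fl π t₁' (c t₁', θ) + F tm c fl π t₂' (c t₁', θ) := by
    rw [← add_eq_zero_two] at e1 ⊢
    rw [← e1]
    abel
  rw [F_add, F_add] at e2
  constructor
  · intro t a1 a2 a3
    have b1 : min (tm t₁) (tm t₂) ≤ tm t := by rw [min_eq_left hle]; exact a1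
    have b2 : tm t < max (tm t₁) (tm t₂) := by rw [max_eq_right hle]; exact a2
    obtain ⟨u, c1, c2, c3, c4⟩ := partner tm c fl e2 b1 b2 (fun h => a3 (mem_st_comm.1 h))
      (huniq t₁ t₂ hb t b1 b2)
    refine ⟨u, ?_, c1, c2⟩
    have h5 := hcol t u c3.symm
    have h6 : th tm fl π u * (th tm fl π t)⁻¹ = θ := by
      have c5 : (th tm fl π u)⁻¹ * θ = (th tm fl π t)⁻¹ * 1 := c4
      rw [mul_one] at c5
      rw [← c5, mul_inv_cancel_left]
    rwa [h6] at h5
  · intro t a1 a2 a3
    obtain ⟨u, c1, c2, c3, c4⟩ := partner tm c fl e2.symm a1 a2 (fun h => a3 (mem_st_comm.1 h))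
      (huniq t₁' t₂' hb' t a1 a2)
    rw [min_eq_left hle] at c1
    rw [max_eq_right hle] at c2
    refine ⟨u, ?_, c1, c2⟩
    have h5 := hcol u t c3
    have h6 : th tm fl π t * (th tm fl π u)⁻¹ = θ := by
      have c5 : (th tm fl π u)⁻¹ * 1 = (th tm fl π t)⁻¹ * θ := c4
      rw [mul_one] at c5
      rw [c5, mul_inv_cancel_left]
    rwa [h6] at h5

theorem card_fibre (π : Finset (T × T × Aut G)) (Zs : Finset (Sg G b × (T → Sg G b)))
    (hZ : ∀ z ∈ Zs, ptn tm c z = π ∧ zx tm fl π z = z) :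
    Fintype.card (Sg G b) ^ (Finset.univ.filter fun t => ¬ rp tm fl π t = t).card * Zs.card *
      (2 ^ b) ^ Module.finrank (ZMod 2) (Sp tm c fl π) ≤
      Fintype.card (Sg G b) ^ (Fintype.card T + 1) := by
  classical
  have h1 := card_kill (Option T × (S × Aut G)) b (Sp tm c fl π)
  have h2 : (2 ^ b) ^ Fintype.card (Option T × (S × Aut G)) =
      Fintype.card (Sg G b) ^ (Fintype.card T + 1) := by
    rw [Fintype.card_fun, Fintype.card_fun, ZMod.card, Fintype.card_fin, Fintype.card_prod,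
      Fintype.card_option, ← pow_mul (2 ^ b), mul_comm]
  rw [← h2]
  refine le_trans (Nat.mul_le_mul_right _ ?_) h1
  let X : Finset (Sg G b × (T → Sg G b)) := Finset.univ.filter fun x => zx tm fl π x ∈ Zs
  refine le_trans (Finset.mul_card_image_le_card_of_maps_to (f := zx tm fl π) (s := X)
    (fun x hx => (Finset.mem_filter.1 hx).2) _ fun z hz => ?_) ?_
  · obtain ⟨a1, a2⟩ := hZ z hz
    let Y := Fintype.piFinset fun u : T =>
      if rp tm fl π u = u then ({z.2 u} : Finset (Sg G b)) else Finset.univ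
    have hY : Y.card = Fintype.card (Sg G b) ^
        (Finset.univ.filter fun t => ¬ rp tm fl π t = t).card := by
      rw [Fintype.card_piFinset, ← Finset.prod_const, Finset.prod_filter]
      refine Finset.prod_congr rfl fun u _ => ?_
      by_cases h : rp tm fl π u = u
      · simp [h]
      · simp [h]
    rw [← hY]
    refine Finset.card_le_card_of_injOn (fun y => (z.1, y)) (fun y hy => ?_)
      fun y _ y' _ e => congrArg Prod.snd e
    have e : zx tm fl π (z.1, y) = z := by
      rw [← a2]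
      refine Prod.ext rfl (funext fun t => ?_)
      have h3 := Fintype.mem_piFinset.1 (Finset.mem_coe.1 hy) (rp tm fl π t)
      have h4 : rp tm fl π (rp tm fl π t) = rp tm fl π t := by
        rw [← a1]
        exact rp_rp tm c fl z t
      rw [if_pos h4, Finset.mem_singleton] at h3
      show tw _ (y _) = tw _ (z.2 _)
      rw [h3]
    refine Finset.mem_coe.2 (Finset.mem_filter.2 ⟨Finset.mem_filter.2 ⟨Finset.mem_univ _, ?_⟩, e⟩)
    rw [e]
    exact hz
  · refine Finset.card_le_card_of_injOn xv (fun x hx => ?_) fun x _ x' _ e => ?_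
    · have a1 := (hZ _ (Finset.mem_filter.1 (Finset.mem_coe.1 hx)).2).1
      have hle : Sp tm c fl π ≤ LinearMap.ker (ev x) := by
        refine iSup₂_le fun e he => ?_
        rw [← a1] at he
        exact ((col_iff tm c fl π x e).1 ((mem_ptn tm c).1 he).2).2
      simp only [Finset.coe_filter, Finset.mem_univ, true_and, Set.mem_setOf_eq]
      exact fun φ hφ => hle hφ
    · exact Prod.ext (funext fun i => congrFun e (none, i))
        (funext fun u => funext fun i => congrFun e (some u, i))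

theorem sum_fibre (hinj : Function.Injective tm) (π : Finset (T × T × Aut G))
    (Zs : Finset (Sg G b × (T → Sg G b)))
    (hZ : ∀ z ∈ Zs, ptn tm c z = π ∧ zx tm fl π z = z)
    (hfree : ∀ z ∈ Zs, ∀ t θ, Col tm c z t t θ → θ = 1) :
    ∑ z ∈ Zs, Ew tm c fl z ≤ Fintype.card (Sg G b) *
      ((2 : ℝ) ^ b)⁻¹ ^ Module.finrank (ZMod 2) (Sp tm c fl π) := by
  have hM : (0 : ℝ) < Fintype.card (Sg G b) := by exact_mod_cast Fintype.card_pos
  have h1 : ∑ z ∈ Zs, Ew tm c fl z ≤ Zs.card • (Fintype.card (Sg G b) : ℝ)⁻¹ ^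
      (Finset.univ.filter fun t => rp tm fl π t = t).card := by
    refine Finset.sum_le_card_nsmul _ _ _ fun z hz => ?_
    have := Ew_le tm c fl hinj z (hfree z hz)
    rwa [(hZ z hz).1] at this
  have h2 : (Fintype.card (Sg G b) : ℝ) ^ (Finset.univ.filter fun t => ¬ rp tm fl π t = t).card *
      Zs.card * (2 ^ b) ^ Module.finrank (ZMod 2) (Sp tm c fl π) ≤
      (Fintype.card (Sg G b) : ℝ) ^ (Fintype.card T + 1) := by
    exact_mod_cast card_fibre tm c fl π Zs hZ
  have h3 := Finset.card_filter_add_card_filter_not (s := (Finset.univ : Finset T))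
    fun t => rp tm fl π t = t
  rw [Finset.card_univ] at h3
  rw [← h3] at h2
  refine h1.trans ?_
  generalize (Finset.univ.filter fun t => rp tm fl π t = t).card = n₁ at h2 ⊢
  generalize (Finset.univ.filter fun t => ¬ rp tm fl π t = t).card = n₂ at h2
  generalize Module.finrank (ZMod 2) (Sp tm c fl π) = ρ at h2 ⊢
  generalize (Fintype.card (Sg G b) : ℝ) = M at h2 hM ⊢
  have hB : (0 : ℝ) < (2 ^ b) ^ ρ := by positivity
  rw [nsmul_eq_mul, inv_pow, inv_pow, ← div_eq_mul_inv, ← div_eq_mul_inv,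
    div_le_div_iff₀ (pow_pos hM _) hB]
  refine le_of_mul_le_mul_left ?_ (pow_pos hM n₂)
  calc M ^ n₂ * (Zs.card * (2 ^ b) ^ ρ) = M ^ n₂ * Zs.card * (2 ^ b) ^ ρ := by ring
    _ ≤ M ^ (n₁ + n₂ + 1) := h2
    _ = M ^ n₂ * (M * M ^ n₁) := by ring

end Pat

open Pat in
theorem pat : PatStmt := by
  intro S _ _ G b T _ _ tm c blk fl r ε Ψ hI hΨ hε hε'
  classical
  have hM : (0 : ℝ) ≤ Fintype.card (Sg G b) := Nat.cast_nonneg _
  let Z₁ : Finset (Sg G b × (T → Sg G b)) :=
    Finset.univ.filter fun z => Ψ z ∧ zx tm fl (ptn tm c z) z = z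
  let P := Z₁.image (ptn tm c)
  have h1 : ∑ z with Ψ z, Ew tm c fl z = ∑ z ∈ Z₁, Ew tm c fl z := by
    refine (Finset.sum_subset (fun z hz => ?_) fun z hz hz' => ?_).symm
    · exact Finset.mem_filter.2 ⟨Finset.mem_univ _, (Finset.mem_filter.1 hz).2.1⟩
    · exact Ew_zero tm c fl z fun e =>
        hz' (Finset.mem_filter.2 ⟨Finset.mem_univ _, (Finset.mem_filter.1 hz).2, e⟩)
  have hP : ∀ π ∈ P, ∃ z, Ψ z ∧ ptn tm c z = π ∧ zx tm fl π z = z := by
    intro π hπ
    obtain ⟨z, hz, rfl⟩ := Finset.mem_image.1 hπ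
    exact ⟨z, (Finset.mem_filter.1 hz).2.1, rfl, (Finset.mem_filter.1 hz).2.2⟩
  have h2 : ∑ π ∈ P, ((2 : ℝ) ^ b)⁻¹ ^ Module.finrank (ZMod 2) (Sp tm c fl π) ≤ 2 * ε ^ r := by
    refine sum_code P (cd tm c fl) _ r _ ε (by positivity) (fun π hπ π' hπ' e => ?_)
      (fun π _ => ?_) (fun π hπ => ?_) ?_ hε'
    · obtain ⟨z, -, a1, a2⟩ := hP π hπ
      obtain ⟨z', -, a1', a2'⟩ := hP π' hπ'
      exact cd_inj tm c fl (x := z) (x' := z') (by rw [a2, a1]) (by rw [a2', a1']) e
    · exact card_code_le (ord_inj tm) π _ _ fun e he => le_Sp tm c fl he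
    · obtain ⟨z, a0, rfl, -⟩ := hP π hπ
      by_contra hle
      exact (hΨ z a0).2 (str_of_rank tm c fl hI z (hΨ z a0).1 r (not_lt.1 hle))
    · rw [Fintype.card_prod, Fintype.card_prod]
      push_cast
      rw [← mul_assoc, ← sq]
      exact hε
  rw [h1, ← Finset.sum_fiberwise_of_maps_to (g := ptn tm c) (t := P)
    fun z hz => Finset.mem_image_of_mem _ hz]
  calc ∑ π ∈ P, ∑ z ∈ Z₁ with ptn tm c z = π, Ew tm c fl z
      ≤ ∑ π ∈ P, Fintype.card (Sg G b) *
          ((2 : ℝ) ^ b)⁻¹ ^ Module.finrank (ZMod 2) (Sp tm c fl π) := by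
        refine Finset.sum_le_sum fun π _ => sum_fibre tm c fl hI.1 π _ (fun z hz => ?_)
          fun z hz t θ h => ?_
        · obtain ⟨a1, a2⟩ := Finset.mem_filter.1 hz
          exact ⟨a2, a2 ▸ (Finset.mem_filter.1 a1).2.2⟩
        · exact ((hΨ z (Finset.mem_filter.1 (Finset.mem_filter.1 hz).1).2.1).1 t t θ rfl h).2
    _ = Fintype.card (Sg G b) *
          ∑ π ∈ P, ((2 : ℝ) ^ b)⁻¹ ^ Module.finrank (ZMod 2) (Sp tm c fl π) := by
        rw [Finset.mul_sum]
    _ ≤ Fintype.card (Sg G b) * (2 * ε ^ r) := mul_le_mul_of_nonneg_left h2 hM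
    _ = 2 * Fintype.card (Sg G b) * ε ^ r := by ring

end Pool.Agent.MP_735563_an.H66
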