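import Pool.Agent.MP_735563_an.H66.Spec

set_option autoImplicit false

open scoped ENNReal
open Finset

namespace Pool.Agent.MP_735563_an.H66

open Pool.Agent.MP_c34dea_an.H23

namespace Perc

/-- weights of the two states of an edge -/
noncomputable def wb (b : Bool) : ℝ≥0∞ := if b then 3 / 20480 else 20477 / 20480

theorem wb_sum : ∑ b, wb b = 1 := by
  simp only [Fintype.sum_bool, wb, if_true, Bool.false_eq_true, if_false]
  rw [ENNReal.div_add_div_same, show (3 + 20477 : ℝ≥0∞) = 20480 by norm_num]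
  exact ENNReal.div_self (by norm_num) (by norm_num)

theorem prob {E : Type} [Fintype E] [DecidableEq E] (A : Finset E) (b : Bool) :
    ∑ ω : E → Bool, (∏ e, wb (ω e)) * (if ∀ e ∈ A, ω e = b then 1 else 0) = wb b ^ A.card := by
  have h := Finset.prod_univ_sum (fun _ : E => (univ : Finset Bool))
    fun e b' => wb b' * if e ∈ A → b' = b then 1 else 0
  rw [Fintype.piFinset_univ] at h
  simp only [prod_mul_distrib, Fintype.prod_boole] at h
  rw [← h, ← prod_const, ← Fintype.prod_extend_by_one A]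
  refine prod_congr rfl fun e _ => ?_
  split_ifs with he
  · simp [he]
  · simpa [he] using wb_sum

theorem exists_le {E : Type} [Fintype E] [DecidableEq E] (F : (E → Bool) → ℝ≥0∞) :
    ∃ ω₀, F ω₀ ≤ ∑ ω : E → Bool, (∏ e, wb (ω e)) * F ω := by
  obtain ⟨ω₀, h⟩ := Finite.exists_min F
  have h1 := prob (∅ : Finset E) true
  simp only [notMem_empty, IsEmpty.forall_iff, implies_true, if_true, mul_one, card_empty,
    pow_zero] at h1
  refine ⟨ω₀, ?_⟩
  calc F ω₀ = ∑ ω : E → Bool, (∏ e, wb (ω e)) * F ω₀ := by rw [← sum_mul, h1, one_mul]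
    _ ≤ _ := sum_le_sum fun ω _ => mul_le_mul_right (h ω) _

open Classical in
theorem card_le_tsum {Q E : Type} [Fintype E] (C : Q → Prop) (f : Q → E) :
    (#{e | ∃ q, C q ∧ f q = e} : ℝ≥0∞) ≤ ∑' q, if C q then 1 else 0 := by
  have h : ∀ q, (if C q then 1 else 0 : ℝ≥0∞) = ∑ e, if C q ∧ f q = e then 1 else 0 := fun q => by
    by_cases h : C q <;> simp [h]
  rw [tsum_congr h, Summable.tsum_finsetSum fun _ _ => ENNReal.summable, card_filter, Nat.cast_sum]
  refine sum_le_sum fun e _ => ?_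
  split_ifs with he
  · obtain ⟨q, hq⟩ := he
    refine le_trans ?_ (ENNReal.le_tsum q)
    rw [if_pos hq, Nat.cast_one]
  · simp

variable {r : ℕ} {Γ X : Type} [Group Γ] [MulAction Γ X] (P : PF r Γ X)

/-- the end of a dart -/
def tgt (y : X) (l : Fin r × Bool) : X := (P.lab y l).getD 1 • y

/-- the edge of a dart -/
def ed (y : X) (l : Fin r × Bool) : X × Fin r := (if l.2 then y else tgt P y l, l.1)

/-- the edges of a walk -/
def eds [DecidableEq X] : List (Fin r × Bool) → X → Finset (X × Fin r)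
  | [], _ => ∅
  | l :: w, y => insert (ed P y l) (eds w (tgt P y l))

variable {P}

theorem tgt_eq {y : X} {l : Fin r × Bool} {g : Γ} (h : P.lab y l = some g) : tgt P y l = g • y := by
  rw [tgt, h]; rfl

theorem tgt_rev {y : X} {l : Fin r × Bool} {g : Γ} (h : P.lab y l = some g) :
    tgt P (tgt P y l) (l.1, !l.2) = y := by
  rw [tgt_eq h, tgt_eq (P.symm' h), inv_smul_smul]

theorem ed_rev {y : X} {l : Fin r × Bool} {g : Γ} (h : P.lab y l = some g) :
    ed P (tgt P y l) (l.1, !l.2) = ed P y l := by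
  rw [ed, tgt_rev h, ed]
  cases l.2 <;> rfl

theorem ed_eq {x y : X} {l l' : Fin r × Bool} {g g' : Γ} (h : P.lab x l = some g)
    (h' : P.lab y l' = some g') (e : ed P x l = ed P y l') :
    (x = y ∧ l = l') ∨ (y = tgt P x l ∧ l' = (l.1, !l.2)) := by
  have h1 := tgt_rev h
  have h2 := tgt_rev h'
  obtain ⟨i, b⟩ := l
  obtain ⟨j, b'⟩ := l'
  simp only [ed, Prod.mk.injEq] at e
  obtain ⟨e, rfl⟩ := e
  cases b <;> cases b' <;> simp only [Bool.false_eq_true, if_false, if_true, Bool.not_false,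
    Bool.not_true] at e h1 h2 ⊢
  · exact Or.inl ⟨by rw [← h1, e, h2], trivial⟩
  · exact Or.inr ⟨e.symm, trivial⟩
  · exact Or.inr ⟨by rw [e, h2], trivial⟩
  · exact Or.inl ⟨e, trivial⟩

theorem visit [DecidableEq X] {e : X × Fin r} {w : List (Fin r × Bool)} {y : X} {k : Γ}
    (hw : P.walk w y = some k) (he : e ∈ eds P w y) :
    ∃ w₁ l w₂ k₁ g, w = w₁ ++ l :: w₂ ∧ P.walk w₁ y = some k₁ ∧ P.lab (k₁ • y) l = some g ∧
      e = ed P (k₁ • y) l := by
  induction w generalizing y k with
  | nil => simp [eds] at he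
  | cons l' w ih =>
    obtain ⟨g', k', h1, h2, -⟩ := P.walk_cons_eq_some.1 hw
    rcases mem_insert.1 he with he | he
    · exact ⟨[], l', w, 1, g', rfl, rfl, by rwa [one_smul], by rwa [one_smul]⟩
    · rw [tgt_eq h1] at he
      obtain ⟨w₁, l, w₂, k₁, g, rfl, h3, h4, h5⟩ := ih h2 he
      exact ⟨l' :: w₁, l, w₂, _, g, rfl, P.walk_cons_eq_some.2 ⟨g', k₁, h1, h3, rfl⟩, by
        rwa [mul_smul], by rwa [mul_smul]⟩

theorem eds_le [DecidableEq X] {Z : PF r Γ X} (hZ : Z.Le P) {w : List (Fin r × Bool)} {y : X}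
    {k : Γ} (hw : Z.walk w y = some k) : eds P w y = eds Z w y := by
  induction w generalizing y k with
  | nil => rfl
  | cons l w ih =>
    obtain ⟨g, k', h1, h2, -⟩ := Z.walk_cons_eq_some.1 hw
    simp only [eds, ed, tgt_eq h1, tgt_eq (hZ _ _ _ h1), ih h2]

/-- without short closed trails every short reduced walk is a trail -/
theorem trail [DecidableEq X] {k : ℕ} (hr : ∀ x w g, w ≠ [] → w.length ≤ k →
    P.walk w x = some g → g • x = x → (eds P w x).card ≠ w.length) (n : ℕ) :
    ∀ (w : List (Fin r × Bool)) (x : X) (g : Γ), w.length = n → n ≤ k → FreeGroup.IsReduced w →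
      P.walk w x = some g → (eds P w x).card = w.length := by
  induction n using Nat.strong_induction_on with
  | _ n ih =>
    intro w x g h0 h1 h2 hw
    cases w with
    | nil => rfl
    | cons l w =>
      obtain ⟨g₀, k', h3, h4, -⟩ := P.walk_cons_eq_some.1 hw
      rw [List.length_cons] at h0
      have h5 := List.IsChain.tail h2
      rw [eds, tgt_eq h3, card_insert_of_notMem fun e => ?_,
        ih _ (by omega) w _ _ rfl (by omega) h5 h4, List.length_cons]
      obtain ⟨w₁, l', w₂, k₁, g', rfl, h6, h7, h8⟩ := visit h4 e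
      rw [List.length_append, List.length_cons] at h0
      rcases ed_eq h3 h7 h8 with ⟨h9, -⟩ | ⟨h9, rfl⟩
      · have h10 := P.walk_cons_eq_some.2 ⟨g₀, k₁, h3, h6, rfl⟩
        exact hr x (l :: w₁) _ (by simp) (by simp; omega) h10 (by rw [mul_smul, ← h9])
          (ih _ (by simp; omega) _ _ _ rfl (by simp; omega)
            (List.IsChain.left_of_append (l₁ := l :: w₁) h2) h10)
      · cases w₁ with
        | nil =>
          have h10 := (List.isChain_cons_cons.1 h2).1 rfl
          simp at h10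
        | cons a w₁ =>
          exact hr _ (a :: w₁) _ (by simp) (by omega) h6 (by rw [h9, tgt_eq h3])
            (ih _ (by omega) _ _ _ rfl (by omega) (List.IsChain.left_of_append h5) h6)

open Classical in
/-- the darts with open edge and both ends outside `B` -/
noncomputable def sub (P : PF r Γ X) (ω : X × Fin r → Prop) (B : Finset X) : PF r Γ X where
  lab y l := if ω (ed P y l) ∧ y ∉ B ∧ tgt P y l ∉ B then P.lab y l else none
  symm y i b g h := by
    obtain ⟨⟨h1, h2, h3⟩, h⟩ := Option.ite_none_right_eq_some.1 h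
    rw [← P.symm y i b g h, ← tgt_eq h, if_pos]
    exact ⟨ed_rev h ▸ h1, h3, (tgt_rev h).symm ▸ h2⟩

theorem sub_lab {ω : X × Fin r → Prop} {B : Finset X} {y : X} {l : Fin r × Bool} {g : Γ} :
    (sub P ω B).lab y l = some g ↔
      (ω (ed P y l) ∧ y ∉ B ∧ tgt P y l ∉ B) ∧ P.lab y l = some g := by
  classical exact Option.ite_none_right_eq_some

theorem sub_walk [DecidableEq X] {ω : X × Fin r → Prop} {B : Finset X} {w : List (Fin r × Bool)}
    {y : X} {k : Γ} (h : (sub P ω B).walk w y = some k) :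
    P.walk w y = some k ∧ (∀ e ∈ eds P w y, ω e) ∧ (w ≠ [] → y ∉ B) := by
  induction w generalizing y k with
  | nil => exact ⟨h, by simp [eds], by simp⟩
  | cons l w ih =>
    obtain ⟨g, k', h1, h2, rfl⟩ := (PF.walk_cons_eq_some _).1 h
    obtain ⟨h3, h1⟩ := sub_lab.1 h1
    obtain ⟨h4, h5, -⟩ := ih h2
    refine ⟨P.walk_cons_eq_some.2 ⟨g, k', h1, h4, rfl⟩, ?_, fun _ => h3.2.1⟩
    rw [eds, tgt_eq h1, forall_mem_insert]
    exact ⟨h3.1, h5⟩

theorem size_eq [Fintype X] (P : PF r Γ X) :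
    P.size = #{p : X × (Fin r × Bool) | (P.lab p.1 p.2).isSome} := by
  rw [PF.size, Nat.card_eq_fintype_card, Fintype.card_subtype]

theorem darts_le [Fintype X] [DecidableEq X] (D : Finset (X × Fin r)) :
    #{p : X × (Fin r × Bool) | (P.lab p.1 p.2).isSome ∧ ed P p.1 p.2 ∈ D} ≤ 2 * D.card := by
  have h : (D ×ˢ (univ : Finset Bool)).card = 2 * D.card := by simp [mul_comm]
  rw [← h]
  refine card_le_card_of_injOn (fun p => (ed P p.1 p.2, p.2.2)) (fun p hp => ?_) ?_
  · simpa using (mem_filter.1 hp).2.2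
  · rintro ⟨x, l⟩ hp ⟨y, l'⟩ hq e
    obtain ⟨g, hg⟩ := Option.isSome_iff_exists.1 (mem_filter.1 hp).2.1
    obtain ⟨g', hg'⟩ := Option.isSome_iff_exists.1 (mem_filter.1 hq).2.1
    obtain ⟨e1, e2⟩ := Prod.mk.inj e
    rcases ed_eq hg hg' e1 with ⟨rfl, rfl⟩ | ⟨-, h2⟩
    · rfl
    · have h3 : l'.2 = !l.2 := congrArg Prod.snd h2
      rw [← show l.2 = l'.2 from e2] at h3
      simp at h3

theorem size_le [Fintype X] [DecidableEq X] (ω : X × Fin r → Bool) (D : Finset (X × Fin r))
    (B : Finset X) :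
    P.size ≤ (sub P (fun e => ω e = true ∧ e ∉ D) B).size +
      #{p : X × (Fin r × Bool) | (P.lab p.1 p.2).isSome ∧ ω (ed P p.1 p.2) = false} +
      2 * D.card + 4 * r * B.card := by
  have h1 : (B ×ˢ (univ : Finset (Fin r × Bool))).card = 2 * r * B.card := by simp; ring
  have h2 := card_image_le (s := B ×ˢ (univ : Finset (Fin r × Bool)))
    (f := fun p : X × (Fin r × Bool) => (tgt P p.1 p.2, (p.2.1, !p.2.2)))
  rw [size_eq, size_eq, show 4 * r * B.card = 2 * r * B.card + 2 * r * B.card by ring, ← add_assoc]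
  refine le_trans (card_le_card ?_) ((card_union_le _ _).trans (add_le_add ((card_union_le _ _).trans
    (add_le_add ((card_union_le _ _).trans (add_le_add (card_union_le _ _) (darts_le (P := P) D)))
      h1.le)) (h2.trans h1.le)))
  rintro ⟨y, l⟩ h
  obtain ⟨g, hg⟩ := Option.isSome_iff_exists.1 (mem_filter.1 h).2
  simp only [mem_union, mem_filter, mem_univ, true_and, mem_product, and_true, mem_image]
  by_cases c : tgt P y l ∈ B
  · exact Or.inr ⟨(tgt P y l, (l.1, !l.2)), c, by simp [tgt_rev hg]⟩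
  by_cases c' : y ∈ B
  · exact Or.inl (Or.inr c')
  refine Or.inl (Or.inl ?_)
  by_cases c'' : ed P y l ∈ D
  · exact Or.inr ⟨(mem_filter.1 h).2, c''⟩
  refine Or.inl ?_
  cases e : ω (ed P y l)
  · exact Or.inr ⟨(mem_filter.1 h).2, rfl⟩
  · exact Or.inl (Option.isSome_iff_exists.2 ⟨g, sub_lab.2 ⟨⟨⟨e, c''⟩, c', c⟩, hg⟩⟩)

/-- open trails -/
def Tr [DecidableEq X] (P : PF r Γ X) (ω : X × Fin r → Bool) (x : X) (w : List (Fin r × Bool)) :
    Prop :=
  (P.walk w x).isSome ∧ (eds P w x).card = w.length ∧ ∀ e ∈ eds P w x, ω e = true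

open Classical in
theorem expect [Fintype X] (x : X) (f : List (Fin r × Bool) → ℝ≥0∞) :
    ∑ ω : X × Fin r → Bool, (∏ e, wb (ω e)) * ∑' w, (if Tr P ω x w then f w else 0) ≤
      ∑' w, if (P.walk w x).isSome then (3 / 20480 : ℝ≥0∞) ^ w.length * f w else 0 := by
  simp only [← ENNReal.tsum_mul_left]
  rw [← Summable.tsum_finsetSum fun _ _ => ENNReal.summable]
  refine ENNReal.tsum_le_tsum fun w => ?_
  by_cases h0 : (eds P w x).card = w.length
  swap
  · simp [Tr, h0]
  split_ifs with h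
  · rw [← h0]
    refine le_of_eq (Eq.trans ?_ (congrArg (· * f w) (prob (eds P w x) true)))
    simp [Tr, h, h0, sum_mul]
  · simp [Tr, h]

end Perc

open Perc

theorem percR : PercRStmt := by
  intro r Γ X _ _ _ P k c Bad hr hs hc hB hC hP
  classical
  have := Fintype.ofFinite X
  let l0 : Fin r × Bool := (⟨0, by omega⟩, true)
  let Cl : X → List (Fin r × Bool) → Prop := fun x w =>
    x ∉ Bad ∧ w ≠ [] ∧ ∃ g, w.length ≤ k ∧ P.walk w x = some g ∧ g • x = x
  let cost : (X × Fin r → Bool) → X → ℝ≥0∞ := fun ω x => ∑' w, if Tr P ω x w then c x w else 0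
  let cy : (X × Fin r → Bool) → X → ℝ≥0∞ := fun ω x =>
    ∑' w, if Tr P ω x w then (if Cl x w then 1 else 0) else 0
  let m : (X × Fin r → Bool) → ℕ := fun ω =>
    #{p : X × (Fin r × Bool) | (P.lab p.1 p.2).isSome ∧ ω (ed P p.1 p.2) = false}
  have h1 : ∀ x, ∑ ω : X × Fin r → Bool, (∏ e, wb (ω e)) * cost ω x ≤ 1 / 1000000 := fun x => by
    convert (expect x (c x)).trans (hP x)
  have h1' : ∀ x, ∑ ω : X × Fin r → Bool, (∏ e, wb (ω e)) * cy ω x ≤ 1 / 12 := fun x => by
    have h := expect (P := P) x fun w => if Cl x w then 1 else 0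
    refine le_trans (by convert h) ?_
    by_cases hx : x ∈ Bad
    · simp [Cl, hx]
    refine le_trans (ENNReal.tsum_le_tsum fun w => ?_) (hC x hx)
    by_cases h' : Cl x w
    · rw [if_pos h', if_pos h'.2, mul_one]
      split_ifs
      exacts [le_rfl, zero_le]
    · simp [h']
  have h2 : ∑ ω : X × Fin r → Bool, (∏ e, wb (ω e)) * m ω = P.size * (20477 / 20480) := by
    have h := fun p : X × (Fin r × Bool) => prob {ed P p.1 p.2} false
    simp only [mem_singleton, forall_eq, card_singleton, pow_one] at h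
    simp only [m, ← filter_filter, card_filter, Nat.cast_sum, Nat.cast_ite, Nat.cast_one,
      Nat.cast_zero, mul_sum]
    rw [sum_comm, sum_congr rfl fun p _ => h p, sum_const, size_eq, nsmul_eq_mul]
    rfl
  obtain ⟨ω, hω⟩ := exists_le fun ω => m ω + 2 * ∑ x, cy ω x + 32768 * ∑ x, cost ω x
  let B : Finset X := {x | 1 ≤ cost ω x}
  let D : Finset (X × Fin r) := {e | ∃ q : X × List (Fin r × Bool),
    (Tr P ω q.1 q.2 ∧ Cl q.1 q.2) ∧ ed P q.1 (q.2.headD l0) = e}
  have h3 : (B.card : ℝ≥0∞) ≤ ∑ x, cost ω x := by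
    rw [card_eq_sum_ones, Nat.cast_sum]
    exact (sum_le_sum fun x hx => by simpa using (mem_filter.1 hx).2).trans
      (sum_le_sum_of_subset (subset_univ _))
  have h3' : (D.card : ℝ≥0∞) ≤ ∑ x, cy ω x := by
    have h := card_le_tsum (fun q : X × List (Fin r × Bool) => Tr P ω q.1 q.2 ∧ Cl q.1 q.2)
      fun q => ed P q.1 (q.2.headD l0)
    rw [ENNReal.tsum_prod', tsum_fintype] at h
    refine le_trans (by convert h) (le_of_eq (sum_congr rfl fun x _ => tsum_congr fun w => ?_))
    by_cases a : Tr P ω x w <;> by_cases b : Cl x w <;> simp [a, b]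
  have h4 : ((m ω + 2 * D.card + 32768 * B.card : ℕ) : ℝ≥0∞) ≤ P.size * (20477 / 20480) +
      2 * (Nat.card X * (1 / 12)) + 32768 * (Nat.card X * (1 / 1000000)) := by
    push_cast
    refine (add_le_add (add_le_add le_rfl (mul_le_mul_right h3' _))
      (mul_le_mul_right h3 _)).trans (hω.trans ?_)
    simp only [mul_add, sum_add_distrib, mul_left_comm _ (2 : ℝ≥0∞),
      mul_left_comm _ (32768 : ℝ≥0∞), ← mul_sum]
    rw [h2, sum_congr rfl fun ω _ => mul_sum _ (cost ω) _, sum_congr rfl fun ω _ =>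
      mul_sum _ (cy ω) _, sum_comm, sum_comm (f := fun ω x => _ * cost ω x)]
    refine add_le_add (add_le_add le_rfl ((mul_le_mul_right (sum_le_sum fun x _ => h1' x) _).trans_eq
      ?_)) ((mul_le_mul_right (sum_le_sum fun x _ => h1 x) _).trans_eq ?_) <;>
    rw [sum_const, card_univ, Nat.card_eq_fintype_card, nsmul_eq_mul]
  let B' : Finset X := B ∪ Bad.toFinset
  have h5 := size_le (P := P) ω D B'
  have h6 : B'.card ≤ B.card + Bad.ncard := by
    rw [Set.ncard_eq_toFinset_card']; exact card_union_le _ _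
  have hZ : (sub P (fun e => ω e = true ∧ e ∉ D) B').Le P := fun _ _ _ h => (sub_lab.1 h).2
  refine ⟨_, hZ, ?_, fun x => ?_⟩
  · have h7 := ENNReal.toReal_mono (by finiteness) h4
    simp (disch := finiteness) only [ENNReal.toReal_add, ENNReal.toReal_mul, ENNReal.toReal_div,
      ENNReal.toReal_natCast, ENNReal.toReal_ofNat, ENNReal.toReal_one] at h7
    have h8 : 192000000 * (m ω + 2 * D.card + 32768 * B.card) ≤
        191971875 * P.size + 38291456 * Nat.card X := by
      rify at h7 ⊢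
      linarith
    simp only [m] at h8
    rw [show 4 * r = 32768 by omega] at h5
    omega
  have h7 := trail (P := sub P (fun e => ω e = true ∧ e ∉ D) B') (k := k)
    fun y w g w0 w1 w2 w3 w4 => by
      obtain ⟨a1, a2, a3⟩ := sub_walk w2
      rw [← eds_le hZ w2] at w4
      have a4 : y ∉ Bad := fun h => a3 w0 (mem_union_right _ (Set.mem_toFinset.2 h))
      refine (a2 (ed P y (w.headD l0)) ?_).2 (mem_filter.2 ⟨mem_univ _, (y, w),
        ⟨⟨by rw [a1]; rfl, w4, fun e he => (a2 e he).1⟩, a4, w0, g, w1, a1, w3⟩, rfl⟩)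
      cases w with
      | nil => exact absurd rfl w0
      | cons l w => exact mem_insert_self _ _
  by_cases hx : x ∈ B
  · refine lt_of_eq_of_lt (ENNReal.tsum_eq_zero.2 fun w => ?_) zero_lt_one
    split_ifs with h
    · obtain ⟨k, hk⟩ := Option.isSome_iff_exists.1 h
      exact by_contra fun h0 => (sub_walk hk).2.2 (hc x w h0).1 (mem_union_left _ hx)
    · rfl
  · refine lt_of_le_of_lt (ENNReal.tsum_le_tsum fun w => ?_)
      (show cost ω x < 1 from not_le.1 fun h => hx (mem_filter.2 ⟨mem_univ _, h⟩))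
    by_cases h0 : c x w = 0
    · simp [h0]
    split_ifs with h h'
    · rfl
    · obtain ⟨g, hg⟩ := Option.isSome_iff_exists.1 h
      refine absurd ⟨by rw [(sub_walk hg).1]; rfl, ?_, fun e he => ((sub_walk hg).2.1 e he).1⟩ h'
      rw [eds_le hZ hg]
      exact h7 _ w x g rfl (hc x w h0).2.2 (hc x w h0).2.1 hg
    · exact zero_le
    · rfl

end Pool.Agent.MP_735563_an.H66
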