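import Pool.Agent.MP_735563_an.H66.Spec

set_option autoImplicit false

open scoped BigOperators

namespace Pool.Agent.MP_735563_an.H66

open Pool.Agent.MP_c34dea_an.H66 Pool.Agent.MP_c34dea_an.H23

namespace SE

section Abs

variable {Z B : Type} [Fintype Z] [Fintype B]

/-- the energy (not normalised) -/
def En (T : Fin 5 → Z → Z) (ψ : Z → ℝ) : ℝ := 5 * ∑ z, ψ z ^ 2 - ∑ z, ∑ s, ψ z * ψ (T s z)

theorem sum_inv {T : Z → Z} (hT : ∀ z, T (T z) = z) (F : Z → ℝ) : ∑ z, F (T z) = ∑ z, F z :=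
  Equiv.sum_comp (Function.Involutive.toPerm T hT) F

theorem two_En {T : Fin 5 → Z → Z} (hT : ∀ s z, T s (T s z) = z) (ψ : Z → ℝ) :
    2 * En T ψ = ∑ s, ∑ z, (ψ z - ψ (T s z)) ^ 2 := by
  have h : ∀ s, ∑ z, (ψ z - ψ (T s z)) ^ 2 = 2 * ∑ z, ψ z ^ 2 - 2 * ∑ z, ψ z * ψ (T s z) := by
    intro s
    have h1 := sum_inv (hT s) (fun z => ψ z ^ 2)
    have h2 : ∑ z, (ψ z - ψ (T s z)) ^ 2 =
        ∑ z, ψ z ^ 2 + ∑ z, ψ (T s z) ^ 2 - 2 * ∑ z, ψ z * ψ (T s z) := by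
      rw [Finset.mul_sum, ← Finset.sum_add_distrib, ← Finset.sum_sub_distrib]
      exact Finset.sum_congr rfl fun z _ => by ring
    rw [h2, h1]; ring
  simp only [h, Finset.sum_sub_distrib, Finset.sum_const, Finset.card_univ, Fintype.card_fin,
    nsmul_eq_mul, ← Finset.mul_sum]
  rw [En, Finset.sum_comm]
  push_cast
  ring

theorem En_nonneg {T : Fin 5 → Z → Z} (hT : ∀ s z, T s (T s z) = z) (ψ : Z → ℝ) : 0 ≤ En T ψ := by
  have h := two_En hT ψ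
  have h2 : 0 ≤ ∑ s, ∑ z, (ψ z - ψ (T s z)) ^ 2 :=
    Finset.sum_nonneg fun s _ => Finset.sum_nonneg fun z _ => sq_nonneg _
  linarith

theorem sq_le_En {T : Fin 5 → Z → Z} (hT : ∀ s z, T s (T s z) = z) (ψ : Z → ℝ) (s : Fin 5)
    (z : Z) : (ψ z - ψ (T s z)) ^ 2 ≤ 2 * En T ψ := by
  rw [two_En hT]
  calc (ψ z - ψ (T s z)) ^ 2 ≤ ∑ z, (ψ z - ψ (T s z)) ^ 2 :=
        Finset.single_le_sum (f := fun z => (ψ z - ψ (T s z)) ^ 2) (fun _ _ => sq_nonneg _)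
          (Finset.mem_univ z)
    _ ≤ _ := Finset.single_le_sum (f := fun s => ∑ z, (ψ z - ψ (T s z)) ^ 2)
          (fun _ _ => Finset.sum_nonneg fun _ _ => sq_nonneg _) (Finset.mem_univ s)

open Classical in
theorem sum_fib (pr : Z → B) (φ : Z → ℝ) (χ : B → ℝ) :
    ∑ z, φ z * χ (pr z) = ∑ a, (∑ z, if pr z = a then φ z else 0) * χ a := by
  simp only [Finset.sum_mul]
  rw [Finset.sum_comm]
  refine Finset.sum_congr rfl fun z _ => ?_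
  simp only [ite_mul, zero_mul]
  rw [Finset.sum_ite_eq]
  simp

open Classical in
theorem step {T : Fin 5 → Z → Z} {T' : Fin 5 → B → B} {pr : Z → B} {η m : ℝ}
    (hT : ∀ s z, T s (T s z) = z) (hpr : ∀ s z, pr (T s z) = T' s (pr z)) (hm0 : 0 < m)
    (hm : ∀ a, ∑ z, (if pr z = a then (1 : ℝ) else 0) = m) (hg : GapZ T pr η)
    (ψ : Z → ℝ) (h0 : ∀ z, 0 ≤ ψ z) (h1 : ∀ z, ψ z ≤ 1) :
    ∃ χ : B → ℝ, (∀ a, 0 ≤ χ a) ∧ (∀ a, χ a ≤ 1) ∧ ∑ z, ψ z = m * ∑ a, χ a ∧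
      m * En T' χ ≤ En T ψ ∧
      m * En T' χ + (∑ z, ψ z ^ 2 - m * ∑ a, χ a ^ 2) / 20 - 5 * η * Fintype.card Z ≤ En T ψ := by
  set χ : B → ℝ := fun a => (∑ z, if pr z = a then ψ z else 0) / m with hχ
  have hχm : ∀ a, (∑ z, if pr z = a then ψ z else 0) = χ a * m := fun a => by
    rw [hχ]; field_simp
  have c0 : ∀ a, 0 ≤ χ a := fun a =>
    div_nonneg (Finset.sum_nonneg fun z _ => by split_ifs; exacts [h0 z, le_rfl]) hm0.le
  have c1 : ∀ a, χ a ≤ 1 := fun a => by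
    rw [hχ]
    refine (div_le_one hm0).2 ?_
    rw [← hm a]
    exact Finset.sum_le_sum fun z _ => by split_ifs; exacts [h1 z, le_rfl]
  have hpull : ∀ F : B → ℝ, ∑ z, F (pr z) = m * ∑ a, F a := fun F => by
    have := sum_fib pr (fun _ => 1) F
    simp only [one_mul, hm] at this
    rw [this, Finset.mul_sum]
  set φ : Z → ℝ := fun z => ψ z - χ (pr z) with hφ
  have hφ0 : ∀ a, ∑ z, (if pr z = a then φ z else 0) = 0 := fun a => by
    have e : ∀ z, (if pr z = a then φ z else 0) =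
        (if pr z = a then ψ z else 0) - χ a * (if pr z = a then (1 : ℝ) else 0) := fun z => by
      split_ifs with h
      · rw [hφ, ← h]; ring
      · ring
    simp only [e, Finset.sum_sub_distrib, ← Finset.mul_sum, hm, hχm, sub_self]
  have horth : ∀ F : B → ℝ, ∑ z, φ z * F (pr z) = 0 := fun F => by
    rw [sum_fib]; simp only [hφ0, zero_mul, Finset.sum_const_zero]
  have hψ : ∀ z, ψ z = φ z + χ (pr z) := fun z => by rw [hφ]; ring
  have hab : ∀ z, |φ z| ≤ 1 := fun z => by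
    have := h0 z; have := h1 z; have := c0 (pr z); have := c1 (pr z)
    rw [abs_le, hφ]; constructor <;> (dsimp only; linarith)
  have hN : ∑ z, ψ z ^ 2 = ∑ z, φ z ^ 2 + m * ∑ a, χ a ^ 2 := by
    have e : ∀ z, ψ z ^ 2 = φ z ^ 2 + 2 * (φ z * χ (pr z)) + χ (pr z) ^ 2 := fun z => by
      rw [hψ z]; ring
    simp only [e, Finset.sum_add_distrib, ← Finset.mul_sum]
    rw [horth χ, hpull (fun a => χ a ^ 2)]; ring
  have hQ : ∑ z, ∑ s, ψ z * ψ (T s z) =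
      ∑ z, ∑ s, φ z * φ (T s z) + m * ∑ a, ∑ s, χ a * χ (T' s a) := by
    rw [Finset.sum_comm, Finset.sum_comm (f := fun z s => φ z * φ (T s z)),
      Finset.sum_comm (f := fun a s => χ a * χ (T' s a)), Finset.mul_sum, ← Finset.sum_add_distrib]
    refine Finset.sum_congr rfl fun s _ => ?_
    have e : ∀ z, ψ z * ψ (T s z) = φ z * φ (T s z) + φ z * χ (T' s (pr z)) +
        φ (T s z) * χ (T' s (pr (T s z))) + χ (pr z) * χ (T' s (pr z)) := fun z => by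
      rw [hψ z, hψ (T s z), ← hpr s (T s z), hT, hpr]; ring
    simp only [e, Finset.sum_add_distrib]
    rw [horth (fun a => χ (T' s a)), sum_inv (hT s) (fun z => φ z * χ (T' s (pr z))),
      horth (fun a => χ (T' s a)), hpull (fun a => χ a * χ (T' s a))]
    ring
  have hE : En T ψ = En T φ + m * En T' χ := by
    rw [En, En, En, hN, hQ]; ring
  have hS : ∑ z, ψ z = m * ∑ a, χ a := by
    have := horth (fun _ => 1)
    simp only [mul_one] at this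
    simp only [hψ, Finset.sum_add_distrib]
    rw [this, hpull χ, zero_add]
  have hp := En_nonneg hT φ
  have hG := hg φ hab hφ0
  refine ⟨χ, c0, c1, hS, by linarith, ?_⟩
  have hd : En T φ = 5 * ∑ z, φ z ^ 2 - ∑ z, ∑ s, φ z * φ (T s z) := rfl
  rw [hE, hN, hd]
  linarith

end Abs

section Grp

/-- the five moves -/
noncomputable def mv (K : Subgroup Γ5) (s : Fin 5) (z : Γ5 ⧸ K) : Γ5 ⧸ K := gen G5 s • z

theorem mv_mv (K : Subgroup Γ5) (s : Fin 5) (z : Γ5 ⧸ K) : mv K s (mv K s z) = z := by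
  rw [mv, mv, smul_smul, gen_mul_self, one_smul]

theorem pr_smul {K K' : Subgroup Γ5} (h : K' ≤ K) (g : Γ5) (z : Γ5 ⧸ K') :
    (((g • z).out : Γ5) : Γ5 ⧸ K) = g • ((z.out : Γ5) : Γ5 ⧸ K) := by
  have e : (((g • z).out : Γ5) : Γ5 ⧸ K') = ((g * z.out : Γ5) : Γ5 ⧸ K') := by
    rw [QuotientGroup.out_eq']
    conv_lhs => rw [← QuotientGroup.out_eq' z]
    rfl
  have e2 : (((g • z).out : Γ5) : Γ5 ⧸ K) = ((g * z.out : Γ5) : Γ5 ⧸ K) :=
    QuotientGroup.eq.2 (h (QuotientGroup.eq.1 e))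
  rw [e2]; rfl

theorem fib {K K' : Subgroup Γ5} (h : K' ≤ K) [Fintype (Γ5 ⧸ K')] [DecidableEq (Γ5 ⧸ K)] :
    ∃ m : ℝ, 0 < m ∧ ∀ a : Γ5 ⧸ K,
      ∑ z : Γ5 ⧸ K', (if ((z.out : Γ5) : Γ5 ⧸ K) = a then (1 : ℝ) else 0) = m := by
  let z₀ : Γ5 ⧸ K' := ((1 : Γ5) : Γ5 ⧸ K')
  let a₀ : Γ5 ⧸ K := ((z₀.out : Γ5) : Γ5 ⧸ K)
  refine ⟨∑ z : Γ5 ⧸ K', (if ((z.out : Γ5) : Γ5 ⧸ K) = a₀ then (1 : ℝ) else 0), ?_, fun a => ?_⟩
  · refine Finset.sum_pos' (fun z _ => by split_ifs <;> norm_num) ⟨z₀, Finset.mem_univ _, ?_⟩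
    rw [if_pos rfl]; norm_num
  · obtain ⟨g, rfl⟩ := MulAction.exists_smul_eq Γ5 a₀ a
    rw [← Equiv.sum_comp (MulAction.toPerm g)]
    refine Finset.sum_congr rfl fun z _ => ?_
    simp only [MulAction.toPerm_apply, pr_smul h, smul_left_cancel_iff]

theorem poincare (K : Subgroup Γ5) [Fintype (Γ5 ⧸ K)] :
    ∃ C : ℝ, 0 < C ∧ ∀ (χ : Γ5 ⧸ K → ℝ) (a : ℝ), ∑ z, χ z = a * Fintype.card (Γ5 ⧸ K) →
      ∑ z, χ z ^ 2 - a ^ 2 * Fintype.card (Γ5 ⧸ K) ≤ C * En (mv K) χ := by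
  have h1 : ∀ g : Γ5, ∃ C : ℝ, 0 ≤ C ∧ ∀ (χ : Γ5 ⧸ K → ℝ) (z : Γ5 ⧸ K),
      (χ z - χ (g • z)) ^ 2 ≤ C * En (mv K) χ := by
    intro g
    refine W_ind (P := fun g : Γ5 => ∃ C : ℝ, 0 ≤ C ∧ ∀ (χ : Γ5 ⧸ K → ℝ) (z : Γ5 ⧸ K),
      (χ z - χ (g • z)) ^ 2 ≤ C * En (mv K) χ) ⟨0, le_rfl, fun χ z => by simp⟩ ?_ g
    rintro g s ⟨C, hC, h⟩
    refine ⟨4 + 2 * C, by linarith, fun χ z => ?_⟩
    have e1 := sq_le_En (mv_mv K) χ s z
    have e2 := h χ (mv K s z)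
    rw [mul_smul]
    change (χ z - χ (g • mv K s z)) ^ 2 ≤ _
    nlinarith [sq_nonneg ((χ z - χ (mv K s z)) - (χ (mv K s z) - χ (g • mv K s z)))]
  let z₀ : Γ5 ⧸ K := ((1 : Γ5) : Γ5 ⧸ K)
  have h2 : ∀ z : Γ5 ⧸ K, ∃ C : ℝ, 0 ≤ C ∧ ∀ χ : Γ5 ⧸ K → ℝ,
      (χ z₀ - χ z) ^ 2 ≤ C * En (mv K) χ := by
    intro z
    obtain ⟨g, rfl⟩ := MulAction.exists_smul_eq Γ5 z₀ z
    obtain ⟨C, hC, h⟩ := h1 g
    exact ⟨C, hC, fun χ => h χ z₀⟩
  choose C hC h using h2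
  refine ⟨∑ z, C z + 1, by linarith [Finset.sum_nonneg fun z (_ : z ∈ Finset.univ) => hC z],
    fun χ a ha => ?_⟩
  have e1 : ∑ z, (χ z₀ - χ z) ^ 2 ≤ (∑ z, C z) * En (mv K) χ := by
    rw [Finset.sum_mul]
    exact Finset.sum_le_sum fun z _ => h z χ
  have e2 : ∑ z, (χ z₀ - χ z) ^ 2 = χ z₀ ^ 2 * Fintype.card (Γ5 ⧸ K) - 2 * χ z₀ * ∑ z, χ z +
      ∑ z, χ z ^ 2 := by
    have e : ∀ z, (χ z₀ - χ z) ^ 2 = χ z₀ ^ 2 - 2 * χ z₀ * χ z + χ z ^ 2 := fun z => by ring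
    simp only [e, Finset.sum_add_distrib, Finset.sum_sub_distrib, ← Finset.mul_sum,
      Finset.sum_const, Finset.card_univ, nsmul_eq_mul]
    ring
  have e3 := En_nonneg (mv_mv K) χ
  have e4 : 0 ≤ (χ z₀ - a) ^ 2 * (Fintype.card (Γ5 ⧸ K) : ℝ) := by positivity
  rw [ha] at e2
  nlinarith

theorem descend (H : ℕ → Subgroup Γ5) [∀ n, Fintype (Γ5 ⧸ H n)] (hA : Antitone H)
    (hG : ∀ n, Gap (H n) (H (n + 1)) ((1 / 2) ^ n)) (j k : ℕ) :
    ∀ ψ : Γ5 ⧸ H (j + k) → ℝ, (∀ z, 0 ≤ ψ z) → (∀ z, ψ z ≤ 1) →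
      ∃ (χ : Γ5 ⧸ H j → ℝ) (m : ℝ), 0 < m ∧
        (Fintype.card (Γ5 ⧸ H (j + k)) : ℝ) = m * Fintype.card (Γ5 ⧸ H j) ∧
        ∑ z, ψ z = m * ∑ a, χ a ∧ m * En (mv (H j)) χ ≤ En (mv (H (j + k))) ψ ∧
        m * En (mv (H j)) χ + (∑ z, ψ z ^ 2 - m * ∑ a, χ a ^ 2) / 20 -
          10 * ((1 / 2) ^ j - (1 / 2) ^ (j + k)) * Fintype.card (Γ5 ⧸ H (j + k)) ≤
          En (mv (H (j + k))) ψ := by
  induction k with
  | zero =>
    intro ψ _ _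
    exact ⟨ψ, 1, one_pos, by simp, by simp, by simp, by simp⟩
  | succ k ih =>
    intro ψ h0 h1
    have hle : H (j + k + 1) ≤ H (j + k) := hA (Nat.le_succ _)
    obtain ⟨m, hm0, hm⟩ := @fib _ _ hle _ (fun _ _ => Classical.propDecidable _)
    have hg : GapZ (mv (H (j + k + 1))) (fun z => ((z.out : Γ5) : Γ5 ⧸ H (j + k)))
        ((1 / 2) ^ (j + k)) := hG (j + k)
    obtain ⟨χ, c0, c1, e1, e2, e3⟩ := step (T' := mv (H (j + k))) (mv_mv (H (j + k + 1)))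
      (fun s z => pr_smul hle _ z) hm0 hm hg ψ h0 h1
    obtain ⟨χ', m', hm', f0, f1, f2, f3⟩ := ih χ c0 c1
    have hc : (Fintype.card (Γ5 ⧸ H (j + k + 1)) : ℝ) = m * Fintype.card (Γ5 ⧸ H (j + k)) := by
      have := sum_fib (fun z : Γ5 ⧸ H (j + k + 1) => ((z.out : Γ5) : Γ5 ⧸ H (j + k)))
        (fun _ => 1) (fun _ => 1)
      simp only [hm, mul_one, Finset.sum_const, Finset.card_univ, nsmul_eq_mul] at this
      rw [this, mul_comm]
    refine ⟨χ', m * m', mul_pos hm0 hm', ?_, ?_, ?_, ?_⟩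
    · change (Fintype.card (Γ5 ⧸ H (j + k + 1)) : ℝ) = _
      rw [hc, f0, mul_assoc]
    · change ∑ z : Γ5 ⧸ H (j + k + 1), ψ z = _
      rw [e1, f1, mul_assoc]
    · have := mul_le_mul_of_nonneg_left f2 hm0.le
      change _ ≤ En (mv (H (j + k + 1))) ψ
      rw [mul_assoc]
      linarith
    · have := mul_le_mul_of_nonneg_left f3 hm0.le
      change _ + (∑ z : Γ5 ⧸ H (j + k + 1), ψ z ^ 2 - _) / 20 -
        10 * ((1 / 2) ^ j - (1 / 2) ^ (j + k + 1)) * (Fintype.card (Γ5 ⧸ H (j + k + 1)) : ℝ) ≤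
        En (mv (H (j + k + 1))) ψ
      rw [hc] at e3 ⊢
      rw [pow_succ]
      nlinarith

open Classical in
theorem En_ind (K : Subgroup Γ5) [Fintype (Γ5 ⧸ K)] (C : Set (Γ5 ⧸ K)) :
    En (mv K) (fun z => if z ∈ C then 1 else 0) =
      (({q : (Γ5 ⧸ K) × Fin 5 | q.1 ∈ C ∧ gen G5 q.2 • q.1 ∉ C}.ncard : ℕ) : ℝ) := by
  rw [Set.ncard_eq_toFinset_card', Set.toFinset_ofPred, Finset.card_filter, Fintype.sum_prod_type,
    En, Finset.mul_sum, ← Finset.sum_sub_distrib]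
  push_cast
  refine Finset.sum_congr rfl fun z _ => ?_
  have e : (5 : ℝ) * (if z ∈ C then (1 : ℝ) else 0) ^ 2 =
      ∑ _s : Fin 5, (if z ∈ C then (1 : ℝ) else 0) ^ 2 := by simp
  rw [e, ← Finset.sum_sub_distrib]
  refine Finset.sum_congr rfl fun s _ => ?_
  by_cases h1 : z ∈ C <;> by_cases h2 : gen G5 s • z ∈ C <;> simp [mv, h1, h2]

open Classical in
theorem sum_ind {Z : Type} [Fintype Z] (C : Set Z) :
    ∑ z, (if z ∈ C then (1 : ℝ) else 0) = (C.ncard : ℝ) := by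
  rw [Set.ncard_eq_toFinset_card', Finset.sum_boole]
  congr 2
  ext z; simp

end Grp

end SE

open SE in
theorem se : SEStmt := by
  classical
  intro H hA hF hG
  let _ : ∀ n, Fintype (Γ5 ⧸ H n) := fun n => haveI := hF n; Fintype.ofFinite _
  obtain ⟨c, hc, hP⟩ := poincare (H 13)
  have hN : (0 : ℝ) < Fintype.card (Γ5 ⧸ H 13) := by exact_mod_cast Fintype.card_pos
  refine ⟨min (2 / (25 * c)) (1 / 1000), 13, lt_min (by positivity) (by norm_num), ?_⟩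
  intro m hm C h1 h2
  obtain ⟨k, rfl⟩ := Nat.exists_eq_add_of_le hm
  rw [← En_ind, Nat.card_eq_fintype_card] at *
  obtain ⟨χ, μ, hμ, f0, f1, f2, f3⟩ := descend H hA hG 13 k (fun z => if z ∈ C then 1 else 0)
    (fun z => by split_ifs <;> norm_num) (fun z => by split_ifs <;> norm_num)
  have e2 : ∑ z, (if z ∈ C then (1 : ℝ) else 0) ^ 2 = (C.ncard : ℝ) := by
    rw [← sum_ind]
    exact Finset.sum_congr rfl fun z _ => by split_ifs <;> norm_num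
  rw [e2] at f3
  rw [sum_ind] at f1
  set N : ℝ := (Fintype.card (Γ5 ⧸ H (13 + k)) : ℝ) with hNdef
  set N₀ : ℝ := (Fintype.card (Γ5 ⧸ H 13) : ℝ) with hN₀
  set E : ℝ := En (mv (H (13 + k))) (fun z => if z ∈ C then 1 else 0) with hE
  have hNp : 0 < N := by rw [f0]; positivity
  have h1' : N ≤ 5 * (C.ncard : ℝ) := by rw [hNdef]; exact_mod_cast h1
  have h2' : 5 * (C.ncard : ℝ) ≤ 4 * N := by rw [hNdef]; exact_mod_cast h2
  set a : ℝ := (C.ncard : ℝ) / N with ha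
  have haN : (C.ncard : ℝ) = a * N := by rw [ha]; field_simp
  have a1 : 1 / 5 ≤ a := by rw [ha, le_div_iff₀ hNp]; linarith
  have a2 : a ≤ 4 / 5 := by rw [ha, div_le_iff₀ hNp]; linarith
  have hsum : ∑ z, χ z = a * N₀ := by
    refine mul_left_cancel₀ hμ.ne' ?_
    rw [← f1, haN, f0]; ring
  have hp := hP χ a hsum
  have hE0 := En_nonneg (mv_mv (H 13)) χ
  have hv : 4 / 25 ≤ a - a ^ 2 := by nlinarith
  have hvN : 4 / 25 * N ≤ (a - a ^ 2) * N := mul_le_mul_of_nonneg_right hv hNp.le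
  have hp' : μ * ∑ z, χ z ^ 2 - a ^ 2 * N ≤ c * (μ * En (mv (H 13)) χ) := by
    have := mul_le_mul_of_nonneg_left hp hμ.le
    rw [f0]; linarith
  by_cases hcase : 2 / 25 * N ≤ μ * ∑ z, χ z ^ 2 - a ^ 2 * N
  · refine (mul_le_mul_of_nonneg_right (min_le_left _ _) hNp.le).trans ?_
    have : 2 / 25 * N ≤ c * E := by
      have := mul_le_mul_of_nonneg_left f2 hc.le
      linarith
    rw [div_mul_eq_mul_div, div_le_iff₀ (by positivity)]
    linarith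
  · refine (mul_le_mul_of_nonneg_right (min_le_right _ _) hNp.le).trans ?_
    have h3 : 0 ≤ μ * En (mv (H 13)) χ := mul_nonneg hμ.le hE0
    have h4 : 0 ≤ (1 / 2 : ℝ) ^ (13 + k) * N := by positivity
    rw [haN] at f3
    have h5 : (1 / 2 : ℝ) ^ 13 = 1 / 8192 := by norm_num
    rw [h5] at f3
    push Not at hcase
    nlinarith

end Pool.Agent.MP_735563_an.H66
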