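import Pool.Agent.MP_735563_an.H66.StepA

set_option autoImplicit false

open scoped Pointwise ENNReal

namespace Pool.Agent.MP_735563_an.H66

open Pool.Agent.MP_c34dea_an.H66 Pool.Agent.MP_c34dea_an.H23
open Pool.Agent.MP_c34dea_an.H6 (clS GP labP clS_eq finite_cl mem_st_GP)
open Pool.Agent.MP_c34dea_an.H23.Step (pull qm_smul pull_big seg walk_le WH_smul)

namespace StepR

open Classical in
/-- the cost of a walk -/
noncomputable def cst (σ : Stg) (x : ℝ≥0∞) (L s g k : ℕ) (α β : W σ.G) (n : ℕ) : ℝ≥0∞ :=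
  (if s ≤ n ∧ n ≤ g ∧ D TB0 α β < 2 * L + 2 then 1 else 0) +
    (if n = g ∧ D TB0 α β < 2 * s * L + (L + 4) then 1 else 0) +
    (if n = k then 2 * Fh (sY σ) (pY σ) x (g * L + 1) α β else 0)

theorem cst_aff {σ : Stg} (x : ℝ≥0∞) (L s g k : ℕ) {r : Γ5} (hr : r ∈ σ.L) (α β : W σ.G) (n : ℕ) :
    cst σ x L s g k α β n ≤ cst σ x L s g k (σ.ρ r • α) (σ.ρ r • β) n := by
  unfold cst
  rw [aff_D_tb0]
  refine add_le_add le_rfl ?_
  split_ifs
  · exact mul_le_mul_right (Fh_aff σ x _ hr α β) _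
  · rfl

open Classical in
/-- making the trees of a cheap part finite -/
theorem upd (hU : UpdStmt) (hE : EqStmt) (hF : FaithRStmt) (hT : ThinRStmt) (σ : Stg)
    {x x' : ℝ≥0∞} (hx : x' < x) (hG : σ.Gd x) {L' : Subgroup Γ5} (hL : L' ≤ σ.L)
    (hfi : L'.FiniteIndex) (Z : PF r0 Γ5 (Γ5 ⧸ L')) {L s g k : ℕ} (hs : 1 ≤ s) (hsg : s ≤ g)
    (hgk : 2 * g ≤ k) (hZL : ∀ b l a, Z.lab b l = some a → d 1 a ≤ L)
    (hZ : ∀ y : Γ5, ∑' w, (if FreeGroup.IsReduced w ∧ (Z.walk w (y : Γ5 ⧸ L')).isSome then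
      cst σ x L s g k (σ.pos y) (σ.pos ((Z.walk w (y : Γ5 ⧸ L')).getD 1 * y)) w.length
      else 0) < 1) :
    ∃ σ' : Stg, ∃ _ : σ'.L = L', (∀ r ∈ L', σ.ρ r = 1 → σ'.ρ r = 1) ∧ σ'.Gd x' ∧ ∃ M : ℕ,
      ∀ (y : Γ5) w a, Z.walk w (y : Γ5 ⧸ L') = some a → d (σ'.pos y) (σ'.pos (a * y)) ≤ M := by
  have := σ.fin
  have := σ.hidS_fi L'
  have hY : GoodAt (sY σ) (pY σ) x := GoodAt.translates hG
  set δ := dl σ (σ.hidS L') with hδ
  set Z' := pull (hid_le' (σ := σ) L') Z with hZ'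
  have hc1 : ∀ b u a, FreeGroup.IsReduced u → Z'.walk u b = some a →
      cst σ x L s g k (σ.pos b.out) (σ.pos b.out * δ a b) u.length < 1 := fun b u a h1 h2 => by
    refine lt_of_le_of_lt ?_ (hZ b.out)
    refine le_trans (le_of_eq ?_) (ENNReal.le_tsum u)
    rw [pw'] at h2
    simp [h1, h2, hδ, dl]
  have hD : ∀ p q : W σ.G, D TB0 p (p * q) = D TB0 1 q := fun p q => by
    simpa using D_smul adm_tb0 p 1 q
  have hZP : ZProgR δ Z' L s g (L + 4) := by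
    refine zprog (dl_coc σ L') (fun b l a h => (d_dl σ _ _ _).trans (hZL _ _ _ h))
      (fun b u a h1 h2 h3 h4 => ?_) fun b u a h1 h2 h3 => ?_
    · by_contra h5
      have := hc1 b u a h1 h2
      simp only [cst, hD] at this
      rw [if_pos ⟨h3, h4, not_le.1 h5⟩] at this
      exact absurd this (not_lt.2 (le_self_add.trans le_self_add))
    · by_contra h5
      have := hc1 b u a h1 h2
      simp only [cst, hD] at this
      rw [if_pos (show u.length = g ∧ _ from ⟨h3, not_le.1 h5⟩)] at this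
      exact absurd this (not_lt.2 (le_add_self.trans le_self_add))
  have hΘ := hT r0 σ.S σ.G Γ5 (Γ5 ⧸ σ.hidS L') δ Z' L s g (L + 4) k (Fin 5) _ (sY σ) (pY σ) x
    (dl_coc σ L') hs hsg le_rfl hgk hZP (edgeY σ) hY (by
      rintro ⟨α, b⟩
      rw [ENNReal.le_div_iff_mul_le (by simp) (by simp), ← ENNReal.tsum_mul_right]
      refine le_trans (ENNReal.tsum_le_tsum fun w => ?_) (hZ b.out).le
      rw [← pw' (hid_le' (σ := σ) L')]
      split_ifs with h1 h2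
      · obtain ⟨a, ha⟩ := Option.isSome_iff_exists.1 h2.2
        simp only [cst, if_pos h1.1]
        refine le_trans ?_ le_add_self
        rw [mul_comm, pt_eq ha, ha, Option.getD_some]
        refine mul_le_mul_right ((Fh_le σ _ _ (σ.pos b.out * α⁻¹) _ _).trans (le_of_eq ?_)) _
        simp only [hδ, dl]
        congr 1 <;> group
      · exact absurd h1.2 h2
      · simp
      · simp)
  obtain ⟨N₁, hN₁, hG'⟩ := hU σ.S σ.G (Fin 5) _ (sY σ) (pY σ) x x'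
    (Set.range fun υ => WH (TreeR δ Z' υ)) (ETR δ Z') (edgeY σ) hx hY
    (by
      rintro a _ ⟨⟨α, b⟩, rfl⟩
      exact ⟨(a * α, b), by simp only [WH_smul, tree_smul]⟩)
    (by
      rintro _ ⟨υ, rfl⟩ t ht u hu
      exact Btw_subset_WH ht hu)
    (fun t u ⟨υ, h1, h2⟩ => ⟨υ, h2, h1⟩)
    (by
      rintro a t u ⟨⟨α, b⟩, h1, h2⟩
      exact ⟨(a * α, b), by rw [← tree_smul]; exact (smul_mem_WH a).2 h1,
        by rw [← tree_smul]; exact (smul_mem_WH a).2 h2⟩)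
    (fun t u t' u' ⟨υ, h1, h2⟩ h3 h4 => ⟨υ, Btw_subset_WH h1 h2 h3, Btw_subset_WH h1 h2 h4⟩)
    (by
      intro R
      obtain ⟨N, hN, h⟩ := hF r0 σ.S σ.G Γ5 (Γ5 ⧸ σ.hidS L') δ Z' L s g (L + 4) (dl_coc σ L') hs
        hsg (by omega) hZP R
      refine ⟨N, hN, ?_⟩
      rintro t u h1 h2 h3 _ ⟨υ, rfl⟩ n hn h4 h5
      exact h t u h1 h2 h3 υ n hn h4 h5)
    hΘ
  obtain ⟨N, hN, hle, ρ, h1, h2, h3⟩ := exists_rho σ hE hL (Set.range fun υ => WH (TreeR δ Z' υ))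
    (by
      rintro r hr _ ⟨⟨α, b⟩, rfl⟩
      induction b using QuotientGroup.induction_on with
      | H y => exact ⟨_, by rw [aff_WH, aff_tree hL Z hr]⟩) hN₁
  have := hN.1
  have := hN.2
  have hfin := finite_cl N
  refine ⟨nw σ L' hfi hfin _ ρ h1 h2, rfl, fun r _ => h3 r, (gd_of σ (hG' N hN hle)).goodAt,
    Nat.card (Quotient (clS N)), fun y w a hw => ?_⟩
  refine d_le_card_of_clq (K := Quotient.mk (clS N) '' WH (TreeR δ Z' (σ.pos y, y))) ?_
    fun k hk => ?_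
  · rintro _ ⟨t, ht, rfl⟩ _ ⟨u, hu, rfl⟩
    exact mem_st_GP (Or.inr ⟨_, ⟨_, rfl⟩, ht, hu⟩)
  · obtain ⟨h, hh, rfl⟩ := Finset.mem_image.1 ((labP _ N).sep_phi_subset _ _ hk)
    exact ⟨h, ⟨_, (mem_tree Z _ _ y).2 ⟨[], 1, rfl, by simp⟩, _,
      (mem_tree Z _ _ y).2 ⟨w, a, hw, by simp⟩, hh⟩, rfl⟩

end StepR

open StepR

theorem stepR (hU : UpdStmt) (hB : BStepStmt) (hE : EqStmt) (hF : FaithRStmt) (hT : ThinRStmt)
    (hP : PercRStmt) (hA : ArbStmt) (hK : CostRStmt) (hM : ModelStmt) : StepRStmt := by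
  classical
  intro σ x x' B Q η hBi hx0 hx hG hη
  have := σ.fin
  have := σ.fi
  obtain ⟨x1, hx1, hx2⟩ := exists_between hx
  obtain ⟨N₀, hN₀, hb⟩ := hB σ.S σ.G (Fin 5) _ (sY σ) (pY σ) x x1 (edgeY σ) hx2
    (GoodAt.translates hG)
  obtain ⟨N, hN, hle, ρ, r1, r2, r3⟩ := exists_rho σ hE le_rfl (Set.range BStep.T2)
    (by rintro r - _ ⟨K, rfl⟩; exact ⟨_, (aff_T2 _ K).symm⟩) hN₀
  obtain ⟨hGB, hd⟩ := hb N hN hle
  have := hN.1
  have := hN.2
  have hfin := finite_cl N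
  set τ := nw σ σ.L σ.fi hfin _ ρ r1 r2 with hτ
  have hk : ∀ k, σ.Ker k → τ.Ker k := fun k h => ⟨h.1, r3 k h.2⟩
  have hm := hM τ ((gd_of σ hGB).mono (hx0.trans hx1.le))
  by_cases hc : ∀ P : PF r0 Γ5 (Γ5 ⧸ σ.L), P.Below Q →
    163839 * Nat.card (Γ5 ⧸ σ.L) ≤ 10 * P.size → ¬ ArbK P τ.kerS
  · obtain ⟨L', l1, l2, l3, l4, -⟩ := hm η 0 hη
    refine ⟨nw σ L' l2 hfin _ ρ (fun r hr => r1 r (l1.le hr))
      fun r hr r' hr' => r2 r (l1.le hr) r' (l1.le hr'), l1, fun k h => ⟨l3 k (hk k h), r3 k h.2⟩,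
      ((gd_of σ hGB).mono hx1.le).goodAt, @l4, Or.inr ⟨τ.kerS, fun k h1 h h2 => ?_, hc⟩⟩
    have := Stg.Ker.conj (σ := τ) h1 h2
    exact ⟨l3 _ this, this.2⟩
  push Not at hc
  obtain ⟨P, hPQ, hPs, hPa⟩ := hc
  obtain ⟨L, hLQ⟩ := exists_bound hBi Q
  have := σ.hidS_fi ⊤
  have := τ.hidS_fi ⊤
  obtain ⟨s, g, k, hs, hsg, hgk, hcost⟩ := hK (Fin r0 × Bool) σ.S σ.G _ _
    (labP (Set.range BStep.T2) N).phi (Fin 5) _ (sY σ) (pY σ) x1
    ((W σ.G ⧸ N) × (Γ5 ⧸ σ.hidS ⊤)) (fun z => ((pY σ z : W σ.G), (z.2 : Γ5 ⧸ σ.hidS ⊤)))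
    (Γ5 ⧸ τ.hidS ⊤) _ L (L + 4) (by simp [r0]) hd hGB.goodAt (kappa σ hN _)
  obtain ⟨L', l1, l2, l3, l4, l5⟩ := hm (min η (1 / 1000000)) (k * L) (lt_min hη (by norm_num))
  have hle' : L' ≤ σ.L := l1.le
  have hP'Q : (pull hle' P).Below Q := fun y l a h => hPQ y l a h
  have hP'L : ∀ b l a, (pull hle' P).lab b l = some a → d 1 a ≤ L := fun b l a h => by
    induction b using QuotientGroup.induction_on with
    | H y => exact hLQ _ _ _ (hP'Q y l a h)
  have hcnt := cnt τ hA le_rfl hPa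
  have hfl : ∀ n, {w : List (Fin r0 × Bool) | w.length = n}.Finite := List.finite_length_eq _
  let c : Γ5 ⧸ L' → List (Fin r0 × Bool) → ℝ≥0∞ := fun b w => if FreeGroup.IsReduced w then
    cst σ x1 L s g k (σ.pos b.out) (σ.pos (((pull hle' P).walk w b).getD 1 * b.out)) w.length else 0
  obtain ⟨Z, hZ, hZs, hZc⟩ := hP r0 Γ5 (Γ5 ⧸ L') (pull hle' P) k c
    {z | ∃ g : Γ5, d 1 g ≤ k * L ∧ g • z = z ∧ ¬ τ.Ker (z.out⁻¹ * g * z.out)} rfl
    (pull_big hle' P hPs)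
    (by
      intro b w h
      by_cases hr : FreeGroup.IsReduced w
      · simp only [c, if_pos hr, cst] at h
        by_contra hc
        have : w.length = 0 ∨ k < w.length := by
          by_cases h0 : w = []
          · simp [h0]
          · exact Or.inr (not_le.1 fun h1 => hc ⟨h0, hr, h1⟩)
        rw [if_neg (by omega), if_neg (by omega), if_neg (by omega)] at h
        simp at h
      · simp [c, hr] at h)
    (by
      have h1 := l5.trans (mul_le_mul_of_nonneg_right (min_le_right _ _) (Nat.cast_nonneg _))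
      rw [← Nat.cast_le (α := ℝ)]
      push_cast
      linarith)
    (by
      intro b hb
      refine le_trans (le_of_eq (tsum_congr fun w => by congr)) (geo (fun w => w ≠ [] ∧
        ∃ a, w.length ≤ k ∧ (pull hle' P).walk w b = some a ∧ a • b = b) (fun w h => h.1) fun n =>
        le_trans (Set.ncard_le_ncard ?_ ((hfl n).subset fun _ h => h.1)) (hcnt b.out b.out n))
      rintro w ⟨h1, -, a, h2, h3, h4⟩
      refine ⟨h1, a, pw' hle' P w b ▸ h3, by_contra fun h5 => hb ⟨a, ?_, h4, by rwa [mul_assoc]⟩⟩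
      exact (d_walk hP'L h3).trans (Nat.mul_le_mul_right _ h2))
    (by
      intro b
      refine le_trans (le_of_eq (tsum_congr fun w => ?_)) (hcost (σ.pos b.out)
        {w | FreeGroup.IsReduced w ∧ ((pull hle' P).walk w b).isSome}
        (fun w => σ.pos (((pull hle' P).walk w b).getD 1 * b.out))
        (fun w => ((((pull hle' P).walk w b).getD 1 * b.out : Γ5) : Γ5 ⧸ τ.hidS ⊤)) ?_)
      · by_cases hr : FreeGroup.IsReduced w
        · simp only [c, cst, Set.mem_ofPred_eq, hr, true_and, if_true]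
        · simp [c, hr]
      · intro n q u
        rcases Set.eq_empty_or_nonempty {w | w ∈ {w | FreeGroup.IsReduced w ∧
            ((pull hle' P).walk w b).isSome} ∧ w.length = n ∧ (labP (Set.range BStep.T2) N).phi
              (σ.pos (((pull hle' P).walk w b).getD 1 * b.out)) = q ∧
            ((((pull hle' P).walk w b).getD 1 * b.out : Γ5) : Γ5 ⧸ τ.hidS ⊤) = u} with e | ⟨w₀, e⟩
        · rw [e]; simp
        refine le_trans (Set.ncard_le_ncard ?_ ((hfl n).subset fun _ h => h.1))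
          (hcnt b.out (((pull hle' P).walk w₀ b).getD 1 * b.out) n)
        rintro w ⟨⟨-, h1⟩, h2, h3, h4⟩
        obtain ⟨a, ha⟩ := Option.isSome_iff_exists.1 h1
        rw [ha, Option.getD_some] at h3 h4
        exact ⟨h2, a, pw' hle' P w b ▸ ha, ker_of_hid τ
          (QuotientGroup.eq.1 (e.2.2.2.trans h4.symm)) (e.2.2.1.trans h3.symm)⟩)
  obtain ⟨σ', rfl, s1, s2, M, s3⟩ := upd hU hE hF hT σ hx1 (GoodAt.mono hG hx2.le) hle' l2 Z hs
    hsg hgk (fun b l a h => hP'L _ _ _ (hZ _ _ _ h)) (L := L) fun y => by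
      refine lt_of_le_of_lt (ENNReal.tsum_le_tsum fun w => ?_) (hZc y)
      split_ifs with h1 h2
      · obtain ⟨a, ha⟩ := Option.isSome_iff_exists.1 h2
        obtain ⟨r, hr⟩ := QuotientGroup.mk_out_eq_mul L' y
        simp only [c, if_pos h1.1, ha, walk_le hZ ha, Option.getD_some, hr, ← mul_assoc,
          σ.mul r (hle' r.2)]
        exact cst_aff _ _ _ _ _ (hle' r.2) _ _ _
      · exact absurd h1.2 h2
      · simp
      · simp
  exact ⟨σ', l1, fun k h => ⟨l3 k (hk k h), s1 k (l3 k (hk k h)) h.2⟩, s2,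
    gap_mono l4 (min_le_left _ _),
    Or.inl (far σ' Q Z (fun y l a h => hP'Q y l a (hZ _ _ _ h)) hZs M s3)⟩

end Pool.Agent.MP_735563_an.H66
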