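import Pool.Agent.MP_735563_an.H66.MSpec

/-!
The expected cyclic sum of one tuple of words.
-/

set_option autoImplicit false

open scoped BigOperators

namespace Pool.Agent.MP_735563_an.H66

open Pool.Agent.MP_c34dea_an.H66 Pool.Agent.MP_c34dea_an.H23

namespace Term

lemma two_pow_le {m ℓ : ℕ} (h : 36 * m ≤ ℓ + 36) : (2 : ℝ) ^ m ≤ 2 * (51 / 50) ^ ℓ := by
  have h1 : (2 : ℝ) ^ m ≤ 2 ^ (m - 1 + 1) := pow_le_pow_right₀ one_le_two (by omega)
  have h2 : (2 : ℝ) ^ (m - 1) ≤ ((51 / 50) ^ 36) ^ (m - 1) :=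
    pow_le_pow_left₀ zero_le_two (by norm_num) _
  have h3 : ((51 / 50 : ℝ) ^ 36) ^ (m - 1) ≤ (51 / 50) ^ ℓ := by
    rw [← pow_mul]
    exact pow_le_pow_right₀ (by norm_num) (by omega)
  rw [pow_succ] at h1
  linarith

lemma irr {α : Type} [Fintype α] (P : α → Prop) (i j : DecidablePred P) (f : α → ℝ) :
    ∑ z ∈ @Finset.filter _ P i Finset.univ, f z = ∑ z ∈ @Finset.filter _ P j Finset.univ, f z := by
  rw [Subsingleton.elim i j]

variable {S : Type} {G : SimpleGraph S} {b : ℕ} [Fintype S] [DecidableEq S]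
  {T : Type} [Fintype T] (tm : T → ℕ) (c : T → S) (fl : T → Prop)

lemma ew_nonneg (z : Sg G b × (T → Sg G b)) : 0 ≤ Ew tm c fl z :=
  Finset.expect_nonneg fun _ _ => Finset.prod_nonneg fun _ _ => by split_ifs <;> positivity

variable [DecidableEq T]

lemma mass (hW : WtStmt) (h : Function.Injective tm) :
    ∑ z : Sg G b × (T → Sg G b), Ew tm c fl z = Fintype.card (Sg G b) := by
  simp only [Ew]
  rw [← Finset.expect_sum_comm]
  simp [Fintype.sum_prod_type, (hW S G b T tm c fl h).1]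

end Term

open Term in
theorem term (hM : MobStmt) (hP : PatStmt) (hW : WtStmt) (hT : TrStmt) : TermStmt := by
  intro S _ _ G b p ℓ r ε a hp ha h1 h2
  have t := fun f => hT S G b f p ℓ a hp fun σ => (ha σ).1
  have e0 : 0 ≤ ε := le_trans (by positivity) h1
  have hc : (Fintype.card (Tm a) : ℝ) ≤ (p * ℓ : ℕ) := by
    rw [Nat.cast_le, Fintype.card_sigma]
    simpa using Finset.sum_le_card_nsmul Finset.univ (fun σ => (a σ).k) ℓ fun σ _ => (ha σ).1
  have hJ : (2 : ℝ) ^ (JsT a).card ≤ 2 ^ p * (51 / 50) ^ (p * ℓ) := by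
    rw [(t 0).2.1, ← Finset.prod_pow_eq_pow_sum, mul_comm p, pow_mul, ← mul_pow]
    simpa using Finset.prod_le_prod (s := Finset.univ) (fun σ _ => by positivity)
      fun σ _ => two_pow_le (ha σ).2
  have m := hM S G b _ (tmT a ℓ) (cT a) (blkT a) _ (winT a) (JsT a)
    (fun z => fin (cT a) z = z.1 ∧ NoIn (blkT a) (Col (tmT a ℓ) (cT a) z)) fun z hz => hz.2
  simp only [fun f => (t f).2.2, Finset.expect_sum_comm, ← Finset.mul_expect]
  refine ((Finset.sum_congr rfl fun B _ => congrArg _ (irr _ _ _ _)).trans_le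
    ((le_abs_self _).trans m)).trans ((Finset.sum_le_card_nsmul _ _
      (Fintype.card (Sg G b) * (2 * ε ^ r +
        @ite _ (Bad a G ℓ (2 ^ r)) (Classical.propDecidable _) 1 0)) fun B _ => ?_).trans ?_)
  swap
  · rw [Finset.card_powerset, nsmul_eq_mul, mul_assoc _ (Fintype.card (Sg G b) : ℝ)]
    refine mul_le_mul_of_nonneg_right (by exact_mod_cast hJ) ?_
    split_ifs <;> positivity
  split_ifs with h
  · refine (Finset.sum_le_sum_of_subset_of_nonneg (Finset.subset_univ _)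
      fun z _ _ => ew_nonneg _ _ _ z).trans ?_
    rw [mass _ _ _ hW (t 0).1.1]
    exact le_mul_of_one_le_right (by positivity) (le_add_of_nonneg_left (by positivity))
  · refine (irr _ _ _ _).trans_le ((hP S G b _ (tmT a ℓ) (cT a) (blkT a) (flg (winT a) B) r ε
      (fun z => NoIn (blkT a) (Col (tmT a ℓ) (cT a) z) ∧
        AllCol (winT a) (JsT a) (Col (tmT a ℓ) (cT a) z)) (t 0).1 (fun z hz => ⟨hz.1, fun hs => h
      ⟨_, fun _ _ _ e => congrArg Prod.fst e, fun _ _ _ e => ?_, fun _ _ _ _ _ e e' => ?_,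
        hz.1, hz.2, hs⟩⟩) (le_trans (by gcongr) h1) h2).trans_eq (by ring))
    · exact (inv_smul_eq_iff (α := Qy G b)).2 e.symm
    · exact (mul_smul (β := Qy G b) _ _ _).trans ((congrArg _ e).trans e')

end Pool.Agent.MP_735563_an.H66
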