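import Pool.Agent.MP_735563_an.H66.Spec
import Pool.Agent.MP_c34dea_an.H23.TowerI

set_option autoImplicit false

open scoped Pointwise ENNReal

namespace Pool.Agent.MP_735563_an.H66

open Pool.Agent.MP_c34dea_an.H66 Pool.Agent.MP_c34dea_an.H23

namespace Tower

/-- the first stage -/
noncomputable def base : Stg where
  S := Fin 5
  fin := inferInstance
  G := G5
  pos y := y⁻¹
  L := ⊤
  fi := inferInstance
  ρ r := tr r⁻¹
  one := inv_one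
  edge y s := ⟨s, by rw [mul_inv_rev, TowI.gen_inv5]⟩
  mul r _ y := by rw [tr_smul, mul_inv_rev]
  anti r _ r' _ := by rw [mul_inv_rev, tr_mul]

theorem base_gd : base.Gd (6 / 25) := TowI.base_gd

/-- the tasks -/
def Task : Type := Σ B : {B : Subgroup Γ5 // B.FiniteIndex}, PF r0 Γ5 (Γ5 ⧸ B.1)

instance : Countable Task := by
  have h1 : Group.FG Γ5 := ⟨(Subgroup.fg_iff _).2 ⟨gen G5 '' Set.univ, Par_univ,
    Set.finite_univ.image _⟩⟩
  have h2 : Countable {B : Subgroup Γ5 // B.FiniteIndex} := by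
    refine ((Set.countable_range fun T : Finset Γ5 => Subgroup.closure (T : Set Γ5)).mono
      (s₁ := {B : Subgroup Γ5 | B.FiniteIndex}) fun B hB => ?_).to_subtype
    have : B.FiniteIndex := hB
    exact (Group.fg_iff_subgroup_fg B).1 inferInstance
  have h3 : ∀ B : {B : Subgroup Γ5 // B.FiniteIndex}, Countable (PF r0 Γ5 (Γ5 ⧸ B.1)) := by
    intro B
    have := B.2
    refine Function.Injective.countable (f := PF.lab) ?_
    rintro ⟨a, _⟩ ⟨b, _⟩ h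
    cases h
    rfl
  unfold Task
  infer_instance

instance : Nonempty Task := ⟨⟨⟨⊤, inferInstance⟩, ⟨fun _ _ => none, by simp⟩⟩⟩

/-- the outcome of one step -/
def Out (σ σ' : Stg) (t : Task) : Prop :=
  (∃ R, σ'.Far t.2 R) ∨ ∃ K : Subgroup Γ5, (∀ k ∈ K, ∀ h ∈ σ.L, σ'.Ker (h⁻¹ * k * h)) ∧
    ∀ P : PF r0 Γ5 (Γ5 ⧸ σ.L), P.Below t.2 → 163839 * Nat.card (Γ5 ⧸ σ.L) ≤ 10 * P.size →
      ¬ ArbK P K

theorem seq (hS : StepRStmt) (e : ℕ → Task) : ∃ σ : ℕ → Stg, ∀ n, (σ (n + 1)).L < (σ n).L ∧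
    (∀ k, (σ n).Ker k → (σ (n + 1)).Ker k) ∧ Gap (σ n).L (σ (n + 1)).L ((1 / 2) ^ n) ∧
      Out (σ n) (σ (n + 1)) (e n) := by
  have nx : ∀ (n : ℕ) (z : {z : Stg × ℝ≥0∞ // 2 / 9 < z.2 ∧ z.1.Gd z.2}),
      ∃ z' : {z : Stg × ℝ≥0∞ // 2 / 9 < z.2 ∧ z.1.Gd z.2},
        z'.1.1.L < z.1.1.L ∧ (∀ k, z.1.1.Ker k → z'.1.1.Ker k) ∧
          Gap z.1.1.L z'.1.1.L ((1 / 2) ^ n) ∧ Out z.1.1 z'.1.1 (e n) := by
    rintro n ⟨⟨σ, x⟩, h1, h2⟩
    obtain ⟨x', h3, h4⟩ := exists_between h1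
    obtain ⟨σ', a1, a2, a3, a4, a5⟩ := hS σ x x' _ (e n).2 ((1 / 2) ^ n) (e n).1.2 h3.le h4 h2
      (by positivity)
    exact ⟨⟨(σ', x'), h3, a3⟩, a1, a2, a4, a5⟩
  choose f hf using nx
  have b0 : (2 / 9 : ℝ≥0∞) < 6 / 25 := by
    rw [← ENNReal.toReal_lt_toReal (by finiteness) (by finiteness)]
    norm_num
  let z : ℕ → {z : Stg × ℝ≥0∞ // 2 / 9 < z.2 ∧ z.1.Gd z.2} := fun n =>
    Nat.rec ⟨(base, 6 / 25), b0, base_gd⟩ f n
  exact ⟨fun n => (z n).1.1, fun n => hf n (z n)⟩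

theorem size_le {a b : ℕ} (h : (2 * (r0 : ℝ) - 1 / 10) * a ≤ b) : 163839 * a ≤ 10 * b := by
  have e : (r0 : ℝ) = 8192 := by rw [r0]; norm_num
  rw [e] at h
  have : (163839 : ℝ) * a ≤ 10 * b := by linarith
  exact_mod_cast this

end Tower

open Tower in
theorem towerR (h : StepRStmt) : TowerOut := by
  obtain ⟨e, he⟩ := exists_surjective_nat Task
  obtain ⟨σ, hσ⟩ := seq h fun n => e (Nat.unpair n).1
  have sa : StrictAnti fun n => (σ n).L := strictAnti_nat_of_succ_lt fun n => (hσ n).1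
  have ext : ∀ {m n}, m ≤ n → ∀ k, (σ m).Ker k → (σ n).Ker k := by
    intro m n h
    induction h with
    | refl => exact fun _ c => c
    | step _ ih => exact fun k c => (hσ _).2.1 k (ih k c)
  have all : ∀ {m k}, (σ m).Ker k → ∀ n, k ∈ (σ n).L := by
    intro m k c n
    rcases le_total n m with d | d
    · exact sa.antitone d c.1
    · exact (ext d k c).1
  refine ⟨fun n => (σ n).L, sa, fun n => (σ n).fi, ⟨r0, 1 / 10, by norm_num, fun T =>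
    ⟨1, one_pos, fun j => ⟨j, le_rfl, fun Q _ => ?_⟩⟩⟩, fun n => (hσ n).2.2.1⟩
  by_cases hF : ∃ n R, (σ n).Far Q R
  · obtain ⟨n, R, hR⟩ := hF
    refine ⟨R, fun m₀ => ⟨max n m₀, le_max_right _ _, fun P hP hs _ _ => ?_⟩⟩
    have hx : (σ (max n m₀)).L ≤ (σ n).L := sa.antitone (le_max_left n m₀)
    obtain ⟨y, w, g, a1, a2, a3, a4, a5⟩ := hR _ hx (σ _).fi P hP (size_le hs)
    exact ⟨y, w, g, a1, a2, a3, a4, fun h hh k => all (a5.conj (hx hh)) k⟩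
  · obtain ⟨i, hi⟩ := he ⟨⟨(σ j).L, (σ j).fi⟩, Q⟩
    refine ⟨0, fun m₀ => ⟨Nat.pair i m₀, Nat.right_le_pair _ _, fun P hP hs _ hA => ?_⟩⟩
    have h3 := (hσ (Nat.pair i m₀)).2.2.2
    simp only [Nat.unpair_pair, hi] at h3
    rcases h3 with ⟨R, hR⟩ | ⟨K, hK, hK'⟩
    · exact (hF ⟨_, R, hR⟩).elim
    · exact (hK' P hP (size_le hs) (hA K fun k hk h hh n => all (hK k hk h hh) n)).elim

end Pool.Agent.MP_735563_an.H66
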