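import Pool.Agent.MP_735563_an.H66.MSpec

set_option autoImplicit false

open Finset

namespace Pool.Agent.MP_735563_an.H66

open Pool.Agent.MP_c34dea_an.H66 Pool.Agent.MP_c34dea_an.H23

namespace Tr

/-- a tuple of sets as a set of pairs -/
def bu {p : ℕ} (B : Fin p → Finset ℕ) : Finset (Fin p × ℕ) :=
  univ.biUnion fun σ => (B σ).image fun j => (σ, j)

theorem mem_bu {p : ℕ} {B : Fin p → Finset ℕ} {x : Fin p × ℕ} : x ∈ bu B ↔ x.2 ∈ B x.1 := by
  simp only [bu, mem_biUnion, mem_univ, true_and, mem_image]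
  exact ⟨by rintro ⟨σ, j, h, rfl⟩; exact h, fun h => ⟨x.1, x.2, h, rfl⟩⟩

theorem card_bu {p : ℕ} (B : Fin p → Finset ℕ) : (bu B).card = ∑ σ, (B σ).card := by
  rw [bu, card_biUnion]
  · exact sum_congr rfl fun σ _ => card_image_of_injective _ (Prod.mk_right_injective σ)
  · intro σ _ τ _ h
    refine disjoint_left.2 fun x h1 h2 => h ?_
    obtain ⟨_, -, rfl⟩ := mem_image.1 h1
    obtain ⟨_, -, e⟩ := mem_image.1 h2
    exact (congrArg Prod.fst e).symm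

theorem sum_bu {p : ℕ} (J : Fin p → Finset ℕ) (F : Finset (Fin p × ℕ) → ℝ) :
    ∑ B ∈ Fintype.piFinset fun σ => (J σ).powerset, F (bu B) = ∑ B ∈ (bu J).powerset, F B := by
  refine sum_nbij' bu (fun B σ => (J σ).filter fun j => (σ, j) ∈ B) ?_ ?_ ?_ ?_ fun _ _ => rfl
  · intro B hB
    exact mem_powerset.2 fun x hx =>
      mem_bu.2 (mem_powerset.1 (Fintype.mem_piFinset.1 hB x.1) (mem_bu.1 hx))
  · intro B _
    exact Fintype.mem_piFinset.2 fun σ => mem_powerset.2 (filter_subset _ _)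
  · intro B hB
    funext σ
    ext j
    rw [mem_filter, mem_bu]
    exact ⟨fun h => h.2, fun h => ⟨mem_powerset.1 (Fintype.mem_piFinset.1 hB σ) h, h⟩⟩
  · intro B hB
    ext x
    rw [mem_bu, mem_filter]
    exact ⟨fun h => h.2, fun h => ⟨mem_bu.1 (mem_powerset.1 hB h), h⟩⟩

variable {S : Type} {G : SimpleGraph S} {b p ℓ : ℕ} {a : Fin p → Dat S}

theorem tm_lt (h : ∀ σ, (a σ).k ≤ ℓ) (t t' : Tm a) :
    tmT a ℓ t < tmT a ℓ t' ↔ (t.1 : ℕ) < t'.1 ∨ t.1 = t'.1 ∧ (t.2 : ℕ) < t'.2 := by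
  have h1 := t.2.2.trans_le (h _)
  have h2 := t'.2.2.trans_le (h _)
  rw [tmT, tmT, Fin.ext_iff]
  generalize (t.1 : ℕ) = x, (t'.1 : ℕ) = y, (t.2 : ℕ) = i, (t'.2 : ℕ) = j at *
  rcases lt_trichotomy x y with e | rfl | e
  · have := Nat.mul_le_mul_right ℓ (Nat.succ_le_of_lt e)
    rw [Nat.succ_mul] at this
    omega
  · omega
  · have := Nat.mul_le_mul_right ℓ (Nat.succ_le_of_lt e)
    rw [Nat.succ_mul] at this
    omega

theorem itvs (h : ∀ σ, (a σ).k ≤ ℓ) : Itvs (tmT a ℓ) (blkT a) := by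
  constructor
  · rintro ⟨σ, i⟩ ⟨τ, j⟩ e
    have h1 := mt (tm_lt h ⟨σ, i⟩ ⟨τ, j⟩).2 (by omega)
    have h2 := mt (tm_lt h ⟨τ, j⟩ ⟨σ, i⟩).2 (by omega)
    simp only [not_or, not_and, not_lt] at h1 h2
    obtain rfl : σ = τ := Fin.ext (le_antisymm h2.1 h1.1)
    rw [Fin.ext (le_antisymm (h2.2 rfl) (h1.2 rfl))]
  · intro t₁ t₂ t e h1 h2
    have h3 := mt (tm_lt h t t₁).2 (by omega)
    have h4 := mt (tm_lt h t₂ t).2 (by omega)
    simp only [blkT, not_or, not_lt] at h3 h4 e ⊢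
    omega

theorem split {M : Type} [AddCommMonoid M] (σ : Fin p) (P : Fin (a σ).k → Prop) [DecidablePred P]
    (Q : Tm a → Prop) [DecidablePred Q] (h : ∀ t : Tm a, t.1 ≠ σ → (Q t ↔ (t.1 : ℕ) < σ))
    (h' : ∀ i, Q ⟨σ, i⟩ ↔ P i) (g : Tm a → M) :
    ∑ t with Q t, g t = ∑ t : Tm a with (t.1 : ℕ) < σ, g t + ∑ i with P i, g ⟨σ, i⟩ := by
  simp only [sum_filter, Fintype.sum_sigma]
  rw [← Finset.add_sum_erase _ _ (mem_univ σ), ← Finset.add_sum_erase _ _ (mem_univ σ)]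
  simp only [lt_irrefl, if_false, sum_const_zero, zero_add, h']
  rw [add_comm]
  refine congrArg (· + _) (sum_congr rfl fun τ hτ => sum_congr rfl fun i _ => ?_)
  exact if_congr (h ⟨τ, i⟩ (ne_of_mem_erase hτ)) rfl rfl

variable [Fintype S] [DecidableEq S]

/-- the state before the block number `n` -/
noncomputable def U (z : Sg G b × (Tm a → Sg G b)) (n : ℕ) : Sg G b :=
  z.1 + ∑ t : Tm a with (t.1 : ℕ) < n, mask (cT a t) (z.2 t)

/-- the run of one block -/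
noncomputable def L (z : Sg G b × (Tm a → Sg G b)) (σ : Fin p) :
    Sg G b × (Fin (a σ).k → Sg G b) := (U z σ, fun i => z.2 ⟨σ, i⟩)

omit [Fintype S] [DecidableEq S]

theorem U_zero (z : Sg G b × (Tm a → Sg G b)) : U z 0 = z.1 := by simp [U]

theorem U_top (z : Sg G b × (Tm a → Sg G b)) : U z p = fin (cT a) z := by
  rw [U, fin, filter_true_of_mem fun t _ => t.1.2]

theorem U_succ (z : Sg G b × (Tm a → Sg G b)) (σ : Fin p) :
    fin (fun i : Fin (a σ).k => (a σ).c i) (L z σ) = U z (σ + 1) := by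
  rw [U, split σ (fun _ => True) _ (fun t ht => by have := Fin.val_ne_of_ne ht; omega)
    (fun i => by simp), filter_true, ← add_assoc]
  rfl

theorem qt_eq (h : ∀ σ, (a σ).k ≤ ℓ) (z : Sg G b × (Tm a → Sg G b)) (σ : Fin p)
    (i : Fin (a σ).k) : qt (tmT a ℓ) (cT a) z ⟨σ, i⟩ =
      qt Fin.val (fun i : Fin (a σ).k => (a σ).c i) (L z σ) i := by
  rw [qt, stt, split σ (fun j => (j : ℕ) < i) _ (fun t ht => by simp [tm_lt h, ht])
    (fun j => by simp [tm_lt h]), ← add_assoc]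
  rfl

theorem noin (h : ∀ σ, (a σ).k ≤ ℓ) (z : Sg G b × (Tm a → Sg G b)) :
    NoIn (blkT a) (Col (tmT a ℓ) (cT a) z) ↔
      ∀ σ, NoIn (fun _ => 0) (Col Fin.val (fun i : Fin (a σ).k => (a σ).c i) (L z σ)) := by
  constructor
  · intro H σ i j θ _ e
    have := H ⟨σ, i⟩ ⟨σ, j⟩ θ rfl (by rwa [Col, qt_eq h, qt_eq h])
    exact ⟨by simpa using this.1, this.2⟩
  · rintro H ⟨σ, i⟩ ⟨τ, j⟩ θ e e'
    obtain rfl : σ = τ := Fin.ext e
    rw [Col, qt_eq h, qt_eq h] at e'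
    obtain ⟨rfl, e1⟩ := H σ i j θ rfl e'
    exact ⟨rfl, e1⟩

theorem wt_eq [Fintype S] [DecidableEq S] (h : ∀ σ, (a σ).k ≤ ℓ) (f : Qy G b → Sg G b)
    (B : Fin p → Finset ℕ) (z : Sg G b × (Tm a → Sg G b)) :
    wt (tmT a ℓ) (cT a) f (flg (winT a) (bu B)) z = ∏ σ, wt Fin.val
      (fun i : Fin (a σ).k => (a σ).c i) f (flg (fun i : Fin (a σ).k => (a σ).win i) (B σ))
      (L z σ) := by
  classical
  rw [wt, Fintype.prod_sigma]
  refine prod_congr rfl fun σ _ => prod_congr rfl fun i _ => ?_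
  rw [qt_eq h]
  refine if_congr ?_ rfl rfl
  simp [flg, winT, mem_bu]

theorem link {q : ℕ} {a : Fin (q + 1) → Dat S} (z : Sg G b × (Tm a → Sg G b)) :
    fin (cT a) z = z.1 ↔
      ∀ σ, fin (fun i : Fin (a σ).k => (a σ).c i) (L z σ) = U z (finRotate _ σ) := by
  simp only [U_succ, coe_finRotate]
  refine ⟨fun h σ => ?_, fun h => ?_⟩
  · split_ifs with e
    · rw [e, U_zero, Fin.val_last, U_top, h]
    · rfl
  · simpa [U_zero, U_top] using h (Fin.last q)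

theorem key {q : ℕ} {a : Fin (q + 1) → Dat S} (u : Fin (q + 1) → Sg G b)
    (δ : ∀ σ, Fin (a σ).k → Sg G b)
    (h : ∀ σ, fin (fun i : Fin (a σ).k => (a σ).c i) (u σ, δ σ) = u (finRotate _ σ))
    (σ : Fin (q + 1)) : U (u 0, fun t : Tm a => δ t.1 t.2) σ = u σ := by
  induction σ using Fin.induction with
  | zero => exact U_zero _
  | succ σ ih =>
    have := h σ.castSucc
    rw [finRotate_apply, Fin.coeSucc_eq_succ, ← ih] at this
    exact (U_succ _ σ.castSucc).symm.trans this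

end Tr

open Tr

open Classical in
theorem trS : TrStmt := by
  intro S _ _ G b f p ℓ a hp h
  refine ⟨itvs h, card_bu _, ?_⟩
  obtain ⟨q, rfl⟩ : ∃ q, p = q + 1 := ⟨p - 1, by omega⟩
  rw [show JsT a = bu fun σ => (a σ).Js from rfl, ← sum_bu, cyc]
  simp only [At, prod_univ_sum]
  rw [sum_comm]
  refine sum_congr rfl fun B _ => ?_
  have e : ((bu fun σ => (a σ).Js) \ bu B) = bu fun σ => (a σ).Js \ B σ := by
    ext x
    simp only [mem_sdiff, mem_bu]
  simp only [prod_mul_distrib, prod_univ_sum]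
  rw [← mul_sum, e, card_bu, prod_pow_eq_pow_sum, sum_sigma']
  refine congrArg _ (sum_nbij' (fun z => ⟨fun σ => U z σ, fun σ i => z.2 ⟨σ, i⟩⟩)
    (fun x => (x.1 0, fun t => x.2 t.1 t.2)) ?_ ?_ ?_ ?_ fun z _ => wt_eq h f B z).symm
  · intro z hz
    have hz' := (mem_filter.1 hz).2
    exact mem_sigma.2 ⟨mem_univ _, Fintype.mem_piFinset.2 fun σ => mem_filter.2
      ⟨mem_univ _, (link z).1 hz'.1 σ, (noin h z).1 hz'.2 σ⟩⟩
  · rintro ⟨u, δ⟩ hx
    have hx' := fun σ => (mem_filter.1 (Fintype.mem_piFinset.1 (mem_sigma.1 hx).2 σ)).2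
    have k := key u δ fun σ => (hx' σ).1
    refine mem_filter.2 ⟨mem_univ _, (link _).2 fun σ => ?_, (noin h _).2 fun σ => ?_⟩
    · rw [L, k, k]
      exact (hx' σ).1
    · rw [L, k]
      exact (hx' σ).2
  · exact fun z _ => Prod.ext (U_zero z) rfl
  · rintro ⟨u, δ⟩ hx
    have hx' := fun σ => (mem_filter.1 (Fintype.mem_piFinset.1 (mem_sigma.1 hx).2 σ)).2
    exact Sigma.ext (funext (key u δ fun σ => (hx' σ).1)) HEq.rfl

end Pool.Agent.MP_735563_an.H66
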