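import Pool.Agent.MP_735563_an.H66.Spec
import Pool.Agent.MP_c34dea_an.H6.Block
import Pool.Agent.MP_c34dea_an.H23.Update
import Pool.Agent.MP_c34dea_an.H23.BLevels

set_option autoImplicit false

open scoped Pointwise ENNReal

namespace Pool.Agent.MP_735563_an.H66

open Pool.Agent.MP_c34dea_an Pool.Agent.MP_c34dea_an.H66

namespace Upd

variable {S : Type} {G : SimpleGraph S} {𝒮 : Set (Set (Hyp G))} {Sim : Hyp G → Hyp G → Prop}

section

open H6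
open H23 (NF)

theorem exists_lev' [Finite S] (F : Fam 𝒮 Sim) (R : ℕ) :
    ∃ M : Subgroup (W G), NF M ∧ ∀ N : Subgroup (W G), NF N → N ≤ M →
      Lev 𝒮 Sim R (labP 𝒮 N) N := by
  obtain ⟨N0, i1, i2, h0⟩ := exists_F0 G R
  obtain ⟨N1, j1, j2, h1⟩ := F.faith R
  set N2 := PN N0 ⊓ N1 with hN2
  have h2 : F0 N2 R := h0.mono (inf_le_left.trans (PN_le N0)) le_rfl
  refine ⟨PN (PN N2), ⟨inferInstance, inferInstance⟩, fun N hNF hN => ?_⟩
  have := hNF.1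
  have hle : N ≤ N2 := hN.trans ((PN_le _).trans (PN_le _))
  have h3 : F0 N R := h2.mono hle le_rfl
  refine ⟨hNF.1, hNF.2, fun n hn h => (clS_eq.2 ⟨n, hn, rfl⟩).symm, ?_, ?_, ?_, ?_, ?_, ?_⟩
  · intro t u e
    obtain ⟨v, -, rfl⟩ := clS_eq.1 e
    rfl
  · intro t u x y hx hy hd e
    obtain ⟨v, hv, e'⟩ := clS_eq.1 e
    exact h3.eq hy hx (by rwa [d_comm]) hv e'.symm
  · intro t u c
    refine ⟨fun e => ?_, t, u, rfl, rfl, Or.inl (Or.inr c)⟩
    obtain ⟨v, -, rfl⟩ := clS_eq.1 e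
    exact G.irrefl c.adj
  · intro A hA t ht u hu
    exact mem_st_GP (Or.inr ⟨A, hA, ht, hu⟩)
  · rintro t u a b hb hd ⟨f1, f2, f3, f4, m4, n12, n23, n34⟩ e e1 e2
    obtain ⟨k, hk, c1⟩ := con_of_mem_st F e1
    obtain ⟨k', hk', c2⟩ := con_of_mem_st F e2
    obtain ⟨n, hn, rfl⟩ := clS_eq.1 (hk'.trans hk.symm)
    obtain ⟨x1, hx1, x, hx, A1, hA1, s1⟩ := c1.path F
    obtain ⟨x2, hx2, x', hx', A2, hA2, s2⟩ := (c2.smul F n).path F
    have key : ∀ r ∈ sep a b, ∃ v ∈ N2, v • r ∈ A1 ∨ v • r ∈ A2 ∨ Stc (n • k') (v • r) := by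
      intro r hr
      obtain ⟨v, hv, c⟩ := poly h2 hb (by omega) (PN_le _ (hN hn)) hx hx' hr
      refine ⟨v, hv, ?_⟩
      rcases Finset.mem_union.1 (sep_subset_union x x1 x' c) with c | c
      · exact Or.inl (s1 _ (mem_sep_comm.1 c))
      · rcases Finset.mem_union.1 (sep_subset_union x1 x2 x' c) with c | c
        · exact Or.inr (Or.inr (stc_of_sep_car hx1 hx2 c))
        · exact Or.inr (Or.inl (s2 _ c))
    have pr : ∀ f f', f' ∈ sep a b → Nx Sim a f f' → ∀ v ∈ N2, ∀ v' ∈ N2,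
        (∀ A, (A ∈ 𝒮 ∨ A = ∅) → ¬ (v • f ∈ A ∧ v' • f' ∈ A)) ∧
          ¬ (Stc (n • k') (v • f) ∧ Stc (n • k') (v' • f')) := by
      intro f f' m' nx v hv v' hv'
      obtain ⟨y, hy, y', hy', -, -, hyy⟩ := exists_car_close (nx.1.mem m') m'
      refine ⟨?_, lt_lvl h0 hy hy' (by omega) nx.2.1 hv.1 hv'.1⟩
      rintro A (hA | rfl) ⟨a1, a2⟩
      · obtain ⟨z, z', hz⟩ := exists_br_of_lt nx.1
        refine nx.2.2 (h1 f f' z z' (v⁻¹ * v') hz (by have := hz.d_le hy hy'; omega)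
          (N1.mul_mem (N1.inv_mem hv.2) hv'.2) (v⁻¹ • A) (F.inv _ _ hA) ?_ ?_)
        · simpa using Set.smul_mem_smul_set (a := v⁻¹) a1
        · rw [mul_smul]; exact Set.smul_mem_smul_set a2
      · exact a1
    have m3 := n34.1.mem m4
    have m2 := n23.1.mem m3
    have m1 := n12.1.mem m2
    obtain ⟨v1, w1, z1⟩ := key f1 m1
    obtain ⟨v2, w2, z2⟩ := key f2 m2
    obtain ⟨v3, w3, z3⟩ := key f3 m3
    obtain ⟨v4, w4, z4⟩ := key f4 m4
    have p12 := pr _ _ m2 n12 v1 w1 v2 w2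
    have p13 := pr _ _ m3 (n12.trans F n23) v1 w1 v3 w3
    have p14 := pr _ _ m4 ((n12.trans F n23).trans F n34) v1 w1 v4 w4
    have p23 := pr _ _ m3 n23 v2 w2 v3 w3
    have p24 := pr _ _ m4 (n23.trans F n34) v2 w2 v4 w4
    have p34 := pr _ _ m4 n34 v3 w3 v4 w4
    have a12 := p12.1 A1 hA1
    have a13 := p13.1 A1 hA1
    have a14 := p14.1 A1 hA1
    have a23 := p23.1 A1 hA1
    have a24 := p24.1 A1 hA1
    have a34 := p34.1 A1 hA1
    have b12 := p12.1 A2 hA2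
    have b13 := p13.1 A2 hA2
    have b14 := p14.1 A2 hA2
    have b23 := p23.1 A2 hA2
    have b24 := p24.1 A2 hA2
    have b34 := p34.1 A2 hA2
    have c12 := p12.2
    have c13 := p13.2
    have c14 := p14.2
    have c23 := p23.2
    have c24 := p24.2
    have c34 := p34.2
    rcases z1 with z1 | z1 | z1 <;> rcases z2 with z2 | z2 | z2 <;>
      rcases z3 with z3 | z3 | z3 <;> rcases z4 with z4 | z4 | z4 <;>
      first
        | exact a12 ⟨z1, z2⟩ | exact a13 ⟨z1, z3⟩ | exact a14 ⟨z1, z4⟩ | exact a23 ⟨z2, z3⟩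
        | exact a24 ⟨z2, z4⟩ | exact a34 ⟨z3, z4⟩
        | exact b12 ⟨z1, z2⟩ | exact b13 ⟨z1, z3⟩ | exact b14 ⟨z1, z4⟩ | exact b23 ⟨z2, z3⟩
        | exact b24 ⟨z2, z4⟩ | exact b34 ⟨z3, z4⟩
        | exact c12 ⟨z1, z2⟩ | exact c13 ⟨z1, z3⟩ | exact c14 ⟨z1, z4⟩ | exact c23 ⟨z2, z3⟩
        | exact c24 ⟨z2, z4⟩ | exact c34 ⟨z3, z4⟩
  · intro t u t' u' a b a' b' hb hb' hd hd' e1 e2
    obtain ⟨n, hn, rfl⟩ := clS_eq.1 e1
    obtain ⟨n', hn', rfl⟩ := clS_eq.1 e2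
    exact uq h2 hb hb' (by omega) (by omega) (hN hn) (hN hn')

end

open H6 (Fam Lev Rn Stc GP labP adm_Rn exists_br D_up D_low sdiff_eq_inter)
open H23

theorem block' [Finite S] {R E : Hyp G → Hyp G → Prop} (hR : Adm R)
    (h1 : ∀ g : W G, ∀ T ∈ 𝒮, g • T ∈ 𝒮) (h2 : ∀ T ∈ 𝒮, ∀ t ∈ T, ∀ u ∈ T, Btw t u ⊆ T)
    (h3 : ∀ t u, E t u → E u t) (h4 : ∀ (g : W G) t u, E t u → E (g • t) (g • u))
    (h5 : ∀ t u t' u', E t u → t' ∈ Btw t u → u' ∈ Btw t u → E t' u')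
    (h6 : ∀ R, ∃ N : Subgroup (W G), NF N ∧ ∀ t u, Nr R t u → t ≠ u → ¬ Cross t u →
      ∀ T ∈ 𝒮, ∀ n ∈ N, t ∈ T → n • u ∈ T → E t u) (a m : ℕ) (ha : 1 ≤ a) :
    ∃ M : Subgroup (W G), NF M ∧ ∀ N : Subgroup (W G), NF N → N ≤ M →
      ∃ R' : Hyp (GP 𝒮 N) → Hyp (GP 𝒮 N) → Prop, Adm R' ∧ LS R' ∧
        ∀ (o : W (GP 𝒮 N)) (y : W G), ∃ o' : W G, ∀ y', d y y' ≤ m →
          ∃ Js : List (Finset (Hyp G)), ItvList R E o' y y' Js ∧ Js.length * a ≤ m ∧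
            10 * a * D R' o ((labP 𝒮 N).phi y) + D R o' y' ≤
              10 * a * D R' o ((labP 𝒮 N).phi y') + D R o' y + (Js.map Finset.card).sum +
                200 * a := by
  have F : Fam 𝒮 E := by
    refine ⟨h1, fun A hA t ht u hu => ?_, h4, h3, fun p a b c l1 l2 e =>
      h5 _ _ _ _ e (left_mem_Btw _ _) (mem_Btw_of_lt l1 l2), fun ρ => ?_⟩
    · by_cases c : Stc t u
      · obtain ⟨x, x1, x2⟩ := c.exists_pt
        exact ⟨x, x1, x, x2, by simp⟩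
      · obtain ⟨x, x', hb⟩ := exists_br c
        refine ⟨x, hb.ha, x', hb.hb, fun k hk => h2 A hA t ht u hu ?_⟩
        obtain ⟨l1, l2⟩ := hb.lt_of_mem hb.lt_base hk
        exact mem_Btw_of_lt l1 l2
    · obtain ⟨N, hN, hf⟩ := h6 ρ
      exact ⟨N, hN.1, hN.2, fun t u a b n hb hd hn A hA ht hu =>
        hf t u ⟨a, hb.ha, b, hb.hb, hd⟩ hb.ne hb.nc A hA n hn ht hu⟩
  obtain ⟨M, hM, hL⟩ := exists_lev' F (2 * m)
  refine ⟨M, hM, fun N hN hle => ?_⟩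
  have h := hL N hN hle
  generalize labP 𝒮 N = L at h ⊢
  have hA : Adm (Rn R E L (2 * m) (10 * a + 1)) := adm_Rn h
  refine ⟨Rn R E L (2 * m) (10 * a + 1), hA, ?_, fun o y => ?_⟩
  · rintro T U ⟨g, t, u, p, q, k1, k2, k3, -, k5, k6⟩
    exact ⟨_, k5, _, k6, Set.disjoint_left.2 fun e e1 e2 =>
      h.nt t u p q k1 k2 k3 e (mem_st_comm.1 e1) (mem_st_comm.1 e2)⟩
  obtain ⟨o', ho'⟩ := h.struct le_rfl o y
  refine ⟨o', fun y' hd => ?_⟩
  by_cases e : y = y'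
  · subst e
    exact ⟨[], ⟨by simp, by simp⟩, by simp, by simp⟩
  obtain ⟨s, -⟩ := exists_step e
  obtain ⟨Js, j1, j2, j3⟩ := h.asc ha hR (hyp y s) hd (by omega) (ho' y' hd)
  refine ⟨Js, j1, j2, ?_⟩
  have d1 := h.desc (c := 10 * a) F hR (hyp y s) (by omega) (ho' y' hd)
  have u1 := D_up (R := Rn R E L (2 * m) (10 * a + 1)) o (L.phi y') (L.phi y)
  have u2 := D_low hA o (L.phi y) (L.phi y')
  have u3 := D_up (R := R) o' y y'
  have u4 := D_low hR o' y' y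
  rw [sdiff_eq_inter, Finset.inter_comm] at u1 u4
  have v1 := Nat.mul_le_mul_left (10 * a) u1
  have v2 := Nat.mul_le_mul_left (10 * a) u2
  rw [Nat.mul_add] at v1 v2
  rw [Nat.mul_add] at v2
  omega

end Upd

open H23
open H6 (labP)

open UpdAux in
theorem upd : UpdStmt := by
  classical
  intro S _ G A _ Y step pos x₀ x' 𝒮 E hE hx hG h1 h2 h3 h4 h5 h6 hT
  obtain ⟨x, hx', hx₀⟩ := exists_between hx
  have hxt : x ≠ ∞ := ne_top_of_lt hx₀
  have hx0 : x ≠ 0 := ne_zero_of_lt hx'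
  obtain ⟨R, θ, K, hR, h0, hθ, hK, hG⟩ := hG.mono hx₀.le
  obtain ⟨Θ, hΘ, hT⟩ := hT
  have hT' : ∀ y, Gr step x y (fun y' => ∃ t u, E t u ∧ pos y ∈ car t ∧ pos y' ∈ car u) ≤ Θ := by
    refine fun y => le_trans (ENNReal.tsum_le_tsum fun γ => ?_) (hT y)
    split_ifs
    · gcongr
    · exact le_rfl
  have hinv : θ⁻¹ ≠ ∞ := ENNReal.inv_ne_top.2 h0
  set B := 1 + θ⁻¹ ^ 5 * Θ * K with hBdef
  have hBf : B ≠ ∞ := ENNReal.add_ne_top.2 ⟨by simp,
    ENNReal.mul_ne_top (ENNReal.mul_ne_top (ENNReal.pow_ne_top hinv) hΘ) hK⟩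
  have hρ : x' / x < 1 := by
    rw [ENNReal.div_lt_iff (Or.inl hx0) (Or.inl hxt), one_mul]
    exact hx'
  obtain ⟨a, ha, haB⟩ := exists_pow_mul_le hρ hBf
  obtain ⟨q, hq, hqB⟩ := exists_pow_mul_le (ρ := 2⁻¹) (B := θ⁻¹ ^ (200 * a) * K)
    ENNReal.one_half_lt_one (ENNReal.mul_ne_top (ENNReal.pow_ne_top hinv) hK)
  obtain ⟨M, hM, hb⟩ := Upd.block' hR h1 h2 h3 h4 h5 h6 a (a * q) ha
  refine ⟨M, hM, fun N hN hle => ?_⟩
  obtain ⟨R', hR', hLS, hblk⟩ := hb N hN hle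
  generalize labP 𝒮 N = L at hblk ⊢
  refine ⟨R', θ ^ (10 * a), ?_⟩
  have hθ0 : θ ^ (10 * a) ≠ 0 := pow_ne_zero _ h0
  have hθ1 : θ ^ (10 * a) < 1 := pow_lt_one' hθ (by omega)
  have hE' : Edge step (fun y => L.phi (pos y)) := by
    intro y c
    obtain ⟨s, hs⟩ := hE y c
    exact ⟨_, by simp only [hs]; exact L.phi_mul_gen _ _⟩
  obtain ⟨K', hK', tot⟩ := total step (x := x') (c := (θ ^ (10 * a))⁻¹)
    (ne_top_of_lt hx') (ENNReal.inv_ne_top.2 hθ0) (m := a * q) (Nat.mul_pos ha hq)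
  refine ⟨K', hR', hLS, hθ0, hθ1, hK', fun o => tot
    (fun y => (θ ^ (10 * a)) ^ D R' o (L.phi (pos y))) (fun y γ => ?_) fun y => ?_⟩
  · refine (pow_le_of hθ0 hθ1 ?_).trans (le_of_eq (mul_comm _ _))
    have e1 := D_triangle (R := R') o (L.phi (pos (run step y γ))) (L.phi (pos y))
    have e2 := D_le_d (R := R') (L.phi (pos y)) (L.phi (pos (run step y γ)))
    have e3 := hE'.d_run y γ
    rw [D_comm (L.phi (pos (run step y γ)))] at e1
    omega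
  · obtain ⟨o', ho'⟩ := hblk o (pos y)
    have hd := dec hE hR h0 hθ hG hT' o' q y
    set f₀ := (θ ^ (10 * a)) ^ D R' o (L.phi (pos y))
    calc _ ≤ ∑' γ : List A, (x' / x) ^ (a * q) * (f₀ * θ⁻¹ ^ D R o' (pos y) * θ⁻¹ ^ (200 * a)) *
          (x ^ γ.length * (θ ^ D R o' (pos (run step y γ)) *
            θ⁻¹ ^ wmax R E o' q (pos y) (pos (run step y γ)))) := by
          refine ENNReal.tsum_le_tsum fun γ => ?_
          split_ifs with c
          swap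
          · exact zero_le
          obtain ⟨Js, hJs, l1, l2⟩ := ho' (pos (run step y γ)) (c ▸ hE.d_run y γ)
          have l3 := le_wmax hJs (n := q) (by
            rw [mul_comm a q] at l1
            exact Nat.le_of_mul_le_mul_right l1 ha)
          have l4 := pow_le_of h0 hθ (a := 10 * a * D R' o (L.phi (pos (run step y γ))))
            (b := 10 * a * D R' o (L.phi (pos y)) + D R o' (pos (run step y γ)))
            (c := D R o' (pos y) + wmax R E o' q (pos y) (pos (run step y γ)) + 200 * a)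
            (by omega)
          have l5 : x' ^ γ.length = (x' / x) ^ (a * q) * x ^ γ.length := by
            rw [c, ← mul_pow, ENNReal.div_mul_cancel hx0 hxt]
          rw [l5]
          rw [pow_mul, pow_add, pow_mul θ (10 * a) (D R' o (L.phi (pos y))), pow_add, pow_add] at l4
          refine (mul_le_mul_right l4 _).trans (le_of_eq ?_)
          ring
      _ ≤ (x' / x) ^ (a * q) * (f₀ * θ⁻¹ ^ D R o' (pos y) * θ⁻¹ ^ (200 * a)) *
          (B ^ q * (K * θ ^ D R o' (pos y))) := by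
          rw [ENNReal.tsum_mul_left]
          exact mul_le_mul_right hd _
      _ = ((x' / x) ^ a * B) ^ q * (θ⁻¹ ^ (200 * a) * K) * f₀ *
          (θ⁻¹ ^ D R o' (pos y) * θ ^ D R o' (pos y)) := by
          rw [mul_pow, ← pow_mul]; ring
      _ ≤ 2⁻¹ ^ q * (θ⁻¹ ^ (200 * a) * K) * f₀ * 1 := by
          rw [inv_pow_mul h0 hθ]
          gcongr
      _ ≤ _ := by
          rw [mul_one]
          exact mul_le_mul_left hqB _

open BStep in
theorem bstepR : BStepStmt := by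
  intro S _ G A _ Y step pos x x' hE hx hG
  obtain ⟨M, h1, h2⟩ := upd S G A Y step pos x x' (Set.range T2) E5 hE hx hG
    (by rintro g _ ⟨K, rfl⟩; exact ⟨g • K, (smul_T2 g K).symm⟩)
    (by rintro _ ⟨K, rfl⟩ t ht u hu; exact T2_convex ht hu)
    (fun t u h B hb => h B (by rwa [Btw_comm]))
    (fun g t u h => E5_smul g h)
    (fun t u t' u' h a b B hb => h B (hb.trans (Btw_subset a b)))
    (fun R => by
      obtain ⟨N', a1, a2, a3, -⟩ := (levels S G).2 R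
      obtain ⟨N, b1, b2, b3⟩ := (levels S G).1 N' a1
      refine ⟨N, b1, ?_⟩
      rintro t u hn - - _ ⟨K, rfl⟩ n hnN ht hu
      exact faith bridge b2 b3 a2 a3 hn hnN ht hu)
    (by
      obtain ⟨C, c1, c2⟩ := hG.gr_tb 7
      refine ⟨C, c1, fun y => le_trans (Gr_mono ?_) (c2 y)⟩
      rintro y' ⟨t, u, e, a, b⟩
      exact D_le_seven e a b)
  refine ⟨M, h1, fun N hN hle => ⟨h2 N hN hle, ?_⟩⟩
  have := hN.1
  have := hN.2
  have := H6.finite_cl N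
  refine count _ fun K => ?_
  rintro _ ⟨t, ht, rfl⟩ _ ⟨u, hu, rfl⟩
  exact H6.mem_st_GP (Or.inr ⟨_, ⟨K, rfl⟩, ht, hu⟩)

end Pool.Agent.MP_735563_an.H66
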