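import Pool.Agent.MP_735563_an.H66.MSpec

set_option autoImplicit false

open scoped Pointwise ENNReal BigOperators

namespace Pool.Agent.MP_735563_an.H66

open Pool.Agent.MP_c34dea_an.H66 Pool.Agent.MP_c34dea_an.H23

namespace Wt

/-- an equation that is moved by translations holds with the uniform probability -/
theorem shift {Z V : Type} [AddGroup Z] [Fintype Z] [AddCommGroup V] [Fintype V] [DecidableEq V]
    (w : V → Z)
    (F : Z → V) (Φ : Z → ℝ) (hF : ∀ z a, F (z + w a) = F z + a) (hΦ : ∀ z a, Φ (z + w a) = Φ z) :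
    ∑ z, (if F z = 0 then 1 else 0) * Φ z = (Fintype.card V : ℝ)⁻¹ * ∑ z, Φ z := by
  have hc : (0 : ℝ) < Fintype.card V := by exact_mod_cast Fintype.card_pos
  have key : ∀ a : V, ∑ z, (if a = -F z then 1 else 0) * Φ z =
      ∑ z, (if F z = 0 then 1 else 0) * Φ z := by
    intro a
    refine Fintype.sum_equiv (Equiv.addRight (w a)) _ _ fun z => ?_
    have h : a = -F z ↔ F z + a = 0 := by rw [eq_neg_iff_add_eq_zero, add_comm]
    simp only [Equiv.coe_addRight, hF, hΦ, h]
  have tot : ∑ a : V, ∑ z, (if a = -F z then 1 else 0) * Φ z = ∑ z, Φ z := by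
    rw [Finset.sum_comm]
    refine Finset.sum_congr rfl fun z _ => ?_
    rw [← Finset.sum_mul, Finset.sum_ite_eq']
    simp
  simp only [key, Finset.sum_const, Finset.card_univ, nsmul_eq_mul] at tot
  rw [← tot]
  field_simp

variable {S : Type} [Fintype S] [DecidableEq S] {G : SimpleGraph S} {b : ℕ}
variable {T : Type} [Fintype T] [DecidableEq T] (tm : T → ℕ) (c : T → S) (fl : T → Prop)

theorem mask_add (e : S) (x y : Sg G b) : mask e (x + y) = mask e x + mask e y := by
  funext i
  simp only [mask, Pi.add_apply]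
  split_ifs <;> simp

theorem mask_zero (e : S) : mask e (0 : Sg G b) = 0 := by
  funext i
  simp [mask]

theorem stt_add (z w : Sg G b × (T → Sg G b)) (t : T) :
    stt tm c (z + w) t = stt tm c z t + stt tm c w t := by
  simp only [stt, Prod.fst_add, Prod.snd_add, Pi.add_apply, mask_add, Finset.sum_add_distrib]
  abel

theorem fin_add (z w : Sg G b × (T → Sg G b)) : fin c (z + w) = fin c z + fin c w := by
  simp only [fin, Prod.fst_add, Prod.snd_add, Pi.add_apply, mask_add, Finset.sum_add_distrib]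
  abel

theorem stt_fst (a : Sg G b) (t : T) : stt tm c (a, 0) t = a := by
  simp [stt, mask_zero]

theorem fin_fst (a : Sg G b) : fin c (a, 0) = a := by
  simp [fin, mask_zero]

theorem stt_single (u t : T) (a : Sg G b) :
    stt tm c (0, Pi.single u a) t = if tm u < tm t then mask (c u) a else 0 := by
  simp only [stt, zero_add]
  split_ifs with h
  · rw [Finset.sum_eq_single u]
    · rw [Pi.single_eq_same]
    · intro x _ hx
      rw [Pi.single_eq_of_ne hx, mask_zero]
    · intro hu
      exact absurd (by simpa using h) hu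
  · refine Finset.sum_eq_zero fun x hx => ?_
    have : x ≠ u := fun e => h (e ▸ (Finset.mem_filter.1 hx).2)
    rw [Pi.single_eq_of_ne this, mask_zero]

theorem fin_single (u : T) (a : Sg G b) : fin c (0, Pi.single u a) = mask (c u) a := by
  simp only [fin, zero_add]
  rw [Finset.sum_eq_single u]
  · rw [Pi.single_eq_same]
  · intro x _ hx
    rw [Pi.single_eq_of_ne hx, mask_zero]
  · intro hu
    exact absurd (Finset.mem_univ _) hu

theorem qt_shift (z : Sg G b × (T → Sg G b)) {u t : T} (h : tm t ≤ tm u) (a : Sg G b) :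
    qt tm c (z + (0, Pi.single u a)) t = qt tm c z t := by
  rw [qt, stt_add, stt_single, if_neg (by omega), add_zero, qt]

open Classical in
/-- the factor of one step -/
noncomputable def fac (f : Qy G b → Sg G b) (z : Sg G b × (T → Sg G b)) (t : T) : ℝ :=
  if fl t then (if z.2 t = f (qt tm c z t) then 1 else 0) else (Fintype.card (Sg G b) : ℝ)⁻¹

theorem wt_eq (f : Qy G b → Sg G b) (z : Sg G b × (T → Sg G b)) :
    wt tm c f fl z = ∏ t, fac tm c fl f z t := by
  unfold wt fac
  refine Finset.prod_congr rfl fun t _ => ?_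
  split_ifs <;> rfl

theorem fac_nonneg (f : Qy G b → Sg G b) (z : Sg G b × (T → Sg G b)) (t : T) :
    0 ≤ fac tm c fl f z t := by
  unfold fac
  split_ifs <;> positivity

theorem Ew_nonneg (z : Sg G b × (T → Sg G b)) : 0 ≤ Ew tm c fl z :=
  Finset.expect_nonneg fun g _ => by
    rw [wt_eq]
    exact Finset.prod_nonneg fun t _ => fac_nonneg tm c fl _ z t

theorem fac_shift (f : Qy G b → Sg G b) (z : Sg G b × (T → Sg G b)) {u t : T} (h : tm t ≤ tm u)
    (hne : t ≠ u) (a : Sg G b) :
    fac tm c fl f (z + (0, Pi.single u a)) t = fac tm c fl f z t := by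
  unfold fac
  simp only [qt_shift tm c z h, Prod.snd_add, Pi.add_apply, Pi.single_eq_of_ne hne, add_zero]

/-- summing out the last steps -/
theorem sum_out (f : Qy G b → Sg G b) (U : Finset T) (E : Sg G b × (T → Sg G b) → ℝ)
    (hE : ∀ u ∈ U, ∀ z a, E (z + (0, Pi.single u a)) = E z) :
    ∑ z, E z * ∏ u ∈ U, fac tm c fl f z u =
      (Fintype.card (Sg G b) : ℝ)⁻¹ ^ U.card * ∑ z, E z := by
  classical
  induction U using Finset.induction_on_max_value tm with
  | empty => simp
  | insert u U hu hmax ih =>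
    rw [Finset.card_insert_of_notMem hu, pow_succ', mul_assoc,
      ← ih fun x hx => hE x (Finset.mem_insert_of_mem hx)]
    simp only [Finset.prod_insert hu]
    by_cases hf : fl u
    · rw [← shift (fun a => ((0, Pi.single u a) : Sg G b × (T → Sg G b)))
        (fun z => z.2 u - f (qt tm c z u)) (fun z => E z * ∏ x ∈ U, fac tm c fl f z x)]
      · refine Finset.sum_congr rfl fun z _ => ?_
        simp only [fac, if_pos hf, sub_eq_zero]
        split_ifs <;> ring
      · intro z a
        simp only [qt_shift tm c z le_rfl, Prod.snd_add, Pi.add_apply, Pi.single_eq_same]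
        abel
      · intro z a
        simp only [hE u (Finset.mem_insert_self _ _)]
        congr 1
        exact Finset.prod_congr rfl fun x hx =>
          fac_shift tm c fl f z (hmax x hx) (fun e => hu (e ▸ hx)) a
    · rw [Finset.mul_sum]
      refine Finset.sum_congr rfl fun z _ => ?_
      have : fac tm c fl f z u = (Fintype.card (Sg G b) : ℝ)⁻¹ := if_neg hf
      rw [this]
      ring

/-- steps without collisions are independent -/
theorem expect_free (z : Sg G b × (T → Sg G b)) (D : Finset T)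
    (hD : ∀ t ∈ D, ∀ t' ∈ D, ∀ θ, Col tm c z t t' θ → t = t' ∧ θ = 1) :
    𝔼 g : Qy G b → Sg G b, ∏ t ∈ D, fac tm c fl (Fq g) z t =
      (Fintype.card (Sg G b) : ℝ)⁻¹ ^ D.card := by
  classical
  induction D using Finset.induction_on with
  | empty => simp
  | insert u D hu ih =>
    have hm := Finset.mem_insert_self u D
    rw [Finset.card_insert_of_notMem hu, pow_succ', ← ih fun t ht t' ht' =>
      hD t (Finset.mem_insert_of_mem ht) t' (Finset.mem_insert_of_mem ht')]
    simp only [Finset.prod_insert hu]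
    by_cases hf : fl u
    · rw [← expect_fresh (q₀ := qt tm c z u) (fun θ h => (hD u hm u hm θ h).2) (z.2 u)]
      · refine Finset.expect_congr rfl fun g _ => ?_
        congr 1
        simp only [fac, if_pos hf]
      · intro g a
        refine Finset.prod_congr rfl fun t ht => ?_
        unfold fac
        rw [Fq_update fun θ h => hu ((hD t (Finset.mem_insert_of_mem ht) u hm θ h).1 ▸ ht)]
    · rw [Finset.mul_expect]
      refine Finset.expect_congr rfl fun g _ => ?_
      congr 1
      exact if_neg hf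

theorem card_Vb : (Fintype.card (Vb b) : ℝ) = 2 ^ b := by simp

theorem card_pos : (0 : ℝ) < Fintype.card (Sg G b) := by exact_mod_cast Fintype.card_pos

/-- the number of runs that satisfy an equation -/
theorem count (w : Vb b → Sg G b × (T → Sg G b)) (F : Sg G b × (T → Sg G b) → Vb b)
    (hF : ∀ z a, F (z + w a) = F z + a) :
    (Fintype.card (Sg G b) : ℝ)⁻¹ ^ Fintype.card T * ∑ z, (if F z = 0 then (1 : ℝ) else 0) =
      Fintype.card (Sg G b) / 2 ^ b := by
  have := shift w F (fun _ => 1) hF (fun _ _ => rfl)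
  simp only [mul_one] at this
  rw [this, card_Vb, Finset.sum_const, Finset.card_univ, nsmul_eq_mul, mul_one, Fintype.card_prod,
    Fintype.card_fun (α := T)]
  have hc := card_pos (G := G) (b := b)
  push_cast
  rw [inv_pow]
  field_simp

theorem part1 (f : Qy G b → Sg G b) (v : Sg G b) :
    ∑ δ : T → Sg G b, wt tm c f fl (v, δ) = 1 := by
  classical
  have h := sum_out tm c fl f Finset.univ (fun z => if z.1 = v then 1 else 0) (by
    intro u _ z a
    simp)
  rw [Fintype.sum_prod_type, Fintype.sum_prod_type, Finset.sum_eq_single v, Finset.sum_eq_single v]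
    at h
  · simp only [if_true, one_mul, ← wt_eq] at h
    rw [h, Finset.sum_const, Finset.card_univ, Finset.card_univ, nsmul_eq_mul, mul_one,
      Fintype.card_fun (α := T)]
    have hc := card_pos (G := G) (b := b)
    push_cast
    rw [← mul_pow, inv_mul_cancel₀ hc.ne', one_pow]
  · intro x _ hx
    simp [hx]
  · simp
  · intro x _ hx
    simp [hx]
  · simp

/-- the first collision -/
def Ev (x : T × T × Aut G) (z : Sg G b × (T → Sg G b)) : Prop :=
  tm x.1 ≤ tm x.2.1 ∧ ¬(x.1 = x.2.1 ∧ x.2.2 = 1) ∧ Col tm c z x.1 x.2.1 x.2.2 ∧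
    ∀ s s' θ, tm s < tm x.2.1 → tm s' < tm x.2.1 → Col tm c z s s' θ → s = s' ∧ θ = 1

theorem exists_ev {z : Sg G b × (T → Sg G b)} (h : ¬NoIn (fun _ => 0) (Col tm c z)) :
    ∃ x, Ev tm c x z := by
  classical
  have key : ∀ s s' θ, Col tm c z s s' θ → ¬(s = s' ∧ θ = 1) → ∃ x : T × T × Aut G,
      tm x.2.1 = max (tm s) (tm s') ∧ tm x.1 ≤ tm x.2.1 ∧ ¬(x.1 = x.2.1 ∧ x.2.2 = 1) ∧
        Col tm c z x.1 x.2.1 x.2.2 := by
    intro s s' θ h1 h2
    rcases le_total (tm s) (tm s') with h3 | h3
    · exact ⟨(s, s', θ), (max_eq_right h3).symm, h3, h2, h1⟩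
    · refine ⟨(s', s, θ⁻¹), (max_eq_left h3).symm, h3, fun e => h2 ⟨e.1.symm, inv_eq_one.1 e.2⟩, ?_⟩
      change θ⁻¹ • qt tm c z s' = qt tm c z s
      rw [← show θ • qt tm c z s = qt tm c z s' from h1, inv_smul_smul]
  have hex : ∃ n, ∃ x : T × T × Aut G, tm x.2.1 = n ∧ tm x.1 ≤ tm x.2.1 ∧
      ¬(x.1 = x.2.1 ∧ x.2.2 = 1) ∧ Col tm c z x.1 x.2.1 x.2.2 := by
    by_contra hn
    refine h fun s s' θ _ h1 => ?_
    by_contra h2
    exact hn ⟨_, key s s' θ h1 h2⟩
  obtain ⟨x, e, h1, h2, h3⟩ := Nat.find_spec hex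
  refine ⟨x, h1, h2, h3, fun s s' θ a1 a2 a3 => ?_⟩
  by_contra a4
  have := Nat.find_min' hex (key s s' θ a3 a4)
  omega

open Classical in
theorem sum_ev (x : T × T × Aut G) :
    ∑ z : Sg G b × (T → Sg G b), (if Ev tm c x z then 1 else 0) * Ew tm c fl z =
      (Fintype.card (Sg G b) : ℝ)⁻¹ ^ Fintype.card T *
        ∑ z : Sg G b × (T → Sg G b), (if Ev tm c x z then (1 : ℝ) else 0) := by
  set D : Finset T := Finset.univ.filter fun t => tm t < tm x.2.1 with hD
  set U : Finset T := Finset.univ.filter fun t => ¬tm t < tm x.2.1 with hU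
  have hcard : Fintype.card T = U.card + D.card := by
    rw [add_comm, hD, hU, Finset.card_filter_add_card_filter_not, Finset.card_univ]
  have h1 : ∀ g : Qy G b → Sg G b,
      ∑ z : Sg G b × (T → Sg G b), (if Ev tm c x z then 1 else 0) * wt tm c (Fq g) fl z =
        (Fintype.card (Sg G b) : ℝ)⁻¹ ^ U.card * ∑ z : Sg G b × (T → Sg G b),
          (if Ev tm c x z then 1 else 0) * ∏ t ∈ D, fac tm c fl (Fq g) z t := by
    intro g
    rw [← sum_out tm c fl (Fq g) U]
    · refine Finset.sum_congr rfl fun z _ => ?_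
      rw [wt_eq, mul_assoc, hD, hU, Finset.prod_filter_mul_prod_filter_not]
    · intro u hu z a
      have hu' : tm x.2.1 ≤ tm u := not_lt.1 (Finset.mem_filter.1 hu).2
      have hq : ∀ s s' θ, tm s ≤ tm u → tm s' ≤ tm u →
          (Col tm c (z + (0, Pi.single u a)) s s' θ ↔ Col tm c z s s' θ) := by
        intro s s' θ a1 a2
        unfold Col
        rw [qt_shift tm c z a1, qt_shift tm c z a2]
      have he : Ev tm c x (z + (0, Pi.single u a)) ↔ Ev tm c x z := by
        refine and_congr_right fun a1 => and_congr_right fun _ =>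
          and_congr (hq _ _ _ (a1.trans hu') hu') ?_
        refine forall₃_congr fun s s' θ => imp_congr_right fun a2 => imp_congr_right fun a3 => ?_
        rw [hq s s' θ (by omega) (by omega)]
      simp only [he]
      congr 1
      refine Finset.prod_congr rfl fun t ht => ?_
      have ht' : tm t < tm x.2.1 := (Finset.mem_filter.1 ht).2
      exact fac_shift tm c fl _ z (by omega) (fun e => by rw [e] at ht'; omega) a
  simp only [Ew, Finset.mul_expect]
  rw [← Finset.expect_sum_comm]
  simp only [h1]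
  rw [← Finset.mul_expect, Finset.expect_sum_comm, hcard, pow_add, mul_assoc]
  congr 1
  rw [Finset.mul_sum]
  refine Finset.sum_congr rfl fun z _ => ?_
  rw [← Finset.mul_expect]
  split_ifs with h
  · rw [expect_free tm c fl z D fun t ht t' ht' θ hc =>
      h.2.2.2 t t' θ (Finset.mem_filter.1 ht).2 (Finset.mem_filter.1 ht').2 hc, mul_comm]
  · simp

open Classical in
theorem ev_le (hi : Function.Injective tm)
    (hc : ∀ t t', tm t < tm t' → c t = c t' → ∃ u, tm t < tm u ∧ tm u < tm t' ∧ c u ∉ st G (c t))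
    (x : T × T × Aut G) :
    ∑ z : Sg G b × (T → Sg G b), (if Ev tm c x z then 1 else 0) * Ew tm c fl z ≤
      Fintype.card (Sg G b) / 2 ^ b := by
  obtain ⟨t, t', θ⟩ := x
  have hp := card_pos (G := G) (b := b)
  rw [sum_ev]
  by_cases hne : tm t ≤ tm t' ∧ ¬(t = t' ∧ θ = 1)
  swap
  · rw [Finset.sum_eq_zero fun z _ => if_neg fun h => hne ⟨h.1, h.2.1⟩, mul_zero]
    positivity
  obtain ⟨w, hw⟩ : ∃ w : Vb b → Sg G b × (T → Sg G b), ∀ a,
      stt tm c (w a) t' (c t', θ) - stt tm c (w a) t (c t, 1) = a := by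
    by_cases h1 : (c t, (1 : Aut G)) = (c t', θ)
    · obtain ⟨e1, e2⟩ := Prod.ext_iff.1 h1
      have e3 : tm t < tm t' := lt_of_le_of_ne hne.1 fun e => hne.2 ⟨hi e, e2.symm⟩
      obtain ⟨u, u1, u2, u3⟩ := hc t t' e3 e1
      refine ⟨fun a => (0, Pi.single u (Pi.single (c t, 1) a)), fun a => ?_⟩
      rw [stt_single, stt_single, if_pos u2, if_neg (by omega), ← h1, Pi.zero_apply, sub_zero]
      simp only [mask]
      rw [if_neg (mt mem_st_comm.1 u3), Pi.single_eq_same]
    · refine ⟨fun a => (Pi.single (c t', θ) a, 0), fun a => ?_⟩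
      rw [stt_fst, stt_fst, Pi.single_eq_same, Pi.single_eq_of_ne h1, sub_zero]
  rw [← count w (fun z => stt tm c z t' (c t', θ) - stt tm c z t (c t, 1)) (fun z a => by
    simp only [stt_add, Pi.add_apply]
    rw [← hw a, hw a]
    linear_combination hw a)]
  refine mul_le_mul_of_nonneg_left (Finset.sum_le_sum fun z _ => ?_) (by positivity)
  by_cases h : Ev tm c (t, t', θ) z
  · have := (smul_qy_iff.1 h.2.2.1).2 1
    rw [mul_one] at this
    rw [if_pos h, if_pos (sub_eq_zero.2 this)]
  · rw [if_neg h]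
    split_ifs <;> norm_num

open Classical in
theorem part2 (hi : Function.Injective tm)
    (hc : ∀ t t', tm t < tm t' → c t = c t' → ∃ u, tm t < tm u ∧ tm u < tm t' ∧ c u ∉ st G (c t))
    (A : Finset (Sg G b × (T → Sg G b))) (hA : ∀ z ∈ A, ¬NoIn (fun _ => 0) (Col tm c z)) :
    ∑ z ∈ A, Ew tm c fl z ≤
      Fintype.card (Sg G b) * ((Fintype.card T : ℝ) ^ 2 * Fintype.card (Aut G)) / 2 ^ b := by
  have h0 : ∀ (x : T × T × Aut G) (z : Sg G b × (T → Sg G b)),
      0 ≤ (if Ev tm c x z then 1 else 0) * Ew tm c fl z := fun x z =>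
    mul_nonneg (by split_ifs <;> norm_num) (Ew_nonneg tm c fl z)
  calc ∑ z ∈ A, Ew tm c fl z
      ≤ ∑ z ∈ A, ∑ x : T × T × Aut G, (if Ev tm c x z then 1 else 0) * Ew tm c fl z := by
        refine Finset.sum_le_sum fun z hz => ?_
        obtain ⟨x, hx⟩ := exists_ev tm c (hA z hz)
        refine le_trans ?_ (Finset.single_le_sum (fun y _ => h0 y z) (Finset.mem_univ x))
        rw [if_pos hx, one_mul]
    _ ≤ ∑ z, ∑ x : T × T × Aut G, (if Ev tm c x z then 1 else 0) * Ew tm c fl z :=
        Finset.sum_le_sum_of_subset_of_nonneg (Finset.subset_univ A) fun z _ _ =>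
          Finset.sum_nonneg fun x _ => h0 x z
    _ ≤ ∑ _x : T × T × Aut G, (Fintype.card (Sg G b) : ℝ) / 2 ^ b := by
        rw [Finset.sum_comm]
        exact Finset.sum_le_sum fun x _ => ev_le tm c fl hi hc x
    _ = _ := by
        rw [Finset.sum_const, Finset.card_univ, Fintype.card_prod, Fintype.card_prod, nsmul_eq_mul]
        push_cast
        ring

open Classical in
theorem part3 (θ : Aut G) (hS : Nonempty S) (hθ : θ ≠ 1 ∨ ∃ t e, e ∉ st G (c t))
    (A : Finset (Sg G b × (T → Sg G b)))
    (hA : ∀ z ∈ A, NoIn (fun _ => 0) (Col tm c z) ∧ fin c z = tw θ z.1) :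
    ∑ z ∈ A, Ew tm c fl z ≤ Fintype.card (Sg G b) / 2 ^ b := by
  have hp := card_pos (G := G) (b := b)
  obtain ⟨i, w, hw⟩ : ∃ (i : S × Aut G) (w : Vb b → Sg G b × (T → Sg G b)), ∀ a,
      fin c (w a) i - tw θ (w a).1 i = a := by
    rcases hθ with h | ⟨t, e, h⟩
    · obtain ⟨s⟩ := hS
      refine ⟨(s, 1), fun a => (Pi.single (s, 1) a, 0), fun a => ?_⟩
      rw [fin_fst, Pi.single_eq_same]
      simp only [tw]
      rw [Pi.single_eq_of_ne, sub_zero]
      intro e
      exact h (by simpa using (Prod.ext_iff.1 e).2)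
    · refine ⟨(e, 1), fun a => (0, Pi.single t (Pi.single (e, 1) a)), fun a => ?_⟩
      rw [fin_single, tw_zero, Pi.zero_apply, sub_zero]
      simp only [mask]
      rw [if_neg h, Pi.single_eq_same]
  rw [← count w (fun z => fin c z i - tw θ z.1 i) (fun z a => by
    simp only [fin_add, Prod.fst_add, tw_add, Pi.add_apply]
    linear_combination hw a), Finset.mul_sum]
  refine le_trans (Finset.sum_le_sum fun z hz => ?_)
    (Finset.sum_le_sum_of_subset_of_nonneg (Finset.subset_univ A) fun z _ _ =>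
      mul_nonneg (by positivity) (by split_ifs <;> norm_num))
  obtain ⟨h1, h2⟩ := hA z hz
  rw [if_pos (by rw [h2, sub_self]), mul_one, ← Finset.card_univ (α := T),
    ← expect_free tm c fl z Finset.univ fun t _ t' _ θ' hc => h1 t t' θ' rfl hc]
  exact le_of_eq (Finset.expect_congr rfl fun g _ => wt_eq tm c fl _ z)

end Wt

theorem wtS : WtStmt := by
  classical
  intro S _ _ G b T _ _ tm c fl hi
  exact ⟨Wt.part1 tm c fl, fun hc => Wt.part2 tm c fl hi hc _ fun z hz => (Finset.mem_filter.1 hz).2,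
    fun θ hS hθ => Wt.part3 tm c fl θ hS hθ _ fun z hz => (Finset.mem_filter.1 hz).2⟩

end Pool.Agent.MP_735563_an.H66
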