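import Pool.Agent.MP_735563_an.H66.Arb
import Pool.Agent.MP_735563_an.H66.Bundle
import Pool.Agent.MP_735563_an.H66.Cnt
import Pool.Agent.MP_735563_an.H66.Coh
import Pool.Agent.MP_735563_an.H66.Core
import Pool.Agent.MP_735563_an.H66.Cost
import Pool.Agent.MP_735563_an.H66.Dat
import Pool.Agent.MP_735563_an.H66.Dec
import Pool.Agent.MP_735563_an.H66.Ent
import Pool.Agent.MP_735563_an.H66.Eq
import Pool.Agent.MP_735563_an.H66.FT
import Pool.Agent.MP_735563_an.H66.Giant
import Pool.Agent.MP_735563_an.H66.Ker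
import Pool.Agent.MP_735563_an.H66.Lin
import Pool.Agent.MP_735563_an.H66.Meas
import Pool.Agent.MP_735563_an.H66.Mob
import Pool.Agent.MP_735563_an.H66.Pat
import Pool.Agent.MP_735563_an.H66.Perc
import Pool.Agent.MP_735563_an.H66.SE
import Pool.Agent.MP_735563_an.H66.Step
import Pool.Agent.MP_735563_an.H66.Term
import Pool.Agent.MP_735563_an.H66.Tower
import Pool.Agent.MP_735563_an.H66.Tr
import Pool.Agent.MP_735563_an.H66.Upd
import Pool.Agent.MP_735563_an.H66.Wt

set_option autoImplicit false

namespace Pool.Agent.MP_735563_an.H66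

theorem model : ModelStmt :=
  giant (bundle (core dat ker lin (term mob pat wtS trS) (ent (dec coh) cnt) wtS))

theorem final : Final := by
  obtain ⟨H, h1, h2, h3, h4⟩ := towerR (stepR upd bstepR eqv faithR thinR percR arb costR model)
  exact meas H h1 h2 h3 (se H h1.antitone h2 h4)

end Pool.Agent.MP_735563_an.H66
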