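import Pool.Agent.MP_735563_an.H66.Spec
import Pool.Agent.MP_c34dea_an.H66.HNormA

set_option autoImplicit false

namespace Pool.Agent.MP_735563_an.H66

open Pool.Agent.MP_c34dea_an.H66 Pool.Agent.MP_c34dea_an.H23

namespace Arb

variable {r : ℕ} {Γ X : Type} [Group Γ] [MulAction Γ X] (P : PF r Γ X)

open Classical in
/-- the letters that lead from `x` to `y` -/
noncomputable def E (x y : X) : Finset (Fin r × Bool) :=
  Finset.univ.filter fun l => ∃ g, P.lab x l = some g ∧ g • x = y

theorem mem_E {x y : X} {l : Fin r × Bool} :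
    l ∈ E P x y ↔ ∃ g, P.lab x l = some g ∧ g • x = y := by simp [E]

theorem E_le (x y : X) : (E P x y).card ≤ (E P y x).card := by
  refine Finset.card_le_card_of_injOn (fun l => (l.1, !l.2)) ?_ ?_
  · rintro ⟨i, b⟩ hl
    obtain ⟨g, h1, rfl⟩ := (mem_E P).1 hl
    exact (mem_E P).2 ⟨g⁻¹, P.symm x i b g h1, inv_smul_smul g x⟩
  · rintro ⟨i, b⟩ - ⟨j, c⟩ - h
    simp only [Prod.mk.injEq, Bool.not_inj_iff] at h
    exact Prod.ext h.1 h.2

theorem E_uniq {x y y' : X} {l : Fin r × Bool} (h : l ∈ E P x y) (h' : l ∈ E P x y') :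
    y = y' := by
  obtain ⟨g, h1, rfl⟩ := (mem_E P).1 h
  obtain ⟨g', h2, rfl⟩ := (mem_E P).1 h'
  rw [h1] at h2
  rw [Option.some.inj h2]

theorem sum_deg (x : X) (F : Finset X) : ∑ y ∈ F, (E P x y).card ≤ 2 * r := by
  rw [← Finset.card_sigma]
  have : (F.sigma fun y => E P x y).card ≤ (Finset.univ : Finset (Fin r × Bool)).card := by
    refine Finset.card_le_card_of_injOn (fun p => p.2) (fun _ _ => Finset.mem_univ _) ?_
    rintro ⟨y, l⟩ h ⟨y', l'⟩ h' e
    simp only [Finset.coe_sigma, Set.mem_sigma_iff, Finset.mem_coe] at h h' e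
    subst e
    obtain rfl := E_uniq P h.2 h'.2
    rfl
  simpa [mul_comm] using this

theorem sum_darts (F : Finset X) :
    ∑ x ∈ F, ∑ y ∈ F, (E P x y).card ≤ (P.darts F).ncard := by
  classical
  simp only [← Finset.card_sigma]
  rw [Set.ncard_eq_toFinset_card _ (P.darts_finite F)]
  refine Finset.card_le_card_of_injOn (fun p => (p.1, p.2.2)) ?_ ?_
  · rintro ⟨x, y, l⟩ h
    simp only [Finset.coe_sigma, Set.mem_sigma_iff, Finset.mem_coe] at h
    obtain ⟨g, h1, h2⟩ := (mem_E P).1 h.2.2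
    simp only [Set.Finite.coe_toFinset]
    exact ⟨h.1, g, h1, h2 ▸ h.2.1⟩
  · rintro ⟨x, y, l⟩ h ⟨x', y', l'⟩ h' e
    simp only [Finset.coe_sigma, Set.mem_sigma_iff, Finset.mem_coe, Prod.mk.injEq] at h h' e
    obtain ⟨rfl, rfl⟩ := e
    obtain rfl := E_uniq P h.2.2 h'.2.2
    rfl

/-- the walks of length `n` from `a` to `b` -/
def Wk (b : X) (n : ℕ) (a : X) : Set (List (Fin r × Bool)) :=
  {w | w.length = n ∧ ∃ g, P.walk w a = some g ∧ g • a = b}

theorem Wk_fin (b : X) (n : ℕ) (a : X) : (Wk P b n a).Finite :=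
  (List.finite_length_eq (Fin r × Bool) n).subset fun _ h => h.1

open Classical in
/-- the neighbours -/
noncomputable def nb (x : X) : Finset X :=
  Finset.univ.image fun l : Fin r × Bool => (P.lab x l).getD 1 • x

theorem Wk_succ (b : X) (n : ℕ) (x : X) :
    (Wk P b (n + 1) x).ncard ≤ ∑ y ∈ nb P x, (E P x y).card * (Wk P b n y).ncard := by
  classical
  have e : ∑ y ∈ nb P x, (E P x y).card * (Wk P b n y).ncard =
      ((nb P x).sigma fun y => E P x y ×ˢ (Wk_fin P b n y).toFinset).card := by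
    rw [Finset.card_sigma]
    exact Finset.sum_congr rfl fun y _ => by
      rw [Finset.card_product, Set.ncard_eq_toFinset_card _ (Wk_fin P b n y)]
  rw [e, Set.ncard_eq_toFinset_card _ (Wk_fin P b (n + 1) x)]
  refine Finset.card_le_card_of_surjOn (fun p => p.2.1 :: p.2.2) ?_
  intro w hw
  simp only [Set.Finite.coe_toFinset] at hw
  obtain ⟨h1, g, h2, h3⟩ := hw
  cases w with
  | nil => simp at h1
  | cons l w =>
    simp only [PF.walk, Option.bind_eq_some_iff, Option.map_eq_some_iff] at h2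
    obtain ⟨k, k1, k', k2, rfl⟩ := h2
    refine ⟨⟨k • x, l, w⟩, ?_, rfl⟩
    simp only [Finset.coe_sigma, Set.mem_sigma_iff, Finset.mem_coe, Finset.mem_product,
      Set.Finite.mem_toFinset]
    refine ⟨Finset.mem_image.2 ⟨l, Finset.mem_univ _, by rw [k1]; rfl⟩, (mem_E P).2 ⟨k, k1, rfl⟩,
      by simpa using h1, k', k2, by rw [← h3, mul_smul]⟩

open Classical in
theorem Wk_zero (b x : X) : (Wk P b 0 x).ncard ≤ if x = b then 1 else 0 := by
  split_ifs with h
  · rw [← Set.ncard_singleton ([] : List (Fin r × Bool))]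
    exact Set.ncard_le_ncard (fun w hw => List.length_eq_zero_iff.1 hw.1)
  · rw [Nat.le_zero, Set.ncard_eq_zero (Wk_fin P b 0 x)]
    ext w
    simp only [Set.mem_empty_iff_false, iff_false]
    rintro ⟨h1, g, h2, h3⟩
    obtain rfl := List.length_eq_zero_iff.1 h1
    simp only [PF.walk, Option.some.injEq] at h2
    subst h2
    exact h (by simpa using h3)

end Arb

open Arb in
theorem arb : ArbStmt := by
  intro r Γ X _ _ P hr hF a b n
  classical
  have h := HNorm.sq_bound (fun x y => ((E P x y).card : ℝ)) (fun _ _ => Nat.cast_nonneg _)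
    (fun x y => by exact_mod_cast le_antisymm (E_le P x y) (E_le P y x))
    (fun F => by exact_mod_cast (sum_darts P F).trans (hF F))
    (fun x F => by exact_mod_cast (sum_deg P x F).trans (by omega : 2 * r ≤ 16384))
    (nb P) (fun k x => ((Wk P b k x).ncard : ℝ)) (fun _ _ => Nat.cast_nonneg _) 1
    (fun B => by
      have h1 : ∑ x ∈ B, ((Wk P b 0 x).ncard : ℝ) ^ 2 ≤ ∑ x ∈ B, if x = b then (1 : ℝ) else 0 := by
        refine Finset.sum_le_sum fun x _ => ?_
        have h2 := Wk_zero P b x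
        split_ifs at h2 ⊢
        · exact_mod_cast pow_le_one₀ (Nat.zero_le _) h2
        · rw [Nat.le_zero.1 h2]; simp
      refine h1.trans ?_
      rw [Finset.sum_ite_eq']
      split_ifs <;> norm_num)
    (fun k x => by exact_mod_cast Wk_succ P b k x) n {a}
  rw [Finset.sum_singleton, mul_one] at h
  have h2 := (pow_le_pow_iff_left₀ (Nat.cast_nonneg _) (by positivity) two_ne_zero).1 h
  exact_mod_cast h2

end Pool.Agent.MP_735563_an.H66
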