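import Pool.Agent.MP_735563_an.H66.MSpec

set_option autoImplicit false

open scoped Pointwise ENNReal BigOperators

namespace Pool.Agent.MP_735563_an.H66

open Pool.Agent.MP_c34dea_an.H66 Pool.Agent.MP_c34dea_an.H23

namespace Core

theorem ev_poly (c : ℝ) (e : ℕ) {q : ℝ} (hq : 1 < q) :
    ∀ᶠ n : ℕ in Filter.atTop, c * ((n : ℝ) + 1) ^ e ≤ q ^ n := by
  have h0 : 0 < q := by linarith
  have h1 := (tendsto_pow_const_div_const_pow_of_one_lt e hq).comp (Filter.tendsto_add_atTop_nat 1)
  have h2 := (h1.const_mul (c * q)).eventually (ge_mem_nhds (b := c * q * 0) (a := 1) (by simp))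
  filter_upwards [h2] with n hn
  simp only [Function.comp, Nat.cast_add, Nat.cast_one] at hn
  have h3 : 0 < q ^ n := by positivity
  have h4 : c * q * (((n : ℝ) + 1) ^ e / q ^ (n + 1)) = c * ((n : ℝ) + 1) ^ e / q ^ n := by
    rw [pow_succ]; field_simp
  rwa [h4, div_le_one h3] at hn

theorem ofFn_rev {A : Type} {n : ℕ} (γ : Fin n → A) :
    List.ofFn (fun i => γ (Fin.rev i)) = (List.ofFn γ).reverse := by
  refine List.ext_getElem (by simp) fun i h1 h2 => ?_
  simp only [List.getElem_ofFn, List.getElem_reverse, List.length_ofFn]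
  congr 1
  ext
  simp [Fin.rev]
  omega

variable {S : Type} {G : SimpleGraph S}

theorem exists_not_st {Y : Type} {step : Y → Fin 5 → Y} {pos : Y → W G} [Nonempty Y]
    (h : GoodLS step pos (2 / 9)) (c : S) : ∃ e, e ∉ st G c := by
  obtain ⟨R, θ, K, h1, h2, h3, h4, h5, h6⟩ := h
  by_contra hc
  push Not at hc
  have hR : ∀ t u, ¬ R t u := fun t u r => by
    obtain ⟨t', -, u', -, l⟩ := h2 t u r
    rcases l.or c with x | x
    · exact x (mem_st_symm (hc _))
    · exact x (mem_st_symm (hc _))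
  have hD : ∀ p q, D R p q ≤ 1 := fun p q => ht_le fun B _ hB =>
    Finset.card_le_one.2 fun a ha b hb => by_contra fun e => hR a b (hB ha hb e)
  obtain ⟨y⟩ := ‹Nonempty Y›
  have key : ∀ n : ℕ, (10 / 9 : ℝ≥0∞) ^ n * θ ≤ K := by
    intro n
    have a1 := h6.gr_le h3 h4 (pos y) y (P := fun _ => True) (n := 1) fun y' _ => hD _ _
    rw [D_self, pow_zero, mul_one, pow_one] at a1
    have a2 : ∑' γ : Fin n → Fin 5, (2 / 9 : ℝ≥0∞) ^ n ≤ Gr step (2 / 9) y fun _ => True := by
      refine le_trans (le_of_eq ?_) (ENNReal.tsum_comp_le_tsum_of_injective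
        (List.ofFn_injective (n := n)) _)
      simp
    rw [tsum_fintype, Finset.sum_const, nsmul_eq_mul] at a2
    simp only [Finset.card_univ, Fintype.card_fun, Fintype.card_fin, Nat.cast_pow,
      Nat.cast_ofNat] at a2
    rw [← mul_pow] at a2
    have a3 : (5 : ℝ≥0∞) * (2 / 9) = 10 / 9 := by
      rw [← mul_div_assoc]; norm_num
    rw [a3] at a2
    calc _ ≤ θ⁻¹ * K * θ := mul_le_mul_left (a2.trans a1) _
      _ = K := by
        rw [mul_right_comm, ENNReal.inv_mul_cancel h3 (h4.trans ENNReal.one_lt_top).ne, one_mul]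
  have t1 : Filter.Tendsto (fun n : ℕ => (10 / 9 : ℝ≥0∞) ^ n * θ) Filter.atTop (nhds (∞ * θ)) := by
    refine ENNReal.Tendsto.mul_const (ENNReal.tendsto_pow_atTop_nhds_top_iff.2 ?_) (by simp)
    rw [ENNReal.lt_div_iff_mul_lt (by simp) (by simp)]
    norm_num
  rw [ENNReal.top_mul h3] at t1
  exact h5 (top_le_iff.1 (le_of_tendsto' t1 key))

variable {X : Type} (sx : X → Fin 5 → X) (l : X → Fin 5 → S)

/-- the element read along a word -/
noncomputable def wl (G : SimpleGraph S) : X → List (Fin 5) → W G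
  | _, [] => 1
  | x, s :: γ => gen G (l x s) * wl G (sx x s) γ

theorem wl_append (x : X) (γ γ' : List (Fin 5)) :
    wl sx l G x (γ ++ γ') = wl sx l G x γ * wl sx l G (run sx x γ) γ' := by
  induction γ generalizing x with
  | nil => simp [wl]
  | cons s γ ih => rw [List.cons_append, wl, wl, ih, run_cons, mul_assoc]

theorem d_wl (x : X) (γ : List (Fin 5)) : d 1 (wl sx l G x γ) ≤ γ.length := by
  induction γ generalizing x with
  | nil => simp [wl]
  | cons s γ ih =>
    have h1 := d_triangle 1 (gen G (l x s)) (gen G (l x s) * wl sx l G (sx x s) γ)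
    have h2 := d_smul (gen G (l x s)) 1 (wl sx l G (sx x s) γ)
    have h3 := d_gen (1 : W G) (l x s)
    have h4 := ih (sx x s)
    rw [mul_one] at h2
    rw [one_mul] at h3
    rw [wl, List.length_cons]
    omega

variable {sx l}

theorem run_rev (h1 : ∀ x s, sx (sx x s) s = x) (x : X) (γ : List (Fin 5)) :
    run sx (run sx x γ) γ.reverse = x := by
  induction γ generalizing x with
  | nil => rfl
  | cons s γ ih => rw [List.reverse_cons, run_append, run_cons x, ih, run_cons, h1, run_nil]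

theorem wl_rev (h1 : ∀ x s, sx (sx x s) s = x) (h2 : ∀ x s, l (sx x s) s = l x s) (x : X)
    (γ : List (Fin 5)) : wl sx l G (run sx x γ) γ.reverse = (wl sx l G x γ)⁻¹ := by
  induction γ generalizing x with
  | nil => simp [wl]
  | cons s γ ih =>
    rw [List.reverse_cons, wl_append, run_cons, ih, run_rev h1, wl, wl, wl, h2]
    simp

theorem wl_eq {Y : Type} {step : Y → Fin 5 → Y} {pos : Y → W G} {π : Y → X}
    (h1 : ∀ y s, π (step y s) = sx (π y) s)
    (h2 : ∀ y s, pos (step y s) = pos y * gen G (l (π y) s)) (y : Y) (γ : List (Fin 5)) :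
    wl sx l G (π y) γ = (pos y)⁻¹ * pos (run step y γ) := by
  induction γ generalizing y with
  | nil => simp [wl]
  | cons s γ ih => rw [wl, ← h1, ih, h2, run_cons]; simp [← mul_assoc, gen_mul_self]

theorem run_mv {V : Type} {va : V → W G → V} (h1 : ∀ v, va v 1 = v)
    (h2 : ∀ v w w', va v (w * w') = va (va v w) w') (z : X × V) (γ : List (Fin 5)) :
    run (fun (z : X × V) s => (sx z.1 s, va z.2 (gen G (l z.1 s)))) z γ =
      (run sx z.1 γ, va z.2 (wl sx l G z.1 γ)) := by
  induction γ generalizing z with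
  | nil => simp [wl, h1]
  | cons s γ ih => rw [run_cons, ih, wl, h2, run_cons]

theorem sum_mv_le {Z : Type} [Fintype Z] (T : Fin 5 → Z → Z) (h : ∀ s z, T s (T s z) = z)
    (φ : Z → ℝ) : ∑ z, ∑ s, φ z * φ (T s z) ≤ 5 * ∑ z, φ z ^ 2 := by
  rw [Finset.sum_comm]
  have key : ∀ s, ∑ z, φ z * φ (T s z) ≤ ∑ z, φ z ^ 2 := by
    intro s
    have e : ∑ z, φ (T s z) ^ 2 = ∑ z, φ z ^ 2 :=
      Fintype.sum_bijective (T s) (Function.Involutive.bijective (h s)) _ _ fun _ => rfl
    have : ∑ z, 2 * (φ z * φ (T s z)) ≤ ∑ z, (φ z ^ 2 + φ (T s z) ^ 2) :=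
      Finset.sum_le_sum fun z _ => by nlinarith [sq_nonneg (φ z - φ (T s z))]
    rw [Finset.sum_add_distrib, e, ← Finset.mul_sum] at this
    linarith
  refine (Finset.sum_le_sum fun s _ => key s).trans (le_of_eq ?_)
  simp

end Core

end Pool.Agent.MP_735563_an.H66
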