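import Pool.Agent.MP_735563_an.H66.CoreA

set_option autoImplicit false

open scoped Pointwise ENNReal BigOperators

namespace Pool.Agent.MP_735563_an.H66

open Pool.Agent.MP_c34dea_an.H66 Pool.Agent.MP_c34dea_an.H23

namespace Core

theorem two_pow_le {n ℓ : ℕ} (h : 36 * n ≤ ℓ + 36) : (2 : ℝ) ^ n ≤ 2 * (51 / 50) ^ ℓ := by
  have h1 : (1 : ℝ) ≤ 51 / 50 := by norm_num
  cases n with
  | zero => nlinarith [one_le_pow₀ (n := ℓ) h1]
  | succ n =>
    have h2 : (2 : ℝ) ^ n ≤ ((51 / 50) ^ 36) ^ n := pow_le_pow_left₀ (by norm_num) (by norm_num) n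
    have h3 : ((51 / 50 : ℝ) ^ 36) ^ n ≤ (51 / 50) ^ ℓ := by
      rw [← pow_mul]; exact pow_le_pow_right₀ h1 (by omega)
    rw [pow_succ]
    linarith

variable {S : Type} [Fintype S] [DecidableEq S] {G : SimpleGraph S} {b : ℕ}

theorem wt_nonneg {T : Type} [Fintype T] [DecidableEq T] (tm : T → ℕ) (c : T → S)
    (f : Qy G b → Sg G b) (fl : T → Prop) (z : Sg G b × (T → Sg G b)) : 0 ≤ wt tm c f fl z := by
  unfold wt
  refine Finset.prod_nonneg fun t _ => ?_
  split_ifs <;> positivity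

theorem err_nonneg (f : Qy G b → Sg G b) (a : Dat S) : 0 ≤ err f a :=
  Finset.sum_nonneg fun _ _ => Finset.sum_nonneg fun _ _ => wt_nonneg _ _ _ _ _

variable {R : Hyp G → Hyp G → Prop} {ℓ : ℕ} {a : Dat S} {w : W G}

theorem colE (hW : WtStmt)
    (hr : ∀ (c : ℕ → S) (k : ℕ), d 1 (ptw G c k) = k → ∀ i j, i < j → j < k → c i = c j →
      ∃ u, i < u ∧ u < j ∧ c u ∉ st G (c i)) (hv : Valid R ℓ a w) (fl : Fin a.k → Prop) :
    open Classical in
    ∑ z : Sg G b × (Fin a.k → Sg G b) with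
      ¬ NoIn (fun _ => 0) (Col Fin.val (fun i : Fin a.k => a.c i) z),
      Ew Fin.val (fun i : Fin a.k => a.c i) fl z ≤
      Fintype.card (Sg G b) * ((ℓ : ℝ) ^ 2 * Fintype.card (Aut G)) / 2 ^ b := by
  refine ((hW S G b (Fin a.k) Fin.val (fun i => a.c i) fl Fin.val_injective).2.1 ?_).trans ?_
  · intro t t' h1 h2
    obtain ⟨u, u1, u2, u3⟩ := hr a.c a.k (by rw [hv.word, hv.geo]) t t' h1 t'.2 h2
    exact ⟨⟨u, u2.trans t'.2⟩, u1, u2, u3⟩
  · have : (a.k : ℝ) ≤ ℓ := by exact_mod_cast hv.le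
    rw [Fintype.card_fin]
    gcongr

theorem errE (hW : WtStmt)
    (hr : ∀ (c : ℕ → S) (k : ℕ), d 1 (ptw G c k) = k → ∀ i j, i < j → j < k → c i = c j →
      ∃ u, i < u ∧ u < j ∧ c u ∉ st G (c i)) (hv : Valid R ℓ a w) :
    𝔼 g : Qy G b → Sg G b, err (Fq g) a ≤ 2 * (51 / 50) ^ ℓ *
      (Fintype.card (Sg G b) * ((ℓ : ℝ) ^ 2 * Fintype.card (Aut G)) / 2 ^ b) := by
  classical
  unfold err
  rw [Finset.expect_sum_comm]
  refine (Finset.sum_le_card_nsmul _ _
    (Fintype.card (Sg G b) * ((ℓ : ℝ) ^ 2 * Fintype.card (Aut G)) / 2 ^ b) fun B _ => ?_).trans ?_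
  · rw [Finset.expect_sum_comm]
    exact colE hW hr hv _
  · rw [Finset.card_powerset, nsmul_eq_mul]
    push_cast
    exact mul_le_mul_of_nonneg_right (two_pow_le hv.card) (by positivity)

theorem injE (hW : WtStmt) (hK : KerStmt) [Nonempty S]
    (hr : ∀ (c : ℕ → S) (k : ℕ), d 1 (ptw G c k) = k → ∀ i j, i < j → j < k → c i = c j →
      ∃ u, i < u ∧ u < j ∧ c u ∉ st G (c i)) (hs : ∀ c : S, ∃ e, e ∉ st G c) (hv : Valid R ℓ a w)
    {θ : Aut G} (hθ : w ≠ 1 ∨ θ ≠ 1) :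
    𝔼 g : Qy G b → Sg G b, (({v | va (Fq g) v w = tw θ v}.ncard : ℕ) : ℝ) ≤
      Fintype.card (Sg G b) * ((ℓ : ℝ) ^ 2 * Fintype.card (Aut G) + 1) / 2 ^ b := by
  classical
  have key : ∀ f : Qy G b → Sg G b, (({v | va f v w = tw θ v}.ncard : ℕ) : ℝ) ≤
      ∑ z : Sg G b × (Fin a.k → Sg G b) with
        ¬ NoIn (fun _ => 0) (Col Fin.val (fun i : Fin a.k => a.c i) z),
        wt Fin.val (fun i : Fin a.k => a.c i) f (fun _ => True) z +
      ∑ z : Sg G b × (Fin a.k → Sg G b) with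
        (NoIn (fun _ => 0) (Col Fin.val (fun i : Fin a.k => a.c i) z) ∧
          fin (fun i : Fin a.k => a.c i) z = tw θ z.1),
        wt Fin.val (fun i : Fin a.k => a.c i) f (fun _ => True) z := by
    intro f
    have e1 : (({v | va f v w = tw θ v}.ncard : ℕ) : ℝ) =
        ∑ v, if va f v w = tw θ v then (1 : ℝ) else 0 := by
      rw [Finset.sum_boole, Set.ncard_eq_toFinset_card']
      simp
    rw [e1, Finset.sum_filter, Finset.sum_filter, ← Finset.sum_add_distrib, Fintype.sum_prod_type]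
    refine Finset.sum_le_sum fun v _ => ?_
    have h0 := fun δ => wt_nonneg Fin.val (fun i : Fin a.k => a.c i) f (fun _ => True) (v, δ)
    split_ifs with h
    · rw [← (hK S G b f a).2.2 v, hv.word, h, Finset.sum_filter]
      refine Finset.sum_le_sum fun δ _ => ?_
      have := h0 δ
      by_cases h1 : NoIn (fun _ => 0) (Col Fin.val (fun i : Fin a.k => a.c i) (v, δ)) <;>
        by_cases h2 : fin (fun i : Fin a.k => a.c i) (v, δ) = tw θ v <;> simp [h1, h2, this]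
    · refine Finset.sum_nonneg fun δ _ => add_nonneg ?_ ?_ <;> split_ifs <;> simp [h0]
  refine (Finset.expect_le_expect fun g _ => key (Fq g)).trans ?_
  rw [Finset.expect_add_distrib, Finset.expect_sum_comm, Finset.expect_sum_comm]
  have h1 := colE (b := b) hW hr hv fun _ => True
  have h2 := (hW S G b (Fin a.k) Fin.val (fun i => a.c i) (fun _ => True) Fin.val_injective).2.2 θ
    inferInstance (by
      rcases hθ with h | h
      · have : 0 < a.k := Nat.pos_of_ne_zero fun e => h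
          (eq_of_d_eq_zero (hv.geo.trans e)).symm
        exact Or.inr ⟨⟨0, this⟩, hs _⟩
      · exact Or.inl h)
  refine (add_le_add h1 h2).trans (le_of_eq ?_)
  ring

variable {X : Type} [Fintype X] (sx : X → Fin 5 → X) (l : X → Fin 5 → S) (dt : W G → Dat S)

/-- the word with windows attached to a path and an orientation -/
noncomputable def dd (ℓ : ℕ) (i : (X × Bool) × (Fin ℓ → Fin 5)) : Dat S :=
  if i.1.2 then dt (wl sx l G i.1.1 (List.ofFn i.2))
  else (dt (wl sx l G i.1.1 (List.ofFn i.2))⁻¹).rev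

open Classical in
/-- the symmetric kernel -/
noncomputable def Cm (ℓ : ℕ) (f : Qy G b → Sg G b) (z z' : X × Sg G b) : ℝ :=
  ∑ i : (X × Bool) × (Fin ℓ → Fin 5) with (i.1.1 = z.1 ∧ run sx i.1.1 (List.ofFn i.2) = z'.1),
    At f (dd sx l dt ℓ i) z.2 z'.2

variable {sx l}

theorem Cm_symm (hK : KerStmt) (h1 : ∀ x s, sx (sx x s) s = x)
    (h2 : ∀ x s, l (sx x s) s = l x s) (f : Qy G b → Sg G b) (z z' : X × Sg G b) :
    Cm sx l dt ℓ f z z' = Cm sx l dt ℓ f z' z := by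
  classical
  let ι : (X × Bool) × (Fin ℓ → Fin 5) → (X × Bool) × (Fin ℓ → Fin 5) := fun i =>
    ((run sx i.1.1 (List.ofFn i.2), !i.1.2), fun j => i.2 (Fin.rev j))
  have hι : Function.Involutive ι := by
    rintro ⟨⟨x, e⟩, γ⟩
    simp only [ι, ofFn_rev, run_rev h1, Bool.not_not, Fin.rev_rev]
  unfold Cm
  rw [Finset.sum_filter, Finset.sum_filter]
  refine Fintype.sum_bijective ι hι.bijective _ _ ?_
  rintro ⟨⟨x, e⟩, γ⟩
  simp only [ι, ofFn_rev, run_rev h1, dd, wl_rev h1 h2, inv_inv, and_comm]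
  cases e
  · simp only [Bool.false_eq_true, if_false, Bool.not_false, if_true, (hK S G b f _).1]
  · simp only [Bool.false_eq_true, if_false, Bool.not_true, if_true, (hK S G b f _).1]

theorem Cm_quad (f : Qy G b → Sg G b) (φ : X × Sg G b → ℝ) :
    ∑ z, ∑ z', φ z * Cm sx l dt ℓ f z z' * φ z' = ∑ i : (X × Bool) × (Fin ℓ → Fin 5), ∑ v, ∑ v',
      φ (i.1.1, v) * At f (dd sx l dt ℓ i) v v' * φ (run sx i.1.1 (List.ofFn i.2), v') := by
  classical
  simp only [Cm, Finset.sum_filter, Finset.mul_sum, Finset.sum_mul]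
  have e : ∀ z : X × Sg G b, ∑ z' : X × Sg G b, ∑ i : (X × Bool) × (Fin ℓ → Fin 5),
      (φ z * if i.1.1 = z.1 ∧ run sx i.1.1 (List.ofFn i.2) = z'.1 then
        At f (dd sx l dt ℓ i) z.2 z'.2 else 0) * φ z' =
      ∑ i : (X × Bool) × (Fin ℓ → Fin 5), ∑ z' : X × Sg G b,
      (φ z * if i.1.1 = z.1 ∧ run sx i.1.1 (List.ofFn i.2) = z'.1 then
        At f (dd sx l dt ℓ i) z.2 z'.2 else 0) * φ z' := fun z => Finset.sum_comm
  simp only [e]
  rw [Finset.sum_comm]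
  refine Finset.sum_congr rfl fun i _ => ?_
  rw [Fintype.sum_prod_type, Finset.sum_eq_single i.1.1]
  · refine Finset.sum_congr rfl fun v _ => ?_
    rw [Fintype.sum_prod_type, Finset.sum_eq_single (run sx i.1.1 (List.ofFn i.2))]
    · simp
    · intro x _ hx
      simp [hx.symm]
    · simp
  · intro x _ hx
    simp [hx.symm]
  · simp

theorem walk_le (hK : KerStmt) (f : Qy G b → Sg G b)
    (hv : ∀ i, Valid R ℓ (dd sx l dt ℓ i) (wl sx l G i.1.1 (List.ofFn i.2)))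
    (φ : X × Sg G b → ℝ) (h1 : ∀ z, |φ z| ≤ 1) (h2 : ∀ x, ∑ v, φ (x, v) = 0) :
    2 * ∑ z, ∑ γ : Fin ℓ → Fin 5, φ z * φ (run (fun (z : X × Sg G b) s =>
      (sx z.1 s, va f z.2 (gen G (l z.1 s)))) z (List.ofFn γ)) ≤
      ∑ z, ∑ z', φ z * Cm sx l dt ℓ f z z' * φ z' + ∑ i, err f (dd sx l dt ℓ i) := by
  rw [Cm_quad, ← Finset.sum_add_distrib]
  refine le_trans (le_of_eq ?_) (Finset.sum_le_sum fun i _ => (hK S G b f _).2.1 R ℓ _ (hv i)
    (fun v => φ (run sx i.1.1 (List.ofFn i.2), v)) (fun v => φ (i.1.1, v)) (fun _ => h1 _)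
    (fun _ => h1 _) (h2 _))
  simp only [run_mv (va_one f) (va_mul f), Fintype.sum_prod_type, Fintype.sum_bool]
  rw [Finset.mul_sum]
  refine Finset.sum_congr rfl fun x _ => ?_
  rw [Finset.sum_comm, two_mul]

theorem cycE (hL : LinStmt) (hT : TermStmt) {p : ℕ} {ε : ℝ} (hp : 0 < p)
    (hv : ∀ i, Valid R ℓ (dd sx l dt ℓ i) (wl sx l G i.1.1 (List.ofFn i.2)))
    (h1 : (((p * ℓ : ℕ) : ℝ) ^ 2 * Fintype.card (Aut G) + 1) / 2 ^ b ≤ ε) (h2 : ε ≤ 1 / 2) :
    𝔼 g : Qy G b → Sg G b, cyc (fun _ : Fin p => Cm sx l dt ℓ (Fq g)) ≤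
      2 ^ p * (51 / 50) ^ (p * ℓ) * Fintype.card (Sg G b) *
        (2 * ε ^ p * (2 * Fintype.card X * 5 ^ ℓ) ^ p +
          ({u : Fin p → (X × Bool) × (Fin ℓ → Fin 5) |
            Bad (fun σ => dd sx l dt ℓ (u σ)) G ℓ (2 ^ p)}.ncard : ℕ)) := by
  classical
  have h0 : 0 ≤ ε := le_trans (by positivity) h1
  have e : ∀ f : Qy G b → Sg G b, cyc (fun _ : Fin p => Cm sx l dt ℓ f) =
      ∑ u : Fin p → (X × Bool) × (Fin ℓ → Fin 5) with
        (∀ σ, run sx (u σ).1.1 (List.ofFn (u σ).2) = (u (finRotate p σ)).1.1),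
        cyc fun σ => At f (dd sx l dt ℓ (u σ)) := fun f => by
    have := hL.2.2 X (Sg G b) ((X × Bool) × (Fin ℓ → Fin 5)) (fun i => i.1.1)
      (fun i => run sx i.1.1 (List.ofFn i.2)) (fun i => At f (dd sx l dt ℓ i)) p
    convert this using 2
    ext
    congr
  simp only [e]
  rw [Finset.expect_sum_comm]
  refine (Finset.sum_le_sum fun u _ => hT S G b p ℓ p ε _ hp
    (fun σ => ⟨(hv _).le, (hv _).card⟩) h1 h2).trans ?_
  refine (Finset.sum_le_sum_of_subset_of_nonneg (Finset.filter_subset _ _)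
    fun u _ _ => ?_).trans (le_of_eq ?_)
  · split_ifs <;> positivity
  · rw [← Finset.mul_sum, Finset.sum_add_distrib, Finset.sum_boole, Set.ncard_eq_toFinset_card']
    simp only [Finset.sum_const, Finset.card_univ, Fintype.card_fun, Fintype.card_prod,
      Fintype.card_bool, Fintype.card_fin, nsmul_eq_mul, Set.toFinset_ofPred]
    push_cast
    ring

end Core

end Pool.Agent.MP_735563_an.H66
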