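import Pool.Agent.MP_735563_an.H66.MSpec

set_option autoImplicit false

open scoped Pointwise ENNReal BigOperators

namespace Pool.Agent.MP_735563_an.H66

open Pool.Agent.MP_c34dea_an.H66 Pool.Agent.MP_c34dea_an.H23

namespace Ker

variable {S : Type} [Fintype S] [DecidableEq S] {G : SimpleGraph S} {b : ℕ}

open Classical in
/-- the weight of one step -/
noncomputable def w1 (f : Qy G b → Sg G b) (e : S) (p : Prop) (u ω : Sg G b) : ℝ :=
  if p then (if ω = f (qy e u) then 1 else 0) else (Fintype.card (Sg G b) : ℝ)⁻¹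

/-- the operator of one step -/
noncomputable def P (f : Qy G b → Sg G b) (e : S) (p : Prop) (φ : Sg G b → ℝ) (u : Sg G b) : ℝ :=
  ∑ ω, w1 f e p u ω * φ (u + mask e ω)

/-- the operator of the first `k` steps -/
noncomputable def K (f : Qy G b → Sg G b) (c : ℕ → S) (fl : ℕ → Prop) (k : ℕ) (v : Sg G b)
    (φ : Sg G b → ℝ) : ℝ :=
  ∑ δ : Fin k → Sg G b, wt Fin.val (fun i : Fin k => c i) f (fun i : Fin k => fl i) (v, δ) *
    φ (fin (fun i : Fin k => c i) (v, δ))

variable (f : Qy G b → Sg G b)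

theorem P_pos (e : S) {p : Prop} (hp : p) (φ : Sg G b → ℝ) (u : Sg G b) :
    P f e p φ u = φ (stp f e u) := by
  classical
  simp only [P, w1, if_pos hp, ite_mul, one_mul, zero_mul, Finset.sum_ite_eq', Finset.mem_univ,
    if_true, stp]

theorem P_neg (e : S) {p : Prop} (hp : ¬ p) (φ : Sg G b → ℝ) (u : Sg G b) :
    P f e p φ u = (Fintype.card (Sg G b) : ℝ)⁻¹ * ∑ ω, φ (u + mask e ω) := by
  simp only [P, w1, if_neg hp, Finset.mul_sum]

theorem sum_P (e : S) (p : Prop) (φ : Sg G b → ℝ) : ∑ u, P f e p φ u = ∑ u, φ u := by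
  by_cases hp : p
  · simp only [P_pos f e hp]
    exact Fintype.sum_bijective (stp f e) (Function.Involutive.bijective (stp_inv f e)) _ _
      fun _ => rfl
  · have hc : (Fintype.card (Sg G b) : ℝ) ≠ 0 := by exact_mod_cast Fintype.card_ne_zero
    simp only [P_neg f e hp]
    rw [← Finset.mul_sum, Finset.sum_comm]
    have h1 : ∀ ω : Sg G b, ∑ u, φ (u + mask e ω) = ∑ u, φ u := fun ω =>
      Fintype.sum_equiv (Equiv.addRight (mask e ω)) _ _ fun _ => rfl
    simp only [h1, Finset.sum_const, Finset.card_univ, nsmul_eq_mul]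
    field_simp

/-- invariance under the increments allowed by a letter -/
def Inv (e : S) (φ : Sg G b → ℝ) : Prop := ∀ u ω, φ (u + mask e ω) = φ u

omit [Fintype S] [DecidableEq S] in
theorem mask_add (e : S) (ω ω' : Sg G b) : mask e (ω + ω') = mask e ω + mask e ω' := by
  funext i
  by_cases h : i.1 ∈ st G e
  · simp only [mask, Pi.add_apply, if_pos h, add_zero]
  · simp only [mask, Pi.add_apply, if_neg h]

theorem inv_P_self (e : S) {p : Prop} (hp : ¬ p) (φ : Sg G b → ℝ) : Inv e (P f e p φ) := by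
  intro u ω
  rw [P_neg f e hp, P_neg f e hp]
  congr 1
  refine Fintype.sum_equiv (Equiv.addLeft ω) _ _ fun ω' => ?_
  simp only [Equiv.coe_addLeft, mask_add, add_assoc]

theorem inv_P (e e' : S) {p : Prop} (hp : ¬ p) {φ : Sg G b → ℝ} (h : Inv e' φ) :
    Inv e' (P f e p φ) := by
  intro u ω
  rw [P_neg f e hp, P_neg f e hp]
  congr 1
  refine Finset.sum_congr rfl fun ω' _ => ?_
  rw [add_right_comm, h]

theorem eq_zero_of_inv {e e' : S} (h : LSp G e e') {φ : Sg G b → ℝ} (h1 : Inv e φ) (h2 : Inv e' φ)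
    (h0 : ∑ u, φ u = 0) : φ = 0 := by
  have h3 : ∀ u, φ u = φ 0 := by
    intro u
    have : u = 0 + mask e u + mask e' (u - mask e u) := by
      funext i
      by_cases hi : i.1 ∈ st G e
      · have hi' : i.1 ∉ st G e' := (h.or i.1).resolve_left fun c => c hi
        simp [mask, hi, hi']
      · by_cases hi' : i.1 ∈ st G e' <;> simp [mask, hi, hi']
    rw [this, h2, h1]
  have hc : (Fintype.card (Sg G b) : ℝ) ≠ 0 := by exact_mod_cast Fintype.card_ne_zero
  simp only [h3, Finset.sum_const, Finset.card_univ, nsmul_eq_mul] at h0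
  funext u
  rw [h3, (mul_eq_zero.1 h0).resolve_left hc, Pi.zero_apply]

variable (c : ℕ → S) (fl : ℕ → Prop)

theorem K_zero (v : Sg G b) (φ : Sg G b → ℝ) : K f c fl 0 v φ = φ v := by
  simp [K, wt, fin]

omit [Fintype S] [DecidableEq S] in
theorem fin_snoc {k : ℕ} (v ω : Sg G b) (δ : Fin k → Sg G b) :
    fin (fun i : Fin (k + 1) => c i) (v, (Fin.snoc δ ω : Fin (k + 1) → Sg G b)) =
      fin (fun i : Fin k => c i) (v, δ) + mask (c k) ω := by
  simp only [fin, Fin.sum_univ_castSucc, Fin.snoc_castSucc, Fin.snoc_last, Fin.val_castSucc,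
    Fin.val_last, add_assoc]

omit [Fintype S] [DecidableEq S] in
theorem stt_snoc {k : ℕ} (v ω : Sg G b) (δ : Fin k → Sg G b) (t : Fin k) :
    stt Fin.val (fun i : Fin (k + 1) => c i) (v, (Fin.snoc δ ω : Fin (k + 1) → Sg G b))
      t.castSucc = stt Fin.val (fun i : Fin k => c i) (v, δ) t := by
  have h : ¬ k < t.val := by omega
  simp only [stt, Finset.sum_filter, Fin.sum_univ_castSucc, Fin.snoc_castSucc, Fin.val_castSucc,
    Fin.val_last, if_neg h, add_zero]

omit [Fintype S] [DecidableEq S] in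
theorem stt_last {k : ℕ} (v ω : Sg G b) (δ : Fin k → Sg G b) :
    stt Fin.val (fun i : Fin (k + 1) => c i) (v, (Fin.snoc δ ω : Fin (k + 1) → Sg G b))
      (Fin.last k) = fin (fun i : Fin k => c i) (v, δ) := by
  simp only [stt, fin, Finset.sum_filter, Fin.sum_univ_castSucc, Fin.snoc_castSucc,
    Fin.val_castSucc, Fin.val_last, lt_self_iff_false, if_false, add_zero, Fin.is_lt, if_true]

theorem wt_snoc {k : ℕ} (v ω : Sg G b) (δ : Fin k → Sg G b) :
    wt Fin.val (fun i : Fin (k + 1) => c i) f (fun i : Fin (k + 1) => fl i)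
      (v, (Fin.snoc δ ω : Fin (k + 1) → Sg G b)) =
      wt Fin.val (fun i : Fin k => c i) f (fun i : Fin k => fl i) (v, δ) *
        w1 f (c k) (fl k) (fin (fun i : Fin k => c i) (v, δ)) ω := by
  unfold wt
  rw [Fin.prod_univ_castSucc]
  simp only [qt, stt_snoc, stt_last, Fin.snoc_castSucc, Fin.snoc_last, Fin.val_castSucc,
    Fin.val_last, w1]
  congr!

theorem K_succ (k : ℕ) (v : Sg G b) (φ : Sg G b → ℝ) :
    K f c fl (k + 1) v φ = K f c fl k v (P f (c k) (fl k) φ) := by
  unfold K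
  rw [← (Fin.snocEquiv fun _ : Fin (k + 1) => Sg G b).sum_comp, Fintype.sum_prod_type,
    Finset.sum_comm]
  refine Finset.sum_congr rfl fun δ _ => ?_
  rw [P, Finset.mul_sum]
  refine Finset.sum_congr rfl fun ω _ => ?_
  have : (Fin.snocEquiv fun _ : Fin (k + 1) => Sg G b) (ω, δ) =
    (Fin.snoc δ ω : Fin (k + 1) → Sg G b) := rfl
  rw [this, wt_snoc, fin_snoc, mul_assoc]

theorem K_all (k : ℕ) (h : ∀ i, i < k → fl i) (v : Sg G b) (φ : Sg G b → ℝ) :
    K f c fl k v φ = φ (va f v (ptw G c k)) := by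
  induction k generalizing φ with
  | zero => rw [K_zero, ptw, va_one]
  | succ k ih =>
    rw [K_succ, ih (fun i hi => h i (by omega)), P_pos f _ (h k (by omega)), ptw, va_mul, va_gen]

theorem K_cut {n k : ℕ} (hnk : n ≤ k) (φ : Sg G b → ℝ) (h0 : ∑ u, φ u = 0) :
    ∃ ψ : Sg G b → ℝ, ∑ u, ψ u = 0 ∧ (∀ v, K f c fl k v φ = K f c fl n v ψ) ∧
      (∀ e, Inv e φ → (∀ i', n ≤ i' → i' < k → ¬ fl i') → Inv e ψ) ∧
      ∀ i, n ≤ i → i < k → (∀ i', n ≤ i' → i' ≤ i → ¬ fl i') → Inv (c i) ψ := by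
  induction k, hnk using Nat.le_induction generalizing φ with
  | base => exact ⟨φ, h0, fun _ => rfl, fun _ h _ => h, fun i h1 h2 => absurd h1 (by omega)⟩
  | succ k hk ih =>
    obtain ⟨ψ, h1, h2, h3, h4⟩ := ih (P f (c k) (fl k) φ) (by rw [sum_P, h0])
    refine ⟨ψ, h1, fun v => by rw [K_succ, h2], fun e he hf => ?_, fun i hi hi' hf => ?_⟩
    · exact h3 e (inv_P f _ _ (hf k hk (by omega)) he) fun i' a1 a2 => hf i' a1 (by omega)
    · rcases Nat.lt_succ_iff_lt_or_eq.1 hi' with h5 | rfl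
      · exact h4 i hi h5 hf
      · exact h3 _ (inv_P_self f _ (hf i hi le_rfl) φ) fun i' a1 a2 => hf i' a1 a2.le

theorem K_off {k i₁ i₂ : ℕ} (h1 : i₁ ≤ i₂) (h2 : i₂ < k) (hL : LSp G (c i₁) (c i₂))
    (hf : ∀ i, i₁ ≤ i → i ≤ i₂ → ¬ fl i) (φ : Sg G b → ℝ) (h0 : ∑ u, φ u = 0) (v : Sg G b) :
    K f c fl k v φ = 0 := by
  obtain ⟨ψ, a1, a2, -, a4⟩ := K_cut f c fl (h1.trans h2.le) φ h0
  have : ψ = 0 := eq_zero_of_inv hL
    (a4 i₁ le_rfl (by omega) fun i' b1 b2 => hf i' b1 (b2.trans h1)) (a4 i₂ h1 h2 hf) a1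
  rw [a2, this]
  simp [K]

theorem wt_nonneg {T : Type} [Fintype T] [DecidableEq T] (tm : T → ℕ) (cc : T → S) (ff : T → Prop)
    (z : Sg G b × (T → Sg G b)) : 0 ≤ wt tm cc f ff z := by
  unfold wt
  refine Finset.prod_nonneg fun t _ => ?_
  split_ifs <;> positivity

section Rev

variable {k : ℕ} (cc : Fin k → S) (ff : Fin k → Prop) (v v' : Sg G b) (δ : Fin k → Sg G b)

omit [Fintype S] [DecidableEq S] in
theorem fin_rev : fin (fun i : Fin k => cc i.rev) (v', fun i => δ i.rev) = v ↔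
    fin cc (v, δ) = v' := by
  have h : ∑ t : Fin k, mask (cc t.rev) (δ t.rev) = ∑ t : Fin k, mask (cc t) (δ t) :=
    Fintype.sum_equiv Fin.revPerm _ _ fun _ => rfl
  simp only [fin, h]
  constructor
  · rintro rfl
    rw [add_assoc, add_self_sg, add_zero]
  · rintro rfl
    rw [add_assoc, add_self_sg, add_zero]

omit [Fintype S] [DecidableEq S] in
theorem qt_rev (h : fin cc (v, δ) = v') (t : Fin k) :
    qt Fin.val (fun i => cc i.rev) (v', fun i => δ i.rev) t = qt Fin.val cc (v, δ) t.rev := by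
  have h1 : stt Fin.val (fun i => cc i.rev) (v', fun i => δ i.rev) t =
      stt Fin.val cc (v, δ) t.rev + mask (cc t.rev) (δ t.rev) := by
    subst h
    have e1 : ∑ s : Fin k, (if s.val < t.val then mask (cc s.rev) (δ s.rev) else 0) =
        ∑ s : Fin k, (if t.rev.val < s.val then mask (cc s) (δ s) else 0) := by
      refine Fintype.sum_equiv Fin.revPerm _ _ fun s => ?_
      have : s.val < t.val ↔ t.rev.val < s.rev.val := by
        have := s.is_lt
        have := t.is_lt
        simp only [Fin.val_rev]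
        omega
      simp only [this, Fin.revPerm_apply]
    have e2 : mask (cc t.rev) (δ t.rev) =
        ∑ s : Fin k, (if s = t.rev then mask (cc s) (δ s) else 0) := by
      rw [Finset.sum_ite_eq']
      simp
    simp only [stt, fin, Finset.sum_filter]
    rw [e1, e2, add_assoc, add_assoc, ← Finset.sum_add_distrib, ← Finset.sum_add_distrib]
    congr 1
    refine Finset.sum_congr rfl fun s _ => ?_
    rcases lt_trichotomy s.val t.rev.val with h2 | h2 | h2
    · have h3 : s ≠ t.rev := fun e => by rw [e] at h2; exact lt_irrefl _ h2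
      rw [if_neg h2.not_gt, if_pos h2, if_neg h3]
    · have h3 : s = t.rev := Fin.ext h2
      rw [if_neg h2.not_gt, if_neg h2.not_lt, if_pos h3, add_zero, zero_add]
    · have h3 : s ≠ t.rev := fun e => by rw [e] at h2; exact lt_irrefl _ h2
      rw [if_pos h2, if_neg h2.not_gt, if_neg h3, add_self_sg, add_zero]
  unfold qt
  rw [h1, qy_add_mask (mem_st_self _)]

omit [Fintype S] [DecidableEq S] in
theorem noIn_rev (h : fin cc (v, δ) = v') :
    NoIn (fun _ => 0) (Col Fin.val (fun i => cc i.rev) (v', fun i => δ i.rev)) ↔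
      NoIn (fun _ => 0) (Col Fin.val cc (v, δ)) := by
  unfold NoIn Col
  simp only [qt_rev cc v v' δ h]
  constructor
  · intro a t t' θ _ e
    have := a t.rev t'.rev θ trivial (by rwa [Fin.rev_rev, Fin.rev_rev])
    exact ⟨Fin.rev_injective this.1, this.2⟩
  · intro a t t' θ _ e
    have := a t.rev t'.rev θ trivial e
    exact ⟨Fin.rev_injective this.1, this.2⟩

theorem wt_rev (h : fin cc (v, δ) = v') :
    wt Fin.val (fun i => cc i.rev) f (fun i => ff i.rev) (v', fun i => δ i.rev) =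
      wt Fin.val cc f ff (v, δ) := by
  unfold wt
  simp only [qt_rev cc v v' δ h]
  exact Fintype.prod_equiv Fin.revPerm _ _ fun _ => rfl

open Classical in
theorem sum_rev :
    ∑ δ : Fin k → Sg G b with (fin (fun i => cc i.rev) (v', δ) = v ∧
      NoIn (fun _ => 0) (Col Fin.val (fun i => cc i.rev) (v', δ))),
      wt Fin.val (fun i => cc i.rev) f (fun i => ff i.rev) (v', δ) =
    ∑ δ : Fin k → Sg G b with (fin cc (v, δ) = v' ∧ NoIn (fun _ => 0) (Col Fin.val cc (v, δ))),
      wt Fin.val cc f ff (v, δ) := by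
  symm
  rw [Finset.sum_filter, Finset.sum_filter]
  refine Fintype.sum_bijective (fun (δ : Fin k → Sg G b) i => δ i.rev)
    (Function.Involutive.bijective fun δ => by funext i; simp only [Fin.rev_rev]) _ _ fun δ => ?_
  by_cases h : fin cc (v, δ) = v'
  · refine if_congr ?_ (wt_rev f cc ff v v' δ h).symm rfl
    rw [noIn_rev cc v v' δ h, fin_rev cc v v' δ]
  · rw [if_neg fun e => h e.1, if_neg]
    exact fun e => h ((fin_rev cc v v' δ).1 e.1)

end Rev

open Classical in
theorem part1 (a : Dat S) (v v' : Sg G b) : At f a.rev v' v = At f a v v' := by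
  obtain ⟨k, c, win, Js⟩ := a
  unfold At
  refine Finset.sum_congr rfl fun B _ => ?_
  congr 1
  have e : ∀ i : Fin k, k - 1 - i.val = i.rev.val := fun i => by
    rw [Fin.val_rev]
    omega
  have := sum_rev f (fun i : Fin k => c i) (flg (fun i : Fin k => win i) B) v v'
  have e1 : (fun i : Fin k => c (k - 1 - i.val)) = fun i : Fin k => c i.rev := by
    funext i
    rw [e]
  have e2 : (fun i : Fin k => win (k - 1 - i.val)) = fun i : Fin k => win i.rev := by
    funext i
    rw [e]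
  refine Eq.trans ?_ this
  change (∑ δ : Fin k → Sg G b with (fin (fun i : Fin k => c (k - 1 - i.val)) (v', δ) = v ∧
      NoIn (fun _ => 0) (Col Fin.val (fun i : Fin k => c (k - 1 - i.val)) (v', δ))),
      wt Fin.val (fun i : Fin k => c (k - 1 - i.val)) f
        (flg (fun i : Fin k => win (k - 1 - i.val)) B) (v', δ)) = _
  rw [e1, e2]
  rfl

open Classical in
theorem part3 (k : ℕ) (v : Sg G b) :
    ∑ δ : Fin k → Sg G b with fin (fun i : Fin k => c i) (v, δ) = va f v (ptw G c k),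
      wt Fin.val (fun i : Fin k => c i) f (fun _ => True) (v, δ) = 1 := by
  have := K_all f c (fun _ => True) k (fun _ _ => trivial) v
    fun u => if u = va f v (ptw G c k) then 1 else 0
  rw [if_pos rfl] at this
  rw [← this, Finset.sum_filter, K]
  refine Finset.sum_congr rfl fun δ _ => ?_
  split_ifs <;> simp

open Classical in
theorem part2 (a : Dat S) {R : Hyp G → Hyp G → Prop} {ℓ : ℕ} {w : W G} (hV : Valid R ℓ a w)
    (φ ψ : Sg G b → ℝ) (hφ : ∀ v, |φ v| ≤ 1) (hψ : ∀ v, |ψ v| ≤ 1) (h0 : ∑ v, φ v = 0) :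
    ∑ v, ψ v * φ (va f v w) ≤ ∑ v, ∑ v', ψ v * At f a v v' * φ v' + err f a := by
  have h1 : ∀ v, φ (va f v w) = ∑ B ∈ a.Js.powerset, (-1 : ℝ) ^ (a.Js \ B).card *
      K f a.c (flg a.win B) a.k v φ := by
    intro v
    rw [Finset.sum_eq_single_of_mem a.Js (Finset.mem_powerset_self _)]
    · rw [K_all f a.c (flg a.win a.Js) a.k (fun i hi j hj => hV.mem i j hi hj), hV.word]
      simp
    · intro B hB hne
      obtain ⟨j, hj, hjB⟩ := Finset.exists_of_ssubset
        (Finset.ssubset_iff_subset_ne.2 ⟨Finset.mem_powerset.1 hB, hne⟩)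
      obtain ⟨i₁, i₂, a1, a2, a3, a4⟩ := hV.ls j hj
      rw [K_off f a.c (flg a.win B) a1 a2 a3 (fun i b1 b2 e => hjB (e j (a4 i b1 b2))) φ h0,
        mul_zero]
  have h2 : ∀ v, ∑ v', ψ v * At f a v v' * φ v' = ∑ B ∈ a.Js.powerset, ∑ δ : Fin a.k → Sg G b,
      (if NoIn (fun _ => 0) (Col Fin.val (fun i : Fin a.k => a.c i) (v, δ)) then
        (-1 : ℝ) ^ (a.Js \ B).card * ψ v * φ (fin (fun i : Fin a.k => a.c i) (v, δ)) *
        wt Fin.val (fun i : Fin a.k => a.c i) f (flg (fun i : Fin a.k => a.win i) B) (v, δ)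
      else 0) := by
    intro v
    unfold At
    simp only [Finset.mul_sum, Finset.sum_mul, Finset.sum_filter]
    rw [Finset.sum_comm]
    refine Finset.sum_congr rfl fun B _ => ?_
    rw [Finset.sum_comm]
    refine Finset.sum_congr rfl fun δ _ => ?_
    rw [Finset.sum_eq_single (fin (fun i : Fin a.k => a.c i) (v, δ))]
    · simp only [true_and]
      split_ifs <;> ring
    · intro v' _ hne
      rw [if_neg fun e => hne e.1.symm]
      ring
    · intro h
      exact absurd (Finset.mem_univ _) h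
  have h3 : err f a = ∑ v, ∑ B ∈ a.Js.powerset, ∑ δ : Fin a.k → Sg G b,
      (if NoIn (fun _ => 0) (Col Fin.val (fun i : Fin a.k => a.c i) (v, δ)) then 0 else
        wt Fin.val (fun i : Fin a.k => a.c i) f (flg (fun i : Fin a.k => a.win i) B) (v, δ)) := by
    rw [Finset.sum_comm (s := Finset.univ) (t := a.Js.powerset)]
    unfold err
    refine Finset.sum_congr rfl fun B _ => ?_
    rw [Finset.sum_filter, Fintype.sum_prod_type]
    simp only [ite_not]
  rw [h3, ← Finset.sum_add_distrib]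
  refine Finset.sum_le_sum fun v _ => ?_
  rw [h1, h2, ← Finset.sum_add_distrib, Finset.mul_sum]
  refine Finset.sum_le_sum fun B _ => ?_
  rw [← Finset.sum_add_distrib, K, Finset.mul_sum, Finset.mul_sum]
  refine Finset.sum_le_sum fun δ _ => ?_
  have hw : wt Fin.val (fun i : Fin a.k => a.c i) f (fun i : Fin a.k => flg a.win B i) (v, δ) =
    wt Fin.val (fun i : Fin a.k => a.c i) f (flg (fun i : Fin a.k => a.win i) B) (v, δ) := rfl
  rw [hw]
  split_ifs
  · apply le_of_eq
    ring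
  · have b1 := wt_nonneg f Fin.val (fun i : Fin a.k => a.c i)
      (flg (fun i : Fin a.k => a.win i) B) (v, δ)
    have b2 : ψ v * ((-1 : ℝ) ^ (a.Js \ B).card * φ (fin (fun i : Fin a.k => a.c i) (v, δ))) ≤ 1 := by
      refine (le_abs_self _).trans ?_
      rw [abs_mul, abs_mul, abs_pow, abs_neg, abs_one, one_pow, one_mul]
      exact mul_le_one₀ (hψ v) (abs_nonneg _) (hφ _)
    nlinarith [mul_le_mul_of_nonneg_right b2 b1]

end Ker

theorem ker : KerStmt := fun _ _ _ _ _ f a =>
  ⟨Ker.part1 f a, fun _ _ _ hV φ ψ h1 h2 h3 => Ker.part2 f a hV φ ψ h1 h2 h3,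
    Ker.part3 f a.c a.k⟩

end Pool.Agent.MP_735563_an.H66
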