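import Pool.Agent.MP_735563_an.H66.Spec

set_option autoImplicit false

open scoped Pointwise ENNReal BigOperators

namespace Pool.Agent.MP_735563_an.H66

open Pool.Agent.MP_c34dea_an.H66 Pool.Agent.MP_c34dea_an.H23

section Model

variable {S : Type} (G : SimpleGraph S) (b : ℕ)

/-- the alphabet of the registers -/
abbrev Vb : Type := Fin b → ZMod 2

/-- states -/
abbrev Sg : Type := S × Aut G → Vb b

/-- queries: a letter and the content of its register -/
def Qy : Type := S × (Aut G → Vb b)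

variable {G b}

noncomputable instance [Finite S] : Fintype (Qy G b) :=
  haveI : Finite (Qy G b) := inferInstanceAs (Finite (S × (Aut G → Vb b)))
  Fintype.ofFinite _

noncomputable instance : DecidableEq (Qy G b) := Classical.decEq _

/-- twisting a state -/
def tw (θ : Aut G) (v : Sg G b) : Sg G b := fun i => v (θ⁻¹ • i.1, θ⁻¹ * i.2)

open Classical in
/-- the part of an increment outside the star of `c` -/
noncomputable def mask (c : S) (ω : Sg G b) : Sg G b := fun i => if i.1 ∈ st G c then 0 else ω i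

/-- the query made by the letter `c` in the state `v` -/
def qy (c : S) (v : Sg G b) : Qy G b := (c, fun β => v (c, β))

instance : MulAction (Aut G) (Qy G b) where
  smul θ q := (θ • q.1, fun β => q.2 (θ⁻¹ * β))
  one_smul q := Prod.ext (one_smul _ q.1) (funext fun β => by
    show q.2 (1⁻¹ * β) = q.2 β
    simp)
  mul_smul θ θ' q := Prod.ext (mul_smul θ θ' q.1) (funext fun β => by
    show q.2 ((θ * θ')⁻¹ * β) = q.2 (θ'⁻¹ * (θ⁻¹ * β))
    rw [mul_inv_rev, mul_assoc])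

theorem smul_qy_iff {θ : Aut G} {c c' : S} {v v' : Sg G b} :
    θ • qy c v = qy c' v' ↔ θ • c = c' ∧ ∀ β, v' (c', θ * β) = v (c, β) := by
  constructor
  · intro h
    refine ⟨congrArg Prod.fst h, fun β => ?_⟩
    have := congrFun (congrArg Prod.snd h) (θ * β)
    change v (c, θ⁻¹ * (θ * β)) = v' (c', θ * β) at this
    rw [← this, inv_mul_cancel_left]
  · rintro ⟨h1, h2⟩
    refine Prod.ext h1 (funext fun β => ?_)
    change v (c, θ⁻¹ * β) = v' (c', β)
    rw [← h2, mul_inv_cancel_left]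

theorem tw_one (v : Sg G b) : tw 1 v = v := by ext i; simp [tw]

theorem tw_mul (θ θ' : Aut G) (v : Sg G b) : tw (θ * θ') v = tw θ (tw θ' v) := by
  ext i; simp [tw, mul_smul, mul_assoc]

theorem tw_add (θ : Aut G) (v w : Sg G b) : tw θ (v + w) = tw θ v + tw θ w := rfl

theorem tw_zero (θ : Aut G) : tw θ (0 : Sg G b) = 0 := rfl

theorem tw_inv_tw (θ : Aut G) (v : Sg G b) : tw θ⁻¹ (tw θ v) = v := by
  rw [← tw_mul, inv_mul_cancel, tw_one]

theorem tw_tw_inv (θ : Aut G) (v : Sg G b) : tw θ (tw θ⁻¹ v) = v := by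
  rw [← tw_mul, mul_inv_cancel, tw_one]

theorem tw_mask (θ : Aut G) (c : S) (ω : Sg G b) : tw θ (mask c ω) = mask (θ • c) (tw θ ω) := by
  funext i
  have : θ⁻¹ • i.1 ∈ st G c ↔ i.1 ∈ st G (θ • c) := by rw [← smul_mem_st θ, smul_inv_smul]
  by_cases h : i.1 ∈ st G (θ • c)
  · simp only [tw, mask, if_pos h, if_pos (this.2 h)]
  · simp only [tw, mask, if_neg h, if_neg (mt this.1 h)]

theorem smul_qy (θ : Aut G) (c : S) (v : Sg G b) : θ • qy c v = qy (θ • c) (tw θ v) :=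
  smul_qy_iff.2 ⟨rfl, fun β => by simp [tw]⟩

theorem add_self_sg (v : Sg G b) : v + v = 0 := by
  ext i j
  exact CharTwo.add_self_eq_zero _

theorem qy_add_mask {c c' : S} (h : c ∈ st G c') (v ω : Sg G b) : qy c (v + mask c' ω) = qy c v := by
  refine Prod.ext rfl (funext fun β => ?_)
  change v (c, β) + mask c' ω (c, β) = v (c, β)
  simp [mask, h]

/-- one step of the model -/
noncomputable def stp (f : Qy G b → Sg G b) (c : S) (v : Sg G b) : Sg G b :=
  v + mask c (f (qy c v))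

theorem stp_inv (f : Qy G b → Sg G b) (c : S) (v : Sg G b) : stp f c (stp f c v) = v := by
  unfold stp
  rw [qy_add_mask (mem_st_self c), add_assoc, add_self_sg, add_zero]

theorem stp_comm (f : Qy G b → Sg G b) (c c' : S) (h : G.Adj c c') (v : Sg G b) :
    stp f c (stp f c' v) = stp f c' (stp f c v) := by
  unfold stp
  rw [qy_add_mask (mem_st_of_adj h.symm), qy_add_mask (mem_st_of_adj h), add_right_comm]

/-- the right action of the Coxeter group on states -/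
noncomputable def va (f : Qy G b → Sg G b) (v : Sg G b) (w : W G) : Sg G b :=
  ract (stp f) (stp_inv f) (stp_comm f) v w

theorem va_one (f : Qy G b → Sg G b) (v : Sg G b) : va f v 1 = v := by simp [va]

theorem va_mul (f : Qy G b → Sg G b) (v : Sg G b) (w w' : W G) :
    va f v (w * w') = va f (va f v w) w' := ract_mul _ _ _

theorem va_gen (f : Qy G b → Sg G b) (v : Sg G b) (c : S) : va f v (gen G c) = stp f c v :=
  ract_gen _ _

theorem tw_va {f : Qy G b → Sg G b} (hf : ∀ (θ : Aut G) q, f (θ • q) = tw θ (f q)) (θ : Aut G)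
    (v : Sg G b) (w : W G) : tw θ (va f v w) = va f (tw θ v) (θ • w) := by
  induction w using W_ind with
  | h1 => rw [smul_one, va_one, va_one]
  | hs w s ih =>
    rw [smul_mul', aut_gen, va_mul, va_mul, va_gen, va_gen, ← ih, stp, stp, tw_add, tw_mask, ← hf,
      smul_qy]

/-- queries with trivial stabiliser -/
def Free (q : Qy G b) : Prop := ∀ θ : Aut G, θ • q = q → θ = 1

/-- the representative of the orbit of a query -/
noncomputable def rep (q : Qy G b) : Qy G b :=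
  (Quotient.mk (MulAction.orbitRel (Aut G) (Qy G b)) q).out

theorem exists_sel (q : Qy G b) : ∃ θ : Aut G, θ • q = rep q :=
  MulAction.orbitRel_apply.1 (Quotient.exact (Quotient.out_eq
    (Quotient.mk (MulAction.orbitRel (Aut G) (Qy G b)) q)))

/-- an automorphism that moves a query to its representative -/
noncomputable def sel (q : Qy G b) : Aut G := (exists_sel q).choose

theorem sel_smul (q : Qy G b) : sel q • q = rep q := (exists_sel q).choose_spec

theorem rep_smul (θ : Aut G) (q : Qy G b) : rep (θ • q) = rep q := by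
  unfold rep
  congr 1
  exact Quotient.sound (MulAction.orbitRel_apply.2 ⟨θ, rfl⟩)

theorem rep_eq_iff {q q' : Qy G b} : rep q = rep q' ↔ ∃ θ : Aut G, θ • q = q' := by
  constructor
  · intro h
    exact ⟨(sel q')⁻¹ * sel q, by rw [mul_smul, sel_smul, h, ← sel_smul, inv_smul_smul]⟩
  · rintro ⟨θ, rfl⟩
    exact (rep_smul θ q).symm

theorem Free.smul {q : Qy G b} (h : Free q) (θ : Aut G) : Free (θ • q) := by
  intro θ' e
  have := h (θ⁻¹ * θ' * θ) (by rw [mul_smul, mul_smul, e, inv_smul_smul])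
  rw [mul_assoc, inv_mul_eq_one] at this
  exact (right_eq_mul.1 this)

theorem Free.eq {q : Qy G b} (h : Free q) {θ θ' : Aut G} (e : θ • q = θ' • q) : θ = θ' :=
  (inv_mul_eq_one.1 (h (θ'⁻¹ * θ) (by rw [mul_smul, e, inv_smul_smul]))).symm

open Classical in
/-- the equivariant function defined by an arbitrary table -/
noncomputable def Fq (g : Qy G b → Sg G b) (q : Qy G b) : Sg G b :=
  if Free q then tw (sel q)⁻¹ (g (rep q)) else 0

theorem Fq_smul (g : Qy G b → Sg G b) (θ : Aut G) (q : Qy G b) :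
    Fq g (θ • q) = tw θ (Fq g q) := by
  unfold Fq
  by_cases h : Free q
  · have e : sel (θ • q) * θ = sel q := h.eq (by rw [mul_smul, sel_smul, sel_smul, rep_smul])
    rw [if_pos h, if_pos (h.smul θ), rep_smul, ← tw_mul, ← e]
    simp
  · rw [if_neg h, if_neg fun c => h (by simpa using c.smul θ⁻¹), tw_zero]

theorem Fq_update {g : Qy G b → Sg G b} {q q₀ : Qy G b} (h : ∀ θ : Aut G, θ • q ≠ q₀)
    (a : Sg G b) : Fq (Function.update g (rep q₀) a) q = Fq g q := by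
  unfold Fq
  rw [Function.update_of_ne fun e => (rep_eq_iff.1 e).elim h]

variable [Fintype S] [DecidableEq S]

/-- independence of a fresh free query -/
theorem expect_fresh {q₀ : Qy G b} (hq : Free q₀) (a : Sg G b) (Φ : (Qy G b → Sg G b) → ℝ)
    (hΦ : ∀ g u, Φ (Function.update g (rep q₀) u) = Φ g) :
    𝔼 g, (if a = Fq g q₀ then 1 else 0) * Φ g = (Fintype.card (Sg G b) : ℝ)⁻¹ * 𝔼 g, Φ g := by
  classical
  have hc : (0 : ℝ) < Fintype.card (Sg G b) := by exact_mod_cast Fintype.card_pos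
  have key : ∀ a' : Sg G b, ∑ g, (if a' = Fq g q₀ then 1 else 0) * Φ g =
      ∑ g, (if a = Fq g q₀ then 1 else 0) * Φ g := by
    intro a'
    let e : (Qy G b → Sg G b) → (Qy G b → Sg G b) := fun g =>
      Function.update g (rep q₀) (g (rep q₀) + tw (sel q₀) (a + a'))
    have he : Function.Involutive e := fun g => by
      simp only [e, Function.update_self, Function.update_idem, add_assoc, add_self_sg, add_zero,
        Function.update_eq_self]
    refine Fintype.sum_bijective e he.bijective _ _ fun g => ?_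
    have h1 : Fq (e g) q₀ = Fq g q₀ + (a + a') := by
      simp only [Fq, if_pos hq, e, Function.update_self, tw_add, tw_inv_tw]
    have h2 : a' = Fq g q₀ ↔ a = Fq (e g) q₀ := by
      rw [h1]
      constructor
      · intro h
        rw [← h, add_left_comm, add_self_sg, add_zero]
      · intro h
        have h3 : a + (a + a') = Fq g q₀ + (a + a') + (a + a') := congrArg (· + (a + a')) h
        rwa [← add_assoc, add_self_sg, zero_add, add_assoc, add_self_sg, add_zero] at h3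
    simp only [h2, e, hΦ]
  have tot : ∑ a' : Sg G b, ∑ g, (if a' = Fq g q₀ then 1 else 0) * Φ g = ∑ g, Φ g := by
    rw [Finset.sum_comm]
    refine Finset.sum_congr rfl fun g _ => ?_
    rw [← Finset.sum_mul, Finset.sum_ite_eq']
    simp
  simp only [key, Finset.sum_const, Finset.card_univ, nsmul_eq_mul] at tot
  rw [Fintype.expect_eq_sum_div_card, Fintype.expect_eq_sum_div_card, ← tot]
  field_simp

variable {T : Type} [Fintype T] [DecidableEq T] (tm : T → ℕ) (c : T → S)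

/-- the state before the step `t`; `z` is the initial state and the list of increments -/
noncomputable def stt (z : Sg G b × (T → Sg G b)) (t : T) : Sg G b :=
  z.1 + ∑ t' with tm t' < tm t, mask (c t') (z.2 t')

/-- the query of the step `t` -/
noncomputable def qt (z : Sg G b × (T → Sg G b)) (t : T) : Qy G b := qy (c t) (stt tm c z t)

/-- collisions of queries -/
def Col (z : Sg G b × (T → Sg G b)) (t t' : T) (θ : Aut G) : Prop := θ • qt tm c z t = qt tm c z t'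

/-- the final state -/
noncomputable def fin (z : Sg G b × (T → Sg G b)) : Sg G b := z.1 + ∑ t, mask (c t) (z.2 t)

open Classical in
/-- the weight of a run: flagged steps follow `f`, the others are uniformly random -/
noncomputable def wt (f : Qy G b → Sg G b) (fl : T → Prop) (z : Sg G b × (T → Sg G b)) : ℝ :=
  ∏ t, if fl t then (if z.2 t = f (qt tm c z t) then 1 else 0)
    else (Fintype.card (Sg G b) : ℝ)⁻¹

/-- the expected weight -/
noncomputable def Ew (fl : T → Prop) (z : Sg G b × (T → Sg G b)) : ℝ :=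
  𝔼 g : Qy G b → Sg G b, wt tm c (Fq g) fl z

omit [Fintype T] [DecidableEq T] [Fintype S] [DecidableEq S]

/-- no collision inside a block -/
def NoIn (blk : T → ℕ) (C : T → T → Aut G → Prop) : Prop :=
  ∀ t t' θ, blk t = blk t' → C t t' θ → t = t' ∧ θ = 1

/-- the steps that are not in a switched off window -/
def flg {J : Type} (win : T → Option J) (B : Finset J) (t : T) : Prop := ∀ j, win t = some j → j ∈ B

/-- every window contains a step that collides with another step -/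
def AllCol {J : Type} (win : T → Option J) (Js : Finset J) (C : T → T → Aut G → Prop) : Prop :=
  ∀ j ∈ Js, ∃ t t' θ, win t = some j ∧ t ≠ t' ∧ C t t' θ

/-- the steps between two similar collisions are matched -/
def MP (C : T → T → Aut G → Prop) (t₁ t₂ t₁' t₂' : T) (θ : Aut G) : Prop :=
  (∀ t, tm t₁ ≤ tm t → tm t < tm t₂ → c t ∉ st G (c t₁) →
    ∃ t', C t t' θ ∧ min (tm t₁') (tm t₂') ≤ tm t' ∧ tm t' < max (tm t₁') (tm t₂')) ∧
  ∀ t', min (tm t₁') (tm t₂') ≤ tm t' → tm t' < max (tm t₁') (tm t₂') → c t' ∉ st G (c t₁') →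
    ∃ t, C t t' θ ∧ tm t₁ ≤ tm t ∧ tm t < tm t₂

/-- the collisions fall into at most `n` similarity classes -/
def Str (blk : T → ℕ) (n : ℕ) (C : T → T → Aut G → Prop) : Prop :=
  ∃ κ : T → T → Aut G → Fin n, ∀ t₁ t₂ t₁' t₂' θ, blk t₁ = blk t₂ → blk t₁' = blk t₂' →
    tm t₁ ≤ tm t₂ → C t₁ t₁' θ → C t₂ t₂' θ → c t₁ = c t₂ → κ t₁ t₁' θ = κ t₂ t₂' θ →
    MP tm c C t₁ t₂ t₁' t₂' θ

/-- blocks are intervals of time -/
def Itvs (blk : T → ℕ) : Prop :=
  Function.Injective tm ∧ ∀ t₁ t₂ t, blk t₁ = blk t₂ → tm t₁ ≤ tm t → tm t ≤ tm t₂ → blk t = blk t₁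

end Model

open Classical in
/-- row Mob: cancellation of the windows without collision -/
def MobStmt : Prop :=
  ∀ (S : Type) [Fintype S] [DecidableEq S] (G : SimpleGraph S) (b : ℕ) (T : Type) [Fintype T]
    [DecidableEq T] (tm : T → ℕ) (c : T → S) (blk : T → ℕ) (J : Type) [DecidableEq J]
    (win : T → Option J) (Js : Finset J) (Ψ : Sg G b × (T → Sg G b) → Prop),
    (∀ z, Ψ z → NoIn blk (Col tm c z)) →
    |∑ B ∈ Js.powerset, (-1 : ℝ) ^ (Js \ B).card * ∑ z with Ψ z, Ew tm c (flg win B) z| ≤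
      ∑ B ∈ Js.powerset, ∑ z : Sg G b × (T → Sg G b) with
        (NoIn blk (Col tm c z) ∧ AllCol win Js (Col tm c z)), Ew tm c (flg win B) z

open Classical in
/-- row Pat: runs whose collisions have large rank are rare -/
def PatStmt : Prop :=
  ∀ (S : Type) [Fintype S] [DecidableEq S] (G : SimpleGraph S) (b : ℕ) (T : Type) [Fintype T]
    [DecidableEq T] (tm : T → ℕ) (c : T → S) (blk : T → ℕ) (fl : T → Prop) (r : ℕ) (ε : ℝ)
    (Ψ : Sg G b × (T → Sg G b) → Prop), Itvs tm blk →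
    (∀ z, Ψ z → NoIn blk (Col tm c z) ∧ ¬ Str tm c blk (2 ^ r) (Col tm c z)) →
    ((Fintype.card T : ℝ) ^ 2 * Fintype.card (Aut G) + 1) / 2 ^ b ≤ ε → ε ≤ 1 / 2 →
    ∑ z with Ψ z, Ew tm c fl z ≤ 2 * Fintype.card (Sg G b) * ε ^ r

open Classical in
/-- row Wt: total mass, collisions inside one reduced word, accidental returns -/
def WtStmt : Prop :=
  ∀ (S : Type) [Fintype S] [DecidableEq S] (G : SimpleGraph S) (b : ℕ) (T : Type) [Fintype T]
    [DecidableEq T] (tm : T → ℕ) (c : T → S) (fl : T → Prop), Function.Injective tm →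
    (∀ (f : Qy G b → Sg G b) (v : Sg G b), ∑ δ : T → Sg G b, wt tm c f fl (v, δ) = 1) ∧
    ((∀ t t', tm t < tm t' → c t = c t' → ∃ u, tm t < tm u ∧ tm u < tm t' ∧ c u ∉ st G (c t)) →
      ∑ z : Sg G b × (T → Sg G b) with ¬ NoIn (fun _ => 0) (Col tm c z), Ew tm c fl z ≤
        Fintype.card (Sg G b) * ((Fintype.card T : ℝ) ^ 2 * Fintype.card (Aut G)) / 2 ^ b) ∧
    ∀ θ : Aut G, Nonempty S → (θ ≠ 1 ∨ ∃ t e, e ∉ st G (c t)) →
      ∑ z : Sg G b × (T → Sg G b) with (NoIn (fun _ => 0) (Col tm c z) ∧ fin c z = tw θ z.1),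
        Ew tm c fl z ≤ Fintype.card (Sg G b) / 2 ^ b

/-- a word with windows -/
structure Dat (S : Type) where
  k : ℕ
  c : ℕ → S
  win : ℕ → Option ℕ
  Js : Finset ℕ

section Data

variable {S : Type} {G : SimpleGraph S} {b : ℕ}

/-- the reversed word -/
def Dat.rev (a : Dat S) : Dat S := ⟨a.k, fun i => a.c (a.k - 1 - i), fun i => a.win (a.k - 1 - i), a.Js⟩

/-- the position after `i` letters -/
noncomputable def ptw (G : SimpleGraph S) (c : ℕ → S) : ℕ → W G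
  | 0 => 1
  | i + 1 => ptw G c i * gen G (c i)

/-- the hyperplane crossed by the letter number `i` -/
noncomputable def hw (G : SimpleGraph S) (c : ℕ → S) (i : ℕ) : Hyp G := hyp (ptw G c i) (c i)

/-- the word is a geodesic for `w` and the windows follow a longest chain -/
structure Valid (R : Hyp G → Hyp G → Prop) (ℓ : ℕ) (a : Dat S) (w : W G) : Prop where
  word : ptw G a.c a.k = w
  geo : d 1 w = a.k
  le : a.k ≤ ℓ
  mem : ∀ i j, i < a.k → a.win i = some j → j ∈ a.Js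
  ls : ∀ j ∈ a.Js, ∃ i₁ i₂, i₁ ≤ i₂ ∧ i₂ < a.k ∧ LSp G (a.c i₁) (a.c i₂) ∧
    ∀ i, i₁ ≤ i → i ≤ i₂ → a.win i = some j
  card : 36 * a.Js.card ≤ ℓ + 36
  chain : ∃ ι : ℕ → ℕ, (∀ n, n < D R 1 w → ι n < a.k) ∧
    (∀ n n', n < n' → n' < D R 1 w → ι n < ι n' ∧ R (hw G a.c (ι n)) (hw G a.c (ι n'))) ∧
    ∀ n, n + 37 < D R 1 w → ∃ j ∈ a.Js, ∀ i, i < a.k → a.win i = some j →
      ι n ≤ i ∧ i ≤ ι (n + 37)

variable [Fintype S] [DecidableEq S]

open Classical in
/-- the truncated signed kernel of a word with windows -/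
noncomputable def At (f : Qy G b → Sg G b) (a : Dat S) (v v' : Sg G b) : ℝ :=
  ∑ B ∈ a.Js.powerset, (-1 : ℝ) ^ (a.Js \ B).card *
    ∑ δ : Fin a.k → Sg G b with (fin (fun i : Fin a.k => a.c i) (v, δ) = v' ∧
      NoIn (fun _ => 0) (Col Fin.val (fun i : Fin a.k => a.c i) (v, δ))),
      wt Fin.val (fun i : Fin a.k => a.c i) f (flg (fun i : Fin a.k => a.win i) B) (v, δ)

open Classical in
/-- the mass removed by the truncation -/
noncomputable def err (f : Qy G b → Sg G b) (a : Dat S) : ℝ :=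
  ∑ B ∈ a.Js.powerset, ∑ z : Sg G b × (Fin a.k → Sg G b) with
    ¬ NoIn (fun _ => 0) (Col Fin.val (fun i : Fin a.k => a.c i) z),
    wt Fin.val (fun i : Fin a.k => a.c i) f (flg (fun i : Fin a.k => a.win i) B) z

omit [Fintype S] [DecidableEq S]

variable {p : ℕ} (a : Fin p → Dat S)

/-- the steps of a tuple of words -/
abbrev Tm : Type := Σ σ : Fin p, Fin (a σ).k

def tmT (ℓ : ℕ) (t : Tm a) : ℕ := t.1 * ℓ + t.2

def cT (t : Tm a) : S := (a t.1).c t.2

def blkT (t : Tm a) : ℕ := t.1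

def winT (t : Tm a) : Option (Fin p × ℕ) := ((a t.1).win t.2).map fun j => (t.1, j)

def JsT : Finset (Fin p × ℕ) := Finset.univ.biUnion fun σ => (a σ).Js.image fun j => (σ, j)

/-- tuples of words that admit a collision structure with few classes -/
def Bad (G : SimpleGraph S) (ℓ n : ℕ) : Prop :=
  ∃ C : Tm a → Tm a → Aut G → Prop, (∀ t t' θ, C t t' θ → θ • cT a t = cT a t') ∧
    (∀ t t' θ, C t t' θ → C t' t θ⁻¹) ∧
    (∀ t t' t'' θ θ', C t t' θ → C t' t'' θ' → C t t'' (θ' * θ)) ∧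
    NoIn (blkT a) C ∧ AllCol (winT a) (JsT a) C ∧ Str (tmT a ℓ) (cT a) (blkT a) n C

end Data

/-- the cyclic sum (trace of a product of kernels) -/
noncomputable def cyc {Z : Type} [Fintype Z] {p : ℕ} (A : Fin p → Z → Z → ℝ) : ℝ :=
  ∑ u : Fin p → Z, ∏ σ, A σ (u σ) (u (finRotate p σ))

/-- row Dat -/
def DatStmt : Prop :=
  ∀ (S : Type) [Nonempty S] (G : SimpleGraph S) (R : Hyp G → Hyp G → Prop) (ℓ : ℕ), Adm R → LS R →
    (∀ w : W G, d 1 w ≤ ℓ → ∃ a : Dat S, Valid R ℓ a w) ∧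
    (∀ (a : Dat S) (w : W G), Valid R ℓ a w → Valid R ℓ a.rev w⁻¹) ∧
    ∀ (c : ℕ → S) (k : ℕ), d 1 (ptw G c k) = k → ∀ i j, i < j → j < k → c i = c j →
      ∃ u, i < u ∧ u < j ∧ c u ∉ st G (c i)

open Classical in
/-- row Ker -/
def KerStmt : Prop :=
  ∀ (S : Type) [Fintype S] [DecidableEq S] (G : SimpleGraph S) (b : ℕ) (f : Qy G b → Sg G b)
    (a : Dat S), (∀ v v', At f a.rev v' v = At f a v v') ∧
    (∀ (R : Hyp G → Hyp G → Prop) (ℓ : ℕ) (w : W G), Valid R ℓ a w →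
      ∀ φ ψ : Sg G b → ℝ, (∀ v, |φ v| ≤ 1) → (∀ v, |ψ v| ≤ 1) → ∑ v, φ v = 0 →
        ∑ v, ψ v * φ (va f v w) ≤ ∑ v, ∑ v', ψ v * At f a v v' * φ v' + err f a) ∧
    ∀ v, ∑ δ : Fin a.k → Sg G b with fin (fun i : Fin a.k => a.c i) (v, δ) = va f v (ptw G a.c a.k),
      wt Fin.val (fun i : Fin a.k => a.c i) f (fun _ => True) (v, δ) = 1

open Classical in
/-- row Tr: the cyclic sum of the kernels of a tuple of words -/
def TrStmt : Prop :=
  ∀ (S : Type) [Fintype S] [DecidableEq S] (G : SimpleGraph S) (b : ℕ) (f : Qy G b → Sg G b)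
    (p ℓ : ℕ) (a : Fin p → Dat S), 0 < p → (∀ σ, (a σ).k ≤ ℓ) → Itvs (tmT a ℓ) (blkT a) ∧
    (JsT a).card = ∑ σ, (a σ).Js.card ∧
    cyc (fun σ => At f (a σ)) = ∑ B ∈ (JsT a).powerset, (-1 : ℝ) ^ (JsT a \ B).card *
      ∑ z : Sg G b × (Tm a → Sg G b) with
        (fin (cT a) z = z.1 ∧ NoIn (blkT a) (Col (tmT a ℓ) (cT a) z)),
        wt (tmT a ℓ) (cT a) f (flg (winT a) B) z

open Classical in
/-- row Lin: linear algebra -/
def LinStmt : Prop :=
  (∀ (Z : Type) [Fintype Z] (C : Z → Z → ℝ) (p : ℕ), (∀ z z', C z z' = C z' z) → 0 < p → Even p →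
    0 ≤ cyc (fun _ : Fin p => C) ∧ ∀ τ : ℝ, 0 ≤ τ → cyc (fun _ : Fin p => C) ≤ τ ^ p →
      ∀ φ : Z → ℝ, ∑ z, ∑ z', φ z * C z z' * φ z' ≤ τ * ∑ z, φ z ^ 2) ∧
  (∀ (Z : Type) [Fintype Z] (T : Fin 5 → Z → Z) (φ : Z → ℝ) (lam : ℝ) (j : ℕ),
    (∀ s z, T s (T s z) = z) → 0 ≤ lam →
    5 * (lam * ∑ z, φ z ^ 2) ≤ ∑ z, ∑ s, φ z * φ (T s z) →
    (5 * lam) ^ 2 ^ j * ∑ z, φ z ^ 2 ≤ ∑ z, ∑ γ : Fin (2 ^ j) → Fin 5,
      φ z * φ (run (fun z s => T s z) z (List.ofFn γ))) ∧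
  ∀ (X V I : Type) [Fintype X] [Fintype V] [Fintype I] (src dst : I → X) (A : I → V → V → ℝ)
    (p : ℕ), cyc (fun (_ : Fin p) (z z' : X × V) =>
      ∑ i with (src i = z.1 ∧ dst i = z'.1), A i z.2 z'.2) =
      ∑ u : Fin p → I with (∀ σ, dst (u σ) = src (u (finRotate p σ))), cyc fun σ => A (u σ)

/-- row Coh: a region without markers is an affine copy of a part of another word -/
def CohStmt : Prop :=
  ∀ (S : Type) (G : SimpleGraph S) (c c' : ℕ → S) (k k' lo hi : ℕ) (θ : Aut G)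
    (M : ℕ → ℕ → Prop), d 1 (ptw G c k) = k → d 1 (ptw G c' k') = k' → hi < k →
    (∀ i i', M i i' → i < k ∧ i' < k' ∧ θ • c i = c' i') →
    (∀ i j i', M i i' → M j i' → i = j) → (∀ i i' j', M i i' → M i j' → i' = j') →
    (∀ i i', lo ≤ i → i ≤ hi → M i i' → ∃ i₁ i₁' i₂ i₂', i₁ < lo ∧ hi < i₂ ∧ M i₁ i₁' ∧ M i₂ i₂' ∧
      c i₁ = c i ∧ c i₂ = c i ∧
      (∀ t, i₁ ≤ t → t < i → c t ∉ st G (c i) → ∃ t', M t t' ∧ min i₁' i' ≤ t' ∧ t' < max i₁' i') ∧
      (∀ t', min i₁' i' ≤ t' → t' < max i₁' i' → c' t' ∉ st G (c' i') →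
        ∃ t, M t t' ∧ i₁ ≤ t ∧ t < i) ∧
      (∀ t, i ≤ t → t < i₂ → c t ∉ st G (c i) → ∃ t', M t t' ∧ min i' i₂' ≤ t' ∧ t' < max i' i₂') ∧
      (∀ t', min i' i₂' ≤ t' → t' < max i' i₂' → c' t' ∉ st G (c' i') →
        ∃ t, M t t' ∧ i ≤ t ∧ t < i₂)) →
    (∃ i i', lo ≤ i ∧ i ≤ hi ∧ M i i') →
    ∀ a₁ a₂ b₁ b₂ t₀ t₃ : ℕ, lo ≤ a₁ → lo ≤ a₂ → b₁ ≤ hi → b₂ ≤ hi → t₀ < k → t₃ < k →
      LSp G (c a₁) (c a₂) → LSp G (c b₁) (c b₂) → a₁ < k → a₂ < k →
      Lt 1 (hw G c a₁) (hw G c t₀) → Lt 1 (hw G c a₂) (hw G c t₀) →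
      Lt 1 (hw G c t₀) (hw G c t₃) →
      Lt 1 (hw G c t₃) (hw G c b₁) → Lt 1 (hw G c t₃) (hw G c b₂) →
      ∃ A : Aff G, ∀ h : Hyp G, Lt 1 (hw G c t₀) h → Lt 1 h (hw G c t₃) →
        ∃ i', i' < k' ∧ A • h = hw G c' i'

section Dec

variable {S : Type} {G : SimpleGraph S} {A Y : Type}

/-- decompositions of a word into short pieces, pieces aimed at a hyperplane predicted by the
reference set `O`, and free pieces; the last argument is the total length of the free pieces -/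
inductive Dec (step : Y → A → Y) (pos : Y → W G) (R : Hyp G → Hyp G → Prop) (u : ℕ)
    (O : Set (Hyp G × Hyp G × Hyp G)) : ℕ → Y → List A → ℕ → Prop
  | base (n : ℕ) (y : Y) (γ : List A) : D R (pos y) (pos (run step y γ)) ≤ u → Dec step pos R u O n y γ 0
  | short (n : ℕ) (y : Y) (γ γ' : List A) (m : ℕ) : D R (pos y) (pos (run step y γ)) ≤ u →
      Dec step pos R u O n (run step y γ) γ' m → Dec step pos R u O (n + 1) y (γ ++ γ') m
  | free (n : ℕ) (y : Y) (γ γ' : List A) (m : ℕ) :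
      Dec step pos R u O n (run step y γ) γ' m → Dec step pos R u O (n + 1) y (γ ++ γ') (m + γ.length)
  | aim (n : ℕ) (y : Y) (γ₁ γ₂ γ' : List A) (m : ℕ) (t₁ t₂ t₃ : Hyp G) (B : Aff G) :
      pos y ∈ car t₁ → D R (pos y) (pos (run step y γ₁)) ≤ u → pos (run step y γ₁) ∈ car t₂ →
      pos (run step y (γ₁ ++ γ₂)) ∈ car t₃ → LSp G t₁.1 t₂.1 → (B • t₁, B • t₂, B • t₃) ∈ O →
      Dec step pos R u O n (run step y (γ₁ ++ γ₂)) γ' m →
      Dec step pos R u O (n + 1) y (γ₁ ++ γ₂ ++ γ') m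

/-- triples of hyperplanes of the words with index in `I` -/
def Refs (G : SimpleGraph S) {p : ℕ} (a : Fin p → Dat S) (I : Set (Fin p)) :
    Set (Hyp G × Hyp G × Hyp G) :=
  {q | ∃ σ ∈ I, ∃ i₁ i₂ i₃, i₁ < (a σ).k ∧ i₂ < (a σ).k ∧ i₃ < (a σ).k ∧
    q = (hw G (a σ).c i₁, hw G (a σ).c i₂, hw G (a σ).c i₃)}

end Dec

/-- row Dec -/
def DecStmt : Prop :=
  ∀ (S : Type) [Finite S] (G : SimpleGraph S) (p n : ℕ), ∃ n₀ u : ℕ,
    ∀ (A Y : Type) (step : Y → A → Y) (pos : Y → W G) (R : Hyp G → Hyp G → Prop) (ℓ : ℕ)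
      (a : Fin p → Dat S) (w : Fin p → W G), Edge step pos → Adm R → LS R →
      (∀ σ, Valid R ℓ (a σ) (w σ)) → Bad a G ℓ n →
      ∀ (σ : Fin p) (y : Y) (γ : List A), w σ = (pos y)⁻¹ * pos (run step y γ) →
        ∃ m m', m + m' ≤ γ.length ∧ Dec step pos R u (Refs G a {τ | τ < σ}) n₀ y γ m ∧
          Dec step pos R u (Refs G a {τ | σ < τ}) n₀ y γ m'

/-- row Cnt -/
def CntStmt : Prop :=
  ∀ (S : Type) [Finite S] (G : SimpleGraph S) (Y : Type) (step : Y → Fin 5 → Y) (pos : Y → W G)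
    (R : Hyp G → Hyp G → Prop) (θ K : ℝ≥0∞) (u : ℕ), Adm R → θ ≠ 0 → θ < 1 → K ≠ ∞ →
    Good step pos R θ (2 / 9) K → ∃ C : ℝ, 0 ≤ C ∧
      ∀ (O : Set (Hyp G × Hyp G × Hyp G)), O.Finite → ∀ (n : ℕ) (y : Y) (ℓ m : ℕ),
        (({γ : Fin ℓ → Fin 5 | Dec step pos R u O n y (List.ofFn γ) m}.ncard : ℕ) : ℝ) ≤
          (C * (O.ncard + 1) * (m + 1)) ^ (n + 1) * 5 ^ ℓ * (9 / 10) ^ ℓ * (10 / 9) ^ m

/-- row Ent -/
def EntStmt : Prop :=
  ∀ (S : Type) [Finite S] (G : SimpleGraph S) (Y : Type) (step : Y → Fin 5 → Y) (pos : Y → W G)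
    (R : Hyp G → Hyp G → Prop) (θ K : ℝ≥0∞) (X : Type) [Finite X] (sec : X → Y) (p n : ℕ),
    Edge step pos → Adm R → LS R → θ ≠ 0 → θ < 1 → K ≠ ∞ → Good step pos R θ (2 / 9) K →
    ∃ (C : ℝ) (e : ℕ), 0 ≤ C ∧ ∀ (ℓ : ℕ) (dd : X × (Fin ℓ → Fin 5) → Dat S),
      (∀ i, Valid R ℓ (dd i) ((pos (sec i.1))⁻¹ * pos (run step (sec i.1) (List.ofFn i.2)))) →
      (({u : Fin p → X × (Fin ℓ → Fin 5) | Bad (fun σ => dd (u σ)) G ℓ n}.ncard : ℕ) : ℝ) ≤
        C * (ℓ + 1) ^ e * (19 / 4) ^ (p * ℓ)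

open Classical in
/-- row Term: the expected cyclic sum of one tuple of words -/
def TermStmt : Prop :=
  ∀ (S : Type) [Fintype S] [DecidableEq S] (G : SimpleGraph S) (b p ℓ r : ℕ) (ε : ℝ)
    (a : Fin p → Dat S), 0 < p → (∀ σ, (a σ).k ≤ ℓ ∧ 36 * (a σ).Js.card ≤ ℓ + 36) →
    (((p * ℓ : ℕ) : ℝ) ^ 2 * Fintype.card (Aut G) + 1) / 2 ^ b ≤ ε → ε ≤ 1 / 2 →
    𝔼 g : Qy G b → Sg G b, cyc (fun σ => At (Fq g) (a σ)) ≤
      2 ^ p * (51 / 50) ^ (p * ℓ) * Fintype.card (Sg G b) *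
        (2 * ε ^ r + if Bad a G ℓ (2 ^ r) then 1 else 0)

/-- the output of the probabilistic part -/
def CoreStmt : Prop :=
  ∀ (S : Type) [Finite S] (G : SimpleGraph S) (Y : Type) (step : Y → Fin 5 → Y) (pos : Y → W G)
    (X : Type) [Fintype X] (π : Y → X) (sx : X → Fin 5 → X) (l : X → Fin 5 → S),
    Function.Surjective π → Nonempty Y → (∀ y s, π (step y s) = sx (π y) s) →
    (∀ y s, pos (step y s) = pos y * gen G (l (π y) s)) → (∀ x s, sx (sx x s) s = x) →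
    (∀ x s, l (sx x s) s = l x s) → GoodLS step pos (2 / 9) → ∀ (η : ℝ) (n : ℕ), 0 < η →
    ∃ (V : Type) (_ : Fintype V) (va : V → W G → V) (tw : Aut G → V → V), 2 ≤ Fintype.card V ∧
      (∀ v, va v 1 = v) ∧ (∀ v w w', va v (w * w') = va (va v w) w') ∧ (∀ v, tw 1 v = v) ∧
      (∀ θ θ' v, tw (θ * θ') v = tw θ (tw θ' v)) ∧
      (∀ θ v w, tw θ (va v w) = va (tw θ v) (θ • w)) ∧
      GapZ (fun s (z : X × V) => (sx z.1 s, va z.2 (gen G (l z.1 s)))) Prod.fst η ∧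
      ∀ (w : W G) (θ : Aut G), d 1 w ≤ n → (w ≠ 1 ∨ θ ≠ 1) →
        (({v | va v w = tw θ v}.ncard : ℕ) : ℝ) ≤ η * Fintype.card V

/-- a finite extension of the visible level -/
def BundleStmt : Prop :=
  ∀ σ : Stg, GoodLS st5 σ.pos (2 / 9) → ∀ (η : ℝ) (n : ℕ), 0 < η →
    ∃ (Z : Type) (_ : Fintype Z) (_ : MulAction Γ5 Z) (pr : Z → Γ5 ⧸ σ.L),
      (∀ (g : Γ5) z, pr (g • z) = g • pr z) ∧ 2 * Nat.card (Γ5 ⧸ σ.L) ≤ Fintype.card Z ∧
      GapZ (fun s (z : Z) => gen G5 s • z) pr η ∧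
      (∀ (z : Z) (y k : Γ5), pr z = y → σ.Ker k → (y * k * y⁻¹) • z = z) ∧
      (({z : Z | ∃ g : Γ5, d 1 g ≤ n ∧ g • z = z ∧
        ¬ σ.Ker ((pr z).out⁻¹ * g * (pr z).out)}.ncard : ℕ) : ℝ) ≤ η * Fintype.card Z

end Pool.Agent.MP_735563_an.H66
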