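import Pool.Agent.MP_735563_an.H66.Aff
import Pool.Agent.MP_c34dea_an.H6.NT
import Pool.Agent.MP_c34dea_an.H23.BStep
import Pool.Agent.MP_c34dea_an.H23.Lim

set_option autoImplicit false

open scoped Pointwise ENNReal
open MeasureTheory

namespace Pool.Agent.MP_735563_an.H66

open Pool.Agent.MP_c34dea_an.H66 Pool.Agent.MP_c34dea_an.H23
open Pool.Agent.MP_c34dea_an.H6 (clS GP labP)

section Good

variable {S : Type} {G : SimpleGraph S} {A Y : Type}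

/-- between related hyperplanes there are two hyperplanes whose labels have disjoint stars -/
def LS (R : Hyp G → Hyp G → Prop) : Prop :=
  ∀ t u, R t u → ∃ t' ∈ Btw t u, ∃ u' ∈ Btw t u, LSp G t'.1 u'.1

/-- the invariant of the construction, with label separation -/
def GoodLS (step : Y → A → Y) (pos : Y → W G) (x : ℝ≥0∞) : Prop :=
  ∃ (R : Hyp G → Hyp G → Prop) (θ K : ℝ≥0∞), Adm R ∧ LS R ∧ θ ≠ 0 ∧ θ < 1 ∧ K ≠ ∞ ∧
    Good step pos R θ x K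

variable {step : Y → A → Y} {pos : Y → W G} {x x' : ℝ≥0∞}

theorem GoodLS.goodAt (h : GoodLS step pos x) : GoodAt step pos x := by
  obtain ⟨R, θ, K, h1, -, h⟩ := h
  exact ⟨R, θ, K, h1, h⟩

theorem GoodLS.mono (h : GoodLS step pos x) (hx : x' ≤ x) : GoodLS step pos x' := by
  obtain ⟨R, θ, K, h1, h2, h3, h4, h5, h6⟩ := h
  exact ⟨R, θ, K, h1, h2, h3, h4, h5, h6.mono hx⟩

theorem GoodLS.comap {Y' : Type} {step' : Y' → A → Y'} {f : Y' → Y} (h : GoodLS step pos x)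
    (hf : ∀ y a, f (step' y a) = step (f y) a) : GoodLS step' (fun y => pos (f y)) x := by
  obtain ⟨R, θ, K, h1, h2, h3, h4, h5, h6⟩ := h
  refine ⟨R, θ, K, h1, h2, h3, h4, h5, fun o y => ?_⟩
  simpa only [run_map hf] using h6 o (f y)

end Good

/-- row Upd: the update lemma for every small enough normal subgroup -/
def UpdStmt : Prop :=
  ∀ (S : Type) [Finite S] (G : SimpleGraph S) (A : Type) [Finite A] (Y : Type) (step : Y → A → Y)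
    (pos : Y → W G) (x x' : ℝ≥0∞) (𝒮 : Set (Set (Hyp G))) (E : Hyp G → Hyp G → Prop),
    Edge step pos → x' < x → GoodAt step pos x →
    (∀ g : W G, ∀ T ∈ 𝒮, g • T ∈ 𝒮) → (∀ T ∈ 𝒮, ∀ t ∈ T, ∀ u ∈ T, Btw t u ⊆ T) →
    (∀ t u, E t u → E u t) → (∀ (g : W G) t u, E t u → E (g • t) (g • u)) →
    (∀ t u t' u', E t u → t' ∈ Btw t u → u' ∈ Btw t u → E t' u') →
    (∀ R, ∃ N : Subgroup (W G), NF N ∧ ∀ t u, Nr R t u → t ≠ u → ¬ Cross t u →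
      ∀ T ∈ 𝒮, ∀ n ∈ N, t ∈ T → n • u ∈ T → E t u) →
    (∃ Θ : ℝ≥0∞, Θ ≠ ∞ ∧ ∀ y, Gr step x y
      (fun y' => ∃ t u, E t u ∧ pos y ∈ car t ∧ pos y' ∈ car u) ≤ Θ) →
    ∃ N₁ : Subgroup (W G), NF N₁ ∧ ∀ N : Subgroup (W G), NF N → N ≤ N₁ →
      GoodLS step (fun y => (labP 𝒮 N).phi (pos y)) x'

/-- row Upd, second theorem: the auxiliary step -/
def BStepStmt : Prop :=
  ∀ (S : Type) [Finite S] (G : SimpleGraph S) (A : Type) [Finite A] (Y : Type) (step : Y → A → Y)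
    (pos : Y → W G) (x x' : ℝ≥0∞), Edge step pos → x' < x → GoodAt step pos x →
    ∃ N₁ : Subgroup (W G), NF N₁ ∧ ∀ N : Subgroup (W G), NF N → N ≤ N₁ →
      GoodLS step (fun y => (labP (Set.range BStep.T2) N).phi (pos y)) x' ∧
      ∀ p q, d ((labP (Set.range BStep.T2) N).phi p) ((labP (Set.range BStep.T2) N).phi q) ≤
        D TB0 p q * Nat.card (Quotient (clS N))

/-- row Eq: affine maps that preserve the family descend to the new level -/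
def EqStmt : Prop :=
  ∀ (S : Type) [Finite S] (G : SimpleGraph S) (𝒮 : Set (Set (Hyp G))) (𝒜 : Subgroup (Aff G)),
    (∀ A ∈ 𝒜, ∀ T ∈ 𝒮, A • T ∈ 𝒮) → ∀ N₁ : Subgroup (W G), NF N₁ →
    ∃ N : Subgroup (W G), NF N ∧ N ≤ N₁ ∧ ∃ Φ : Aff G → Aff (GP 𝒮 N), Φ 1 = 1 ∧
      (∀ A ∈ 𝒜, ∀ B ∈ 𝒜, Φ (A * B) = Φ A * Φ B) ∧
      ∀ A ∈ 𝒜, ∀ p : W G, (labP 𝒮 N).phi (A • p) = Φ A • (labP 𝒮 N).phi p

section Trees

variable {S : Type} {G : SimpleGraph S} {Γ X : Type} [Group Γ] [MulAction Γ X] {r : ℕ}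

/-- the position after reading `w` -/
noncomputable def ptR (δ : Γ → X → W G) (Z : PF r Γ X) (υ : W G × X)
    (w : List (Fin r × Bool)) : W G :=
  υ.1 * δ ((Z.walk w υ.2).getD 1) υ.2

/-- the positions of the component of `υ` -/
def TreeR (δ : Γ → X → W G) (Z : PF r Γ X) (υ : W G × X) : Set (W G) :=
  {α | ∃ w g, Z.walk w υ.2 = some g ∧ α = υ.1 * δ g υ.2}

/-- all reduced walks make progress -/
def ZProgR (δ : Γ → X → W G) (Z : PF r Γ X) (L s g ν : ℕ) : Prop :=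
  ∀ (υ : W G × X) (w : List (Fin r × Bool)), FreeGroup.IsReduced w → (Z.walk w υ.2).isSome →
    Prog (fun i => ptR δ Z υ (w.take i)) w.length L s g ν

/-- two hyperplanes meet a common tree -/
def ETR (δ : Γ → X → W G) (Z : PF r Γ X) (t u : Hyp G) : Prop :=
  ∃ υ, t ∈ WH (TreeR δ Z υ) ∧ u ∈ WH (TreeR δ Z υ)

end Trees

/-- row FT, first theorem -/
def FaithRStmt : Prop :=
  ∀ (r : ℕ) (S : Type) [Finite S] (G : SimpleGraph S) (Γ X : Type) [Group Γ] [MulAction Γ X]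
    [Finite X] (δ : Γ → X → W G) (Z : PF r Γ X) (L s g ν : ℕ), Coc δ → 1 ≤ s → s ≤ g → 4 ≤ ν →
    ZProgR δ Z L s g ν → ∀ R, ∃ N : Subgroup (W G), NF N ∧
      ∀ t u, Nr R t u → t ≠ u → ¬ Cross t u → ∀ υ, ∀ n ∈ N, t ∈ WH (TreeR δ Z υ) →
        n • u ∈ WH (TreeR δ Z υ) → ETR δ Z t u

open Classical in
/-- row FT, second theorem -/
def ThinRStmt : Prop :=
  ∀ (r : ℕ) (S : Type) [Finite S] (G : SimpleGraph S) (Γ X : Type) [Group Γ] [MulAction Γ X]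
    [Finite X] (δ : Γ → X → W G) (Z : PF r Γ X) (L s g ν k : ℕ) (A : Type) [Finite A] (Y : Type)
    (step : Y → A → Y) (pos : Y → W G) (x : ℝ≥0∞), Coc δ → 1 ≤ s → s ≤ g → L + 4 ≤ ν →
    2 * g ≤ k → ZProgR δ Z L s g ν → Edge step pos → GoodAt step pos x →
    (∀ υ : W G × X, ∑' w : List (Fin r × Bool),
      (if w.length = k ∧ FreeGroup.IsReduced w ∧ (Z.walk w υ.2).isSome then
        Fh step pos x (g * L + 1) υ.1 (ptR δ Z υ w) else 0) ≤ 1 / 2) →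
    ∃ Θ : ℝ≥0∞, Θ ≠ ∞ ∧ ∀ y, Gr step x y
      (fun y' => ∃ t u, ETR δ Z t u ∧ pos y ∈ car t ∧ pos y' ∈ car u) ≤ Θ

open Classical in
/-- row Perc -/
def PercRStmt : Prop :=
  ∀ (r : ℕ) (Γ X : Type) [Group Γ] [MulAction Γ X] [Finite X] (P : PF r Γ X) (k : ℕ)
    (c : X → List (Fin r × Bool) → ℝ≥0∞) (Bad : Set X), r = 8192 →
    163839 * Nat.card X ≤ 10 * P.size →
    (∀ x w, c x w ≠ 0 → w ≠ [] ∧ FreeGroup.IsReduced w ∧ w.length ≤ k) →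
    1000000 * Bad.ncard ≤ Nat.card X →
    (∀ x, x ∉ Bad → ∑' w : List (Fin r × Bool),
      (if w ≠ [] ∧ ∃ g, w.length ≤ k ∧ P.walk w x = some g ∧ g • x = x then
        (3 / 20480 : ℝ≥0∞) ^ w.length else 0) ≤ 1 / 12) →
    (∀ x, ∑' w : List (Fin r × Bool),
      (if (P.walk w x).isSome then (3 / 20480 : ℝ≥0∞) ^ w.length * c x w else 0) ≤ 1 / 1000000) →
    ∃ Z : PF r Γ X, Z.Le P ∧ 21 * Nat.card X ≤ 10 * Z.size ∧
      ∀ x, ∑' w : List (Fin r × Bool), (if (Z.walk w x).isSome then c x w else 0) < 1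

/-- row Arb: walks between two points of a sparse labelled graph -/
def ArbStmt : Prop :=
  ∀ (r : ℕ) (Γ X : Type) [Group Γ] [MulAction Γ X] (P : PF r Γ X), r ≤ 8192 →
    (∀ F : Finset X, (P.darts F).ncard ≤ 4 * F.card) → ∀ (a b : X) (n : ℕ),
    {w : List (Fin r × Bool) | w.length = n ∧ ∃ g, P.walk w a = some g ∧ g • a = b}.ncard ≤ 512 ^ n

open Classical in
/-- row Cost -/
def CostRStmt : Prop :=
  ∀ (Λ : Type) [Finite Λ] (S : Type) (G : SimpleGraph S) (S' : Type) [Finite S']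
    (G' : SimpleGraph S') (ψ : W G → W G')
    (A Y : Type) (step : Y → A → Y) (pos : Y → W G) (x : ℝ≥0∞) (V : Type) [Finite V] (κ : Y → V)
    (V' : Type) [Finite V'] (c L ν : ℕ), Nat.card Λ ≤ 16384 →
    (∀ p q, d (ψ p) (ψ q) ≤ D TB0 p q * c) → GoodAt step (fun y => ψ (pos y)) x →
    (∀ ζ ζ' γ, κ ζ = κ ζ' → ψ (pos ζ) = ψ (pos ζ') →
      ψ (pos (run step ζ γ)) = ψ (pos (run step ζ' γ))) →
    ∃ s g k : ℕ, 1 ≤ s ∧ s ≤ g ∧ 2 * g ≤ k ∧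
      ∀ (α : W G) (B : Set (List Λ)) (e : List Λ → W G) (v : List Λ → V'),
        (∀ (n : ℕ) (q : W G') (u : V'),
          {w | w ∈ B ∧ w.length = n ∧ ψ (e w) = q ∧ v w = u}.ncard ≤ 512 ^ n) →
        ∑' w : List Λ, (if w ∈ B then (3 / 20480 : ℝ≥0∞) ^ w.length *
          ((if s ≤ w.length ∧ w.length ≤ g ∧ D TB0 α (e w) < 2 * L + 2 then 1 else 0) +
           (if w.length = g ∧ D TB0 α (e w) < 2 * s * L + ν then 1 else 0) +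
           (if w.length = k then 2 * Fh step pos x (g * L + 1) α (e w) else 0)) else 0) ≤
          1 / 1000000

/-- a stage: the visible group `L` acts by affine maps -/
structure Stg where
  S : Type
  fin : Finite S
  G : SimpleGraph S
  pos : Γ5 → W G
  L : Subgroup Γ5
  fi : L.FiniteIndex
  ρ : Γ5 → Aff G
  one : pos 1 = 1
  edge : ∀ y s, ∃ l, pos (gen G5 s * y) = pos y * gen G l
  mul : ∀ r ∈ L, ∀ y, pos (y * r) = ρ r • pos y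
  anti : ∀ r ∈ L, ∀ r' ∈ L, ρ (r * r') = ρ r' * ρ r

/-- the rank of the tasks -/
def r0 : ℕ := 8192

/-- arboricity of the lift of `P` to the cosets of `K` -/
def ArbK {r : ℕ} {L : Subgroup Γ5} (P : PF r Γ5 (Γ5 ⧸ L)) (K : Subgroup Γ5) : Prop :=
  ∀ F : Finset (Γ5 ⧸ K), Nat.card {p : (Γ5 ⧸ K) × (Fin r × Bool) // p.1 ∈ F ∧
    ∃ g, P.lab ((p.1.out : Γ5) : Γ5 ⧸ L) p.2 = some g ∧ g • p.1 ∈ F} ≤ 4 * F.card

open Classical in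
/-- gap with an additive error for bounded functions with zero sums over the fibres of `pr`;
`T s` are the five moves -/
def GapZ {Z B : Type} [Fintype Z] (T : Fin 5 → Z → Z) (pr : Z → B) (η : ℝ) : Prop :=
  ∀ φ : Z → ℝ, (∀ z, |φ z| ≤ 1) → (∀ a, ∑ z, (if pr z = a then φ z else 0) = 0) →
    ∑ z, ∑ s, φ z * φ (T s z) ≤ 5 * (99 / 100 * ∑ z, φ z ^ 2 + η * Fintype.card Z)

/-- gap of the level `L'` relative to the level `L` -/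
def Gap (L L' : Subgroup Γ5) (η : ℝ) : Prop :=
  ∀ [Fintype (Γ5 ⧸ L')], GapZ (fun s (z : Γ5 ⧸ L') => gen G5 s • z)
    (fun z => ((z.out : Γ5) : Γ5 ⧸ L)) η

namespace Stg

variable (σ : Stg)

def Ker (k : Γ5) : Prop := k ∈ σ.L ∧ σ.ρ k = 1

def Gd (x : ℝ≥0∞) : Prop := GoodAt st5 σ.pos x

def Far {B : Subgroup Γ5} (Q : PF r0 Γ5 (Γ5 ⧸ B)) (R : ℕ) : Prop :=
  ∀ K : Subgroup Γ5, K ≤ σ.L → K.FiniteIndex → ∀ P : PF r0 Γ5 (Γ5 ⧸ K), P.Below Q →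
    163839 * Nat.card (Γ5 ⧸ K) ≤ 10 * P.size →
    ∃ (y : Γ5) (w : List (Fin r0 × Bool)) (g : Γ5), w ≠ [] ∧ FreeGroup.IsReduced w ∧
      w.length ≤ R ∧ P.walk w (y : Γ5 ⧸ K) = some g ∧ σ.Ker (y⁻¹ * g * y)

/-- few points of the level `L'` are fixed by a short element outside the kernel -/
def SInj (L' : Subgroup Γ5) (n : ℕ) (η : ℝ) : Prop :=
  (({z : Γ5 ⧸ L' | ∃ g : Γ5, d 1 g ≤ n ∧ g • z = z ∧ ¬ σ.Ker (z.out⁻¹ * g * z.out)}.ncard : ℕ) : ℝ)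
    ≤ η * Nat.card (Γ5 ⧸ L')

theorem ρ_one : σ.ρ 1 = 1 := by
  have := σ.anti 1 σ.L.one_mem 1 σ.L.one_mem
  rw [mul_one] at this
  exact left_eq_mul.1 this

theorem ρ_inv {r : Γ5} (h : r ∈ σ.L) : σ.ρ r⁻¹ = (σ.ρ r)⁻¹ := by
  have := σ.anti r h r⁻¹ (σ.L.inv_mem h)
  rw [mul_inv_cancel, ρ_one] at this
  exact eq_inv_of_mul_eq_one_left this.symm

theorem ρ_t {r : Γ5} (h : r ∈ σ.L) : (σ.ρ r).t = σ.pos r := by
  have := σ.mul r h 1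
  rw [one_mul, σ.one, aff_one] at this
  exact this.symm

theorem Ker.conj {σ : Stg} {k h : Γ5} (hk : σ.Ker k) (hh : h ∈ σ.L) : σ.Ker (h⁻¹ * k * h) := by
  have h1 := σ.L.mul_mem (σ.L.inv_mem hh) hk.1
  refine ⟨σ.L.mul_mem h1 hh, ?_⟩
  rw [σ.anti _ h1 _ hh, σ.anti _ (σ.L.inv_mem hh) _ hk.1, hk.2, σ.ρ_inv hh]
  simp

/-- the kernel as a subgroup -/
def kerS : Subgroup Γ5 where
  carrier := {k | σ.Ker k}
  one_mem' := ⟨σ.L.one_mem, σ.ρ_one⟩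
  mul_mem' := fun ha hb => ⟨σ.L.mul_mem ha.1 hb.1, by rw [σ.anti _ ha.1 _ hb.1, ha.2, hb.2, mul_one]⟩
  inv_mem' := fun ha => ⟨σ.L.inv_mem ha.1, by rw [σ.ρ_inv ha.1, ha.2, inv_one]⟩

/-- the hidden part of a subgroup `K ≤ L`: the elements that act by translations -/
def hidS (K : Subgroup Γ5) : Subgroup Γ5 where
  carrier := {k | k ∈ K ∧ k ∈ σ.L ∧ (σ.ρ k).θ = 1}
  one_mem' := ⟨K.one_mem, σ.L.one_mem, by rw [σ.ρ_one]; rfl⟩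
  mul_mem' := fun ha hb => ⟨K.mul_mem ha.1 hb.1, σ.L.mul_mem ha.2.1 hb.2.1, by
    rw [σ.anti _ ha.2.1 _ hb.2.1, Aff.mul_θ, ha.2.2, hb.2.2, mul_one]⟩
  inv_mem' := fun ha => ⟨K.inv_mem ha.1, σ.L.inv_mem ha.2.1, by
    rw [σ.ρ_inv ha.2.1, Aff.inv_θ, ha.2.2, inv_one]⟩

theorem hidS_fi (K : Subgroup Γ5) [K.FiniteIndex] : (σ.hidS K).FiniteIndex := by
  have := σ.fin
  have := σ.fi
  have : Finite (Γ5 ⧸ σ.hidS K) := by
    refine Finite.of_injective (fun q => ((q.out : Γ5 ⧸ K), (q.out : Γ5 ⧸ σ.L),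
      (σ.ρ (((q.out : Γ5 ⧸ σ.L).out)⁻¹ * q.out)).θ)) fun q q' e => ?_
    simp only [Prod.mk.injEq] at e
    obtain ⟨e1, e2, e3⟩ := e
    rw [← QuotientGroup.out_eq' q, ← QuotientGroup.out_eq' q', QuotientGroup.eq]
    have h2 := QuotientGroup.eq.1 e2
    refine ⟨QuotientGroup.eq.1 e1, h2, ?_⟩
    have h3 : ((q.out : Γ5 ⧸ σ.L).out)⁻¹ * q.out ∈ σ.L :=
      QuotientGroup.eq.1 (QuotientGroup.out_eq' _)
    have h4 := σ.anti _ h3 _ h2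
    rw [mul_assoc, mul_inv_cancel_left] at h4
    rw [← e2, h4, Aff.mul_θ] at e3
    exact (right_eq_mul.1 e3)
  exact Subgroup.finiteIndex_of_finite_quotient

theorem mul_hid {K : Subgroup Γ5} {h : Γ5} (hh : h ∈ σ.hidS K) (y : Γ5) :
    σ.pos (y * h) = σ.pos h * σ.pos y := by
  rw [σ.mul h hh.2.1, aff_def, hh.2.2, one_smul, σ.ρ_t hh.2.1]

/-- the underlying stage of the hidden group -/
noncomputable def hid : Stage where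
  S := σ.S
  fin := σ.fin
  G := σ.G
  pos := σ.pos
  H := σ.hidS ⊤
  fi := σ.hidS_fi ⊤
  edge := σ.edge
  mul := fun _ hh y => σ.mul_hid hh y

end Stg

/-- the output of the random model -/
def ModelStmt : Prop :=
  ∀ σ : Stg, GoodLS st5 σ.pos (2 / 9) → ∀ (η : ℝ) (n : ℕ), 0 < η →
    ∃ L' : Subgroup Γ5, L' < σ.L ∧ L'.FiniteIndex ∧ (∀ k, σ.Ker k → k ∈ L') ∧ Gap σ.L L' η ∧
      σ.SInj L' n η

/-- row Step -/
def StepRStmt : Prop :=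
  ∀ (σ : Stg) (x x' : ℝ≥0∞) (B : Subgroup Γ5) (Q : PF r0 Γ5 (Γ5 ⧸ B)) (η : ℝ), B.FiniteIndex →
    2 / 9 ≤ x' → x' < x → σ.Gd x → 0 < η →
    ∃ σ' : Stg, σ'.L < σ.L ∧ (∀ k, σ.Ker k → σ'.Ker k) ∧ σ'.Gd x' ∧ Gap σ.L σ'.L η ∧
      ((∃ R, σ'.Far Q R) ∨ ∃ K : Subgroup Γ5, (∀ k ∈ K, ∀ h ∈ σ.L, σ'.Ker (h⁻¹ * k * h)) ∧
        ∀ P : PF r0 Γ5 (Γ5 ⧸ σ.L), P.Below Q → 163839 * Nat.card (Γ5 ⧸ σ.L) ≤ 10 * P.size →
          ¬ ArbK P K)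

/-- the output of the tower -/
def TowerOut : Prop :=
  ∃ H : ℕ → Subgroup Γ5, StrictAnti H ∧ (∀ n, (H n).FiniteIndex) ∧ TowerG H ∧
    ∀ n, Gap (H n) (H (n + 1)) ((1 / 2) ^ n)

/-- sets of medium size have a large boundary at all deep levels -/
def TowerSE (H : ℕ → Subgroup Γ5) : Prop :=
  ∃ (ε : ℝ) (m₀ : ℕ), 0 < ε ∧ ∀ m, m₀ ≤ m → ∀ C : Set (Γ5 ⧸ H m),
    Nat.card (Γ5 ⧸ H m) ≤ 5 * C.ncard → 5 * C.ncard ≤ 4 * Nat.card (Γ5 ⧸ H m) →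
    ε * Nat.card (Γ5 ⧸ H m) ≤
      (({q : (Γ5 ⧸ H m) × Fin 5 | q.1 ∈ C ∧ gen G5 q.2 • q.1 ∉ C}.ncard : ℕ) : ℝ)

/-- row SE -/
def SEStmt : Prop :=
  ∀ (H : ℕ → Subgroup Γ5), Antitone H → (∀ n, (H n).FiniteIndex) →
    (∀ n, Gap (H n) (H (n + 1)) ((1 / 2) ^ n)) → TowerSE H

/-- the final statement -/
def Final : Prop :=
  ∃ (X : Type) (_ : MeasurableSpace X) (_ : StandardBorelSpace X) (μ : Measure X)
    (_ : IsProbabilityMeasure μ) (E : Set (X × X)),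
    (∀ x, μ {x} = 0) ∧ MeasurableSet E ∧ Equivalence (fun x y => (x, y) ∈ E) ∧
    (∀ x, {y | (x, y) ∈ E}.Countable) ∧
    (∀ φ : X ≃ᵐ X, (∀ᵐ x ∂μ, (x, φ x) ∈ E) → MeasurePreserving φ μ μ) ∧
    (∀ B : Set X, MeasurableSet B → (∀ x y, (x, y) ∈ E → x ∈ B → y ∈ B) → μ B = 0 ∨ μ B = 1) ∧
    (∃ (F : Finset (X ≃ᵐ X)) (ε : ℝ), 0 < ε ∧ (∀ φ ∈ F, ∀ x, (x, φ x) ∈ E) ∧
      ∀ ξ : X → ℂ, MemLp ξ 2 μ → ∫ x, ξ x ∂μ = 0 →
        ∃ φ ∈ F, ENNReal.ofReal ε * eLpNorm ξ 2 μ ≤ eLpNorm (fun x => ξ (φ.symm x) - ξ x) 2 μ) ∧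
    ¬ ∃ a : FreeGroup (Fin 2) → X → X, (∀ g, MeasurePreserving (a g) μ μ) ∧
      (∀ᵐ x ∂μ, a 1 x = x) ∧ (∀ g h, ∀ᵐ x ∂μ, a (g * h) x = a g (a h x)) ∧
      (∀ g, g ≠ 1 → ∀ᵐ x ∂μ, a g x ≠ x) ∧ ∀ g, ∀ᵐ x ∂μ, (x, a g x) ∈ E

/-- row Meas -/
def MeasStmt : Prop :=
  ∀ H : ℕ → Subgroup Γ5, StrictAnti H → (∀ n, (H n).FiniteIndex) → TowerG H → TowerSE H → Final

end Pool.Agent.MP_735563_an.H66
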