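import Pool.Agent.MP_735563_an.H66.Spec
import Pool.Agent.MP_c34dea_an.H23.Step
import Pool.Agent.MP_c34dea_an.H23.Cost

set_option autoImplicit false

open scoped Pointwise ENNReal

namespace Pool.Agent.MP_735563_an.H66

open Pool.Agent.MP_c34dea_an.H66 Pool.Agent.MP_c34dea_an.H23
open Pool.Agent.MP_c34dea_an.H6 (clS GP labP clS_eq finite_cl mem_st_GP)
open Pool.Agent.MP_c34dea_an.H23.Step (pull qm_smul pull_big seg walk_le meet meet_size
  meet_le_left meet_le_right)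

namespace StepR

section Gen

variable {Γ X : Type} [Group Γ] [MulAction Γ X] {r : ℕ}

theorem pw {K K' : Subgroup Γ} (h : K' ≤ K) (P : PF r Γ (Γ ⧸ K)) (w : List (Fin r × Bool))
    (y : Γ) : (pull h P).walk w (y : Γ ⧸ K') = P.walk w (y : Γ ⧸ K) := by
  induction w generalizing y with
  | nil => rfl
  | cons l w ih =>
    rw [PF.walk_cons, PF.walk_cons]
    exact congrArg _ (funext fun g => congrArg _ (ih (g * y)))

theorem pw' {K K' : Subgroup Γ} (h : K' ≤ K) (P : PF r Γ (Γ ⧸ K)) (w : List (Fin r × Bool))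
    (b : Γ ⧸ K') : (pull h P).walk w b = P.walk w (b.out : Γ ⧸ K) := by
  rw [← pw h, QuotientGroup.out_eq']

variable {S : Type} {G : SimpleGraph S} {δ : Γ → X → W G} {Z : PF r Γ X}

theorem pt_eq {α : W G} {b : X} {w : List (Fin r × Bool)} {g : Γ} (h : Z.walk w b = some g) :
    ptR δ Z (α, b) w = α * δ g b := by
  simp [ptR, h]

theorem tree_smul (g α : W G) (b : X) : g • TreeR δ Z (α, b) = TreeR δ Z (g * α, b) := by
  ext p
  constructor
  · rintro ⟨_, ⟨w, k, h, rfl⟩, rfl⟩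
    exact ⟨w, k, h, (mul_assoc _ _ _).symm⟩
  · rintro ⟨w, k, h, rfl⟩
    exact ⟨_, ⟨w, k, h, rfl⟩, (mul_assoc _ _ _).symm⟩

theorem zprog (hδ : Coc δ) {L s g ν : ℕ} (hL : ∀ b l a, Z.lab b l = some a → d 1 (δ a b) ≤ L)
    (h1 : ∀ b u a, FreeGroup.IsReduced u → Z.walk u b = some a → s ≤ u.length → u.length ≤ g →
      2 * L + 2 ≤ D TB0 1 (δ a b))
    (h2 : ∀ b u a, FreeGroup.IsReduced u → Z.walk u b = some a → u.length = g →
      2 * s * L + ν ≤ D TB0 1 (δ a b)) : ZProgR δ Z L s g ν := by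
  rintro ⟨α, b⟩ w hr hw
  have key : ∀ i j, i ≤ j → j ≤ w.length → ∃ (u : List (Fin r × Bool)) (b' : X) (k : Γ),
      u.length = j - i ∧ FreeGroup.IsReduced u ∧ Z.walk u b' = some k ∧
      ptR δ Z (α, b) (w.take j) = ptR δ Z (α, b) (w.take i) * δ k b' := by
    intro i j hij hj
    obtain ⟨u, a, k, e1, e2, e3, e4, e5⟩ := seg hw hr hij hj
    exact ⟨u, a • b, k, e1, e2, e4, by rw [pt_eq e3, pt_eq e5, hδ.mul, mul_assoc]⟩
  have hD : ∀ p q : W G, D TB0 p (p * q) = D TB0 1 q := fun p q => by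
    simpa using D_smul adm_tb0 p 1 q
  refine ⟨fun i hi => ?_, fun i j e1 e2 e3 => ?_, fun i e1 => ?_⟩
  · obtain ⟨u, b', k, c1, -, c3, c4⟩ := key i (i + 1) (by omega) hi
    obtain ⟨l, rfl⟩ := List.length_eq_one_iff.1 (by omega : u.length = 1)
    obtain ⟨a, k', d1, d2, rfl⟩ := Z.walk_cons_eq_some.1 c3
    obtain rfl : 1 = k' := Option.some.inj d2
    have := d_smul (ptR δ Z (α, b) (w.take i)) 1 (δ a b')
    rw [mul_one] at this
    rw [c4, one_mul, this]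
    exact hL _ _ _ d1
  · obtain ⟨u, b', k, c1, c2, c3, c4⟩ := key i j (by omega) e3
    rw [c4, hD]
    exact h1 _ _ _ c2 c3 (by omega) (by omega)
  · obtain ⟨u, b', k, c1, c2, c3, c4⟩ := key i (i + g) (by omega) e1
    rw [c4, hD]
    exact h2 _ _ _ c2 c3 (by omega)

end Gen

theorem d_walk {r : ℕ} {X : Type} [MulAction Γ5 X] {P : PF r Γ5 X} {L : ℕ}
    (hL : ∀ b l a, P.lab b l = some a → d 1 a ≤ L) {w : List (Fin r × Bool)} {b : X} {g : Γ5}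
    (hw : P.walk w b = some g) : d 1 g ≤ w.length * L := by
  induction w generalizing b g with
  | nil =>
    obtain rfl : 1 = g := Option.some.inj hw
    simp
  | cons l w ih =>
    obtain ⟨a, k, h1, h2, rfl⟩ := P.walk_cons_eq_some.1 hw
    have e := d_smul k 1 a
    rw [mul_one] at e
    have := d_triangle 1 k (k * a)
    have := ih h2
    have := hL _ _ _ h1
    rw [List.length_cons, add_mul]
    omega

theorem exists_bound {r : ℕ} {B : Subgroup Γ5} (hB : B.FiniteIndex) (Q : PF r Γ5 (Γ5 ⧸ B)) :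
    ∃ L, ∀ b l a, Q.lab b l = some a → d 1 a ≤ L := by
  obtain ⟨L, hL⟩ := (Set.finite_range fun p : (Γ5 ⧸ B) × (Fin r × Bool) =>
    d 1 ((Q.lab p.1 p.2).getD 1)).bddAbove
  exact ⟨L, fun b l a h => by simpa [h] using hL ⟨(b, l), rfl⟩⟩

open Classical in
/-- the expected number of cycles -/
theorem geo {Λ : Type} [Finite Λ] (C : List Λ → Prop) (h0 : ∀ w, C w → w ≠ [])
    (h : ∀ n, {w | w.length = n ∧ C w}.ncard ≤ 512 ^ n) :
    ∑' w, (if C w then (3 / 20480 : ℝ≥0∞) ^ w.length else 0) ≤ 1 / 12 := by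
  have e : (3 / 40 : ℝ≥0∞) = 3 / 20480 * 512 := by
    rw [← ENNReal.toReal_eq_toReal_iff' (by finiteness) (by finiteness)]
    norm_num
  rw [Cost.tsum_len]
  refine le_trans (ENNReal.tsum_le_tsum fun n => ?_) ((Cost.tail_le (3 / 40) 1).trans ?_)
  · have hf : {w | w.length = n ∧ C w}.Finite := (List.finite_length_eq Λ n).subset fun _ h => h.1
    have h1 := Cost.tsum_ind_le (fun w : List Λ => w.length = n ∧ C w) id hf.toFinset
      (fun w hw => hf.mem_toFinset.2 hw) fun _ _ _ _ e => e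
    rw [← Set.ncard_eq_toFinset_card _ hf] at h1
    split_ifs with c
    · calc _ = ∑' w, (3 / 20480 : ℝ≥0∞) ^ n * (if w.length = n ∧ C w then 1 else 0) :=
            tsum_congr fun w => by
              by_cases c1 : w.length = n <;> by_cases c2 : C w <;> simp [c1, c2]
        _ ≤ (3 / 20480 : ℝ≥0∞) ^ n * 512 ^ n := by
            rw [ENNReal.tsum_mul_left]
            exact mul_le_mul_right (h1.trans (by exact_mod_cast h n)) _
        _ = _ := by rw [e, mul_pow]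
    · refine le_of_eq (ENNReal.tsum_eq_zero.2 fun w => ?_)
      split_ifs with c1 c2
      · exact absurd (List.length_eq_zero_iff.1 (by omega)) (h0 w c2)
      · rfl
      · rfl
  · have e1 : (1 - 3 / 40 : ℝ≥0∞) = 37 / 40 := by
      refine ENNReal.sub_eq_of_eq_add (by finiteness) ?_
      rw [← ENNReal.toReal_eq_toReal_iff' (by finiteness) (by finiteness),
        ENNReal.toReal_add (by finiteness) (by finiteness)]
      norm_num
    rw [e1, ← ENNReal.toReal_le_toReal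
      (ENNReal.mul_ne_top (by finiteness) (ENNReal.inv_ne_top.2 (by simp))) (by finiteness)]
    norm_num

theorem gap_mono {L L' : Subgroup Γ5} {η η' : ℝ} (h : Gap L L' η) (hη : η ≤ η') : Gap L L' η' :=
  fun φ h1 h2 => (h φ h1 h2).trans (by gcongr)

variable (σ : Stg)

theorem d_pos (y g : Γ5) : d (σ.pos y) (σ.pos (g * y)) ≤ d 1 g := Step.d_pos σ.hid y g

/-- hidden elements that do not move a position are in the kernel -/
theorem ker_of_hid {y y' : Γ5} (h : y⁻¹ * y' ∈ σ.hidS ⊤) (e : σ.pos y = σ.pos y') :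
    σ.Ker (y⁻¹ * y') := by
  have h1 := σ.mul_hid h y
  rw [mul_inv_cancel_left, ← e, right_eq_mul] at h1
  refine ⟨h.2.1, ?_⟩
  rw [eq_tr h.2.2, σ.ρ_t h.2.1, h1]
  rfl

/-- few walks between two cosets of the kernel -/
theorem cnt (hA : ArbStmt) {L : Subgroup Γ5} (hL : σ.L ≤ L) {P : PF r0 Γ5 (Γ5 ⧸ L)}
    (h : ArbK P σ.kerS) (y y' : Γ5) (n : ℕ) :
    {w : List (Fin r0 × Bool) | w.length = n ∧
      ∃ g, P.walk w (y : Γ5 ⧸ L) = some g ∧ σ.Ker (y'⁻¹ * (g * y))}.ncard ≤ 512 ^ n := by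
  have hle : σ.kerS ≤ L := fun k hk => hL hk.1
  refine le_trans (le_of_eq ?_) (hA r0 Γ5 (Γ5 ⧸ σ.kerS) (pull hle P) le_rfl (fun F => ?_) y y' n)
  · congr 1
    ext w
    simp only [Set.mem_ofPred_eq, pw]
    refine and_congr_right fun _ => exists_congr fun g => and_congr_right fun _ => ?_
    rw [eq_comm]
    exact (QuotientGroup.eq (s := σ.kerS) (a := y') (b := g * y)).symm
  · refine le_trans (le_of_eq ?_) (h F)
    rw [← Nat.card_coe_set_eq]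
    refine Nat.card_congr (Equiv.subtypeEquivRight fun p => ?_)
    have : (pull hle P).lab p.1 p.2 = P.lab (p.1.out : Γ5 ⧸ L) p.2 := by
      conv_lhs => rw [← QuotientGroup.out_eq' p.1]
      rfl
    simp only [PF.darts, Set.mem_ofPred_eq, this]

/-- a large part with bounded components gives short closed walks -/
theorem far {B : Subgroup Γ5} (Q : PF r0 Γ5 (Γ5 ⧸ B)) (Z : PF r0 Γ5 (Γ5 ⧸ σ.L))
    (hZ : Z.Below Q) (hs : 21 * Nat.card (Γ5 ⧸ σ.L) ≤ 10 * Z.size) (M : ℕ)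
    (hc : ∀ (y : Γ5) w a, Z.walk w (y : Γ5 ⧸ σ.L) = some a →
      d (σ.pos y) (σ.pos (a * y)) ≤ M) : ∃ R, σ.Far Q R := by
  have := σ.fin
  have := σ.fi
  have hfi := σ.hidS_fi ⊤
  have hball := (ball_finite (1 : W σ.G) M).to_subtype
  refine ⟨Nat.card ({q | d (1 : W σ.G) q ≤ M} × (Γ5 ⧸ σ.hidS ⊤)), fun K' hle _ P hP hP' => ?_⟩
  set R := Nat.card ({q | d (1 : W σ.G) q ≤ M} × (Γ5 ⧸ σ.hidS ⊤)) with hR
  have := Fintype.ofFinite (Γ5 ⧸ K')
  have h1 := pull_big hle Z hs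
  have h2 := meet_size P (pull hle Z) fun b l g g' e e' => by
    induction b using QuotientGroup.induction_on with
    | H y => exact Option.some.inj ((hP y l g e).symm.trans (hZ y l g' e'))
  obtain ⟨b, -, w, g, hw, hr, hg⟩ := (meet P (pull hle Z)).exists_long_walk Finset.univ
    Finset.univ_nonempty (by
      have e : r0 * 2 = 16384 := rfl
      rw [e] at h2
      rw [PF.darts_univ, Finset.card_univ, ← Nat.card_eq_fintype_card]; omega) R
  induction b using QuotientGroup.induction_on with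
  | H y =>
  have hsome : ((meet P (pull hle Z)).walk w (y : Γ5 ⧸ K')).isSome := by simp [hg]
  have ha : ∀ i : Fin (R + 1), ∃ a, (meet P (pull hle Z)).walk (w.take i) (y : Γ5 ⧸ K') = some a :=
    fun i => by
      obtain ⟨-, a, -, -, -, e, -⟩ := seg hsome hr (le_refl (i : ℕ)) (by omega)
      exact ⟨a, e⟩
  choose a ha using ha
  have hd : ∀ i, d 1 ((σ.pos y)⁻¹ * σ.pos (a i * y)) ≤ M := fun i => by
    rw [← d_smul (σ.pos y), mul_one, mul_inv_cancel_left]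
    exact hc y _ _ (pw hle Z _ y ▸ walk_le (meet_le_right _ _) (ha i))
  let f : Fin (R + 1) → {q | d (1 : W σ.G) q ≤ M} × (Γ5 ⧸ σ.hidS ⊤) :=
    fun i => (⟨_, hd i⟩, (a i * y : Γ5))
  have hf : ¬ Function.Injective f := fun h => by
    have := Nat.card_le_card_of_injective f h
    rw [Nat.card_fin] at this
    omega
  obtain ⟨i, j, e, hij⟩ : ∃ i j, f i = f j ∧ i < j := by
    simp only [Function.Injective, not_forall] at hf
    obtain ⟨i, j, e, hne⟩ := hf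
    rcases lt_or_gt_of_ne hne with h | h
    · exact ⟨i, j, e, h⟩
    · exact ⟨j, i, e.symm, h⟩
  obtain ⟨u, a', k, e1, e2, e3, e4, e5⟩ := seg hsome hr hij.le (by omega : (j : ℕ) ≤ w.length)
  obtain rfl : a i = a' := Option.some.inj ((ha i).symm.trans e3)
  have e6 : a j = k * a i := Option.some.inj ((ha j).symm.trans e5)
  have hij' : (i : ℕ) < j := hij
  obtain ⟨c1, c2⟩ := Prod.ext_iff.1 e
  have c3 := ker_of_hid σ (QuotientGroup.eq.1 c2) (mul_left_cancel (congrArg Subtype.val c1))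
  rw [e6, mul_assoc k, ← mul_assoc] at c3
  exact ⟨a i * y, u, k, fun h => by simp [h] at e1; omega, e2, by omega,
    walk_le (meet_le_left _ _) e4, c3⟩

/-- the stage defined by a labelling -/
noncomputable def nw (L : Subgroup Γ5) (hL : L.FiniteIndex) {S' : Type} (hS : Finite S')
    {G' : SimpleGraph S'} (f : Lab σ.G G') (ρ : Γ5 → Aff G')
    (h1 : ∀ r ∈ L, ∀ y, f.phi (σ.pos (y * r)) = ρ r • f.phi (σ.pos y))
    (h2 : ∀ r ∈ L, ∀ r' ∈ L, ρ (r * r') = ρ r' * ρ r) : Stg where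
  S := S'
  fin := hS
  G := G'
  pos y := f.phi (σ.pos y)
  L := L
  fi := hL
  ρ := ρ
  one := by rw [σ.one, f.phi_one]
  edge y s := by
    obtain ⟨l, hl⟩ := σ.edge y s
    exact ⟨_, by rw [hl, f.phi_mul_gen]⟩
  mul := h1
  anti := h2

theorem exists_rho (hE : EqStmt) {L : Subgroup Γ5} (hL : L ≤ σ.L) (𝒮 : Set (Set (Hyp σ.G)))
    (h : ∀ r ∈ L, ∀ T ∈ 𝒮, σ.ρ r • T ∈ 𝒮) {N₁ : Subgroup (W σ.G)} (hN : NF N₁) :
    ∃ N : Subgroup (W σ.G), NF N ∧ N ≤ N₁ ∧ ∃ ρ : Γ5 → Aff (GP 𝒮 N),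
      (∀ r ∈ L, ∀ y, (labP 𝒮 N).phi (σ.pos (y * r)) = ρ r • (labP 𝒮 N).phi (σ.pos y)) ∧
      (∀ r ∈ L, ∀ r' ∈ L, ρ (r * r') = ρ r' * ρ r) ∧ ∀ r, σ.ρ r = 1 → ρ r = 1 := by
  have := σ.fin
  let 𝒜 : Subgroup (Aff σ.G) :=
    { carrier := {A | ∃ r ∈ L, σ.ρ r = A}
      one_mem' := ⟨1, L.one_mem, σ.ρ_one⟩
      mul_mem' := by
        rintro _ _ ⟨a, ha, rfl⟩ ⟨b, hb, rfl⟩
        exact ⟨b * a, L.mul_mem hb ha, σ.anti _ (hL hb) _ (hL ha)⟩
      inv_mem' := by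
        rintro _ ⟨a, ha, rfl⟩
        exact ⟨a⁻¹, L.inv_mem ha, σ.ρ_inv (hL ha)⟩ }
  obtain ⟨N, h1, h2, Φ, h3, h4, h5⟩ := hE σ.S σ.G 𝒮 𝒜 (by rintro _ ⟨r, hr, rfl⟩; exact h r hr) N₁ hN
  refine ⟨N, h1, h2, fun r => Φ (σ.ρ r), fun r hr y => ?_, fun r hr r' hr' => ?_, fun r e => ?_⟩
  · rw [σ.mul r (hL hr), h5 _ ⟨r, hr, rfl⟩]
  · simp only [σ.anti r (hL hr) r' (hL hr'), h4 _ ⟨r', hr', rfl⟩ _ ⟨r, hr, rfl⟩]
  · simp only [e, h3]

theorem aff_T2 {S : Type} {G : SimpleGraph S} (A : Aff G) (K : Hyp G) :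
    A • BStep.T2 K = BStep.T2 (A • K) := by
  ext r
  rw [Set.mem_smul_set_iff_inv_smul_mem]
  refine not_congr ?_
  rw [← aff_tb0 A, smul_inv_smul]

/-- steps of the system of translates -/
noncomputable abbrev sY : W σ.G × Γ5 → Fin 5 → W σ.G × Γ5 := fun z a => (z.1, st5 z.2 a)

/-- positions of the system of translates -/
noncomputable abbrev pY : W σ.G × Γ5 → W σ.G := fun z => z.1 * σ.pos z.2

theorem edgeY : Edge (sY σ) (pY σ) := Step.edgeY σ.hid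

theorem runY (γ : List (Fin 5)) : ∃ g : Γ5, ∀ c y, run (sY σ) (c, y) γ = (c, g * y) :=
  Step.runY σ.hid γ

theorem Fh_le (x : ℝ≥0∞) (u : ℕ) (c α β : W σ.G) :
    Fh (sY σ) (pY σ) x u α β ≤ Fh (sY σ) (pY σ) x u (c * α) (c * β) := Step.Fh_le σ.hid x u c α β

theorem Fh_aff (x : ℝ≥0∞) (u : ℕ) {r : Γ5} (hr : r ∈ σ.L) (α β : W σ.G) :
    Fh (sY σ) (pY σ) x u α β ≤ Fh (sY σ) (pY σ) x u (σ.ρ r • α) (σ.ρ r • β) := by
  have e : ∀ c y, (σ.ρ r).t * (σ.ρ r).θ • c * (σ.ρ r).t⁻¹ * σ.pos (y * r) =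
      σ.ρ r • (c * σ.pos y) := fun c y => by
    rw [σ.mul r hr, aff_def, aff_def, smul_mul']
    group
  refine iSup₂_le fun ζ hζ => le_iSup₂_of_le
    ((σ.ρ r).t * (σ.ρ r).θ • ζ.1 * (σ.ρ r).t⁻¹, ζ.2 * r) ?_ (le_of_eq ?_)
  · simpa only [pY, e, aff_D_tb0] using hζ
  · unfold Gr
    refine tsum_congr fun γ => ?_
    obtain ⟨g, hg⟩ := runY σ γ
    rw [hg ζ.1 ζ.2, hg]
    simp only [pY, ← mul_assoc g, e, aff_D_tb0]
    congr

theorem gd_of {S' : Type} {G' : SimpleGraph S'} {f : W σ.G → W G'} {x : ℝ≥0∞}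
    (h : GoodLS (sY σ) (fun z => f (pY σ z)) x) : GoodLS st5 (fun y => f (σ.pos y)) x := by
  simpa only [pY, one_mul] using h.comap (step' := st5) (f := fun y => (1, y)) fun _ _ => rfl

/-- the cocycle on a coset space -/
noncomputable def dl (K : Subgroup Γ5) (g : Γ5) (b : Γ5 ⧸ K) : W σ.G :=
  (σ.pos b.out)⁻¹ * σ.pos (g * b.out)

theorem hid_le (K : Subgroup Γ5) : σ.hidS K ≤ σ.hidS ⊤ := fun _ h => ⟨trivial, h.2⟩

theorem dl_mk (K : Subgroup Γ5) (g y : Γ5) :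
    dl σ (σ.hidS K) g y = (σ.pos y)⁻¹ * σ.pos (g * y) := Step.dl_mk σ.hid (hid_le σ K) g y

theorem dl_coc (K : Subgroup Γ5) : Coc (dl σ (σ.hidS K)) := Step.dl_coc σ.hid (hid_le σ K)

theorem d_dl (K : Subgroup Γ5) (g : Γ5) (b : Γ5 ⧸ K) : d 1 (dl σ K g b) ≤ d 1 g :=
  Step.d_dl σ.hid K g b

theorem kappa {N : Subgroup (W σ.G)} (hN : NF N) (𝒮 : Set (Set (Hyp σ.G))) :
    ∀ (ζ ζ' : W σ.G × Γ5) (γ : List (Fin 5)),
      ((pY σ ζ : W σ.G ⧸ N), (ζ.2 : Γ5 ⧸ σ.hidS ⊤)) =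
        ((pY σ ζ' : W σ.G ⧸ N), (ζ'.2 : Γ5 ⧸ σ.hidS ⊤)) →
      (labP 𝒮 N).phi (pY σ ζ) = (labP 𝒮 N).phi (pY σ ζ') →
      (labP 𝒮 N).phi (pY σ (run (sY σ) ζ γ)) = (labP 𝒮 N).phi (pY σ (run (sY σ) ζ' γ)) :=
  Step.kappa σ.hid hN (labP 𝒮 N) fun n hn _ => (clS_eq.2 ⟨n, hn, rfl⟩).symm

variable {σ} {L : Subgroup Γ5} {r : ℕ}

theorem hid_le' (L : Subgroup Γ5) : σ.hidS L ≤ L := fun _ h => h.1

theorem mem_tree (Z : PF r Γ5 (Γ5 ⧸ L)) (α p : W σ.G) (y : Γ5) :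
    p ∈ TreeR (dl σ (σ.hidS L)) (pull (hid_le' L) Z) (α, y) ↔
      ∃ w g, Z.walk w (y : Γ5 ⧸ L) = some g ∧ p = α * ((σ.pos y)⁻¹ * σ.pos (g * y)) := by
  simp only [TreeR, Set.mem_ofPred_eq, pw, dl_mk]

theorem aff_tree (hL : L ≤ σ.L) (Z : PF r Γ5 (Γ5 ⧸ L)) {k : Γ5} (hk : k ∈ L) (α : W σ.G) (y : Γ5) :
    σ.ρ k • TreeR (dl σ (σ.hidS L)) (pull (hid_le' L) Z) (α, y) =
      TreeR (dl σ (σ.hidS L)) (pull (hid_le' L) Z) (σ.ρ k • α, (y * k : Γ5)) := by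
  have e : ∀ g, σ.ρ k • (α * ((σ.pos y)⁻¹ * σ.pos (g * y))) =
      σ.ρ k • α * ((σ.pos (y * k))⁻¹ * σ.pos (g * (y * k))) := fun g => by
    rw [← mul_assoc g, σ.mul k (hL hk), σ.mul k (hL hk), aff_inv_mul, aff_mul]
  ext p
  simp only [Set.mem_smul_set, mem_tree, QuotientGroup.mk_mul_of_mem y hk, ← e]
  constructor
  · rintro ⟨_, ⟨w, g, h, rfl⟩, rfl⟩
    exact ⟨w, g, h, rfl⟩
  · rintro ⟨w, g, h, rfl⟩
    exact ⟨_, ⟨w, g, h, rfl⟩, rfl⟩

end StepR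

end Pool.Agent.MP_735563_an.H66
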